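import Mathlib

open Complex Metric Set Filter Topology

namespace Pool.Agent.TH242.AC

/-- Coefficients `(1-β)_n/(1+β)_n`. -/
noncomputable def hc (β : ℝ) : ℕ → ℝ
  | 0 => 1
  | (n + 1) => hc β n * (((n : ℝ) + 1) - β) / (((n : ℝ) + 1) + β)

lemma hc_zero (β : ℝ) : hc β 0 = 1 := rfl

lemma hc_succ (β : ℝ) (n : ℕ) :
    hc β (n + 1) = hc β n * (((n : ℝ) + 1) - β) / (((n : ℝ) + 1) + β) := rfl

lemma hc_rec {β : ℝ} (hβ : 1 < β) (n : ℕ) :
    (((n : ℝ) + 1) + β) * hc β (n + 1) = (((n : ℝ) + 1) - β) * hc β n := by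
  rw [hc_succ]
  have : ((n : ℝ) + 1) + β ≠ 0 := by positivity
  field_simp

lemma summable_hc {β : ℝ} (hβ : 1 < β) :
    Summable (fun n : ℕ => (2 * (n : ℝ) + 1) * |hc β n|) := by
  obtain ⟨N, hN⟩ := exists_nat_ge β
  rw [← summable_nat_add_iff N]
  set e : ℕ → ℝ := fun n => (n : ℝ) * (n + β) * |hc β n| with he
  have hstep : ∀ n : ℕ, β ≤ (n : ℝ) + 1 →
      (β - 1) * ((2 * (n : ℝ) + 1) * |hc β n|) = e n - e (n + 1) := by
    intro n hn
    have h1 := hc_rec hβ n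
    have h2 : (((n : ℝ) + 1) + β) * |hc β (n + 1)| = (((n : ℝ) + 1) - β) * |hc β n| := by
      have h3 : |(((n : ℝ) + 1) + β) * hc β (n + 1)| = |(((n : ℝ) + 1) - β) * hc β n| := by
        rw [h1]
      have p1 : |((n : ℝ) + 1) + β| = ((n : ℝ) + 1) + β := abs_of_pos (by positivity)
      have p2 : |((n : ℝ) + 1) - β| = ((n : ℝ) + 1) - β := abs_of_nonneg (by linarith)
      rw [abs_mul, abs_mul, p1, p2] at h3
      exact h3
    simp only [he]
    push_cast
    have h4 : ((n : ℝ) + 1) * ((n : ℝ) + 1 + β) * |hc β (n + 1)| =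
        ((n : ℝ) + 1) * ((((n : ℝ) + 1) - β) * |hc β n|) := by
      rw [← h2]; ring
    rw [h4]
    ring
  have hsum : ∀ M : ℕ, ∑ n ∈ Finset.range M,
      (2 * ((n + N : ℕ) : ℝ) + 1) * |hc β (n + N)| ≤ e N / (β - 1) := by
    intro M
    have h1 : ∀ M : ℕ, (β - 1) * ∑ n ∈ Finset.range M,
        (2 * ((n + N : ℕ) : ℝ) + 1) * |hc β (n + N)| = e N - e (M + N) := by
      intro M
      induction M with
      | zero => simp
      | succ k ih =>
        rw [Finset.sum_range_succ, mul_add, ih, hstep (k + N)]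
        · have : k + 1 + N = k + N + 1 := by ring
          rw [this]; ring
        · push_cast
          have : (0:ℝ) ≤ k := Nat.cast_nonneg k
          linarith
    have h2 := h1 M
    rw [le_div_iff₀ (by linarith), mul_comm, h2]
    have : 0 ≤ e (M + N) := by simp only [he]; positivity
    linarith
  exact summable_of_sum_range_le (fun n => by positivity) hsum

lemma summable_nhc {β : ℝ} (hβ : 1 < β) :
    Summable (fun n : ℕ => (n : ℝ) * |hc β n|) := by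
  refine Summable.of_nonneg_of_le (fun n => by positivity) (fun n => ?_) (summable_hc hβ)
  have : 0 ≤ |hc β n| := abs_nonneg _
  have hn : (0:ℝ) ≤ n := Nat.cast_nonneg n
  nlinarith

lemma summable_abs_hc {β : ℝ} (hβ : 1 < β) :
    Summable (fun n : ℕ => |hc β n|) := by
  refine Summable.of_nonneg_of_le (fun n => by positivity) (fun n => ?_) (summable_hc hβ)
  have : 0 ≤ |hc β n| := abs_nonneg _
  have hn : (0:ℝ) ≤ n := Nat.cast_nonneg n
  nlinarith

/-- The hypergeometric factor. -/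
noncomputable def Hf (β : ℝ) (z : ℂ) : ℂ := ∑' n : ℕ, (hc β n : ℂ) * z ^ n

/-- Its derivative. -/
noncomputable def Hf1 (β : ℝ) (z : ℂ) : ℂ := ∑' n : ℕ, (hc β n : ℂ) * ((n : ℂ) * z ^ (n - 1))

/-- The function `R = 1/P`. -/
noncomputable def Rf (β : ℝ) (z : ℂ) : ℂ := (1 - z) * Hf β z

/-- `z R'(z)`. -/
noncomputable def DR (β : ℝ) (z : ℂ) : ℂ := (β : ℂ) * (1 - (1 + z) * Hf β z)

lemma summable_H {β : ℝ} (hβ : 1 < β) {z : ℂ} (hz : ‖z‖ ≤ 1) :
    Summable (fun n : ℕ => (hc β n : ℂ) * z ^ n) := by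
  refine Summable.of_norm_bounded (summable_abs_hc hβ) (fun n => ?_)
  rw [norm_mul, Complex.norm_real, Real.norm_eq_abs, norm_pow]
  have : ‖z‖ ^ n ≤ 1 := pow_le_one₀ (norm_nonneg _) hz
  nlinarith [abs_nonneg (hc β n)]

lemma summable_H1 {β : ℝ} (hβ : 1 < β) {z : ℂ} (hz : ‖z‖ ≤ 1) :
    Summable (fun n : ℕ => (hc β n : ℂ) * ((n : ℂ) * z ^ (n - 1))) := by
  refine Summable.of_norm_bounded (summable_nhc hβ) (fun n => ?_)
  rw [norm_mul, Complex.norm_real, Real.norm_eq_abs, norm_mul, norm_pow, Complex.norm_natCast]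
  have h1 : ‖z‖ ^ (n - 1) ≤ 1 := pow_le_one₀ (norm_nonneg _) hz
  have h2 : 0 ≤ |hc β n| := abs_nonneg _
  have h3 : (0:ℝ) ≤ n := Nat.cast_nonneg n
  calc |hc β n| * ((n : ℝ) * ‖z‖ ^ (n - 1)) ≤ |hc β n| * ((n : ℝ) * 1) := by gcongr
    _ = (n : ℝ) * |hc β n| := by ring

lemma norm_pow_sub_pow_le {z w : ℂ} (hz : ‖z‖ ≤ 1) (hw : ‖w‖ ≤ 1) (n : ℕ) :
    ‖w ^ n - z ^ n‖ ≤ n * ‖w - z‖ := by
  induction n with
  | zero => simp
  | succ k ih =>
    have h1 : w ^ (k + 1) - z ^ (k + 1) = w * (w ^ k - z ^ k) + (w - z) * z ^ k := by ring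
    rw [h1]
    calc ‖w * (w ^ k - z ^ k) + (w - z) * z ^ k‖
        ≤ ‖w‖ * ‖w ^ k - z ^ k‖ + ‖w - z‖ * ‖z‖ ^ k := by
          refine (norm_add_le _ _).trans ?_
          rw [norm_mul, norm_mul, norm_pow]
      _ ≤ 1 * (k * ‖w - z‖) + ‖w - z‖ * 1 := by
          have : ‖z‖ ^ k ≤ 1 := pow_le_one₀ (norm_nonneg _) hz
          gcongr
      _ = ((k + 1 : ℕ) : ℝ) * ‖w - z‖ := by push_cast; ring

lemma Hf_hasDerivWithinAt {β : ℝ} (hβ : 1 < β) {z : ℂ} (hz : ‖z‖ ≤ 1) :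
    HasDerivWithinAt (Hf β) (Hf1 β z) (closedBall 0 1) z := by
  rw [hasDerivWithinAt_iff_tendsto_slope]
  have hev : ∀ᶠ w in 𝓝[closedBall (0:ℂ) 1 \ {z}] z,
      ∑' n : ℕ, (hc β n : ℂ) * ((w ^ n - z ^ n) / (w - z)) = slope (Hf β) z w := by
    filter_upwards [self_mem_nhdsWithin] with w hw
    have hw1 : ‖w‖ ≤ 1 := by simpa using hw.1
    have hwz : w - z ≠ 0 := sub_ne_zero.mpr hw.2
    rw [slope_def_field, Hf, Hf, ← (summable_H hβ hw1).tsum_sub (summable_H hβ hz),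
      ← tsum_div_const]
    congr 1
    funext n
    ring
  refine Tendsto.congr' hev ?_
  rw [Hf1]
  refine tendsto_tsum_of_dominated_convergence (summable_nhc hβ) ?_ ?_
  · intro n
    apply Tendsto.const_mul
    have h1 : HasDerivAt (fun w : ℂ => w ^ n) ((n : ℂ) * z ^ (n - 1)) z := by
      simpa using hasDerivAt_pow n z
    have h2 := (hasDerivAt_iff_tendsto_slope.mp h1).mono_left
      (nhdsWithin_mono z (fun w (hw : w ∈ closedBall (0:ℂ) 1 \ {z}) => hw.2))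
    refine h2.congr (fun w => ?_)
    rw [slope_def_field]
  · filter_upwards [self_mem_nhdsWithin] with w hw n
    have hw1 : ‖w‖ ≤ 1 := by simpa using hw.1
    have hwz : w - z ≠ 0 := sub_ne_zero.mpr hw.2
    rw [norm_mul, Complex.norm_real, Real.norm_eq_abs, norm_div]
    have h1 := norm_pow_sub_pow_le hz hw1 n
    have h2 : ‖w ^ n - z ^ n‖ / ‖w - z‖ ≤ n := by
      rw [div_le_iff₀ (norm_pos_iff.mpr hwz)]
      exact h1
    have h3 : 0 ≤ |hc β n| := abs_nonneg _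
    calc |hc β n| * (‖w ^ n - z ^ n‖ / ‖w - z‖) ≤ |hc β n| * n := by gcongr
      _ = (n : ℝ) * |hc β n| := by ring

lemma Hf_continuousOn {β : ℝ} (hβ : 1 < β) : ContinuousOn (Hf β) (closedBall 0 1) :=
  fun z hz => (Hf_hasDerivWithinAt hβ (by simpa using hz)).continuousWithinAt

lemma Hf_ode {β : ℝ} (hβ : 1 < β) {z : ℂ} (hz : ‖z‖ ≤ 1) :
    (1 - z) * (z * Hf1 β z) + ((β : ℂ) * (1 + z) - z) * Hf β z = β := by
  have hz1 : z * Hf1 β z = ∑' n : ℕ, ((n : ℂ) * (hc β n : ℂ)) * z ^ n := by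
    rw [Hf1, ← tsum_mul_left]
    congr 1
    funext n
    rcases Nat.eq_zero_or_pos n with rfl | hn
    · simp
    · obtain ⟨m, rfl⟩ := Nat.exists_eq_succ_of_ne_zero hn.ne'
      simp [pow_succ]
      ring
  have hsD : Summable (fun n : ℕ => ((n : ℂ) * (hc β n : ℂ)) * z ^ n) := by
    refine Summable.of_norm_bounded (summable_nhc hβ) (fun n => ?_)
    rw [norm_mul, norm_mul, Complex.norm_real, Real.norm_eq_abs, norm_pow, Complex.norm_natCast]
    have h1 : ‖z‖ ^ n ≤ 1 := pow_le_one₀ (norm_nonneg _) hz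
    have h2 : 0 ≤ (n:ℝ) * |hc β n| := by positivity
    nlinarith
  have hsH := summable_H hβ hz
  set a : ℕ → ℂ := fun n => (n : ℂ) * (hc β n : ℂ) + β * hc β n with ha
  set b : ℕ → ℂ := fun n => β * hc β n - (n : ℂ) * (hc β n : ℂ) - hc β n with hb
  have hsa : Summable (fun n => a n * z ^ n) := by
    have := hsD.add (hsH.mul_left (β : ℂ))
    refine this.congr (fun n => ?_)
    simp only [ha]; ring
  have hsb : Summable (fun n => b n * z ^ (n + 1)) := by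
    have := (((hsH.mul_left (β : ℂ)).sub hsD).sub hsH).mul_left z
    refine this.congr (fun n => ?_)
    simp only [hb]; ring
  have hab : ∀ n, a (n + 1) + b n = 0 := by
    intro n
    have h1 := hc_rec hβ n
    have h2 : (((n : ℂ) + 1) + β) * (hc β (n + 1) : ℂ) = (((n : ℂ) + 1) - β) * (hc β n : ℂ) := by
      exact_mod_cast h1
    simp only [ha, hb]
    push_cast
    linear_combination h2
  have hlhs : (1 - z) * (z * Hf1 β z) + ((β : ℂ) * (1 + z) - z) * Hf β z =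
      (∑' n, a n * z ^ n) + ∑' n, b n * z ^ (n + 1) := by
    have e1 : ∑' n, a n * z ^ n = (∑' n : ℕ, ((n : ℂ) * (hc β n : ℂ)) * z ^ n) +
        β * ∑' n : ℕ, (hc β n : ℂ) * z ^ n := by
      rw [← tsum_mul_left, ← hsD.tsum_add (hsH.mul_left (β : ℂ))]
      congr 1; funext n; simp only [ha]; ring
    have e2 : ∑' n, b n * z ^ (n + 1) = z * ((β * ∑' n : ℕ, (hc β n : ℂ) * z ^ n) -
        (∑' n : ℕ, ((n : ℂ) * (hc β n : ℂ)) * z ^ n) - ∑' n : ℕ, (hc β n : ℂ) * z ^ n) := by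
      rw [← tsum_mul_left, ← (hsH.mul_left (β : ℂ)).tsum_sub hsD,
        ← ((hsH.mul_left (β : ℂ)).sub hsD).tsum_sub hsH, ← tsum_mul_left]
      congr 1; funext n; simp only [hb]; ring
    rw [e1, e2, hz1, Hf]
    ring
  rw [hlhs, hsa.tsum_eq_zero_add]
  have hsa' : Summable (fun n => a (n + 1) * z ^ (n + 1)) := (summable_nat_add_iff 1).mpr hsa
  rw [add_assoc, ← hsa'.tsum_add hsb]
  have : (fun n => a (n + 1) * z ^ (n + 1) + b n * z ^ (n + 1)) = fun _ => (0:ℂ) := by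
    funext n
    rw [← add_mul, hab n, zero_mul]
  rw [this, tsum_zero]
  simp [ha, hc_zero]

end Pool.Agent.TH242.AC
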