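import Mathlib

open Complex Metric Set Filter Topology

namespace Pool.Agent.TH242.AC

/-- First contact: if the real part of an analytic function is positive at the centre and
nonpositive somewhere, there is a point of smallest modulus where it vanishes. -/
theorem first_touch {g : ℂ → ℂ} (hg : DifferentiableOn ℂ g (ball 0 1))
    (h0 : 0 < (g 0).re) (hex : ∃ z ∈ ball (0 : ℂ) 1, (g z).re ≤ 0) :
    ∃ z ∈ ball (0 : ℂ) 1, z ≠ 0 ∧ (g z).re = 0 ∧ (∀ w : ℂ, ‖w‖ ≤ ‖z‖ → 0 ≤ (g w).re) ∧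
      (∀ w : ℂ, ‖w‖ < ‖z‖ → 0 < (g w).re) ∧
      (z * deriv g z).im = 0 ∧ (z * deriv g z).re ≤ 0 := by
  obtain ⟨z0, hz0, hz0'⟩ := hex
  have hz0n : ‖z0‖ < 1 := by simpa using hz0
  have hsub : closedBall (0 : ℂ) ‖z0‖ ⊆ ball 0 1 := closedBall_subset_ball hz0n
  have hcont : ContinuousOn g (ball 0 1) := hg.continuousOn
  set S : Set ℂ := {z | z ∈ closedBall (0 : ℂ) ‖z0‖ ∧ (g z).re ≤ 0} with hS
  have hSc : IsCompact S := by
    have h1 : IsClosed S := by
      have h2 : ContinuousOn (fun z => (g z).re) (closedBall (0 : ℂ) ‖z0‖) :=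
        continuous_re.comp_continuousOn (hcont.mono hsub)
      exact h2.preimage_isClosed_of_isClosed isClosed_closedBall isClosed_Iic
    exact (isCompact_closedBall (0 : ℂ) ‖z0‖).of_isClosed_subset h1 (fun z hz => hz.1)
  have hSne : S.Nonempty := ⟨z0, by simp [hS, hz0']⟩
  obtain ⟨z1, hz1S, hmin⟩ := hSc.exists_isMinOn hSne continuous_norm.continuousOn
  have hz1 : z1 ∈ ball (0 : ℂ) 1 := hsub hz1S.1
  have hz1n : ‖z1‖ < 1 := by simpa using hz1
  have hz1z0 : ‖z1‖ ≤ ‖z0‖ := by simpa using hz1S.1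
  have hlt : ∀ w : ℂ, ‖w‖ < ‖z1‖ → 0 < (g w).re := by
    intro w hw
    by_contra hcon
    push Not at hcon
    have hwS : w ∈ S := ⟨by simpa using (hw.le.trans hz1z0), hcon⟩
    have := hmin hwS
    simp only [mem_setOf_eq] at this
    linarith
  have hz1ne : z1 ≠ 0 := by
    rintro rfl
    exact absurd hz1S.2 (not_le.mpr h0)
  have hpos1 : 0 < ‖z1‖ := norm_pos_iff.mpr hz1ne
  have hle : ∀ w : ℂ, ‖w‖ ≤ ‖z1‖ → 0 ≤ (g w).re := by
    intro w hw
    have hwb : w ∈ ball (0 : ℂ) 1 := by simpa using hw.trans_lt hz1n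
    have hca : ContinuousAt g w := hcont.continuousAt (isOpen_ball.mem_nhds hwb)
    have hpath : Tendsto (fun s : ℝ => (g ((s : ℂ) * w)).re) (𝓝[<] 1) (𝓝 (g w).re) := by
      have h1 : Tendsto (fun s : ℝ => (s : ℂ) * w) (𝓝[<] 1) (𝓝 w) := by
        have h2 : Continuous (fun s : ℝ => (s : ℂ) * w) := by fun_prop
        have h3 := h2.tendsto 1
        simp only [ofReal_one, one_mul] at h3
        exact h3.mono_left nhdsWithin_le_nhds
      exact (continuous_re.tendsto _).comp (hca.tendsto.comp h1)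
    refine ge_of_tendsto hpath ?_
    have hev : ∀ᶠ s : ℝ in 𝓝[<] 1, 0 < s := by
      have : ∀ᶠ s : ℝ in 𝓝 1, (0:ℝ) < s := lt_mem_nhds (by norm_num)
      exact this.filter_mono nhdsWithin_le_nhds
    filter_upwards [hev, self_mem_nhdsWithin] with s hs0 hs1
    have hs1' : s < 1 := hs1
    rcases eq_or_ne w 0 with rfl | hw0
    · simpa using h0.le
    · apply (hlt _ _).le
      rw [norm_mul, Complex.norm_real, Real.norm_eq_abs, abs_of_pos hs0]
      have : 0 < ‖w‖ := norm_pos_iff.mpr hw0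
      nlinarith
  have hre0 : (g z1).re = 0 := le_antisymm hz1S.2 (hle z1 le_rfl)
  have hda : HasDerivAt g (deriv g z1) z1 :=
    (hg.differentiableAt (isOpen_ball.mem_nhds hz1)).hasDerivAt
  refine ⟨z1, hz1, hz1ne, hre0, hle, hlt, ?_, ?_⟩
  · -- tangential derivative
    have h1 : HasDerivAt (fun θ : ℝ => z1 * exp (θ * I)) (z1 * I) 0 := by
      have h2 : HasDerivAt (fun θ : ℝ => ((θ : ℂ) * I)) I 0 := by
        have := (Complex.ofRealCLM.hasDerivAt (x := (0:ℝ))).mul_const I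
        simpa using this
      have h3 := h2.cexp
      have h4 := h3.const_mul z1
      simpa using h4
    have h2 : HasDerivAt (fun θ : ℝ => g (z1 * exp (θ * I))) (deriv g z1 * (z1 * I)) 0 := by
      have hda' : HasDerivAt g (deriv g z1) ((fun θ : ℝ => z1 * exp (θ * I)) 0) := by
        simpa using hda
      exact hda'.comp (0:ℝ) h1
    have h3 : HasDerivAt (fun θ : ℝ => (g (z1 * exp (θ * I))).re)
        (deriv g z1 * (z1 * I)).re 0 := by
      exact (Complex.reCLM.hasFDerivAt.comp_hasDerivAt (0:ℝ) h2)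
    have hmin' : IsLocalMin (fun θ : ℝ => (g (z1 * exp (θ * I))).re) 0 := by
      refine Filter.Eventually.of_forall (fun θ => ?_)
      have : ‖z1 * exp (θ * I)‖ ≤ ‖z1‖ := by
        rw [norm_mul, Complex.norm_exp_ofReal_mul_I, mul_one]
      simpa [hre0] using hle _ this
    have h4 := hmin'.hasDerivAt_eq_zero h3
    have h5 : (deriv g z1 * (z1 * I)).re = -(z1 * deriv g z1).im := by
      simp [mul_re, mul_im]; ring
    linarith
  · -- radial derivative
    have h1 : HasDerivAt (fun s : ℝ => (s : ℂ) * z1) z1 1 := by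
      have := (Complex.ofRealCLM.hasDerivAt (x := (1:ℝ))).mul_const z1
      simpa using this
    have h2 : HasDerivAt (fun s : ℝ => g ((s : ℂ) * z1)) (deriv g z1 * z1) 1 := by
      have hda' : HasDerivAt g (deriv g z1) ((fun s : ℝ => (s : ℂ) * z1) 1) := by
        simpa using hda
      exact hda'.comp (1:ℝ) h1
    have h3 : HasDerivAt (fun s : ℝ => (g ((s : ℂ) * z1)).re) (deriv g z1 * z1).re 1 :=
      (Complex.reCLM.hasFDerivAt.comp_hasDerivAt (1:ℝ) h2)
    have h4 : Tendsto (slope (fun s : ℝ => (g ((s : ℂ) * z1)).re) 1) (𝓝[<] 1)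
        (𝓝 (deriv g z1 * z1).re) :=
      (hasDerivAt_iff_tendsto_slope.mp h3).mono_left
        (nhdsWithin_mono _ (fun x hx => ne_of_lt hx))
    have h5 : (deriv g z1 * z1).re ≤ 0 := by
      refine le_of_tendsto h4 ?_
      have hev : ∀ᶠ s : ℝ in 𝓝[<] 1, 0 < s := by
        have : ∀ᶠ s : ℝ in 𝓝 1, (0:ℝ) < s := lt_mem_nhds (by norm_num)
        exact this.filter_mono nhdsWithin_le_nhds
      filter_upwards [hev, self_mem_nhdsWithin] with s hs0 hs1
      have hs1' : s < 1 := hs1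
      rw [slope_def_field]
      have hn : ‖(s : ℂ) * z1‖ ≤ ‖z1‖ := by
        rw [norm_mul, Complex.norm_real, Real.norm_eq_abs, abs_of_pos hs0]
        nlinarith
      have := hle _ hn
      simp only [ofReal_one, one_mul, hre0, sub_zero]
      apply div_nonpos_of_nonneg_of_nonpos this
      linarith
    rwa [mul_comm] at h5

/-- Positivity of the real part from the impossibility of a first contact. -/
theorem re_pos_of_touch {g : ℂ → ℂ} (hg : DifferentiableOn ℂ g (ball 0 1))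
    (h0 : 0 < (g 0).re)
    (H : ∀ z ∈ ball (0 : ℂ) 1, z ≠ 0 → (g z).re = 0 → (z * deriv g z).im = 0 →
      (z * deriv g z).re ≤ 0 → False) :
    ∀ z ∈ ball (0 : ℂ) 1, 0 < (g z).re := by
  intro z hz
  by_contra hcon
  push Not at hcon
  obtain ⟨w, hw, hw0, h1, _, _, h2, h3⟩ := first_touch hg h0 ⟨z, hz, hcon⟩
  exact H w hw hw0 h1 h2 h3

end Pool.Agent.TH242.AC
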