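import Mathlib
import Pool.Agent.TH242.AC.Touch
import Pool.Agent.TH242.AC.ExtR

open Complex Metric Set Filter Topology

namespace Pool.Agent.TH242.AC

/-- The half-plane map. -/
noncomputable def Qf (z : ℂ) : ℂ := (1 + z) / (1 - z)

lemma Qf_re_pos {z : ℂ} (hz : ‖z‖ < 1) : 0 < (Qf z).re := by
  have h1 : (1 : ℂ) - z ≠ 0 := by
    intro h
    have : z = 1 := (sub_eq_zero.mp h).symm
    rw [this] at hz
    simp at hz
  have h2 : 0 < normSq (1 - z) := normSq_pos.mpr h1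
  rw [Qf, div_re]
  have h3 : normSq z < 1 := by
    rw [normSq_eq_norm_sq]
    nlinarith [norm_nonneg z]
  rw [normSq_apply] at h3
  have h4 : (1 + z).re * (1 - z).re / normSq (1 - z) + (1 + z).im * (1 - z).im / normSq (1 - z)
      = (1 - (z.re * z.re + z.im * z.im)) / normSq (1 - z) := by
    rw [← add_div]
    congr 1
    simp
    ring
  rw [h4]
  apply div_pos _ h2
  linarith

/-- derivative of `R` -/
noncomputable def R1 (β : ℝ) (z : ℂ) : ℂ := -Hf β z + (1 - z) * Hf1 β z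

lemma Rf_hasDerivWithinAt {β : ℝ} (hβ : 1 < β) {z : ℂ} (hz : ‖z‖ ≤ 1) :
    HasDerivWithinAt (Rf β) (R1 β z) (closedBall 0 1) z := by
  have h1 : HasDerivWithinAt (fun w : ℂ => 1 - w) (-1) (closedBall 0 1) z := by
    simpa using (hasDerivWithinAt_id z (closedBall (0:ℂ) 1)).const_sub 1
  have h2 := h1.mul (Hf_hasDerivWithinAt hβ hz)
  refine h2.congr_deriv ?_
  rw [R1]; ring

lemma mul_R1 {β : ℝ} (hβ : 1 < β) {z : ℂ} (hz : ‖z‖ ≤ 1) : z * R1 β z = DR β z := by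
  have h := Hf_ode hβ hz
  rw [R1, DR]
  linear_combination h

lemma DR_eq {β : ℝ} {z : ℂ} (hz : z ≠ 1) : DR β z = β * (1 - Qf z * Rf β z) := by
  rw [DR, Qf, Rf]
  have : (1 : ℂ) - z ≠ 0 := sub_ne_zero.mpr (Ne.symm hz)
  field_simp

lemma Rf_continuousOn {β : ℝ} (hβ : 1 < β) : ContinuousOn (Rf β) (closedBall 0 1) :=
  fun z hz => (Rf_hasDerivWithinAt hβ (by simpa using hz)).continuousWithinAt

lemma Rf_hasDerivAt {β : ℝ} (hβ : 1 < β) {z : ℂ} (hz : ‖z‖ < 1) :
    HasDerivAt (Rf β) (R1 β z) z := by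
  refine (Rf_hasDerivWithinAt hβ hz.le).hasDerivAt ?_
  exact mem_of_superset (isOpen_ball.mem_nhds (by simpa using hz : z ∈ ball (0:ℂ) 1))
    ball_subset_closedBall

lemma Rf_differentiableOn {β : ℝ} (hβ : 1 < β) : DifferentiableOn ℂ (Rf β) (ball 0 1) :=
  fun z hz => (Rf_hasDerivAt hβ (by simpa using hz)).differentiableAt.differentiableWithinAt

lemma Hf_differentiableOn {β : ℝ} (hβ : 1 < β) : DifferentiableOn ℂ (Hf β) (ball 0 1) :=
  fun z hz => ((Hf_hasDerivWithinAt hβ (by simpa using (mem_ball_zero_iff.mp hz).le)).mono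
    ball_subset_closedBall).differentiableWithinAt

lemma Rf_diffContOnCl {β : ℝ} (hβ : 1 < β) : DiffContOnCl ℂ (Rf β) (ball 0 1) := by
  refine ⟨Rf_differentiableOn hβ, ?_⟩
  rw [closure_ball _ one_ne_zero]
  exact Rf_continuousOn hβ

lemma mul_deriv_Rf {β : ℝ} (hβ : 1 < β) {z : ℂ} (hz : ‖z‖ < 1) :
    z * deriv (Rf β) z = DR β z := by
  rw [(Rf_hasDerivAt hβ hz).deriv, mul_R1 hβ hz.le]

lemma Hf_zero {β : ℝ} : Hf β 0 = 1 := by
  rw [Hf, tsum_eq_single 0]
  · simp [hc_zero]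
  · intro n hn
    simp [hn]

lemma Rf_zero {β : ℝ} : Rf β 0 = 1 := by simp [Rf, Hf_zero]

lemma Rf_one {β : ℝ} : Rf β 1 = 0 := by simp [Rf]

lemma Hf_one {β : ℝ} (hβ : 1 < β) : Hf β 1 = ((β / (2 * β - 1) : ℝ) : ℂ) := by
  have h := Hf_ode hβ (z := 1) (by simp)
  have h2 : (2 * (β : ℂ) - 1) * Hf β 1 = β := by linear_combination h
  have h3 : (2 * (β : ℂ) - 1) ≠ 0 := by
    have : (2 * β - 1 : ℝ) ≠ 0 := by linarith
    exact_mod_cast this
  push_cast
  rw [eq_div_iff h3]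
  linear_combination h2

lemma ne_one_of_norm_lt {z : ℂ} (hz : ‖z‖ < 1) : z ≠ 1 := by
  rintro rfl
  simp at hz

lemma Rf_re_pos {β : ℝ} (hβ : 1 < β) : ∀ z ∈ ball (0 : ℂ) 1, 0 < (Rf β z).re := by
  refine re_pos_of_touch (Rf_differentiableOn hβ) (by simp [Rf_zero]) ?_
  intro z hz hz0 hre him hle
  have hz1 : ‖z‖ < 1 := by simpa using hz
  rw [mul_deriv_Rf hβ hz1, DR_eq (ne_one_of_norm_lt hz1)] at him hle
  have hQ := Qf_re_pos hz1
  have hβ0 : (0:ℝ) < β := by linarith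
  simp only [mul_im, mul_re, ofReal_re, ofReal_im, sub_re, sub_im, one_re, one_im, hre] at him hle
  have h1 : (Qf z).re * (Rf β z).im = 0 := by nlinarith
  have h2 : (Rf β z).im = 0 := by
    rcases mul_eq_zero.mp h1 with h | h
    · exact absurd h hQ.ne'
    · exact h
  rw [h2] at hle
  simp at hle
  linarith

/-- maximum principle for real parts -/
lemma re_le_of_circle {g : ℂ → ℂ} (hg : DiffContOnCl ℂ g (ball 0 1)) {C : ℝ}
    (hC : ∀ x : ℂ, ‖x‖ = 1 → (g x).re ≤ C) {z : ℂ} (hz : ‖z‖ ≤ 1) : (g z).re ≤ C := by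
  have h1 : DiffContOnCl ℂ (fun z => exp (g z)) (ball 0 1) := by
    refine ⟨hg.differentiableOn.cexp, ?_⟩
    exact continuous_exp.comp_continuousOn hg.continuousOn
  have h2 := Complex.norm_le_of_forall_mem_frontier_norm_le (isBounded_ball) h1 (C := Real.exp C)
    (by
      intro x hx
      rw [frontier_ball _ one_ne_zero] at hx
      rw [Complex.norm_exp]
      exact Real.exp_le_exp.mpr (hC x (by simpa using hx))) (z := z)
    (by rw [closure_ball _ one_ne_zero]; simpa using hz)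
  rw [Complex.norm_exp] at h2
  exact Real.exp_le_exp.mp h2

end Pool.Agent.TH242.AC
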