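import Mathlib
import Pool.Agent.TH242.AC.ExtR2

open Complex Metric Set Filter Topology

namespace Pool.Agent.TH242.AC

/-- Boundary point with parameter `φ`, `φ = 0` being `-1` and `φ = ±π` being `1`. -/
noncomputable def bp (φ : ℝ) : ℂ := -exp (φ * I)

lemma norm_bp (φ : ℝ) : ‖bp φ‖ = 1 := by
  rw [bp, norm_neg, Complex.norm_exp_ofReal_mul_I]

lemma bp_hasDerivAt (φ : ℝ) : HasDerivAt bp (I * bp φ) φ := by
  have h2 : HasDerivAt (fun θ : ℝ => ((θ : ℂ) * I)) I φ := by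
    have := (Complex.ofRealCLM.hasDerivAt (x := φ)).mul_const I
    simpa using this
  have h3 := h2.cexp.neg
  refine h3.congr_deriv ?_
  rw [bp]; ring

/-- `a = Re R` on the circle. -/
noncomputable def aa (β φ : ℝ) : ℝ := (Rf β (bp φ)).re
/-- `b = Im R` on the circle. -/
noncomputable def bb (β φ : ℝ) : ℝ := (Rf β (bp φ)).im

lemma Rf_bp (β φ : ℝ) : Rf β (bp φ) = (aa β φ : ℂ) + (bb β φ : ℂ) * I := by
  rw [aa, bb, Complex.re_add_im]

lemma cos_half_pos {φ : ℝ} (h : φ ∈ Ioo (-Real.pi) Real.pi) : 0 < Real.cos (φ / 2) := by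
  apply Real.cos_pos_of_mem_Ioo
  constructor <;> [linarith [h.1]; linarith [h.2]]

lemma exp_half (φ : ℝ) : exp (φ * I) = ((Real.cos (φ/2) : ℂ) + Real.sin (φ/2) * I) ^ 2 := by
  rw [ofReal_cos, ofReal_sin, ← Complex.exp_mul_I, ← Complex.exp_nat_mul]
  congr 1
  push_cast
  ring

lemma one_sub_bp (φ : ℝ) : 1 - bp φ =
    2 * (Real.cos (φ/2) : ℂ) * ((Real.cos (φ/2) : ℂ) + Real.sin (φ/2) * I) := by
  rw [bp, sub_neg_eq_add, exp_half]
  have h : (Real.cos (φ/2) : ℂ) ^ 2 + (Real.sin (φ/2) : ℂ) ^ 2 = 1 := by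
    rw [← ofReal_pow, ← ofReal_pow, ← ofReal_add, Real.cos_sq_add_sin_sq, ofReal_one]
  linear_combination (-1 : ℂ) * h + (Real.sin (φ/2) : ℂ) ^ 2 * Complex.I_sq

lemma one_add_bp (φ : ℝ) : 1 + bp φ =
    -2 * I * (Real.sin (φ/2) : ℂ) * ((Real.cos (φ/2) : ℂ) + Real.sin (φ/2) * I) := by
  rw [bp, ← sub_eq_add_neg, exp_half]
  have h : (Real.cos (φ/2) : ℂ) ^ 2 + (Real.sin (φ/2) : ℂ) ^ 2 = 1 := by
    rw [← ofReal_pow, ← ofReal_pow, ← ofReal_add, Real.cos_sq_add_sin_sq, ofReal_one]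
  linear_combination (-1 : ℂ) * h + (Real.sin (φ/2) : ℂ) ^ 2 * Complex.I_sq

lemma bp_ne_one {φ : ℝ} (h : φ ∈ Ioo (-Real.pi) Real.pi) : bp φ ≠ 1 := by
  intro he
  have h1 := one_sub_bp φ
  rw [he, sub_self] at h1
  have hc := cos_half_pos h
  have h2 : ((Real.cos (φ/2) : ℂ) + Real.sin (φ/2) * I) ≠ 0 := by
    intro h3
    have := congrArg Complex.re h3
    rw [add_re, mul_re, I_re, I_im, ofReal_re, ofReal_im, ofReal_re, zero_re] at this
    simp at this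
    linarith
  have h3 : (2 : ℂ) * (Real.cos (φ/2) : ℂ) ≠ 0 := by
    have : (Real.cos (φ/2) : ℂ) ≠ 0 := by exact_mod_cast hc.ne'
    simpa using this
  exact (mul_ne_zero h3 h2) h1.symm

lemma Qf_bp {φ : ℝ} (h : φ ∈ Ioo (-Real.pi) Real.pi) :
    Qf (bp φ) = -I * (Real.tan (φ/2) : ℂ) := by
  have hc := cos_half_pos h
  have hc' : (Real.cos (φ/2) : ℂ) ≠ 0 := by exact_mod_cast hc.ne'
  have h2 : ((Real.cos (φ/2) : ℂ) + Real.sin (φ/2) * I) ≠ 0 := by
    intro h3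
    have := congrArg Complex.re h3
    rw [add_re, mul_re, I_re, I_im, ofReal_re, ofReal_im, ofReal_re, zero_re] at this
    simp at this
    linarith
  have h3 : (2 : ℂ) * (Real.cos (φ/2) : ℂ) * ((Real.cos (φ/2) : ℂ) + Real.sin (φ/2) * I) ≠ 0 :=
    mul_ne_zero (mul_ne_zero two_ne_zero hc') h2
  rw [Qf, one_sub_bp, one_add_bp, Real.tan_eq_sin_div_cos, ofReal_div, div_eq_iff h3,
    mul_div_assoc', div_mul_eq_mul_div, eq_div_iff hc']
  ring

lemma Rb_hasDerivAt {β : ℝ} (hβ : 1 < β) (φ : ℝ) :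
    HasDerivAt (fun φ : ℝ => Rf β (bp φ)) (I * DR β (bp φ)) φ := by
  have h1 := Rf_hasDerivWithinAt hβ (z := bp φ) (norm_bp φ).le
  have h2 := h1.scomp_hasDerivAt φ (bp_hasDerivAt φ)
    (fun x => by simp [norm_bp x])
  refine h2.congr_deriv ?_
  rw [smul_eq_mul, mul_assoc, mul_R1 hβ (norm_bp φ).le]

lemma aa_hasDerivAt {β : ℝ} (hβ : 1 < β) {φ : ℝ} (h : φ ∈ Ioo (-Real.pi) Real.pi) :
    HasDerivAt (aa β) (-(β * Real.tan (φ/2) * aa β φ)) φ := by
  have h1 : HasDerivAt (aa β) ((I * DR β (bp φ)).re) φ :=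
    Complex.reCLM.hasFDerivAt.comp_hasDerivAt φ (Rb_hasDerivAt hβ φ)
  refine h1.congr_deriv ?_
  rw [DR_eq (bp_ne_one h), Qf_bp h, Rf_bp]
  simp only [mul_re, mul_im, I_re, I_im, ofReal_re, ofReal_im, sub_re, sub_im, one_re, one_im,
    neg_re, neg_im, add_re, add_im]
  ring

lemma bb_hasDerivAt {β : ℝ} (hβ : 1 < β) {φ : ℝ} (h : φ ∈ Ioo (-Real.pi) Real.pi) :
    HasDerivAt (bb β) (β * (1 - Real.tan (φ/2) * bb β φ)) φ := by
  have h1 : HasDerivAt (bb β) ((I * DR β (bp φ)).im) φ :=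
    Complex.imCLM.hasFDerivAt.comp_hasDerivAt φ (Rb_hasDerivAt hβ φ)
  refine h1.congr_deriv ?_
  rw [DR_eq (bp_ne_one h), Qf_bp h, Rf_bp]
  simp only [mul_re, mul_im, I_re, I_im, ofReal_re, ofReal_im, sub_re, sub_im, one_re, one_im,
    neg_re, neg_im, add_re, add_im]
  ring

lemma tan_half_hasDerivAt {φ : ℝ} (h : φ ∈ Ioo (-Real.pi) Real.pi) :
    HasDerivAt (fun φ : ℝ => Real.tan (φ/2)) ((1 + Real.tan (φ/2) ^ 2) / 2) φ := by
  have hc := (cos_half_pos h).ne'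
  have h1 := (Real.hasDerivAt_tan hc)
  have h2 : HasDerivAt (fun φ : ℝ => φ / 2) (1/2) φ := (hasDerivAt_id φ).div_const 2
  have h3 := h1.comp φ h2
  refine h3.congr_deriv ?_
  rw [Real.tan_eq_sin_div_cos]
  field_simp
  have := Real.sin_sq_add_cos_sq (φ/2)
  linarith

lemma aa_nonneg {β : ℝ} (hβ : 1 < β) (φ : ℝ) : 0 ≤ aa β φ := by
  have hmem : bp φ ∈ closedBall (0:ℂ) 1 := by simp [norm_bp]
  have hc := Rf_continuousOn hβ _ hmem
  have h1 : Tendsto (fun s : ℝ => (Rf β ((s : ℂ) * bp φ)).re) (𝓝[<] 1) (𝓝 (aa β φ)) := by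
    have h2 : Tendsto (fun s : ℝ => (s : ℂ) * bp φ) (𝓝[<] 1) (𝓝[closedBall (0:ℂ) 1] (bp φ)) := by
      apply tendsto_nhdsWithin_iff.mpr
      constructor
      · have h3 : Continuous (fun s : ℝ => (s : ℂ) * bp φ) := by fun_prop
        have h4 := h3.tendsto 1
        simp only [ofReal_one, one_mul] at h4
        exact h4.mono_left nhdsWithin_le_nhds
      · have hev : ∀ᶠ s : ℝ in 𝓝[<] 1, 0 < s := by
          have : ∀ᶠ s : ℝ in 𝓝 1, (0:ℝ) < s := lt_mem_nhds (by norm_num)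
          exact this.filter_mono nhdsWithin_le_nhds
        filter_upwards [hev, self_mem_nhdsWithin] with s hs0 hs1
        have hs1' : s < 1 := hs1
        simp only [mem_closedBall, dist_zero_right, norm_mul, norm_bp, mul_one,
          Complex.norm_real, Real.norm_eq_abs]
        rw [abs_of_pos hs0]; exact hs1'.le
    exact (continuous_re.tendsto _).comp (hc.tendsto.comp h2)
  refine ge_of_tendsto h1 ?_
  have hev : ∀ᶠ s : ℝ in 𝓝[<] 1, 0 < s := by
    have : ∀ᶠ s : ℝ in 𝓝 1, (0:ℝ) < s := lt_mem_nhds (by norm_num)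
    exact this.filter_mono nhdsWithin_le_nhds
  filter_upwards [hev, self_mem_nhdsWithin] with s hs0 hs1
  have hs1' : s < 1 := hs1
  apply (Rf_re_pos hβ _ _).le
  simp only [mem_ball, dist_zero_right, norm_mul, norm_bp, mul_one,
          Complex.norm_real, Real.norm_eq_abs]
  rw [abs_of_pos hs0]; exact hs1'

lemma aa_formula {β : ℝ} (hβ : 1 < β) {φ : ℝ} (h : φ ∈ Ioo (-Real.pi) Real.pi) :
    aa β φ = aa β 0 * Real.cos (φ/2) ^ (2 * β) := by
  have key : ∀ ψ ∈ Ioo (-Real.pi) Real.pi,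
      HasDerivAt (fun φ => aa β φ * Real.cos (φ/2) ^ (-(2 * β))) 0 ψ := by
    intro ψ hψ
    have hc := cos_half_pos hψ
    have h1 : HasDerivAt (fun φ : ℝ => Real.cos (φ/2)) (-(Real.sin (ψ/2)) / 2) ψ := by
      have h2 : HasDerivAt (fun φ : ℝ => φ / 2) (1/2) ψ := (hasDerivAt_id ψ).div_const 2
      have := (Real.hasDerivAt_cos (ψ/2)).comp ψ h2
      refine this.congr_deriv ?_
      ring
    have h3 := h1.rpow_const (p := -(2*β)) (Or.inl hc.ne')
    have h4 := (aa_hasDerivAt hβ hψ).mul h3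
    refine h4.congr_deriv ?_
    rw [Real.rpow_sub hc, Real.rpow_one, Real.tan_eq_sin_div_cos]
    field_simp
    ring
  have hpi := Real.pi_pos
  have hconst : ∀ ψ ∈ Ioo (-Real.pi) Real.pi,
      aa β ψ * Real.cos (ψ/2) ^ (-(2 * β)) = aa β 0 * Real.cos (0/2) ^ (-(2 * β)) := by
    intro ψ hψ
    have hconv : Convex ℝ (Ioo (-Real.pi) Real.pi) := convex_Ioo _ _
    have h0 : (0:ℝ) ∈ Ioo (-Real.pi) Real.pi := ⟨by linarith, hpi⟩
    have := hconv.is_const_of_fderivWithin_eq_zero (𝕜 := ℝ)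
      (f := fun φ => aa β φ * Real.cos (φ/2) ^ (-(2 * β)))
      (fun x hx => (key x hx).differentiableAt.differentiableWithinAt)
      (fun x hx => by
        rw [fderivWithin_of_isOpen isOpen_Ioo hx]
        ext
        simpa using (key x hx).deriv) hψ h0
    exact this
  have h5 := hconst φ h
  have hc := cos_half_pos h
  rw [zero_div, Real.cos_zero, Real.one_rpow, mul_one, Real.rpow_neg hc.le] at h5
  have h6 : (0:ℝ) < Real.cos (φ/2) ^ (2*β) := Real.rpow_pos_of_pos hc _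
  rw [← h5]
  field_simp

lemma bp_zero : bp 0 = -1 := by simp [bp]

lemma exists_bp {x : ℂ} (hx : ‖x‖ = 1) (hx1 : x ≠ 1) : ∃ φ ∈ Ioo (-Real.pi) Real.pi, x = bp φ := by
  have hne : -x ≠ 0 := by
    intro h
    rw [neg_eq_zero] at h
    rw [h] at hx; simp at hx
  refine ⟨arg (-x), ⟨neg_pi_lt_arg _, ?_⟩, ?_⟩
  · rcases lt_or_eq_of_le (arg_le_pi (-x)) with h | h
    · exact h
    · exfalso
      apply hx1
      have h1 := Complex.norm_mul_exp_arg_mul_I (-x)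
      rw [h, norm_neg, hx, ofReal_one, one_mul, Complex.exp_pi_mul_I] at h1
      exact neg_injective h1.symm
  · have h1 := Complex.norm_mul_exp_arg_mul_I (-x)
    rw [norm_neg, hx, ofReal_one, one_mul] at h1
    rw [bp, h1, neg_neg]

lemma aa_zero_pos {β : ℝ} (hβ : 1 < β) : 0 < aa β 0 := by
  rcases lt_or_eq_of_le (aa_nonneg hβ 0) with h | h
  · exact h
  · exfalso
    have hz : ∀ x : ℂ, ‖x‖ = 1 → (Rf β x).re ≤ 0 := by
      intro x hx
      rcases eq_or_ne x 1 with rfl | hx1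
      · simp [Rf_one]
      · obtain ⟨φ, hφ, rfl⟩ := exists_bp hx hx1
        have := aa_formula hβ hφ
        rw [← h, zero_mul] at this
        exact this.le
    have := re_le_of_circle (Rf_diffContOnCl hβ) hz (z := 0) (by simp)
    rw [Rf_zero] at this
    simp at this
    linarith

lemma aa_pos {β : ℝ} (hβ : 1 < β) {φ : ℝ} (h : φ ∈ Ioo (-Real.pi) Real.pi) : 0 < aa β φ := by
  rw [aa_formula hβ h]
  exact mul_pos (aa_zero_pos hβ) (Real.rpow_pos_of_pos (cos_half_pos h) _)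

lemma hc_conj (β : ℝ) (z : ℂ) : Hf β (starRingEnd ℂ z) = starRingEnd ℂ (Hf β z) := by
  rw [Hf, Hf, Complex.conj_tsum]
  congr 1
  funext n
  simp

lemma Rf_conj (β : ℝ) (z : ℂ) : Rf β (starRingEnd ℂ z) = starRingEnd ℂ (Rf β z) := by
  rw [Rf, Rf, hc_conj]
  simp

lemma bp_neg (φ : ℝ) : bp (-φ) = starRingEnd ℂ (bp φ) := by
  rw [bp, bp, map_neg, ← Complex.exp_conj]
  simp

lemma aa_neg (β φ : ℝ) : aa β (-φ) = aa β φ := by
  rw [aa, bp_neg, Rf_conj, conj_re, ← aa]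

lemma bb_neg (β φ : ℝ) : bb β (-φ) = - bb β φ := by
  rw [bb, bp_neg, Rf_conj, conj_im, ← bb]

lemma bb_zero (β : ℝ) : bb β 0 = 0 := by
  have := bb_neg β 0
  rw [neg_zero] at this
  linarith

end Pool.Agent.TH242.AC
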