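import Mathlib
import Pool.Agent.TH242.AC.Bdry

open Complex Metric Set Filter Topology

namespace Pool.Agent.TH242.AC

lemma mono_of_deriv {f f' : ℝ → ℝ} {x y : ℝ} (hxy : x ≤ y)
    (h : ∀ u ∈ Icc x y, HasDerivAt f (f' u) u) (hn : ∀ u ∈ Ioo x y, 0 ≤ f' u) : f x ≤ f y := by
  have hm : MonotoneOn f (Icc x y) := by
    apply monotoneOn_of_deriv_nonneg (convex_Icc x y)
    · exact fun u hu => (h u hu).continuousAt.continuousWithinAt
    · intro u hu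
      rw [interior_Icc] at hu
      exact (h u (Ioo_subset_Icc_self hu)).differentiableAt.differentiableWithinAt
    · intro u hu
      rw [interior_Icc] at hu
      rw [(h u (Ioo_subset_Icc_self hu)).deriv]
      exact hn u hu
  exact hm (left_mem_Icc.mpr hxy) (right_mem_Icc.mpr hxy) hxy

lemma strictMono_of_deriv {f f' : ℝ → ℝ} {x y : ℝ} (hxy : x < y)
    (h : ∀ u ∈ Icc x y, HasDerivAt f (f' u) u) (hn : ∀ u ∈ Ioo x y, 0 < f' u) : f x < f y := by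
  have hm : StrictMonoOn f (Icc x y) := by
    apply strictMonoOn_of_deriv_pos (convex_Icc x y)
    · exact fun u hu => (h u hu).continuousAt.continuousWithinAt
    · intro u hu
      rw [interior_Icc] at hu
      rw [(h u (Ioo_subset_Icc_self hu)).deriv]
      exact hn u hu
  exact hm (left_mem_Icc.mpr hxy.le) (right_mem_Icc.mpr hxy.le) hxy

noncomputable def tt (φ : ℝ) : ℝ := Real.tan (φ/2)
noncomputable def ee (β φ : ℝ) : ℝ := 1 - tt φ * bb β φ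
noncomputable def ff (β φ : ℝ) : ℝ := tt φ * aa β φ
noncomputable def nu (β φ : ℝ) : ℝ := Real.sqrt (ee β φ ^ 2 + ff β φ ^ 2)
noncomputable def XX (β φ : ℝ) : ℝ := aa β φ / (aa β φ ^ 2 + bb β φ ^ 2)
noncomputable def cc (β φ : ℝ) : ℝ := 1 / (2 * β) + (1 - 1 / (2 * β)) * XX β φ
noncomputable def FF (β φ : ℝ) : ℝ := 1 / aa β φ
noncomputable def TT (β φ : ℝ) : ℝ := bb β φ / aa β φ

lemma tt_hasDerivAt {φ : ℝ} (h : φ ∈ Ioo (-Real.pi) Real.pi) :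
    HasDerivAt tt ((1 + tt φ ^ 2) / 2) φ := tan_half_hasDerivAt h

lemma tt_neg (φ : ℝ) : tt (-φ) = - tt φ := by
  rw [tt, tt, neg_div, Real.tan_neg]

lemma tt_zero : tt 0 = 0 := by simp [tt]

lemma ee_neg (β φ : ℝ) : ee β (-φ) = ee β φ := by
  rw [ee, ee, tt_neg, bb_neg]; ring

lemma ff_neg (β φ : ℝ) : ff β (-φ) = - ff β φ := by
  rw [ff, ff, tt_neg, aa_neg]; ring

lemma nu_neg (β φ : ℝ) : nu β (-φ) = nu β φ := by
  rw [nu, nu, ee_neg, ff_neg, neg_sq]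

lemma XX_neg (β φ : ℝ) : XX β (-φ) = XX β φ := by
  rw [XX, XX, aa_neg, bb_neg, neg_sq]

lemma cc_neg (β φ : ℝ) : cc β (-φ) = cc β φ := by
  rw [cc, cc, XX_neg]

lemma TT_neg (β φ : ℝ) : TT β (-φ) = - TT β φ := by
  rw [TT, TT, aa_neg, bb_neg]; ring

lemma ea_fb (β φ : ℝ) : ee β φ * aa β φ + ff β φ * bb β φ = aa β φ := by
  rw [ee, ff]; ring

lemma nusq_pos {β : ℝ} (hβ : 1 < β) {φ : ℝ} (h : φ ∈ Ioo (-Real.pi) Real.pi) :
    0 < ee β φ ^ 2 + ff β φ ^ 2 := by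
  have ha := aa_pos hβ h
  have h1 := ea_fb β φ
  by_contra hcon
  push Not at hcon
  have he : ee β φ = 0 := by nlinarith [sq_nonneg (ee β φ), sq_nonneg (ff β φ)]
  have hf : ff β φ = 0 := by nlinarith [sq_nonneg (ee β φ), sq_nonneg (ff β φ)]
  rw [he, hf] at h1
  linarith

lemma nu_pos {β : ℝ} (hβ : 1 < β) {φ : ℝ} (h : φ ∈ Ioo (-Real.pi) Real.pi) : 0 < nu β φ :=
  Real.sqrt_pos.mpr (nusq_pos hβ h)

lemma nu_sq {β : ℝ} (hβ : 1 < β) {φ : ℝ} (h : φ ∈ Ioo (-Real.pi) Real.pi) :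
    nu β φ ^ 2 = ee β φ ^ 2 + ff β φ ^ 2 := by
  rw [nu, Real.sq_sqrt (nusq_pos hβ h).le]

lemma FF_hasDerivAt {β : ℝ} (hβ : 1 < β) {φ : ℝ} (h : φ ∈ Ioo (-Real.pi) Real.pi) :
    HasDerivAt (FF β) (β * tt φ * FF β φ) φ := by
  have ha := (aa_pos hβ h).ne'
  have h1 := (hasDerivAt_const φ (1:ℝ)).div (aa_hasDerivAt hβ h) ha
  refine h1.congr_deriv ?_
  rw [FF, tt]
  field_simp
  ring

lemma TT_hasDerivAt {β : ℝ} (hβ : 1 < β) {φ : ℝ} (h : φ ∈ Ioo (-Real.pi) Real.pi) :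
    HasDerivAt (TT β) (β * FF β φ) φ := by
  have ha := (aa_pos hβ h).ne'
  have h1 := (bb_hasDerivAt hβ h).div (aa_hasDerivAt hβ h) ha
  refine h1.congr_deriv ?_
  rw [FF]
  field_simp
  ring

lemma FF_pos {β : ℝ} (hβ : 1 < β) {φ : ℝ} (h : φ ∈ Ioo (-Real.pi) Real.pi) : 0 < FF β φ :=
  one_div_pos.mpr (aa_pos hβ h)

lemma TT_lt {β : ℝ} (hβ : 1 < β) {φ ψ : ℝ} (h : φ ∈ Ioo (-Real.pi) Real.pi)
    (h' : ψ ∈ Ioo (-Real.pi) Real.pi) (hlt : φ < ψ) : TT β φ < TT β ψ := by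
  have hsub : ∀ u ∈ Icc φ ψ, u ∈ Ioo (-Real.pi) Real.pi := fun u hu =>
    ⟨h.1.trans_le hu.1, hu.2.trans_lt h'.2⟩
  apply strictMono_of_deriv hlt (fun u hu => TT_hasDerivAt hβ (hsub u hu))
  intro u hu
  have := FF_pos hβ (hsub u (Ioo_subset_Icc_self hu))
  positivity

lemma tt_lt {φ ψ : ℝ} (h : φ ∈ Ioo (-Real.pi) Real.pi)
    (h' : ψ ∈ Ioo (-Real.pi) Real.pi) (hlt : φ < ψ) : tt φ < tt ψ := by
  have hsub : ∀ u ∈ Icc φ ψ, u ∈ Ioo (-Real.pi) Real.pi := fun u hu =>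
    ⟨h.1.trans_le hu.1, hu.2.trans_lt h'.2⟩
  apply strictMono_of_deriv hlt (fun u hu => tt_hasDerivAt (hsub u hu))
  intro u _
  positivity

lemma TT_zero (β : ℝ) : TT β 0 = 0 := by rw [TT, bb_zero, zero_div]

lemma mem_of_Ico {φ : ℝ} (h : φ ∈ Ico 0 Real.pi) : φ ∈ Ioo (-Real.pi) Real.pi :=
  ⟨by linarith [Real.pi_pos, h.1], h.2⟩

lemma mem_of_Ioo {φ : ℝ} (h : φ ∈ Ioo 0 Real.pi) : φ ∈ Ioo (-Real.pi) Real.pi :=
  ⟨by linarith [Real.pi_pos, h.1], h.2⟩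

lemma zero_mem : (0:ℝ) ∈ Ioo (-Real.pi) Real.pi := ⟨by linarith [Real.pi_pos], Real.pi_pos⟩

lemma tt_nonneg {φ : ℝ} (h : φ ∈ Ico 0 Real.pi) : 0 ≤ tt φ := by
  rcases eq_or_lt_of_le h.1 with h1 | h1
  · rw [← h1, tt_zero]
  · have := tt_lt zero_mem (mem_of_Ico h) h1
    rw [tt_zero] at this
    exact this.le

lemma bb_pos {β : ℝ} (hβ : 1 < β) {φ : ℝ} (h : φ ∈ Ioo 0 Real.pi) : 0 < bb β φ := by
  have h1 := TT_lt hβ zero_mem (mem_of_Ioo h) h.1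
  rw [TT_zero, TT] at h1
  have ha := aa_pos hβ (mem_of_Ioo h)
  exact (div_pos_iff_of_pos_right ha).mp h1

lemma aa_lt {β : ℝ} (hβ : 1 < β) {φ ψ : ℝ} (h0 : 0 ≤ φ) (hlt : φ < ψ) (hψ : ψ < Real.pi) :
    aa β ψ < aa β φ := by
  have h1 : FF β φ < FF β ψ := by
    have hsub : ∀ u ∈ Icc φ ψ, u ∈ Ioo (-Real.pi) Real.pi := fun u hu =>
      ⟨by linarith [Real.pi_pos, hu.1], hu.2.trans_lt hψ⟩
    apply strictMono_of_deriv hlt (fun u hu => FF_hasDerivAt hβ (hsub u hu))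
    intro u hu
    have hF := FF_pos hβ (hsub u (Ioo_subset_Icc_self hu))
    have ht : 0 < tt u := by
      have := tt_lt zero_mem (hsub u (Ioo_subset_Icc_self hu)) (h0.trans_lt hu.1)
      rwa [tt_zero] at this
    positivity
  have ha := aa_pos hβ (φ := φ) ⟨by linarith [Real.pi_pos], hlt.trans hψ⟩
  rw [FF, FF] at h1
  have ha' := aa_pos hβ (φ := ψ) ⟨by linarith [Real.pi_pos], hψ⟩
  exact (one_div_lt_one_div ha ha').mp h1

/-- squared distance of two boundary points of the image -/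
noncomputable def ds (β φ ψ : ℝ) : ℝ := (aa β φ - aa β ψ) ^ 2 + (bb β φ - bb β ψ) ^ 2

lemma ds_pos_same {β : ℝ} (hβ : 1 < β) {φ ψ : ℝ} (h : φ ∈ Ico 0 Real.pi) (h' : ψ ∈ Ico 0 Real.pi)
    (hne : φ ≠ ψ) : 0 < ds β φ ψ := by
  have h1 : aa β φ - aa β ψ ≠ 0 := by
    rcases lt_or_gt_of_ne hne with h2 | h2
    · have := aa_lt hβ h.1 h2 h'.2
      exact (sub_pos.mpr this).ne'
    · have := aa_lt hβ h'.1 h2 h.2
      exact (sub_neg.mpr this).ne
  have : 0 < (aa β φ - aa β ψ) ^ 2 := by positivity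
  rw [ds]
  positivity

lemma cross_nonneg {β : ℝ} (hβ : 1 < β) {φ u : ℝ} (h0 : 0 ≤ φ) (hle : φ ≤ u) (hu : u < Real.pi) :
    0 ≤ ee β φ * ff β u - ff β φ * ee β u := by
  have hsub : ∀ v ∈ Icc φ u, v ∈ Ioo (-Real.pi) Real.pi := fun v hv =>
    ⟨by linarith [Real.pi_pos, hv.1], hv.2.trans_lt hu⟩
  have hφ := hsub φ (left_mem_Icc.mpr hle)
  have huu := hsub u (right_mem_Icc.mpr hle)
  have ht0 : 0 ≤ tt φ := tt_nonneg ⟨h0, hle.trans_lt hu⟩
  have key : FF β φ * tt φ - tt φ * FF β φ + tt φ * tt φ * (TT β φ - TT β φ) ≤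
      FF β φ * tt u - tt φ * FF β u + tt φ * tt u * (TT β u - TT β φ) := by
    refine mono_of_deriv
      (f := fun v => FF β φ * tt v - tt φ * FF β v + tt φ * tt v * (TT β v - TT β φ))
      (f' := fun v => (1 + tt v ^ 2) / 2 * (FF β φ + tt φ * (TT β v - TT β φ))) hle ?_ ?_
    · intro v hv
      have hv' := hsub v hv
      have h1 := ((tt_hasDerivAt hv').const_mul (FF β φ)).sub
        ((FF_hasDerivAt hβ hv').const_mul (tt φ))
      have h2 := ((tt_hasDerivAt hv').const_mul (tt φ)).mul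
        ((TT_hasDerivAt hβ hv').sub_const (TT β φ))
      refine (h1.add h2).congr_deriv ?_
      ring
    · intro v hv
      have hv' := hsub v (Ioo_subset_Icc_self hv)
      have h1 := TT_lt hβ hφ hv' hv.1
      have h2 := FF_pos hβ hφ
      have h3 : 0 ≤ tt φ * (TT β v - TT β φ) := mul_nonneg ht0 (by linarith)
      positivity
  have ha := aa_pos hβ hφ
  have ha' := aa_pos hβ huu
  have e1 : ee β φ * ff β u - ff β φ * ee β u = aa β φ * aa β u *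
      (FF β φ * tt u - tt φ * FF β u + tt φ * tt u * (TT β u - TT β φ)) := by
    rw [ee, ff, ee, ff, FF, FF, TT, TT]
    field_simp
    ring
  rw [e1]
  apply mul_nonneg (mul_nonneg ha.le ha'.le)
  have e2 : FF β φ * tt φ - tt φ * FF β φ + tt φ * tt φ * (TT β φ - TT β φ) = 0 := by ring
  linarith

lemma n1_hasDerivAt {β : ℝ} (hβ : 1 < β) {φ : ℝ} (h : φ ∈ Ioo (-Real.pi) Real.pi) :
    HasDerivAt (fun φ => ee β φ / nu β φ)
      (-(ff β φ * ((1 + tt φ ^ 2) / 2 * aa β φ) / nu β φ ^ 3)) φ ∧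
    HasDerivAt (fun φ => ff β φ / nu β φ)
      ((ee β φ * ((1 + tt φ ^ 2) / 2 * aa β φ) / nu β φ ^ 3)) φ := by
  have he : HasDerivAt (ee β) (-((1 + tt φ ^ 2) / 2 * bb β φ + tt φ * (β * ee β φ))) φ := by
    have := ((tt_hasDerivAt h).mul (bb_hasDerivAt hβ h)).const_sub 1
    refine this.congr_deriv ?_
    rw [ee, tt]
  have hf : HasDerivAt (ff β) ((1 + tt φ ^ 2) / 2 * aa β φ - β * tt φ * ff β φ) φ := by
    have := ((tt_hasDerivAt h).mul (aa_hasDerivAt hβ h))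
    refine this.congr_deriv ?_
    rw [ff, tt]
    ring
  have hnsq := nusq_pos hβ h
  have hn := nu_pos hβ h
  have hnu : HasDerivAt (nu β) ((ee β φ * (-((1 + tt φ ^ 2) / 2 * bb β φ + tt φ * (β * ee β φ)))
      + ff β φ * ((1 + tt φ ^ 2) / 2 * aa β φ - β * tt φ * ff β φ)) / nu β φ) φ := by
    have h1 := ((he.pow 2).add (hf.pow 2)).sqrt hnsq.ne'
    refine h1.congr_deriv ?_
    simp only [Pi.pow_apply, Pi.add_apply]
    rw [← nu]
    field_simp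
    ring
  have hsq := nu_sq hβ h
  have hab := ea_fb β φ
  constructor
  · refine (he.div hnu hn.ne').congr_deriv ?_
    field_simp
    rw [hsq]
    linear_combination (-(1 + tt φ ^ 2) * ff β φ) * hab
  · refine (hf.div hnu hn.ne').congr_deriv ?_
    field_simp
    rw [hsq]
    linear_combination ((1 + tt φ ^ 2) * ee β φ) * hab

end Pool.Agent.TH242.AC
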