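import Mathlib
import Pool.Agent.TH242.AC.Geom

open Complex Metric Set Filter Topology

namespace Pool.Agent.TH242.AC

/-- the inner product of the normal at `φ` with the chord from `ψ` to `φ` -/
noncomputable def dt (β φ ψ : ℝ) : ℝ :=
  ee β φ * (aa β φ - aa β ψ) + ff β φ * (bb β φ - bb β ψ)

/-- the key inequality between normal component and length of chords of the image curve -/
def MR (β : ℝ) : Prop := ∀ φ ∈ Ioo (-Real.pi) Real.pi, ∀ ψ ∈ Ioo (-Real.pi) Real.pi, φ ≠ ψ →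
  dt β φ ψ < cc β φ * ds β φ ψ

lemma dt_neg (β φ ψ : ℝ) : dt β (-φ) (-ψ) = dt β φ ψ := by
  rw [dt, dt, ee_neg, ff_neg, aa_neg, aa_neg, bb_neg, bb_neg]; ring

lemma ds_neg (β φ ψ : ℝ) : ds β (-φ) (-ψ) = ds β φ ψ := by
  rw [ds, ds, aa_neg, aa_neg, bb_neg, bb_neg]; ring

/-- inner touching discs of a fixed radius contain the curve in their complement -/
lemma same_side {β g : ℝ} (hβ : 1 < β) (hg : 0 < g)
    (G1 : ∀ φ ∈ Ico 0 Real.pi, (1 + tt φ ^ 2) / (2 * β) * aa β φ ≤ 2 * g * nu β φ ^ 3)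
    {φ ψ : ℝ} (hφ : φ ∈ Ico 0 Real.pi) (hψ : ψ ∈ Ico 0 Real.pi) :
    dt β φ ψ ≤ g * nu β φ * ds β φ ψ := by
  have hφ' := mem_of_Ico hφ
  have hψ' := mem_of_Ico hψ
  have hβ0 : 0 < β := by linarith
  set r : ℝ := 1 / (2 * g) with hr
  have hr0 : 0 < r := by positivity
  have hder : ∀ u ∈ Ico 0 Real.pi, HasDerivAt (fun v => ee β ψ * (aa β v - r * (ee β v / nu β v))
      + ff β ψ * (bb β v - r * (ff β v / nu β v)))
      (-(β * (ee β ψ * ff β u - ff β ψ * ee β u)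
        * (1 - r * ((1 + tt u ^ 2) / (2 * β) * aa β u) / nu β u ^ 3))) u := by
    intro u hu
    have hu' := mem_of_Ico hu
    obtain ⟨h1, h2⟩ := n1_hasDerivAt hβ hu'
    have h3 := (((aa_hasDerivAt hβ hu').sub (h1.const_mul r)).const_mul (ee β ψ)).add
      (((bb_hasDerivAt hβ hu').sub (h2.const_mul r)).const_mul (ff β ψ))
    refine h3.congr_deriv ?_
    have hn := nu_pos hβ hu'
    have e1 : β * Real.tan (u / 2) * aa β u = β * ff β u := by rw [ff, tt]; ring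
    have e2 : β * (1 - Real.tan (u / 2) * bb β u) = β * ee β u := by rw [ee, tt]
    rw [e1, e2]
    field_simp
    ring
  have hfac : ∀ u ∈ Ico 0 Real.pi,
      0 ≤ 1 - r * ((1 + tt u ^ 2) / (2 * β) * aa β u) / nu β u ^ 3 := by
    intro u hu
    have hn := nu_pos hβ (mem_of_Ico hu)
    have h1 := G1 u hu
    have hn3 : 0 < nu β u ^ 3 := by positivity
    rw [sub_nonneg, div_le_one hn3]
    calc r * ((1 + tt u ^ 2) / (2 * β) * aa β u) ≤ r * (2 * g * nu β u ^ 3) :=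
          mul_le_mul_of_nonneg_left h1 hr0.le
      _ = nu β u ^ 3 := by rw [hr]; field_simp
  -- the monotonicity
  have hmono : ee β ψ * (aa β φ - r * (ee β φ / nu β φ)) + ff β ψ * (bb β φ - r * (ff β φ / nu β φ))
      ≤ ee β ψ * (aa β ψ - r * (ee β ψ / nu β ψ)) + ff β ψ * (bb β ψ - r * (ff β ψ / nu β ψ)) := by
    rcases le_total ψ φ with hle | hle
    · have := mono_of_deriv (f := fun v => -(ee β ψ * (aa β v - r * (ee β v / nu β v))
        + ff β ψ * (bb β v - r * (ff β v / nu β v)))) (f' := fun u =>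
        -(-(β * (ee β ψ * ff β u - ff β ψ * ee β u)
        * (1 - r * ((1 + tt u ^ 2) / (2 * β) * aa β u) / nu β u ^ 3)))) hle
        (fun u hu => (hder u ⟨hψ.1.trans hu.1, hu.2.trans_lt hφ.2⟩).neg)
        (fun u hu => by
          have hc := cross_nonneg hβ hψ.1 hu.1.le (hu.2.trans hφ.2)
          have hf := hfac u ⟨hψ.1.trans hu.1.le, hu.2.trans hφ.2⟩
          rw [neg_neg]
          positivity)
      linarith
    · have := mono_of_deriv (f := fun v => (ee β ψ * (aa β v - r * (ee β v / nu β v))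
        + ff β ψ * (bb β v - r * (ff β v / nu β v)))) (f' := fun u =>
        (-(β * (ee β ψ * ff β u - ff β ψ * ee β u)
        * (1 - r * ((1 + tt u ^ 2) / (2 * β) * aa β u) / nu β u ^ 3)))) hle
        (fun u hu => (hder u ⟨hφ.1.trans hu.1, hu.2.trans_lt hψ.2⟩))
        (fun u hu => by
          have hc := cross_nonneg hβ (hφ.1.trans hu.1.le) hu.2.le hψ.2
          have hf := hfac u ⟨hφ.1.trans hu.1.le, hu.2.trans hψ.2⟩
          have e : -(β * (ee β ψ * ff β u - ff β ψ * ee β u) *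
            (1 - r * ((1 + tt u ^ 2) / (2 * β) * aa β u) / nu β u ^ 3)) =
            β * (ee β u * ff β ψ - ff β u * ee β ψ) *
            (1 - r * ((1 + tt u ^ 2) / (2 * β) * aa β u) / nu β u ^ 3) := by ring
          rw [e]
          positivity)
      simpa using this
  have hnφ := nu_pos hβ hφ'
  have hnψ := nu_pos hβ hψ'
  have hsφ := nu_sq hβ hφ'
  have hsψ := nu_sq hβ hψ'
  set n1 := ee β φ / nu β φ with hn1
  set n2 := ff β φ / nu β φ with hn2
  set k1 := ee β ψ / nu β ψ with hk1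
  set k2 := ff β ψ / nu β ψ with hk2
  have u1 : n1 ^ 2 + n2 ^ 2 = 1 := by rw [hn1, hn2]; field_simp; exact hsφ.symm
  have u2 : k1 ^ 2 + k2 ^ 2 = 1 := by rw [hk1, hk2]; field_simp; exact hsψ.symm
  have eφ : ee β φ = nu β φ * n1 := by rw [hn1]; field_simp
  have fφ : ff β φ = nu β φ * n2 := by rw [hn2]; field_simp
  have eψ : ee β ψ = nu β ψ * k1 := by rw [hk1]; field_simp
  have fψ : ff β ψ = nu β ψ * k2 := by rw [hk2]; field_simp
  rw [eψ, fψ] at hmono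
  have h1 : nu β ψ * (k1 * ((aa β φ - r * n1) - (aa β ψ - r * k1))
      + k2 * ((bb β φ - r * n2) - (bb β ψ - r * k2))) ≤ 0 := by linarith
  have h2 : k1 * ((aa β φ - r * n1) - (aa β ψ - r * k1))
      + k2 * ((bb β φ - r * n2) - (bb β ψ - r * k2)) ≤ 0 := by
    by_contra hcon
    push Not at hcon
    have := mul_pos hnψ hcon
    linarith
  have h3 : 0 ≤ ds β φ ψ - 2 * r * (n1 * (aa β φ - aa β ψ) + n2 * (bb β φ - bb β ψ)) := by
    have e : ds β φ ψ - 2 * r * (n1 * (aa β φ - aa β ψ) + n2 * (bb β φ - bb β ψ))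
      = ((aa β φ - r * n1) - (aa β ψ - r * k1)) ^ 2 + ((bb β φ - r * n2) - (bb β ψ - r * k2)) ^ 2
        - 2 * r * (k1 * ((aa β φ - r * n1) - (aa β ψ - r * k1))
      + k2 * ((bb β φ - r * n2) - (bb β ψ - r * k2)))
        + r ^ 2 * ((k1 ^ 2 + k2 ^ 2) - (n1 ^ 2 + n2 ^ 2)) := by
      rw [ds]; ring
    rw [e, u1, u2]
    have := mul_nonneg hr0.le (neg_nonneg.mpr h2)
    nlinarith [sq_nonneg ((aa β φ - r * n1) - (aa β ψ - r * k1)),
      sq_nonneg ((bb β φ - r * n2) - (bb β ψ - r * k2))]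
  have h4 : dt β φ ψ = nu β φ * (n1 * (aa β φ - aa β ψ) + n2 * (bb β φ - bb β ψ)) := by
    rw [dt, eφ, fφ]; ring
  have h5 : n1 * (aa β φ - aa β ψ) + n2 * (bb β φ - bb β ψ) ≤ g * ds β φ ψ := by
    have e : g * ds β φ ψ - (n1 * (aa β φ - aa β ψ) + n2 * (bb β φ - bb β ψ)) =
      g * (ds β φ ψ - 2 * r * (n1 * (aa β φ - aa β ψ) + n2 * (bb β φ - bb β ψ))) := by
      rw [hr]; field_simp
    have := mul_nonneg hg.le h3
    linarith
  rw [h4]
  calc nu β φ * (n1 * (aa β φ - aa β ψ) + n2 * (bb β φ - bb β ψ))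
      ≤ nu β φ * (g * ds β φ ψ) := mul_le_mul_of_nonneg_left h5 hnφ.le
    _ = g * nu β φ * ds β φ ψ := by ring

/-- `MR` from an inequality on one side and a reflection -/
lemma MR_of_same {β : ℝ} (hβ : 1 < β)
    (hsame : ∀ φ ∈ Ico 0 Real.pi, ∀ ψ ∈ Ico 0 Real.pi, φ ≠ ψ → dt β φ ψ < cc β φ * ds β φ ψ)
    (G3 : ∀ φ ∈ Ioo 0 Real.pi, tt φ * aa β φ < 2 * cc β φ * bb β φ) : MR β := by
  have hpos : ∀ φ ∈ Ico 0 Real.pi, ∀ ψ ∈ Ioo (-Real.pi) Real.pi, φ ≠ ψ →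
      dt β φ ψ < cc β φ * ds β φ ψ := by
    intro φ hφ ψ hψ hne
    rcases le_or_gt 0 ψ with h0 | h0
    · exact hsame φ hφ ψ ⟨h0, hψ.2⟩ hne
    · have hψ2 : -ψ ∈ Ioo 0 Real.pi := ⟨by linarith, by linarith [hψ.1]⟩
      have hb := bb_pos hβ hψ2
      have e1 : dt β φ ψ = dt β φ (-ψ) + 2 * bb β (-ψ) * ff β φ := by
        rw [dt, dt, aa_neg, bb_neg]; ring
      have e2 : ds β φ ψ = ds β φ (-ψ) + 4 * bb β φ * bb β (-ψ) := by
        rw [ds, ds, aa_neg, bb_neg]; ring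
      rw [e1, e2]
      have hle : dt β φ (-ψ) ≤ cc β φ * ds β φ (-ψ) := by
        rcases eq_or_ne φ (-ψ) with h | h
        · rw [← h]; simp [dt, ds]
        · exact (hsame φ hφ _ ⟨hψ2.1.le, hψ2.2⟩ h).le
      rcases eq_or_lt_of_le hφ.1 with h | h
      · have hlt : dt β φ (-ψ) < cc β φ * ds β φ (-ψ) :=
          hsame φ hφ _ ⟨hψ2.1.le, hψ2.2⟩ (by rw [← h]; exact hψ2.1.ne)
        rw [← h] at hlt ⊢
        rw [bb_zero, ff, tt_zero]
        linarith
      · have h3 := G3 φ ⟨h, hφ.2⟩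
        have h4 : bb β (-ψ) * (tt φ * aa β φ) < bb β (-ψ) * (2 * cc β φ * bb β φ) :=
          mul_lt_mul_of_pos_left h3 hb
        have e3 : ff β φ = tt φ * aa β φ := rfl
        rw [e3]
        linarith
  intro φ hφ ψ hψ hne
  rcases le_or_gt 0 φ with h0 | h0
  · exact hpos φ ⟨h0, hφ.2⟩ ψ hψ hne
  · have := hpos (-φ) ⟨by linarith, by linarith [hφ.1]⟩ (-ψ)
      ⟨by linarith [hψ.2], by linarith [hψ.1]⟩ (by intro h; exact hne (neg_injective h))
    rwa [dt_neg, ds_neg, cc_neg] at this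

theorem MR_of_G {β g : ℝ} (hβ : 1 < β) (hg : 0 < g)
    (G1 : ∀ φ ∈ Ico 0 Real.pi, (1 + tt φ ^ 2) / (2 * β) * aa β φ ≤ 2 * g * nu β φ ^ 3)
    (G2 : ∀ φ ∈ Ico 0 Real.pi, g * nu β φ < cc β φ)
    (G3 : ∀ φ ∈ Ioo 0 Real.pi, tt φ * aa β φ < 2 * cc β φ * bb β φ) : MR β := by
  apply MR_of_same hβ _ G3
  intro φ hφ ψ hψ hne
  have h1 := same_side hβ hg G1 hφ hψ
  have h2 := ds_pos_same hβ hφ hψ hne
  have h3 := mul_lt_mul_of_pos_right (G2 φ hφ) h2
  linarith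

end Pool.Agent.TH242.AC
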