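import Mathlib
import Pool.Agent.TH242.AC.Geom2

open Complex Metric Set Filter Topology

namespace Pool.Agent.TH242.AC

noncomputable def VI (β φ ψ : ℝ) : ℝ :=
  ee β ψ * (bb β φ - bb β ψ) - ff β ψ * (aa β φ - aa β ψ)

lemma bp_pi : bp Real.pi = 1 := by rw [bp, Complex.exp_pi_mul_I, neg_neg]

lemma bp_continuous : Continuous bp := by unfold bp; fun_prop

lemma Rb_continuous {β : ℝ} (hβ : 1 < β) : Continuous (fun φ : ℝ => Rf β (bp φ)) := by
  have h := Rf_continuousOn hβ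
  exact h.comp_continuous bp_continuous (fun φ => by simp [norm_bp])

lemma aa_continuous {β : ℝ} (hβ : 1 < β) : Continuous (aa β) :=
  continuous_re.comp (Rb_continuous hβ)

lemma bb_continuous {β : ℝ} (hβ : 1 < β) : Continuous (bb β) :=
  continuous_im.comp (Rb_continuous hβ)

lemma aa_pi (β : ℝ) : aa β Real.pi = 0 := by rw [aa, bp_pi, Rf_one, zero_re]
lemma bb_pi (β : ℝ) : bb β Real.pi = 0 := by rw [bb, bp_pi, Rf_one, zero_im]

lemma aa_hasDerivAt' {β : ℝ} (hβ : 1 < β) {φ : ℝ} (h : φ ∈ Ioo (-Real.pi) Real.pi) :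
    HasDerivAt (aa β) (-(β * ff β φ)) φ := by
  refine (aa_hasDerivAt hβ h).congr_deriv ?_
  rw [ff, tt]; ring

lemma bb_hasDerivAt' {β : ℝ} (hβ : 1 < β) {φ : ℝ} (h : φ ∈ Ioo (-Real.pi) Real.pi) :
    HasDerivAt (bb β) (β * ee β φ) φ := by
  refine (bb_hasDerivAt hβ h).congr_deriv ?_
  rw [ee, tt]

lemma dt_hasDerivAt {β : ℝ} (hβ : 1 < β) {φ : ℝ} (h : φ ∈ Ioo (-Real.pi) Real.pi) (ψ : ℝ) :
    HasDerivAt (fun φ => dt β ψ φ) (β * (ee β ψ * ff β φ - ff β ψ * ee β φ)) φ := by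
  have h1 := (((aa_hasDerivAt' hβ h).const_sub (aa β ψ)).const_mul (ee β ψ)).add
    (((bb_hasDerivAt' hβ h).const_sub (bb β ψ)).const_mul (ff β ψ))
  refine h1.congr_deriv ?_
  ring

lemma VI_hasDerivAt {β : ℝ} (hβ : 1 < β) {φ : ℝ} (h : φ ∈ Ioo (-Real.pi) Real.pi) (ψ : ℝ) :
    HasDerivAt (fun φ => VI β φ ψ) (β * (ee β ψ * ee β φ + ff β ψ * ff β φ)) φ := by
  have h1 := (((bb_hasDerivAt' hβ h).sub_const (bb β ψ)).const_mul (ee β ψ)).sub
    (((aa_hasDerivAt' hβ h).sub_const (aa β ψ)).const_mul (ff β ψ))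
  refine h1.congr_deriv ?_
  ring

/-- strict convexity of the graph of `F` over `T` -/
lemma dt_pos {β : ℝ} (hβ : 1 < β) {φ ψ : ℝ} (h : φ ∈ Ioo (-Real.pi) Real.pi)
    (h' : ψ ∈ Ioo (-Real.pi) Real.pi) (hne : φ ≠ ψ) : 0 < dt β ψ φ := by
  have ha := aa_pos hβ h
  have ha' := aa_pos hβ h'
  have e1 : dt β ψ φ = aa β φ * aa β ψ * ((FF β φ - tt ψ * TT β φ) - (FF β ψ - tt ψ * TT β ψ)) := by
    rw [dt, ee, ff, FF, FF, TT, TT]
    field_simp
    ring
  rw [e1]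
  apply mul_pos (mul_pos ha ha')
  have hder : ∀ u ∈ Ioo (-Real.pi) Real.pi,
      HasDerivAt (fun u => FF β u - tt ψ * TT β u) (β * FF β u * (tt u - tt ψ)) u := by
    intro u hu
    refine ((FF_hasDerivAt hβ hu).sub ((TT_hasDerivAt hβ hu).const_mul (tt ψ))).congr_deriv ?_
    ring
  rcases lt_or_gt_of_ne hne with hlt | hlt
  · have hsub : ∀ u ∈ Icc φ ψ, u ∈ Ioo (-Real.pi) Real.pi := fun u hu =>
      ⟨h.1.trans_le hu.1, hu.2.trans_lt h'.2⟩
    have := strictMono_of_deriv (f := fun u => -(FF β u - tt ψ * TT β u))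
      (f' := fun u => -(β * FF β u * (tt u - tt ψ))) hlt
      (fun u hu => (hder u (hsub u hu)).neg) (fun u hu => by
        have h1 := FF_pos hβ (hsub u (Ioo_subset_Icc_self hu))
        have h2 := tt_lt (hsub u (Ioo_subset_Icc_self hu)) h' hu.2
        have h3 : 0 < β * FF β u * (tt ψ - tt u) := by
          have : 0 < tt ψ - tt u := by linarith
          positivity
        linarith)
    linarith
  · have hsub : ∀ u ∈ Icc ψ φ, u ∈ Ioo (-Real.pi) Real.pi := fun u hu =>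
      ⟨h'.1.trans_le hu.1, hu.2.trans_lt h.2⟩
    have := strictMono_of_deriv (f := fun u => (FF β u - tt ψ * TT β u))
      (f' := fun u => (β * FF β u * (tt u - tt ψ))) hlt
      (fun u hu => (hder u (hsub u hu))) (fun u hu => by
        have h1 := FF_pos hβ (hsub u (Ioo_subset_Icc_self hu))
        have h2 := tt_lt h' (hsub u (Ioo_subset_Icc_self hu)) hu.1
        have : 0 < tt u - tt ψ := by linarith
        positivity)
    linarith

lemma ds_pos {β : ℝ} (hβ : 1 < β) {φ ψ : ℝ} (h : φ ∈ Ioo (-Real.pi) Real.pi)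
    (h' : ψ ∈ Ioo (-Real.pi) Real.pi) (hne : φ ≠ ψ) : 0 < ds β φ ψ := by
  have h1 := dt_pos hβ h h' hne
  by_contra hcon
  push Not at hcon
  rw [ds] at hcon
  have hx : aa β φ - aa β ψ = 0 := by
    nlinarith [sq_nonneg (aa β φ - aa β ψ), sq_nonneg (bb β φ - bb β ψ)]
  have hy : bb β φ - bb β ψ = 0 := by
    nlinarith [sq_nonneg (aa β φ - aa β ψ), sq_nonneg (bb β φ - bb β ψ)]
  rw [dt] at h1
  have hx' : aa β ψ - aa β φ = 0 := by linarith
  have hy' : bb β ψ - bb β φ = 0 := by linarith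
  rw [hx', hy'] at h1
  simp at h1

/-- the turning angle -/
noncomputable def GG (β φ ψ : ℝ) : ℝ := (φ - ψ) / 2 +
  (1 - 1 / (2 * β)) * (Real.arctan (TT β φ) - Real.arctan (TT β ψ))

noncomputable def AA (β φ ψ : ℝ) : ℝ := Real.arctan (VI β φ ψ / dt β ψ φ) + GG β φ ψ

lemma GG_hasDerivAt {β : ℝ} (hβ : 1 < β) {φ : ℝ} (h : φ ∈ Ioo (-Real.pi) Real.pi) (ψ : ℝ) :
    HasDerivAt (fun φ => GG β φ ψ) (β * cc β φ) φ := by
  have h1 : HasDerivAt (fun φ : ℝ => (φ - ψ) / 2) (1 / 2) φ :=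
    ((hasDerivAt_id φ).sub_const ψ).div_const 2
  have h2 := (((TT_hasDerivAt hβ h).arctan).sub_const (Real.arctan (TT β ψ))).const_mul
    (1 - 1 / (2 * β))
  refine (h1.add h2).congr_deriv ?_
  have ha := aa_pos hβ h
  have hβ0 : β ≠ 0 := by linarith
  have h3 : 0 < aa β φ ^ 2 + bb β φ ^ 2 := by positivity
  rw [cc, XX, FF, TT]
  field_simp

lemma AA_hasDerivAt {β : ℝ} (hβ : 1 < β) {φ ψ : ℝ} (h : φ ∈ Ioo (-Real.pi) Real.pi)
    (h' : ψ ∈ Ioo (-Real.pi) Real.pi) (hne : φ ≠ ψ) :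
    HasDerivAt (fun φ => AA β φ ψ) (β * (cc β φ - dt β φ ψ / ds β φ ψ)) φ := by
  have hd := dt_pos hβ h h' hne
  have h1 := ((VI_hasDerivAt hβ h ψ).div (dt_hasDerivAt hβ h ψ) hd.ne').arctan
  refine (h1.add (GG_hasDerivAt hβ h ψ)).congr_deriv ?_
  have hds := ds_pos hβ h h' hne
  have hn := nusq_pos hβ h'
  have e1 : dt β ψ φ ^ 2 + VI β φ ψ ^ 2 = (ee β ψ ^ 2 + ff β ψ ^ 2) * ds β φ ψ := by
    rw [dt, VI, ds]; ring
  have e2 : β * (ee β ψ * ee β φ + ff β ψ * ff β φ) * dt β ψ φ -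
      VI β φ ψ * (β * (ee β ψ * ff β φ - ff β ψ * ee β φ)) =
      - (β * ((ee β ψ ^ 2 + ff β ψ ^ 2) * dt β φ ψ)) := by
    rw [dt, dt, VI]; ring
  have e3 : (1 / (1 + (VI β φ ψ / dt β ψ φ) ^ 2)) *
      ((β * (ee β ψ * ee β φ + ff β ψ * ff β φ) * dt β ψ φ -
      VI β φ ψ * (β * (ee β ψ * ff β φ - ff β ψ * ee β φ))) / dt β ψ φ ^ 2)
      = - (β * (dt β φ ψ / ds β φ ψ)) := by
    rw [e2]
    have e4 : (1 / (1 + (VI β φ ψ / dt β ψ φ) ^ 2)) = dt β ψ φ ^ 2 /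
      ((ee β ψ ^ 2 + ff β ψ ^ 2) * ds β φ ψ) := by
      rw [← e1]; field_simp
    rw [e4]
    field_simp
  have e5 : (fun φ => VI β φ ψ) φ = VI β φ ψ := rfl
  simp only [Pi.div_apply]
  rw [e3]
  ring

lemma TT_tendsto {β : ℝ} (hβ : 1 < β) : Tendsto (TT β) (𝓝[<] Real.pi) atTop := by
  have hlam := aa_zero_pos hβ
  have hpi := Real.pi_pos
  have h1 : ∀ φ ∈ Ico 0 Real.pi, 2 * β / aa β 0 * tt φ ≤ TT β φ := by
    intro φ hφ
    have hsub : ∀ u ∈ Icc 0 φ, u ∈ Ioo (-Real.pi) Real.pi := fun u hu =>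
      ⟨by linarith [hu.1], hu.2.trans_lt hφ.2⟩
    have := mono_of_deriv (f := fun u => TT β u - 2 * β / aa β 0 * tt u)
      (f' := fun u => β * FF β u - 2 * β / aa β 0 * ((1 + tt u ^ 2) / 2)) hφ.1
      (fun u hu => (TT_hasDerivAt hβ (hsub u hu)).sub
        ((tt_hasDerivAt (hsub u hu)).const_mul (2 * β / aa β 0)))
      (fun u hu => by
        have hu' := hsub u (Ioo_subset_Icc_self hu)
        have hc := cos_half_pos hu'
        have h2 : 1 + tt u ^ 2 = 1 / Real.cos (u/2) ^ 2 := by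
          rw [tt, Real.tan_eq_sin_div_cos]
          field_simp
          have := Real.sin_sq_add_cos_sq (u/2)
          linarith
        have h3 : Real.cos (u/2) ^ (2 * β) ≤ Real.cos (u/2) ^ 2 := by
          rw [← Real.rpow_natCast (Real.cos (u/2)) 2]
          apply Real.rpow_le_rpow_of_exponent_ge hc (Real.cos_le_one _)
          push_cast; linarith
        have h4 : 1 / Real.cos (u/2) ^ 2 ≤ 1 / Real.cos (u/2) ^ (2 * β) :=
          one_div_le_one_div_of_le (Real.rpow_pos_of_pos hc _) h3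
        rw [h2, FF, aa_formula hβ hu']
        have e : β * (1 / (aa β 0 * Real.cos (u / 2) ^ (2 * β))) - 2 * β / aa β 0 *
            ((1 / Real.cos (u / 2) ^ 2) / 2) = β / aa β 0 *
            (1 / Real.cos (u / 2) ^ (2 * β) - 1 / Real.cos (u / 2) ^ 2) := by
          field_simp
        rw [e]
        have : 0 ≤ 1 / Real.cos (u / 2) ^ (2 * β) - 1 / Real.cos (u / 2) ^ 2 := by linarith
        positivity)
    simp only [TT_zero, tt_zero] at this
    linarith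
  have h2 : Tendsto tt (𝓝[<] Real.pi) atTop := by
    have h3 : Tendsto (fun φ : ℝ => φ / 2) (𝓝[<] Real.pi) (𝓝[<] (Real.pi / 2)) := by
      apply tendsto_nhdsWithin_iff.mpr
      constructor
      · have : Continuous (fun φ : ℝ => φ / 2) := by fun_prop
        exact (this.tendsto Real.pi).mono_left nhdsWithin_le_nhds
      · filter_upwards [self_mem_nhdsWithin] with φ hφ
        have : φ < Real.pi := hφ
        simp only [mem_Iio]
        linarith
    exact Real.tendsto_tan_pi_div_two.comp h3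
  have hpos : 0 < 2 * β / aa β 0 := by positivity
  have h3 : Tendsto (fun φ => 2 * β / aa β 0 * tt φ) (𝓝[<] Real.pi) atTop :=
    h2.const_mul_atTop hpos
  refine tendsto_atTop_mono' _ ?_ h3
  have : ∀ᶠ φ : ℝ in 𝓝[<] Real.pi, 0 < φ :=
    (lt_mem_nhds hpi : ∀ᶠ φ : ℝ in 𝓝 Real.pi, 0 < φ).filter_mono nhdsWithin_le_nhds
  filter_upwards [this, self_mem_nhdsWithin] with φ h0 hφ
  exact h1 φ ⟨h0.le, hφ⟩

lemma arctan_TT_tendsto {β : ℝ} (hβ : 1 < β) :
    Tendsto (fun φ => Real.arctan (TT β φ)) (𝓝[<] Real.pi) (𝓝 (Real.pi / 2)) :=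
  (tendsto_nhds_of_tendsto_nhdsWithin Real.tendsto_arctan_atTop).comp (TT_tendsto hβ)

end Pool.Agent.TH242.AC
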