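import Mathlib
import Pool.Agent.TH242.AC.Angle

open Complex Metric Set Filter Topology

namespace Pool.Agent.TH242.AC

noncomputable def Lend (β ψ : ℝ) : ℝ :=
  Real.arctan ((ff β ψ * aa β ψ - ee β ψ * bb β ψ) / aa β ψ) + ((Real.pi - ψ) / 2 +
    (1 - 1 / (2 * β)) * (Real.pi / 2 - Real.arctan (TT β ψ)))

lemma AA_tendsto_end {β : ℝ} (hβ : 1 < β) {ψ : ℝ} (h : ψ ∈ Ioo (-Real.pi) Real.pi) :
    Tendsto (fun φ => AA β φ ψ) (𝓝[<] Real.pi) (𝓝 (Lend β ψ)) := by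
  have ha := aa_pos hβ h
  have h1 : Tendsto (aa β) (𝓝[<] Real.pi) (𝓝 0) := by
    have := (aa_continuous hβ).tendsto Real.pi
    rw [aa_pi] at this
    exact this.mono_left nhdsWithin_le_nhds
  have h2 : Tendsto (bb β) (𝓝[<] Real.pi) (𝓝 0) := by
    have := (bb_continuous hβ).tendsto Real.pi
    rw [bb_pi] at this
    exact this.mono_left nhdsWithin_le_nhds
  have h3 : Tendsto (fun φ => VI β φ ψ) (𝓝[<] Real.pi)
      (𝓝 (ee β ψ * (0 - bb β ψ) - ff β ψ * (0 - aa β ψ))) :=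
    ((h2.sub_const _).const_mul _).sub ((h1.sub_const _).const_mul _)
  have h4 : Tendsto (fun φ => dt β ψ φ) (𝓝[<] Real.pi)
      (𝓝 (ee β ψ * (aa β ψ - 0) + ff β ψ * (bb β ψ - 0))) :=
    ((h1.const_sub _).const_mul _).add ((h2.const_sub _).const_mul _)
  have h5 : ee β ψ * (aa β ψ - 0) + ff β ψ * (bb β ψ - 0) ≠ 0 := by
    rw [sub_zero, sub_zero, ea_fb]; exact ha.ne'
  have h6 := (h3.div h4 h5)
  have h7 := (Real.continuous_arctan.tendsto _).comp h6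
  have h8 : Tendsto (fun φ : ℝ => (φ - ψ) / 2) (𝓝[<] Real.pi) (𝓝 ((Real.pi - ψ) / 2)) := by
    have : Continuous (fun φ : ℝ => (φ - ψ) / 2) := by fun_prop
    exact (this.tendsto Real.pi).mono_left nhdsWithin_le_nhds
  have h9 := ((arctan_TT_tendsto hβ).sub_const (Real.arctan (TT β ψ))).const_mul
    (1 - 1 / (2 * β))
  have h10 := h7.add (h8.add h9)
  rw [Lend]
  have e : (ff β ψ * aa β ψ - ee β ψ * bb β ψ) / aa β ψ =
    (ee β ψ * (0 - bb β ψ) - ff β ψ * (0 - aa β ψ)) /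
      (ee β ψ * (aa β ψ - 0) + ff β ψ * (bb β ψ - 0)) := by
    rw [sub_zero, sub_zero, ea_fb]
    congr 1
    ring
  rw [e]
  exact h10

lemma AA_tendsto_start {β : ℝ} (hβ : 1 < β) {ψ : ℝ} (h : ψ ∈ Ioo (-Real.pi) Real.pi) :
    Tendsto (fun φ => AA β φ ψ) (𝓝[>] ψ) (𝓝 (Real.pi / 2)) := by
  have hV := (hasDerivAt_iff_tendsto_slope.mp (VI_hasDerivAt hβ h ψ)).mono_left
    (nhdsWithin_mono ψ (fun x (hx : x ∈ Ioi ψ) => ne_of_gt hx))
  have hD := (hasDerivAt_iff_tendsto_slope.mp (dt_hasDerivAt hβ h ψ)).mono_left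
    (nhdsWithin_mono ψ (fun x (hx : x ∈ Ioi ψ) => ne_of_gt hx))
  have hn := nusq_pos hβ h
  have e1 : β * (ee β ψ * ee β ψ + ff β ψ * ff β ψ) = β * (ee β ψ ^ 2 + ff β ψ ^ 2) := by ring
  have e2 : β * (ee β ψ * ff β ψ - ff β ψ * ee β ψ) = 0 := by ring
  rw [e1] at hV
  rw [e2] at hD
  have hpi : ∀ᶠ φ in 𝓝[>] ψ, φ < Real.pi :=
    (gt_mem_nhds h.2 : ∀ᶠ φ in 𝓝 ψ, φ < Real.pi).filter_mono nhdsWithin_le_nhds
  have hD' : Tendsto (slope (fun φ => dt β ψ φ) ψ) (𝓝[>] ψ) (𝓝[>] 0) := by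
    apply tendsto_nhdsWithin_iff.mpr
    refine ⟨hD, ?_⟩
    filter_upwards [self_mem_nhdsWithin, hpi] with φ hφ hφ2
    have hφ' : ψ < φ := hφ
    have h1 := dt_pos hβ (φ := φ) ⟨h.1.trans hφ', hφ2⟩ h hφ'.ne'
    have h2 : dt β ψ ψ = 0 := by simp [dt]
    simp only [mem_Ioi]
    rw [slope_def_field, h2, sub_zero]
    exact div_pos h1 (by linarith)
  have hinv := tendsto_inv_nhdsGT_zero.comp hD'
  have hc : 0 < β * (ee β ψ ^ 2 + ff β ψ ^ 2) := by positivity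
  have h1 := hV.pos_mul_atTop hc hinv
  have h2 : Tendsto (fun φ => VI β φ ψ / dt β ψ φ) (𝓝[>] ψ) atTop := by
    refine h1.congr' ?_
    filter_upwards [self_mem_nhdsWithin] with φ hφ
    have hφ' : ψ < φ := hφ
    have h2 : dt β ψ ψ = 0 := by simp [dt]
    have h3 : VI β ψ ψ = 0 := by simp [VI]
    simp only [Function.comp, slope_def_field, h2, h3, sub_zero]
    have : φ - ψ ≠ 0 := sub_ne_zero.mpr hφ'.ne'
    rw [inv_div]
    rw [div_mul_div_comm, mul_comm (φ - ψ) (dt β ψ φ), mul_div_mul_right _ _ this]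
  have h3 : Tendsto (fun φ => Real.arctan (VI β φ ψ / dt β ψ φ)) (𝓝[>] ψ) (𝓝 (Real.pi / 2)) :=
    (tendsto_nhds_of_tendsto_nhdsWithin Real.tendsto_arctan_atTop).comp h2
  have h4 : Tendsto (fun φ => GG β φ ψ) (𝓝[>] ψ) (𝓝 0) := by
    have := ((GG_hasDerivAt hβ h ψ).continuousAt.tendsto).mono_left
      (nhdsWithin_le_nhds (s := Ioi ψ))
    have e : GG β ψ ψ = 0 := by simp [GG]
    rwa [e] at this
  have := h3.add h4
  rwa [add_zero] at this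

lemma AA_mono {β : ℝ} (hβ : 1 < β) (hM : MR β) {ψ φ u : ℝ} (h : ψ ∈ Ioo (-Real.pi) Real.pi)
    (h1 : ψ < φ) (h2 : φ < u) (h3 : u < Real.pi) : AA β φ ψ < AA β u ψ := by
  have hsub : ∀ v ∈ Icc φ u, v ∈ Ioo (-Real.pi) Real.pi := fun v hv =>
    ⟨h.1.trans (h1.trans_le hv.1), hv.2.trans_lt h3⟩
  refine strictMono_of_deriv (f := fun v => AA β v ψ)
    (f' := fun v => β * (cc β v - dt β v ψ / ds β v ψ)) h2
    (fun v hv => AA_hasDerivAt hβ (hsub v hv) h (h1.trans_le hv.1).ne') ?_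
  intro v hv
  have hv' := hsub v (Ioo_subset_Icc_self hv)
  have hne : v ≠ ψ := (h1.trans hv.1).ne'
  have h4 := hM v hv' ψ h hne
  have h5 := ds_pos hβ hv' h hne
  have h6 : dt β v ψ / ds β v ψ < cc β v := (div_lt_iff₀ h5).mpr h4
  have : 0 < cc β v - dt β v ψ / ds β v ψ := by linarith
  have hβ0 : 0 < β := by linarith
  positivity

lemma AA_right {β : ℝ} (hβ : 1 < β) (hM : MR β) {ψ φ : ℝ} (h : ψ ∈ Ioo (-Real.pi) Real.pi)
    (h1 : ψ < φ) (h3 : φ < Real.pi) : Real.pi / 2 < AA β φ ψ ∧ AA β φ ψ < Lend β ψ := by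
  constructor
  · set m := (ψ + φ) / 2 with hm
    have hm1 : ψ < m := by rw [hm]; linarith
    have hm2 : m < φ := by rw [hm]; linarith
    have h4 : Real.pi / 2 ≤ AA β m ψ := by
      refine le_of_tendsto (AA_tendsto_start hβ h) ?_
      have : ∀ᶠ v in 𝓝[>] ψ, v < m :=
        (gt_mem_nhds hm1 : ∀ᶠ v in 𝓝 ψ, v < m).filter_mono nhdsWithin_le_nhds
      filter_upwards [this, self_mem_nhdsWithin] with v hv1 hv2
      exact (AA_mono hβ hM h hv2 hv1 (hm2.trans h3)).le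
    have h5 := AA_mono hβ hM h hm1 hm2 h3
    linarith
  · set m := (φ + Real.pi) / 2 with hm
    have hm1 : φ < m := by rw [hm]; linarith
    have hm2 : m < Real.pi := by rw [hm]; linarith
    have h4 : AA β m ψ ≤ Lend β ψ := by
      refine ge_of_tendsto (AA_tendsto_end hβ h) ?_
      have : ∀ᶠ v in 𝓝[<] Real.pi, m < v :=
        (lt_mem_nhds hm2 : ∀ᶠ v in 𝓝 Real.pi, m < v).filter_mono nhdsWithin_le_nhds
      filter_upwards [this, self_mem_nhdsWithin] with v hv1 hv2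
      exact (AA_mono hβ hM h (h1.trans hm1) hv1 hv2).le
    have h5 := AA_mono hβ hM h h1 hm1 hm2
    linarith

lemma Lend_add {β : ℝ} (ψ : ℝ) :
    Lend β ψ + Lend β (-ψ) = Real.pi + (1 - 1 / (2 * β)) * Real.pi := by
  have e : (ff β (-ψ) * aa β (-ψ) - ee β (-ψ) * bb β (-ψ)) / aa β (-ψ) =
    - ((ff β ψ * aa β ψ - ee β ψ * bb β ψ) / aa β ψ) := by
    rw [ff_neg, aa_neg, ee_neg, bb_neg]; ring
  rw [Lend, Lend, e, TT_neg, Real.arctan_neg, Real.arctan_neg]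
  ring

lemma Lend_lt {β : ℝ} (hβ : 1 < β) (hM : MR β) {ψ : ℝ} (h : ψ ∈ Ioo (-Real.pi) Real.pi) :
    Lend β ψ < 3 * Real.pi / 2 := by
  have h' : -ψ ∈ Ioo (-Real.pi) Real.pi := ⟨by linarith [h.2], by linarith [h.1]⟩
  have hm : -ψ < (-ψ + Real.pi) / 2 := by linarith [h'.2]
  have hm2 : (-ψ + Real.pi) / 2 < Real.pi := by linarith [h'.2]
  have h1 := AA_right hβ hM h' hm hm2
  have h2 := Lend_add (β := β) ψ
  have h3 : 0 < 1 / (2 * β) := by positivity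
  have hpi := Real.pi_pos
  have h4 : 0 < 1 / (2 * β) * Real.pi := by positivity
  nlinarith [h1.1, h1.2]

lemma AA_neg (β φ ψ : ℝ) : AA β (-φ) (-ψ) = - AA β φ ψ := by
  have e1 : VI β (-φ) (-ψ) = - VI β φ ψ := by
    rw [VI, VI, ff_neg, aa_neg, aa_neg, ee_neg, bb_neg, bb_neg]; ring
  rw [AA, AA, e1, dt_neg, neg_div, Real.arctan_neg, GG, GG, TT_neg, TT_neg, Real.arctan_neg,
    Real.arctan_neg]
  ring

lemma cos_AA_neg {β : ℝ} (hβ : 1 < β) (hM : MR β) {ψ φ : ℝ} (h : ψ ∈ Ioo (-Real.pi) Real.pi)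
    (h' : φ ∈ Ioo (-Real.pi) Real.pi) (hne : φ ≠ ψ) : Real.cos (AA β φ ψ) < 0 := by
  rcases lt_or_gt_of_ne hne with hlt | hlt
  · have h1 : -ψ ∈ Ioo (-Real.pi) Real.pi := ⟨by linarith [h.2], by linarith [h.1]⟩
    have h2 := AA_right hβ hM h1 (φ := -φ) (by linarith) (by linarith [h'.1])
    have h3 := Lend_lt hβ hM h1
    rw [AA_neg] at h2
    rw [← Real.cos_neg]
    exact Real.cos_neg_of_pi_div_two_lt_of_lt h2.1 (by linarith [h2.2])
  · have h2 := AA_right hβ hM h hlt h'.2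
    have h3 := Lend_lt hβ hM h
    exact Real.cos_neg_of_pi_div_two_lt_of_lt h2.1 (by linarith [h2.2])

/-- the boundary inequality -/
theorem key_pos {β : ℝ} (hβ : 1 < β) (hM : MR β) {ψ φ : ℝ} (h : ψ ∈ Ioo (-Real.pi) Real.pi)
    (h' : φ ∈ Ioo (-Real.pi) Real.pi) (hne : φ ≠ ψ) :
    0 < -(Real.cos (GG β φ ψ) * dt β ψ φ) + Real.sin (GG β φ ψ) * VI β φ ψ := by
  have hd := dt_pos hβ h' h hne
  have hc := cos_AA_neg hβ hM h h' hne
  rw [AA, Real.cos_add, Real.cos_arctan, Real.sin_arctan] at hc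
  have hs : 0 < Real.sqrt (1 + (VI β φ ψ / dt β ψ φ) ^ 2) := by positivity
  have h1 : 1 / Real.sqrt (1 + (VI β φ ψ / dt β ψ φ) ^ 2) * Real.cos (GG β φ ψ) -
      VI β φ ψ / dt β ψ φ / Real.sqrt (1 + (VI β φ ψ / dt β ψ φ) ^ 2) * Real.sin (GG β φ ψ)
      = (Real.cos (GG β φ ψ) * dt β ψ φ - Real.sin (GG β φ ψ) * VI β φ ψ) /
        (Real.sqrt (1 + (VI β φ ψ / dt β ψ φ) ^ 2) * dt β ψ φ) := by
    field_simp
  rw [h1] at hc
  have h2 : 0 < Real.sqrt (1 + (VI β φ ψ / dt β ψ φ) ^ 2) * dt β ψ φ := by positivity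
  have h3 : Real.cos (GG β φ ψ) * dt β ψ φ - Real.sin (GG β φ ψ) * VI β φ ψ < 0 := by
    by_contra hcon
    push Not at hcon
    exact absurd hc (not_lt.mpr (div_nonneg hcon h2.le))
  linarith

end Pool.Agent.TH242.AC
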