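import Mathlib
import Pool.Agent.TH242.AC.Geom2

open Set

namespace Pool.Agent.TH242.AC

/-- the angle whose half has squared sine `w` -/
noncomputable def fw (w : ℝ) : ℝ := 2 * Real.arcsin (Real.sqrt w)

lemma sin_fw {w : ℝ} (_h0 : 0 ≤ w) (h1 : w < 1) : Real.sin (fw w / 2) = Real.sqrt w := by
  have h : fw w / 2 = Real.arcsin (Real.sqrt w) := by rw [fw]; ring
  rw [h, Real.sin_arcsin]
  · linarith [Real.sqrt_nonneg w]
  · exact Real.sqrt_le_one.mpr h1.le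

lemma cos_fw {w : ℝ} (h0 : 0 ≤ w) (_h1 : w < 1) : Real.cos (fw w / 2) = Real.sqrt (1 - w) := by
  have h : fw w / 2 = Real.arcsin (Real.sqrt w) := by rw [fw]; ring
  rw [h, Real.cos_arcsin, Real.sq_sqrt h0]

lemma fw_zero : fw 0 = 0 := by rw [fw]; simp

lemma fw_mem {w : ℝ} (h0 : 0 ≤ w) (h1 : w < 1) : fw w ∈ Ico 0 Real.pi := by
  have hs : Real.sqrt w < 1 := by
    rw [Real.sqrt_lt' one_pos]; simpa using h1
  have h2 : 0 ≤ Real.arcsin (Real.sqrt w) := Real.arcsin_nonneg.mpr (Real.sqrt_nonneg w)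
  have h3 : Real.arcsin (Real.sqrt w) < Real.pi / 2 := Real.arcsin_lt_pi_div_two.mpr hs
  constructor
  · rw [fw]; linarith
  · rw [fw]; linarith

lemma fw_pos {w : ℝ} (h0 : 0 < w) (h1 : w < 1) : fw w ∈ Ioo 0 Real.pi := by
  have h := fw_mem h0.le h1
  refine ⟨?_, h.2⟩
  have h2 : 0 < Real.arcsin (Real.sqrt w) := Real.arcsin_pos.mpr (Real.sqrt_pos.mpr h0)
  rw [fw]; linarith

lemma fw_mono {v w : ℝ} (h : v ≤ w) : fw v ≤ fw w := by
  rw [fw, fw]
  have := Real.monotone_arcsin (Real.sqrt_le_sqrt h)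
  linarith

lemma fw_sin {φ : ℝ} (h : φ ∈ Ico 0 Real.pi) : fw (Real.sin (φ/2) ^ 2) = φ := by
  have h1 : 0 ≤ φ/2 := by linarith [h.1]
  have h2 : φ/2 < Real.pi/2 := by linarith [h.2]
  have hs : 0 ≤ Real.sin (φ/2) := Real.sin_nonneg_of_nonneg_of_le_pi h1 (by linarith [Real.pi_pos])
  rw [fw, Real.sqrt_sq hs, Real.arcsin_sin (by linarith [Real.pi_pos]) (by linarith)]
  ring

lemma sin_sq_mem {φ : ℝ} (h : φ ∈ Ico 0 Real.pi) : Real.sin (φ/2) ^ 2 ∈ Ico (0:ℝ) 1 := by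
  have hc := cos_half_pos (mem_of_Ico h)
  refine ⟨sq_nonneg _, ?_⟩
  have := Real.sin_sq_add_cos_sq (φ/2)
  have : 0 < Real.cos (φ/2) ^ 2 := by positivity
  linarith

/-- the imaginary part divided by `sin * cos` as a function of `w` -/
noncomputable def gW (β w : ℝ) : ℝ :=
  if w = 0 then 2 * β else bb β (fw w) / (Real.sqrt w * Real.sqrt (1 - w))

/-- the real part divided by `cos ^ 2` as a function of `w` -/
noncomputable def PW (β w : ℝ) : ℝ := aa β (fw w) / (1 - w)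

lemma bb_fw {β w : ℝ} (h0 : 0 ≤ w) (h1 : w < 1) :
    bb β (fw w) = Real.sqrt w * Real.sqrt (1 - w) * gW β w := by
  rw [gW]
  split_ifs with h
  · rw [h, fw_zero, bb_zero]; simp
  · have hw : 0 < w := lt_of_le_of_ne h0 (Ne.symm h)
    have : 0 < Real.sqrt w := Real.sqrt_pos.mpr hw
    have : 0 < Real.sqrt (1 - w) := Real.sqrt_pos.mpr (by linarith)
    field_simp

lemma aa_fw {β w : ℝ} (h1 : w < 1) : aa β (fw w) = (1 - w) * PW β w := by
  rw [PW]
  have : (1 - w) ≠ 0 := by linarith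
  field_simp

lemma PW_pos {β w : ℝ} (hβ : 1 < β) (h0 : 0 ≤ w) (h1 : w < 1) : 0 < PW β w := by
  have := aa_pos hβ (mem_of_Ico (fw_mem h0 h1))
  exact div_pos this (by linarith)

lemma PW_formula {β w : ℝ} (hβ : 1 < β) (h0 : 0 ≤ w) (h1 : w < 1) :
    PW β w = aa β 0 * (1 - w) ^ (β - 1) := by
  have hy : 0 < 1 - w := by linarith
  rw [PW, aa_formula hβ (mem_of_Ico (fw_mem h0 h1)), cos_fw h0 h1]
  have e : Real.sqrt (1 - w) ^ (2 * β) = (1 - w) ^ β := by
    rw [Real.sqrt_eq_rpow, ← Real.rpow_mul hy.le]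
    congr 1; ring
  rw [e, Real.rpow_sub hy, Real.rpow_one]
  ring

lemma gW_pos {β w : ℝ} (hβ : 1 < β) (h0 : 0 ≤ w) (h1 : w < 1) : 0 < gW β w := by
  rw [gW]
  split_ifs with h
  · linarith
  · have hw : 0 < w := lt_of_le_of_ne h0 (Ne.symm h)
    have h2 := bb_pos hβ (fw_pos hw h1)
    have : 0 < Real.sqrt w := Real.sqrt_pos.mpr hw
    have : 0 < Real.sqrt (1 - w) := Real.sqrt_pos.mpr (by linarith)
    positivity

/-- derivative of the comparison function -/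
lemma cmp_hasDerivAt (m k w1 φ : ℝ) :
    HasDerivAt (fun φ => Real.sin (φ/2) * Real.cos (φ/2) * (m + k * (Real.sin (φ/2) ^ 2 - w1)))
      ((Real.cos (φ/2) ^ 2 - Real.sin (φ/2) ^ 2) / 2 * (m + k * (Real.sin (φ/2) ^ 2 - w1)) +
        (Real.sin (φ/2) * Real.cos (φ/2)) ^ 2 * k) φ := by
  have h0 : HasDerivAt (fun φ : ℝ => φ / 2) (1/2) φ := (hasDerivAt_id φ).div_const 2
  have hs : HasDerivAt (fun φ : ℝ => Real.sin (φ/2)) (Real.cos (φ/2) * (1/2)) φ :=
    h0.sin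
  have hc : HasDerivAt (fun φ : ℝ => Real.cos (φ/2)) (-Real.sin (φ/2) * (1/2)) φ :=
    h0.cos
  have h1 := (hs.mul hc).mul (((hs.pow 2).sub_const w1).const_mul k |>.const_add m)
  refine h1.congr_deriv ?_
  simp only [Pi.mul_apply, Pi.pow_apply]
  ring

lemma cmp_key {β : ℝ} {m k w1 φ : ℝ} (hφ : φ ∈ Ioo (-Real.pi) Real.pi) :
    ((Real.cos (φ/2) ^ 2 - Real.sin (φ/2) ^ 2) / 2 * (m + k * (Real.sin (φ/2) ^ 2 - w1)) +
        (Real.sin (φ/2) * Real.cos (φ/2)) ^ 2 * k) + β * tt φ *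
      (Real.sin (φ/2) * Real.cos (φ/2) * (m + k * (Real.sin (φ/2) ^ 2 - w1))) - β =
    Real.sin (φ/2) ^ 2 * (1 - Real.sin (φ/2) ^ 2) * k +
      (1 / 2 + (β - 1) * Real.sin (φ/2) ^ 2) * (m + k * (Real.sin (φ/2) ^ 2 - w1)) - β := by
  have hc := (cos_half_pos hφ).ne'
  have h := Real.sin_sq_add_cos_sq (φ/2)
  have hc2 : Real.cos (φ/2) ^ 2 = 1 - Real.sin (φ/2) ^ 2 := by linarith
  rw [tt, Real.tan_eq_sin_div_cos]
  field_simp
  rw [hc2]
  ring

/-- upper comparison along `w` -/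
lemma gW_upper {β : ℝ} (hβ : 1 < β) {m k w1 w2 : ℝ} (h0 : 0 ≤ w1) (h2 : w2 < 1)
    (hq : ∀ w ∈ Icc w1 w2, 0 ≤ w * (1 - w) * k + (1 / 2 + (β - 1) * w) * (m + k * (w - w1)) - β)
    (hm : gW β w1 ≤ m) : ∀ w ∈ Icc w1 w2, gW β w ≤ m + k * (w - w1) := by
  intro w hw
  have hw0 : 0 ≤ w := h0.trans hw.1
  have hw1 : w < 1 := hw.2.trans_lt h2
  have hw1' : w1 < 1 := hw.1.trans_lt hw1
  rcases eq_or_lt_of_le hw.1 with he | hlt
  · rw [← he]; simpa using hm
  have hwpos : 0 < w := h0.trans_lt hlt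
  set B : ℝ → ℝ := fun φ => Real.sin (φ/2) * Real.cos (φ/2) * (m + k * (Real.sin (φ/2) ^ 2 - w1))
    with hB
  have hmem1 := fw_mem h0 hw1'
  have hmem := fw_mem hw0 hw1
  have hmono := mono_of_deriv (f := fun φ => (B φ - bb β φ) / aa β φ)
    (f' := fun φ => ((((Real.cos (φ/2) ^ 2 - Real.sin (φ/2) ^ 2) / 2 *
        (m + k * (Real.sin (φ/2) ^ 2 - w1)) +
        (Real.sin (φ/2) * Real.cos (φ/2)) ^ 2 * k) + β * tt φ *
      (Real.sin (φ/2) * Real.cos (φ/2) * (m + k * (Real.sin (φ/2) ^ 2 - w1))) - β)) / aa β φ)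
    (fw_mono hlt.le) ?_ ?_
  · have ha := aa_pos hβ (mem_of_Ico hmem)
    have ha1 := aa_pos hβ (mem_of_Ico hmem1)
    have hs1 := sin_fw h0 hw1'
    have hc1 := cos_fw h0 hw1'
    have hs := sin_fw hw0 hw1
    have hc := cos_fw hw0 hw1
    have e1 : B (fw w1) - bb β (fw w1) =
        Real.sqrt w1 * Real.sqrt (1 - w1) * (m - gW β w1) := by
      rw [bb_fw h0 hw1', hB]
      simp only
      rw [hs1, hc1, Real.sq_sqrt h0]; ring
    have e2 : B (fw w) - bb β (fw w) =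
        Real.sqrt w * Real.sqrt (1 - w) * ((m + k * (w - w1)) - gW β w) := by
      rw [bb_fw hw0 hw1, hB]
      simp only
      rw [hs, hc, Real.sq_sqrt hw0]; ring
    have h3 : 0 ≤ (B (fw w1) - bb β (fw w1)) / aa β (fw w1) := by
      rw [e1]
      exact div_nonneg (mul_nonneg (by positivity) (by linarith)) ha1.le
    have h4 : 0 ≤ (B (fw w) - bb β (fw w)) / aa β (fw w) := h3.trans hmono
    have h5 : 0 ≤ B (fw w) - bb β (fw w) := by
      by_contra hcon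
      push Not at hcon
      have := div_neg_of_neg_of_pos hcon ha
      linarith
    rw [e2] at h5
    have hp : 0 < Real.sqrt w * Real.sqrt (1 - w) :=
      mul_pos (Real.sqrt_pos.mpr hwpos) (Real.sqrt_pos.mpr (by linarith))
    have := nonneg_of_mul_nonneg_right h5 hp
    linarith
  · intro φ hφ
    have hφ' : φ ∈ Ioo (-Real.pi) Real.pi :=
      ⟨by linarith [hφ.1, hmem1.1, Real.pi_pos], hφ.2.trans_lt hmem.2⟩
    have ha := (aa_pos hβ hφ').ne'
    have h1 := ((cmp_hasDerivAt m k w1 φ).sub (bb_hasDerivAt hβ hφ')).div (aa_hasDerivAt hβ hφ') ha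
    refine h1.congr_deriv ?_
    rw [tt]
    simp only [Pi.sub_apply]
    field_simp
    ring
  · intro φ hφ
    have hφ' : φ ∈ Ioo (-Real.pi) Real.pi :=
      ⟨by linarith [hφ.1, hmem1.1, Real.pi_pos], hφ.2.trans hmem.2⟩
    have hφ0 : φ ∈ Ico 0 Real.pi := ⟨by linarith [hφ.1, hmem1.1], hφ'.2⟩
    have ha := aa_pos hβ hφ'
    rw [cmp_key hφ']
    apply div_nonneg _ ha.le
    apply hq
    have hsm : ∀ {u v : ℝ}, 0 ≤ u → u ≤ v → v < Real.pi → Real.sin (u/2) ^ 2 ≤ Real.sin (v/2) ^ 2 := by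
      intro u v hu huv hv
      have h1 : 0 ≤ Real.sin (u/2) :=
        Real.sin_nonneg_of_nonneg_of_le_pi (by linarith) (by linarith [Real.pi_pos])
      have h2 : Real.sin (u/2) ≤ Real.sin (v/2) :=
        Real.sin_le_sin_of_le_of_le_pi_div_two (by linarith [Real.pi_pos]) (by linarith) (by linarith)
      exact pow_le_pow_left₀ h1 h2 2
    constructor
    · have := hsm hmem1.1 hφ.1.le hφ'.2
      rwa [sin_fw h0 hw1', Real.sq_sqrt h0] at this
    · have := hsm hφ0.1 hφ.2.le hmem.2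
      rw [sin_fw hw0 hw1, Real.sq_sqrt hw0] at this
      exact this.trans hw.2

/-- lower comparison along `w` -/
lemma gW_lower {β : ℝ} (hβ : 1 < β) {m k w1 w2 : ℝ} (h0 : 0 ≤ w1) (h2 : w2 < 1)
    (hq : ∀ w ∈ Icc w1 w2, w * (1 - w) * k + (1 / 2 + (β - 1) * w) * (m + k * (w - w1)) - β ≤ 0)
    (hm : m ≤ gW β w1) : ∀ w ∈ Icc w1 w2, m + k * (w - w1) ≤ gW β w := by
  intro w hw
  have hw0 : 0 ≤ w := h0.trans hw.1
  have hw1 : w < 1 := hw.2.trans_lt h2
  have hw1' : w1 < 1 := hw.1.trans_lt hw1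
  rcases eq_or_lt_of_le hw.1 with he | hlt
  · rw [← he]; simpa using hm
  have hwpos : 0 < w := h0.trans_lt hlt
  set B : ℝ → ℝ := fun φ => Real.sin (φ/2) * Real.cos (φ/2) * (m + k * (Real.sin (φ/2) ^ 2 - w1))
    with hB
  have hmem1 := fw_mem h0 hw1'
  have hmem := fw_mem hw0 hw1
  have hmono := mono_of_deriv (f := fun φ => (bb β φ - B φ) / aa β φ)
    (f' := fun φ => -((((Real.cos (φ/2) ^ 2 - Real.sin (φ/2) ^ 2) / 2 *
        (m + k * (Real.sin (φ/2) ^ 2 - w1)) +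
        (Real.sin (φ/2) * Real.cos (φ/2)) ^ 2 * k) + β * tt φ *
      (Real.sin (φ/2) * Real.cos (φ/2) * (m + k * (Real.sin (φ/2) ^ 2 - w1))) - β)) / aa β φ)
    (fw_mono hlt.le) ?_ ?_
  · have ha := aa_pos hβ (mem_of_Ico hmem)
    have ha1 := aa_pos hβ (mem_of_Ico hmem1)
    have hs1 := sin_fw h0 hw1'
    have hc1 := cos_fw h0 hw1'
    have hs := sin_fw hw0 hw1
    have hc := cos_fw hw0 hw1
    have e1 : bb β (fw w1) - B (fw w1) =
        Real.sqrt w1 * Real.sqrt (1 - w1) * (gW β w1 - m) := by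
      rw [bb_fw h0 hw1', hB]
      simp only
      rw [hs1, hc1, Real.sq_sqrt h0]; ring
    have e2 : bb β (fw w) - B (fw w) =
        Real.sqrt w * Real.sqrt (1 - w) * (gW β w - (m + k * (w - w1))) := by
      rw [bb_fw hw0 hw1, hB]
      simp only
      rw [hs, hc, Real.sq_sqrt hw0]; ring
    have h3 : 0 ≤ (bb β (fw w1) - B (fw w1)) / aa β (fw w1) := by
      rw [e1]
      exact div_nonneg (mul_nonneg (by positivity) (by linarith)) ha1.le
    have h4 : 0 ≤ (bb β (fw w) - B (fw w)) / aa β (fw w) := h3.trans hmono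
    have h5 : 0 ≤ bb β (fw w) - B (fw w) := by
      by_contra hcon
      push Not at hcon
      have := div_neg_of_neg_of_pos hcon ha
      linarith
    rw [e2] at h5
    have hp : 0 < Real.sqrt w * Real.sqrt (1 - w) :=
      mul_pos (Real.sqrt_pos.mpr hwpos) (Real.sqrt_pos.mpr (by linarith))
    have := nonneg_of_mul_nonneg_right h5 hp
    linarith
  · intro φ hφ
    have hφ' : φ ∈ Ioo (-Real.pi) Real.pi :=
      ⟨by linarith [hφ.1, hmem1.1, Real.pi_pos], hφ.2.trans_lt hmem.2⟩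
    have ha := (aa_pos hβ hφ').ne'
    have h1 := ((bb_hasDerivAt hβ hφ').sub (cmp_hasDerivAt m k w1 φ)).div (aa_hasDerivAt hβ hφ') ha
    refine h1.congr_deriv ?_
    rw [tt]
    simp only [Pi.sub_apply]
    field_simp
    ring
  · intro φ hφ
    have hφ' : φ ∈ Ioo (-Real.pi) Real.pi :=
      ⟨by linarith [hφ.1, hmem1.1, Real.pi_pos], hφ.2.trans hmem.2⟩
    have hφ0 : φ ∈ Ico 0 Real.pi := ⟨by linarith [hφ.1, hmem1.1], hφ'.2⟩
    have ha := aa_pos hβ hφ'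
    rw [cmp_key hφ']
    apply div_nonneg _ ha.le
    rw [neg_nonneg]
    apply hq
    have hsm : ∀ {u v : ℝ}, 0 ≤ u → u ≤ v → v < Real.pi → Real.sin (u/2) ^ 2 ≤ Real.sin (v/2) ^ 2 := by
      intro u v hu huv hv
      have h1 : 0 ≤ Real.sin (u/2) :=
        Real.sin_nonneg_of_nonneg_of_le_pi (by linarith) (by linarith [Real.pi_pos])
      have h2 : Real.sin (u/2) ≤ Real.sin (v/2) :=
        Real.sin_le_sin_of_le_of_le_pi_div_two (by linarith [Real.pi_pos]) (by linarith) (by linarith)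
      exact pow_le_pow_left₀ h1 h2 2
    constructor
    · have := hsm hmem1.1 hφ.1.le hφ'.2
      rwa [sin_fw h0 hw1', Real.sq_sqrt h0] at this
    · have := hsm hφ0.1 hφ.2.le hmem.2
      rw [sin_fw hw0 hw1, Real.sq_sqrt hw0] at this
      exact this.trans hw.2

lemma PW_hasDerivAt {β : ℝ} (hβ : 1 < β) {w : ℝ} (h0 : 0 ≤ w) (h1 : w < 1) :
    HasDerivAt (fun w => aa β 0 * (1 - w) ^ (β - 1)) (-((β - 1) * PW β w / (1 - w))) w := by
  have hy : 0 < 1 - w := by linarith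
  have h2 : HasDerivAt (fun w : ℝ => 1 - w) (-1) w := by
    simpa using (hasDerivAt_id w).const_sub 1
  have h3 := (h2.rpow_const (p := β - 1) (Or.inl hy.ne')).const_mul (aa β 0)
  refine h3.congr_deriv ?_
  rw [PW_formula hβ h0 h1, Real.rpow_sub_one hy.ne']
  field_simp

lemma PW_upper {β : ℝ} (hβ : 1 < β) {m k w1 w2 : ℝ} (h0 : 0 ≤ w1) (h2 : w2 < 1)
    (hq : ∀ w ∈ Icc w1 w2, 0 ≤ (1 - w) * k + (β - 1) * (m + k * (w - w1)))
    (hm : PW β w1 ≤ m) : ∀ w ∈ Icc w1 w2, PW β w ≤ m + k * (w - w1) := by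
  intro w hw
  have hw0 : 0 ≤ w := h0.trans hw.1
  have hw1 : w < 1 := hw.2.trans_lt h2
  have hw1' : w1 < 1 := hw.1.trans_lt hw1
  have hP : ∀ u, 0 ≤ u → u < 1 → 0 < aa β 0 * (1 - u) ^ (β - 1) := fun u hu0 hu1 => by
    rw [← PW_formula hβ hu0 hu1]; exact PW_pos hβ hu0 hu1
  have hmono := mono_of_deriv (f := fun u => (m + k * (u - w1)) / (aa β 0 * (1 - u) ^ (β - 1)))
    (f' := fun u => ((1 - u) * k + (β - 1) * (m + k * (u - w1))) / ((1 - u) * PW β u))
    hw.1 ?_ ?_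
  · beta_reduce at hmono
    rw [← PW_formula hβ h0 hw1', ← PW_formula hβ hw0 hw1, sub_self, mul_zero, add_zero] at hmono
    have hp1 := PW_pos hβ h0 hw1'
    have hp := PW_pos hβ hw0 hw1
    have h3 : 1 ≤ m / PW β w1 := by rw [le_div_iff₀ hp1]; linarith
    have h4 : 1 ≤ (m + k * (w - w1)) / PW β w := h3.trans hmono
    rw [le_div_iff₀ hp] at h4
    linarith
  · intro u hu
    have hu0 : 0 ≤ u := h0.trans hu.1
    have hu1 : u < 1 := hu.2.trans_lt hw1
    have hl : HasDerivAt (fun u : ℝ => m + k * (u - w1)) k u := by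
      have := (((hasDerivAt_id u).sub_const w1).const_mul k).const_add m
      simpa using this
    have h5 := hl.div (PW_hasDerivAt hβ hu0 hu1) (hP u hu0 hu1).ne'
    refine h5.congr_deriv ?_
    rw [← PW_formula hβ hu0 hu1]
    have hp := (PW_pos hβ hu0 hu1).ne'
    have : (1 - u) ≠ 0 := by linarith
    field_simp
    ring
  · intro u hu
    have hu0 : 0 ≤ u := h0.trans hu.1.le
    have hu1 : u < 1 := hu.2.trans hw1
    have hp := (PW_pos hβ hu0 hu1)
    have h6 := hq u ⟨hu.1.le, hu.2.le.trans hw.2⟩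
    exact div_nonneg h6 (mul_nonneg (by linarith) hp.le)

lemma PW_lower {β : ℝ} (hβ : 1 < β) {m k w1 w2 : ℝ} (h0 : 0 ≤ w1) (h2 : w2 < 1)
    (hq : ∀ w ∈ Icc w1 w2, (1 - w) * k + (β - 1) * (m + k * (w - w1)) ≤ 0)
    (hm : m ≤ PW β w1) : ∀ w ∈ Icc w1 w2, m + k * (w - w1) ≤ PW β w := by
  intro w hw
  have hw0 : 0 ≤ w := h0.trans hw.1
  have hw1 : w < 1 := hw.2.trans_lt h2
  have hw1' : w1 < 1 := hw.1.trans_lt hw1
  have hP : ∀ u, 0 ≤ u → u < 1 → 0 < aa β 0 * (1 - u) ^ (β - 1) := fun u hu0 hu1 => by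
    rw [← PW_formula hβ hu0 hu1]; exact PW_pos hβ hu0 hu1
  have hmono := mono_of_deriv (f := fun u => -((m + k * (u - w1)) / (aa β 0 * (1 - u) ^ (β - 1))))
    (f' := fun u => -(((1 - u) * k + (β - 1) * (m + k * (u - w1))) / ((1 - u) * PW β u)))
    hw.1 ?_ ?_
  · beta_reduce at hmono
    rw [← PW_formula hβ h0 hw1', ← PW_formula hβ hw0 hw1, sub_self, mul_zero, add_zero] at hmono
    have hp1 := PW_pos hβ h0 hw1'
    have hp := PW_pos hβ hw0 hw1
    have h3 : m / PW β w1 ≤ 1 := by rw [div_le_one hp1]; exact hm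
    have h4 : (m + k * (w - w1)) / PW β w ≤ 1 := by linarith
    rw [div_le_one hp] at h4
    exact h4
  · intro u hu
    have hu0 : 0 ≤ u := h0.trans hu.1
    have hu1 : u < 1 := hu.2.trans_lt hw1
    have hl : HasDerivAt (fun u : ℝ => m + k * (u - w1)) k u := by
      have := (((hasDerivAt_id u).sub_const w1).const_mul k).const_add m
      simpa using this
    have h5 := (hl.div (PW_hasDerivAt hβ hu0 hu1) (hP u hu0 hu1).ne').neg
    refine h5.congr_deriv ?_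
    rw [← PW_formula hβ hu0 hu1]
    have hp := (PW_pos hβ hu0 hu1).ne'
    have : (1 - u) ≠ 0 := by linarith
    field_simp
    ring
  · intro u hu
    have hu0 : 0 ≤ u := h0.trans hu.1.le
    have hu1 : u < 1 := hu.2.trans hw1
    have hp := (PW_pos hβ hu0 hu1)
    have h6 := hq u ⟨hu.1.le, hu.2.le.trans hw.2⟩
    rw [neg_nonneg]
    exact div_nonpos_of_nonpos_of_nonneg h6 (mul_nonneg (by linarith) hp.le)

end Pool.Agent.TH242.AC
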