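import Mathlib
import Pool.Agent.TH242.AC.WPar

open Set

namespace Pool.Agent.TH242.AC

noncomputable def NW (β w : ℝ) : ℝ := (1 - w * gW β w) ^ 2 + w * (1 - w) * PW β w ^ 2
noncomputable def ZW (β w : ℝ) : ℝ := (1 - w) * PW β w ^ 2 + w * gW β w ^ 2

lemma tt_fw {w : ℝ} (h0 : 0 ≤ w) (h1 : w < 1) : tt (fw w) = Real.sqrt w / Real.sqrt (1 - w) := by
  rw [tt, Real.tan_eq_sin_div_cos, sin_fw h0 h1, cos_fw h0 h1]

lemma one_add_tt_fw {w : ℝ} (h0 : 0 ≤ w) (h1 : w < 1) : 1 + tt (fw w) ^ 2 = 1 / (1 - w) := by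
  have hy : 0 < 1 - w := by linarith
  rw [tt_fw h0 h1, div_pow, Real.sq_sqrt h0, Real.sq_sqrt hy.le]
  field_simp
  ring

lemma ee_fw {β w : ℝ} (h0 : 0 ≤ w) (h1 : w < 1) : ee β (fw w) = 1 - w * gW β w := by
  have hy : 0 < 1 - w := by linarith
  have hs : 0 < Real.sqrt (1 - w) := Real.sqrt_pos.mpr hy
  rw [ee, tt_fw h0 h1, bb_fw h0 h1]
  have h2 := Real.mul_self_sqrt h0
  field_simp
  linear_combination (-gW β w) * h2

lemma ff_fw {β w : ℝ} (h0 : 0 ≤ w) (h1 : w < 1) :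
    ff β (fw w) = Real.sqrt w * Real.sqrt (1 - w) * PW β w := by
  have hy : 0 < 1 - w := by linarith
  have hs : 0 < Real.sqrt (1 - w) := Real.sqrt_pos.mpr hy
  rw [ff, tt_fw h0 h1, aa_fw h1]
  have h2 := Real.mul_self_sqrt hy.le
  field_simp
  linear_combination (-Real.sqrt w * PW β w) * h2

lemma nusq_fw {β w : ℝ} (h0 : 0 ≤ w) (h1 : w < 1) :
    ee β (fw w) ^ 2 + ff β (fw w) ^ 2 = NW β w := by
  have hy : 0 < 1 - w := by linarith
  rw [ee_fw h0 h1, ff_fw h0 h1, NW, mul_pow, mul_pow, Real.sq_sqrt h0, Real.sq_sqrt hy.le]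

lemma absq_fw {β w : ℝ} (h0 : 0 ≤ w) (h1 : w < 1) :
    aa β (fw w) ^ 2 + bb β (fw w) ^ 2 = (1 - w) * ZW β w := by
  have hy : 0 < 1 - w := by linarith
  rw [aa_fw h1, bb_fw h0 h1, ZW, mul_pow, mul_pow, mul_pow, Real.sq_sqrt h0, Real.sq_sqrt hy.le]
  ring

lemma NW_pos {β w : ℝ} (hβ : 1 < β) (h0 : 0 ≤ w) (h1 : w < 1) : 0 < NW β w := by
  rw [← nusq_fw h0 h1]
  exact nusq_pos hβ (mem_of_Ico (fw_mem h0 h1))

lemma ZW_pos {β w : ℝ} (hβ : 1 < β) (h0 : 0 ≤ w) (h1 : w < 1) : 0 < ZW β w := by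
  have hP := PW_pos hβ h0 h1
  have hy : 0 < 1 - w := by linarith
  rw [ZW]
  positivity

lemma XX_fw {β w : ℝ} (h0 : 0 ≤ w) (h1 : w < 1) :
    XX β (fw w) = PW β w / ZW β w := by
  have hy : 0 < 1 - w := by linarith
  rw [XX, absq_fw h0 h1, aa_fw h1]
  rw [mul_div_mul_left _ _ hy.ne']

lemma cc_fw {β w : ℝ} (h0 : 0 ≤ w) (h1 : w < 1) :
    2 * β * cc β (fw w) = β * (1 / β) * (1 + (2 * β - 1) * (PW β w / ZW β w)) := by
  rw [cc, XX_fw h0 h1]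
  rcases eq_or_ne β 0 with h | h
  · rw [h]; simp
  · field_simp

lemma cc_fw' {β w : ℝ} (hβ : 1 < β) (h0 : 0 ≤ w) (h1 : w < 1) :
    2 * β * cc β (fw w) = 1 + (2 * β - 1) * (PW β w / ZW β w) := by
  have h : β ≠ 0 := by linarith
  rw [cc_fw h0 h1]
  field_simp

lemma cube_le_of {x N c : ℝ} (hN : 0 ≤ N) (hc : 0 ≤ c) (h : x ^ 2 ≤ c ^ 2 * N ^ 3) :
    x ≤ c * Real.sqrt N ^ 3 := by
  have h1 : 0 ≤ c * Real.sqrt N ^ 3 := by positivity
  apply le_of_sq_le_sq _ h1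
  calc x ^ 2 ≤ c ^ 2 * N ^ 3 := h
    _ = (c * Real.sqrt N ^ 3) ^ 2 := by
      have := Real.sq_sqrt hN
      calc c ^ 2 * N ^ 3 = c ^ 2 * (Real.sqrt N ^ 2) ^ 3 := by rw [this]
        _ = _ := by ring
where
  le_of_sq_le_sq {a b : ℝ} (h : a ^ 2 ≤ b ^ 2) (hb : 0 ≤ b) : a ≤ b := by
    by_contra hcon
    push Not at hcon
    nlinarith

/-- The curvature type inequality with one constant for each parameter implies `MR`. -/
theorem MR_of_W {β K : ℝ} (hβ : 1 < β) (hK : 0 < K)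
    (H1 : ∀ w ∈ Ico (0:ℝ) 1, PW β w ^ 2 ≤ (2 * β * K) ^ 2 * NW β w ^ 3)
    (H2 : ∀ w ∈ Ico (0:ℝ) 1, (β * K) ^ 2 * NW β w < (1 + (2 * β - 1) * (PW β w / ZW β w)) ^ 2)
    (H3 : ∀ w ∈ Ico (0:ℝ) 1, β * PW β w < (1 + (2 * β - 1) * (PW β w / ZW β w)) * gW β w) :
    MR β := by
  have hβ0 : 0 < β := by linarith
  apply MR_of_G hβ (g := K / 2) (by positivity)
  · intro φ hφ
    obtain ⟨h0, h1⟩ := sin_sq_mem hφ
    rw [← fw_sin hφ]
    set w := Real.sin (φ/2) ^ 2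
    have hy : 0 < 1 - w := by linarith
    rw [one_add_tt_fw h0 h1, aa_fw h1, nu, nusq_fw h0 h1]
    have h2 := cube_le_of (NW_pos hβ h0 h1).le (by positivity) (H1 w ⟨h0, h1⟩)
    have e : 1 / (1 - w) / (2 * β) * ((1 - w) * PW β w) = PW β w / (2 * β) := by field_simp
    rw [e, div_le_iff₀ (by positivity)]
    calc PW β w ≤ 2 * β * K * Real.sqrt (NW β w) ^ 3 := h2
      _ = 2 * (K / 2) * Real.sqrt (NW β w) ^ 3 * (2 * β) := by ring
  · intro φ hφ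
    obtain ⟨h0, h1⟩ := sin_sq_mem hφ
    rw [← fw_sin hφ]
    set w := Real.sin (φ/2) ^ 2
    rw [nu, nusq_fw h0 h1]
    have hc := cc_fw' hβ h0 h1
    have hN := NW_pos hβ h0 h1
    have h2 := H2 w ⟨h0, h1⟩
    have hX : 0 ≤ PW β w / ZW β w := (div_pos (PW_pos hβ h0 h1) (ZW_pos hβ h0 h1)).le
    have h3 : 0 ≤ 1 + (2 * β - 1) * (PW β w / ZW β w) := by
      have : 0 ≤ 2 * β - 1 := by linarith
      positivity
    have h4 : β * K * Real.sqrt (NW β w) < 1 + (2 * β - 1) * (PW β w / ZW β w) := by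
      apply lt_of_pow_lt_pow_left₀ 2 h3
      calc (β * K * Real.sqrt (NW β w)) ^ 2 = (β * K) ^ 2 * NW β w := by
            rw [mul_pow, Real.sq_sqrt hN.le]
        _ < _ := h2
    rw [← hc] at h4
    have h5 : 2 * β * (K / 2 * Real.sqrt (NW β w)) < 2 * β * cc β (fw w) := by
      calc 2 * β * (K / 2 * Real.sqrt (NW β w)) = β * K * Real.sqrt (NW β w) := by ring
        _ < _ := h4
    exact lt_of_mul_lt_mul_left h5 (by positivity)
  · intro φ hφ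
    have hφ' : φ ∈ Ico 0 Real.pi := ⟨hφ.1.le, hφ.2⟩
    obtain ⟨h0, h1⟩ := sin_sq_mem hφ'
    have hwpos : 0 < Real.sin (φ/2) ^ 2 := by
      have : 0 < Real.sin (φ/2) := Real.sin_pos_of_pos_of_lt_pi (by linarith [hφ.1])
        (by linarith [hφ.2, hφ.1])
      positivity
    rw [← fw_sin hφ']
    set w := Real.sin (φ/2) ^ 2
    have hy : 0 < 1 - w := by linarith
    have hc := cc_fw' hβ h0 h1
    have h3 := H3 w ⟨h0, h1⟩
    rw [← hc] at h3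
    have e1 : tt (fw w) * aa β (fw w) = Real.sqrt w * Real.sqrt (1 - w) * PW β w := by
      have := ff_fw (β := β) h0 h1
      rwa [ff] at this
    rw [e1, bb_fw h0 h1]
    have hp : 0 < Real.sqrt w * Real.sqrt (1 - w) :=
      mul_pos (Real.sqrt_pos.mpr hwpos) (Real.sqrt_pos.mpr hy)
    have h4 : PW β w < 2 * cc β (fw w) * gW β w := by
      have : β * PW β w < β * (2 * cc β (fw w) * gW β w) := by linarith
      exact lt_of_mul_lt_mul_left this hβ0.le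
    calc Real.sqrt w * Real.sqrt (1 - w) * PW β w
        < Real.sqrt w * Real.sqrt (1 - w) * (2 * cc β (fw w) * gW β w) :=
          mul_lt_mul_of_pos_left h4 hp
      _ = _ := by ring

lemma XX_lt_of_W {β : ℝ} (H : ∀ w ∈ Ico (0:ℝ) 1, PW β w / ZW β w < 1) :
    ∀ φ ∈ Ico 0 Real.pi, XX β φ < 1 := by
  intro φ hφ
  obtain ⟨h0, h1⟩ := sin_sq_mem hφ
  rw [← fw_sin hφ, XX_fw h0 h1]
  exact H _ ⟨h0, h1⟩

end Pool.Agent.TH242.AC
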