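import Mathlib
import Pool.Agent.TH242.AC.WMR

open Set

namespace Pool.Agent.TH242.AC

/-- two point version of `same_side` -/
lemma same_side2 {β g : ℝ} (hβ : 1 < β) (hg : 0 < g)
    {φ ψ : ℝ} (hφ : φ ∈ Ico 0 Real.pi) (hψ : ψ ∈ Ico 0 Real.pi)
    (G1 : ∀ u ∈ Ico 0 Real.pi, (ψ ≤ u ∧ u ≤ φ) ∨ (φ ≤ u ∧ u ≤ ψ) →
      (1 + tt u ^ 2) / (2 * β) * aa β u ≤ 2 * g * nu β u ^ 3) :
    dt β φ ψ ≤ g * nu β φ * ds β φ ψ := by
  have hφ' := mem_of_Ico hφ
  have hψ' := mem_of_Ico hψ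
  have hβ0 : 0 < β := by linarith
  set r : ℝ := 1 / (2 * g) with hr
  have hr0 : 0 < r := by positivity
  have hder : ∀ u ∈ Ico 0 Real.pi, HasDerivAt (fun v => ee β ψ * (aa β v - r * (ee β v / nu β v))
      + ff β ψ * (bb β v - r * (ff β v / nu β v)))
      (-(β * (ee β ψ * ff β u - ff β ψ * ee β u)
        * (1 - r * ((1 + tt u ^ 2) / (2 * β) * aa β u) / nu β u ^ 3))) u := by
    intro u hu
    have hu' := mem_of_Ico hu
    obtain ⟨h1, h2⟩ := n1_hasDerivAt hβ hu'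
    have h3 := (((aa_hasDerivAt hβ hu').sub (h1.const_mul r)).const_mul (ee β ψ)).add
      (((bb_hasDerivAt hβ hu').sub (h2.const_mul r)).const_mul (ff β ψ))
    refine h3.congr_deriv ?_
    have hn := nu_pos hβ hu'
    have e1 : β * Real.tan (u / 2) * aa β u = β * ff β u := by rw [ff, tt]; ring
    have e2 : β * (1 - Real.tan (u / 2) * bb β u) = β * ee β u := by rw [ee, tt]
    rw [e1, e2]
    field_simp
    ring
  have hfac : ∀ u ∈ Ico 0 Real.pi, (ψ ≤ u ∧ u ≤ φ) ∨ (φ ≤ u ∧ u ≤ ψ) →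
      0 ≤ 1 - r * ((1 + tt u ^ 2) / (2 * β) * aa β u) / nu β u ^ 3 := by
    intro u hu hbet
    have hn := nu_pos hβ (mem_of_Ico hu)
    have h1 := G1 u hu hbet
    have hn3 : 0 < nu β u ^ 3 := by positivity
    rw [sub_nonneg, div_le_one hn3]
    calc r * ((1 + tt u ^ 2) / (2 * β) * aa β u) ≤ r * (2 * g * nu β u ^ 3) :=
          mul_le_mul_of_nonneg_left h1 hr0.le
      _ = nu β u ^ 3 := by rw [hr]; field_simp
  -- the monotonicity
  have hmono : ee β ψ * (aa β φ - r * (ee β φ / nu β φ)) + ff β ψ * (bb β φ - r * (ff β φ / nu β φ))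
      ≤ ee β ψ * (aa β ψ - r * (ee β ψ / nu β ψ)) + ff β ψ * (bb β ψ - r * (ff β ψ / nu β ψ)) := by
    rcases le_total ψ φ with hle | hle
    · have := mono_of_deriv (f := fun v => -(ee β ψ * (aa β v - r * (ee β v / nu β v))
        + ff β ψ * (bb β v - r * (ff β v / nu β v)))) (f' := fun u =>
        -(-(β * (ee β ψ * ff β u - ff β ψ * ee β u)
        * (1 - r * ((1 + tt u ^ 2) / (2 * β) * aa β u) / nu β u ^ 3)))) hle
        (fun u hu => (hder u ⟨hψ.1.trans hu.1, hu.2.trans_lt hφ.2⟩).neg)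
        (fun u hu => by
          have hc := cross_nonneg hβ hψ.1 hu.1.le (hu.2.trans hφ.2)
          have hf := hfac u ⟨hψ.1.trans hu.1.le, hu.2.trans hφ.2⟩ (Or.inl ⟨hu.1.le, hu.2.le⟩)
          rw [neg_neg]
          positivity)
      linarith
    · have := mono_of_deriv (f := fun v => (ee β ψ * (aa β v - r * (ee β v / nu β v))
        + ff β ψ * (bb β v - r * (ff β v / nu β v)))) (f' := fun u =>
        (-(β * (ee β ψ * ff β u - ff β ψ * ee β u)
        * (1 - r * ((1 + tt u ^ 2) / (2 * β) * aa β u) / nu β u ^ 3)))) hle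
        (fun u hu => (hder u ⟨hφ.1.trans hu.1, hu.2.trans_lt hψ.2⟩))
        (fun u hu => by
          have hc := cross_nonneg hβ (hφ.1.trans hu.1.le) hu.2.le hψ.2
          have hf := hfac u ⟨hφ.1.trans hu.1.le, hu.2.trans hψ.2⟩ (Or.inr ⟨hu.1.le, hu.2.le⟩)
          have e : -(β * (ee β ψ * ff β u - ff β ψ * ee β u) *
            (1 - r * ((1 + tt u ^ 2) / (2 * β) * aa β u) / nu β u ^ 3)) =
            β * (ee β u * ff β ψ - ff β u * ee β ψ) *
            (1 - r * ((1 + tt u ^ 2) / (2 * β) * aa β u) / nu β u ^ 3) := by ring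
          rw [e]
          positivity)
      simpa using this
  have hnφ := nu_pos hβ hφ'
  have hnψ := nu_pos hβ hψ'
  have hsφ := nu_sq hβ hφ'
  have hsψ := nu_sq hβ hψ'
  set n1 := ee β φ / nu β φ with hn1
  set n2 := ff β φ / nu β φ with hn2
  set k1 := ee β ψ / nu β ψ with hk1
  set k2 := ff β ψ / nu β ψ with hk2
  have u1 : n1 ^ 2 + n2 ^ 2 = 1 := by rw [hn1, hn2]; field_simp; exact hsφ.symm
  have u2 : k1 ^ 2 + k2 ^ 2 = 1 := by rw [hk1, hk2]; field_simp; exact hsψ.symm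
  have eφ : ee β φ = nu β φ * n1 := by rw [hn1]; field_simp
  have fφ : ff β φ = nu β φ * n2 := by rw [hn2]; field_simp
  have eψ : ee β ψ = nu β ψ * k1 := by rw [hk1]; field_simp
  have fψ : ff β ψ = nu β ψ * k2 := by rw [hk2]; field_simp
  rw [eψ, fψ] at hmono
  have h1 : nu β ψ * (k1 * ((aa β φ - r * n1) - (aa β ψ - r * k1))
      + k2 * ((bb β φ - r * n2) - (bb β ψ - r * k2))) ≤ 0 := by linarith
  have h2 : k1 * ((aa β φ - r * n1) - (aa β ψ - r * k1))
      + k2 * ((bb β φ - r * n2) - (bb β ψ - r * k2)) ≤ 0 := by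
    by_contra hcon
    push Not at hcon
    have := mul_pos hnψ hcon
    linarith
  have h3 : 0 ≤ ds β φ ψ - 2 * r * (n1 * (aa β φ - aa β ψ) + n2 * (bb β φ - bb β ψ)) := by
    have e : ds β φ ψ - 2 * r * (n1 * (aa β φ - aa β ψ) + n2 * (bb β φ - bb β ψ))
      = ((aa β φ - r * n1) - (aa β ψ - r * k1)) ^ 2 + ((bb β φ - r * n2) - (bb β ψ - r * k2)) ^ 2
        - 2 * r * (k1 * ((aa β φ - r * n1) - (aa β ψ - r * k1))
      + k2 * ((bb β φ - r * n2) - (bb β ψ - r * k2)))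
        + r ^ 2 * ((k1 ^ 2 + k2 ^ 2) - (n1 ^ 2 + n2 ^ 2)) := by
      rw [ds]; ring
    rw [e, u1, u2]
    have := mul_nonneg hr0.le (neg_nonneg.mpr h2)
    nlinarith [sq_nonneg ((aa β φ - r * n1) - (aa β ψ - r * k1)),
      sq_nonneg ((bb β φ - r * n2) - (bb β ψ - r * k2))]
  have h4 : dt β φ ψ = nu β φ * (n1 * (aa β φ - aa β ψ) + n2 * (bb β φ - bb β ψ)) := by
    rw [dt, eφ, fφ]; ring
  have h5 : n1 * (aa β φ - aa β ψ) + n2 * (bb β φ - bb β ψ) ≤ g * ds β φ ψ := by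
    have e : g * ds β φ ψ - (n1 * (aa β φ - aa β ψ) + n2 * (bb β φ - bb β ψ)) =
      g * (ds β φ ψ - 2 * r * (n1 * (aa β φ - aa β ψ) + n2 * (bb β φ - bb β ψ))) := by
      rw [hr]; field_simp
    have := mul_nonneg hg.le h3
    linarith
  rw [h4]
  calc nu β φ * (n1 * (aa β φ - aa β ψ) + n2 * (bb β φ - bb β ψ))
      ≤ nu β φ * (g * ds β φ ψ) := mul_le_mul_of_nonneg_left h5 hnφ.le
    _ = g * nu β φ * ds β φ ψ := by ring


/-- second order bound of `F` as a function of `T` -/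
lemma FT_bound {β : ℝ} (hβ : 1 < β) {φ ψ : ℝ} (hφ : φ ∈ Ico 0 Real.pi) (hψ : ψ ∈ Ico 0 Real.pi)
    (hle : φ ≤ ψ) :
    FF β ψ ≤ FF β φ + tt φ * (TT β ψ - TT β φ) +
      (1 + tt φ ^ 2) * aa β φ / (4 * β) * (TT β ψ - TT β φ) ^ 2 := by
  have hβ0 : 0 < β := by linarith
  have hsub : ∀ u ∈ Icc φ ψ, u ∈ Ico 0 Real.pi := fun u hu =>
    ⟨hφ.1.trans hu.1, hu.2.trans_lt hψ.2⟩
  -- monotonicity of P
  have hP : ∀ u ∈ Icc φ ψ, (1 + tt u ^ 2) * aa β u ≤ (1 + tt φ ^ 2) * aa β φ := by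
    intro u hu
    have := mono_of_deriv (f := fun v => -((1 + tt v ^ 2) * aa β v))
      (f' := fun v => (β - 1) * tt v * ((1 + tt v ^ 2) * aa β v)) hu.1 ?_ ?_
    · linarith
    · intro v hv
      have hv' := mem_of_Ico (hsub v ⟨hv.1, hv.2.trans hu.2⟩)
      have h1 := ((((tt_hasDerivAt hv').pow 2).const_add 1).mul (aa_hasDerivAt hβ hv')).neg
      refine h1.congr_deriv ?_
      simp only [Pi.pow_apply]
      rw [tt]
      push_cast
      ring
    · intro v hv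
      have hv0 := hsub v ⟨hv.1.le, hv.2.le.trans hu.2⟩
      have h2 := tt_nonneg hv0
      have h3 := aa_pos hβ (mem_of_Ico hv0)
      have : 0 ≤ β - 1 := by linarith
      positivity
  have hk : ∀ u ∈ Icc φ ψ, tt u ≤ tt φ + (1 + tt φ ^ 2) * aa β φ / (2 * β) *
      (TT β u - TT β φ) := by
    intro u hu
    have := mono_of_deriv (f := fun v => tt φ + (1 + tt φ ^ 2) * aa β φ / (2 * β) *
      (TT β v - TT β φ) - tt v)
      (f' := fun v => (1 + tt φ ^ 2) * aa β φ / (2 * β) * (β * FF β v) - (1 + tt v ^ 2) / 2)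
      hu.1 ?_ ?_
    · simp only [sub_self, mul_zero, add_zero] at this
      linarith
    · intro v hv
      have hv' := mem_of_Ico (hsub v ⟨hv.1, hv.2.trans hu.2⟩)
      exact ((((TT_hasDerivAt hβ hv').sub_const (TT β φ)).const_mul _).const_add _).sub
        (tt_hasDerivAt hv')
    · intro v hv
      have hv0 := hsub v ⟨hv.1.le, hv.2.le.trans hu.2⟩
      have h3 := aa_pos hβ (mem_of_Ico hv0)
      have h4 := hP v ⟨hv.1.le, hv.2.le.trans hu.2⟩
      have e : (1 + tt φ ^ 2) * aa β φ / (2 * β) * (β * FF β v) - (1 + tt v ^ 2) / 2 =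
          ((1 + tt φ ^ 2) * aa β φ - (1 + tt v ^ 2) * aa β v) / (2 * aa β v) := by
        rw [FF]
        field_simp
      rw [e]
      apply div_nonneg _ (by positivity)
      linarith
  have := mono_of_deriv (f := fun v => FF β φ + tt φ * (TT β v - TT β φ) +
      (1 + tt φ ^ 2) * aa β φ / (4 * β) * (TT β v - TT β φ) ^ 2 - FF β v)
    (f' := fun v => (β * FF β v) * (tt φ + (1 + tt φ ^ 2) * aa β φ / (2 * β) *
      (TT β v - TT β φ) - tt v)) hle ?_ ?_
  · simp only [sub_self, mul_zero, add_zero, ne_eq, OfNat.ofNat_ne_zero, not_false_eq_true,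
      zero_pow] at this
    linarith
  · intro v hv
    have hv' := mem_of_Ico (hsub v hv)
    have hT := (TT_hasDerivAt hβ hv').sub_const (TT β φ)
    have h1 := (((hT.const_mul (tt φ)).const_add (FF β φ)).add ((hT.pow 2).const_mul
      ((1 + tt φ ^ 2) * aa β φ / (4 * β)))).sub (FF_hasDerivAt hβ hv')
    refine h1.congr_deriv ?_
    field_simp
    push_cast
    ring
  · intro v hv
    have hv' := mem_of_Ico (hsub v ⟨hv.1.le, hv.2.le⟩)
    have h1 := hk v ⟨hv.1.le, hv.2.le⟩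
    have h2 := FF_pos hβ hv'
    have : 0 ≤ tt φ + (1 + tt φ ^ 2) * aa β φ / (2 * β) *
      (TT β v - TT β φ) - tt v := by linarith
    positivity

end Pool.Agent.TH242.AC
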