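import Mathlib
import Pool.Agent.TH242.AC.CaseAB

open Set

namespace Pool.Agent.TH242.AC

/-- the far case via a quadratic form -/
lemma caseB_alg {β : ℝ} (hβ : 1 < β) {φ ψ : ℝ} (hφ : φ ∈ Ico 0 Real.pi) (hψ : ψ ∈ Ico 0 Real.pi)
    (hlt : φ < ψ)
    (hA : 0 < cc β φ * (1 + TT β φ ^ 2) - FF β φ)
    (hD : (2 * cc β φ * TT β φ - tt φ) ^ 2 <
      4 * (cc β φ * (1 + TT β φ ^ 2) - FF β φ) *
        (cc β φ - (1 + tt φ ^ 2) * aa β φ / (4 * β))) :
    dt β φ ψ < cc β φ * ds β φ ψ := by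
  have ha := aa_pos hβ (mem_of_Ico hφ)
  have ha1 := aa_pos hβ (mem_of_Ico hψ)
  have hb := FT_bound hβ hφ hψ hlt.le
  have hΔ : 0 < TT β ψ - TT β φ := by
    have := TT_lt hβ (mem_of_Ico hφ) (mem_of_Ico hψ) hlt
    linarith
  set F := FF β φ with hF
  set F1 := FF β ψ with hF1
  set T := TT β φ with hT
  set T1 := TT β ψ with hT1
  set t := tt φ
  set c := cc β φ
  set k := (1 + t ^ 2) * aa β φ / (4 * β) with hk
  have hFp : 0 < F := FF_pos hβ (mem_of_Ico hφ)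
  have hF1p : 0 < F1 := FF_pos hβ (mem_of_Ico hψ)
  have eaF : aa β φ = 1 / F := by rw [hF, FF]; field_simp
  have eaF1 : aa β ψ = 1 / F1 := by rw [hF1, FF]; field_simp
  have ebT : bb β φ = T / F := by rw [hT, TT, hF, FF]; field_simp
  have ebT1 : bb β ψ = T1 / F1 := by rw [hT1, TT, hF1, FF]; field_simp
  have e1 : dt β φ ψ = ((F1 - F) - t * (T1 - T)) / (F * F1) := by
    rw [dt, ee, ff]
    change (1 - t * bb β φ) * (aa β φ - aa β ψ) + t * aa β φ * (bb β φ - bb β ψ) = _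
    rw [eaF, eaF1, ebT, ebT1]
    field_simp
    ring
  have e2 : ds β φ ψ = ((F1 - F) ^ 2 + (T * (F1 - F) - F * (T1 - T)) ^ 2) / (F * F1) ^ 2 := by
    rw [ds, eaF, eaF1, ebT, ebT1]
    field_simp
    ring
  set E := F1 - F with hE
  set Δ := T1 - T with hΔd
  have hEt : E - t * Δ ≤ k * Δ ^ 2 := by linarith
  set A := c * (1 + T ^ 2) - F
  set B := 2 * c * T - t
  have hC : 0 < c - k := by
    by_contra hcon
    push Not at hcon
    have h1 : 4 * A * (c - k) ≤ 0 := mul_nonpos_of_nonneg_of_nonpos (by linarith) hcon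
    have h2 := sq_nonneg B
    linarith
  have hq : 0 < A * E ^ 2 - B * E * (F * Δ) + (c - k) * (F * Δ) ^ 2 := by
    have h1 : 0 < F * Δ := mul_pos hFp hΔ
    have h2 : 4 * A * (A * E ^ 2 - B * E * (F * Δ) + (c - k) * (F * Δ) ^ 2) =
        (2 * A * E - B * (F * Δ)) ^ 2 + (4 * A * (c - k) - B ^ 2) * (F * Δ) ^ 2 := by ring
    have h3 : 0 < (4 * A * (c - k) - B ^ 2) * (F * Δ) ^ 2 := mul_pos (by linarith) (by positivity)
    have h4 : 0 < 4 * A * (A * E ^ 2 - B * E * (F * Δ) + (c - k) * (F * Δ) ^ 2) := by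
      rw [h2]
      have h5 := sq_nonneg (2 * A * E - B * (F * Δ))
      linarith
    exact (mul_pos_iff_of_pos_left (by linarith)).mp h4
  have hmain : (E - t * Δ) * (F * F1) < c * (E ^ 2 + (T * E - F * Δ) ^ 2) := by
    have hF1e : F1 = F + E := by rw [hE]; ring
    have h5 : (E - t * Δ) * F ^ 2 ≤ k * Δ ^ 2 * F ^ 2 :=
      mul_le_mul_of_nonneg_right hEt (by positivity)
    have h6 : c * (E ^ 2 + (T * E - F * Δ) ^ 2) - (E - t * Δ) * (F * F1) =
        (A * E ^ 2 - B * E * (F * Δ) + (c - k) * (F * Δ) ^ 2) +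
        (k * Δ ^ 2 * F ^ 2 - (E - t * Δ) * F ^ 2) := by
      rw [hF1e]; simp only [A, B]; ring
    linarith
  rw [e1, e2]
  have hpp : 0 < F * F1 := by positivity
  rw [div_lt_iff₀ hpp]
  have e3 : c * ((E ^ 2 + (T * E - F * Δ) ^ 2) / (F * F1) ^ 2) * (F * F1) =
      c * (E ^ 2 + (T * E - F * Δ) ^ 2) / (F * F1) := by
    field_simp
  rw [e3, lt_div_iff₀ hpp]
  exact hmain

/-- the scaled constant `2 β c` -/
noncomputable def cW (β w : ℝ) : ℝ := 1 + (2 * β - 1) * (PW β w / ZW β w)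

lemma cW_pos {β w : ℝ} (hβ : 1 < β) (h0 : 0 ≤ w) (h1 : w < 1) : 0 < cW β w := by
  have h2 : 0 ≤ PW β w / ZW β w := (div_pos (PW_pos hβ h0 h1) (ZW_pos hβ h0 h1)).le
  have : 0 ≤ 2 * β - 1 := by linarith
  rw [cW]; positivity

lemma caseB_W {β : ℝ} (hβ : 1 < β) {w ψ : ℝ} (h0 : 0 ≤ w) (h1 : w < 1) (hψ : ψ ∈ Ico 0 Real.pi)
    (hlt : fw w < ψ) (hZP : PW β w < ZW β w)
    (hD : 2 * w * (cW β w * gW β w - β * PW β w) ^ 2 <
      (ZW β w - PW β w) * (2 * cW β w - PW β w)) :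
    dt β (fw w) ψ < cc β (fw w) * ds β (fw w) ψ := by
  have hβ0 : 0 < β := by linarith
  have hP := PW_pos hβ h0 h1
  have hZ := ZW_pos hβ h0 h1
  have hy : 0 < 1 - w := by linarith
  have hsy : 0 < Real.sqrt (1 - w) := Real.sqrt_pos.mpr hy
  have hc := cc_fw' hβ h0 h1
  have hcW : cc β (fw w) = cW β w / (2 * β) := by
    rw [cW, eq_div_iff (by positivity)]; linarith
  have hF : FF β (fw w) = 1 / ((1 - w) * PW β w) := by rw [FF, aa_fw h1]
  have hT : TT β (fw w) = Real.sqrt w * gW β w / (Real.sqrt (1 - w) * PW β w) := by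
    rw [TT, aa_fw h1, bb_fw h0 h1]
    have h2 := Real.mul_self_sqrt hy.le
    rw [div_eq_div_iff (by positivity) (by positivity)]
    linear_combination (Real.sqrt w * gW β w * PW β w) * h2
  have h2 := Real.sq_sqrt hy.le
  have h3 := Real.sq_sqrt h0
  have e1 : 1 + TT β (fw w) ^ 2 = ZW β w / ((1 - w) * PW β w ^ 2) := by
    rw [hT, div_pow, mul_pow, mul_pow, h2, h3, ZW]
    field_simp
  have hcZ : cW β w * ZW β w = ZW β w + (2 * β - 1) * PW β w := by
    rw [cW]; field_simp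
  have e2 : cc β (fw w) * (1 + TT β (fw w) ^ 2) - FF β (fw w) =
      (ZW β w - PW β w) / (2 * β * ((1 - w) * PW β w ^ 2)) := by
    rw [e1, hF, hcW]
    rw [eq_div_iff (by positivity)]
    field_simp
    linear_combination hcZ
  have hA : 0 < cc β (fw w) * (1 + TT β (fw w) ^ 2) - FF β (fw w) := by
    rw [e2]
    apply div_pos (by linarith) (by positivity)
  apply caseB_alg hβ (fw_mem h0 h1) hψ hlt hA
  have e3 : 2 * cc β (fw w) * TT β (fw w) - tt (fw w) =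
      Real.sqrt w * (cW β w * gW β w - β * PW β w) / (β * (Real.sqrt (1 - w) * PW β w)) := by
    rw [hT, hcW, tt_fw h0 h1]
    field_simp
  have e4 : (1 + tt (fw w) ^ 2) * aa β (fw w) / (4 * β) = PW β w / (4 * β) := by
    rw [one_add_tt_fw h0 h1, aa_fw h1]
    field_simp
  have e5 : cc β (fw w) - (1 + tt (fw w) ^ 2) * aa β (fw w) / (4 * β) =
      (2 * cW β w - PW β w) / (4 * β) := by
    rw [e4, hcW]; field_simp; ring
  rw [e5, e2, e3, div_pow, mul_pow, mul_pow, mul_pow, h2, h3]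
  rw [div_lt_iff₀ (by positivity)]
  have e6 : 4 * ((ZW β w - PW β w) / (2 * β * ((1 - w) * PW β w ^ 2))) *
      ((2 * cW β w - PW β w) / (4 * β)) * (β ^ 2 * ((1 - w) * PW β w ^ 2)) =
      (ZW β w - PW β w) * (2 * cW β w - PW β w) / 2 := by
    field_simp
  rw [e6]
  linarith

/-- `MR` from curvature and quadratic form conditions -/
theorem MR_of_AB {β K2 : ℝ} (hβ : 1 < β) (hK : 0 < K2)
    (H1 : ∀ w ∈ Ico (0:ℝ) 1, PW β w ^ 2 ≤ (2 * β) ^ 2 * K2 * NW β w ^ 3)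
    (H2 : ∀ w ∈ Ico (0:ℝ) 1, β ^ 2 * K2 * NW β w < cW β w ^ 2 ∨
      ((∃ K3 : ℝ, 0 < K3 ∧ β ^ 2 * K3 * NW β w < cW β w ^ 2 ∧
        ∀ u ∈ Icc (0:ℝ) w, PW β u ^ 2 ≤ (2 * β) ^ 2 * K3 * NW β u ^ 3) ∧
        PW β w < ZW β w ∧
        2 * w * (cW β w * gW β w - β * PW β w) ^ 2 <
          (ZW β w - PW β w) * (2 * cW β w - PW β w)))
    (H3 : ∀ w ∈ Ico (0:ℝ) 1, β * PW β w < cW β w * gW β w) :
    MR β := by
  have hβ0 : 0 < β := by linarith
  -- rolling with constant `K`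
  have roll : ∀ K : ℝ, 0 < K → ∀ w ∈ Ico (0:ℝ) 1, β ^ 2 * K * NW β w < cW β w ^ 2 →
      ∀ v ∈ Ico (0:ℝ) 1, fw w ≠ fw v → (∀ u ∈ Ico (0:ℝ) 1, (v ≤ u ∧ u ≤ w) ∨ (w ≤ u ∧ u ≤ v) →
        PW β u ^ 2 ≤ (2 * β) ^ 2 * K * NW β u ^ 3) →
      dt β (fw w) (fw v) < cc β (fw w) * ds β (fw w) (fw v) := by
    intro K hK w hw hKw v hv hne hG
    obtain ⟨h0, h1⟩ := hw
    have hsm : ∀ {u v : ℝ}, 0 ≤ u → u ≤ v → v < Real.pi → Real.sin (u/2) ^ 2 ≤ Real.sin (v/2) ^ 2 := by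
      intro u v hu huv hv
      have h1 : 0 ≤ Real.sin (u/2) :=
        Real.sin_nonneg_of_nonneg_of_le_pi (by linarith) (by linarith [Real.pi_pos])
      have h2 : Real.sin (u/2) ≤ Real.sin (v/2) :=
        Real.sin_le_sin_of_le_of_le_pi_div_two (by linarith [Real.pi_pos]) (by linarith) (by linarith)
      exact pow_le_pow_left₀ h1 h2 2
    have hsq : ∀ x ∈ Ico (0:ℝ) 1, Real.sin (fw x / 2) ^ 2 = x := by
      intro x hx
      rw [sin_fw hx.1 hx.2, Real.sq_sqrt hx.1]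
    have hsK : 0 < Real.sqrt K := Real.sqrt_pos.mpr hK
    have hsame := same_side2 (g := Real.sqrt K / 2) hβ (by positivity) (fw_mem h0 h1)
      (fw_mem hv.1 hv.2) (by
        intro φ hφ hbet
        obtain ⟨a0, a1⟩ := sin_sq_mem hφ
        have hb2 : (v ≤ Real.sin (φ/2) ^ 2 ∧ Real.sin (φ/2) ^ 2 ≤ w) ∨
            (w ≤ Real.sin (φ/2) ^ 2 ∧ Real.sin (φ/2) ^ 2 ≤ v) := by
          rcases hbet with h | h
          · left
            have m1 := hsm (fw_mem hv.1 hv.2).1 h.1 hφ.2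
            have m2 := hsm hφ.1 h.2 (fw_mem h0 h1).2
            rw [hsq v hv] at m1
            rw [hsq w ⟨h0, h1⟩] at m2
            exact ⟨m1, m2⟩
          · right
            have m1 := hsm (fw_mem h0 h1).1 h.1 hφ.2
            have m2 := hsm hφ.1 h.2 (fw_mem hv.1 hv.2).2
            rw [hsq w ⟨h0, h1⟩] at m1
            rw [hsq v hv] at m2
            exact ⟨m1, m2⟩
        have h5 := hG _ ⟨a0, a1⟩ hb2
        rw [← fw_sin hφ]
        set x := Real.sin (φ/2) ^ 2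
        have hy : 0 < 1 - x := by linarith
        rw [one_add_tt_fw a0 a1, aa_fw a1, nu, nusq_fw a0 a1]
        have h2 := cube_le_of (x := PW β x) (c := 2 * β * Real.sqrt K) (NW_pos hβ a0 a1).le
          (by positivity) (by
          rw [mul_pow, Real.sq_sqrt hK.le]; exact h5)
        have e : 1 / (1 - x) / (2 * β) * ((1 - x) * PW β x) = PW β x / (2 * β) := by field_simp
        rw [e, div_le_iff₀ (by positivity)]
        calc PW β x ≤ 2 * β * Real.sqrt K * Real.sqrt (NW β x) ^ 3 := h2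
          _ = 2 * (Real.sqrt K / 2) * Real.sqrt (NW β x) ^ 3 * (2 * β) := by ring)
    have hds := ds_pos_same hβ (fw_mem h0 h1) (fw_mem hv.1 hv.2) hne
    have hlt : Real.sqrt K / 2 * nu β (fw w) < cc β (fw w) := by
      have hc := cc_fw' hβ h0 h1
      have hN := NW_pos hβ h0 h1
      have h3 := (cW_pos hβ h0 h1).le
      rw [nu, nusq_fw h0 h1]
      have h4 : β * Real.sqrt K * Real.sqrt (NW β w) < cW β w := by
        apply lt_of_pow_lt_pow_left₀ 2 h3
        calc (β * Real.sqrt K * Real.sqrt (NW β w)) ^ 2 = β ^ 2 * K * NW β w := by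
              rw [mul_pow, mul_pow, Real.sq_sqrt hN.le, Real.sq_sqrt hK.le]
          _ < _ := hKw
      rw [cW, ← hc] at h4
      have h5 : 2 * β * (Real.sqrt K / 2 * Real.sqrt (NW β w)) < 2 * β * cc β (fw w) := by
        calc 2 * β * (Real.sqrt K / 2 * Real.sqrt (NW β w)) =
              β * Real.sqrt K * Real.sqrt (NW β w) := by ring
          _ < _ := h4
      exact lt_of_mul_lt_mul_left h5 (by positivity)
    have := mul_lt_mul_of_pos_right hlt hds
    linarith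
  apply MR_of_same hβ
  · intro φ hφ ψ hψ hne
    obtain ⟨h0, h1⟩ := sin_sq_mem hφ
    obtain ⟨k0, k1⟩ := sin_sq_mem hψ
    have ew := fw_sin hφ
    have ev := fw_sin hψ
    set w := Real.sin (φ/2) ^ 2
    set v := Real.sin (ψ/2) ^ 2
    rw [← ew, ← ev] at hne ⊢
    rcases H2 w ⟨h0, h1⟩ with h | ⟨⟨K3, hK3, hK3w, hK3u⟩, hZP, hD⟩
    · exact roll K2 hK w ⟨h0, h1⟩ h v ⟨k0, k1⟩ hne (fun u hu _ => H1 u hu)
    · rcases lt_or_ge w v with hwv | hwv
      · have hfl : fw w < fw v := lt_of_le_of_ne (fw_mono hwv.le) hne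
        exact caseB_W hβ h0 h1 (fw_mem k0 k1) hfl hZP hD
      · exact roll K3 hK3 w ⟨h0, h1⟩ hK3w v ⟨k0, k1⟩ hne (fun u hu hb => by
          apply hK3u
          refine ⟨hu.1, ?_⟩
          rcases hb with hb | hb
          · exact hb.2
          · linarith [hb.2])
  · intro φ hφ
    have hφ' : φ ∈ Ico 0 Real.pi := ⟨hφ.1.le, hφ.2⟩
    obtain ⟨h0, h1⟩ := sin_sq_mem hφ'
    have hwpos : 0 < Real.sin (φ/2) ^ 2 := by
      have : 0 < Real.sin (φ/2) := Real.sin_pos_of_pos_of_lt_pi (by linarith [hφ.1])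
        (by linarith [hφ.2, hφ.1])
      positivity
    rw [← fw_sin hφ']
    set w := Real.sin (φ/2) ^ 2
    have hy : 0 < 1 - w := by linarith
    have hc := cc_fw' hβ h0 h1
    have h3 := H3 w ⟨h0, h1⟩
    rw [cW, ← hc] at h3
    have e1 : tt (fw w) * aa β (fw w) = Real.sqrt w * Real.sqrt (1 - w) * PW β w := by
      have := ff_fw (β := β) h0 h1
      rwa [ff] at this
    rw [e1, bb_fw h0 h1]
    have hp : 0 < Real.sqrt w * Real.sqrt (1 - w) :=
      mul_pos (Real.sqrt_pos.mpr hwpos) (Real.sqrt_pos.mpr hy)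
    have h4 : PW β w < 2 * cc β (fw w) * gW β w := by
      have : β * PW β w < β * (2 * cc β (fw w) * gW β w) := by linarith
      exact lt_of_mul_lt_mul_left this hβ0.le
    calc Real.sqrt w * Real.sqrt (1 - w) * PW β w
        < Real.sqrt w * Real.sqrt (1 - w) * (2 * cc β (fw w) * gW β w) :=
          mul_lt_mul_of_pos_left h4 hp
      _ = _ := by ring

end Pool.Agent.TH242.AC
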