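import Mathlib
import Pool.Agent.TH242.AC.Bdry

open Complex Metric Set Filter Topology MeasureTheory

namespace Pool.Agent.TH242.AC

noncomputable def cw (θ : ℝ) : ℝ := (1 + Real.cos θ) / 2

noncomputable def lam (β : ℝ) : ℝ := (2 * Real.pi)⁻¹ * ∫ θ in (0:ℝ)..(2 * Real.pi), cw θ ^ β

lemma cw_nonneg (θ : ℝ) : 0 ≤ cw θ := by
  rw [cw]; linarith [Real.neg_one_le_cos θ]

lemma cw_le_one (θ : ℝ) : cw θ ≤ 1 := by
  rw [cw]; linarith [Real.cos_le_one θ]

lemma cw_eq (θ : ℝ) : cw θ = Real.cos (θ/2) ^ 2 := by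
  have h : Real.cos θ = 2 * Real.cos (θ/2) ^ 2 - 1 := by
    rw [← Real.cos_two_mul]; congr 1; ring
  rw [cw, h]; ring

lemma cw_pi : cw Real.pi = 0 := by rw [cw, Real.cos_pi]; ring

lemma cw_sub (θ : ℝ) : cw (θ - 2 * Real.pi) = cw θ := by
  rw [cw, cw, Real.cos_sub_two_pi]

lemma cw_pow_cont {β : ℝ} (hβ : 0 ≤ β) : Continuous (fun θ => cw θ ^ β) := by
  have h : Continuous cw := by unfold cw; fun_prop
  exact h.rpow_const (fun _ => Or.inr hβ)

lemma bp_sub (θ : ℝ) : bp (θ - 2 * Real.pi) = bp θ := by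
  rw [bp, bp]
  congr 1
  push_cast
  rw [sub_mul, Complex.exp_sub, Complex.exp_two_pi_mul_I, div_one]

lemma bp_pi : bp Real.pi = 1 := by
  rw [bp, Complex.exp_pi_mul_I, neg_neg]

lemma aa_cw {β : ℝ} (hβ : 1 < β) {θ : ℝ} (h0 : 0 ≤ θ) (h2 : θ ≤ 2 * Real.pi) :
    aa β θ = aa β 0 * cw θ ^ β := by
  have hin : ∀ u ∈ Ioo (-Real.pi) Real.pi, aa β u = aa β 0 * cw u ^ β := by
    intro u hu
    have hc := cos_half_pos hu
    rw [aa_formula hβ hu, cw_eq, Real.rpow_mul hc.le]
    norm_cast
  rcases lt_trichotomy θ Real.pi with h | h | h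
  · exact hin θ ⟨by linarith [Real.pi_pos], h⟩
  · rw [h, cw_pi, Real.zero_rpow (by linarith), mul_zero, aa, bp_pi, Rf_one]; rfl
  · rcases eq_or_lt_of_le h2 with h3 | h3
    · have e1 := bp_sub θ
      have e2 := cw_sub θ
      rw [h3, sub_self] at e1 e2
      rw [h3, aa, ← e1, ← aa, ← e2]
      have : cw 0 = 1 := by rw [cw, Real.cos_zero]; norm_num
      rw [this, Real.one_rpow, mul_one]
    · have := hin (θ - 2 * Real.pi) ⟨by linarith, by linarith [Real.pi_pos]⟩
      rw [cw_sub] at this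
      rw [← this, aa, aa, bp_sub]

lemma aa_mul_lam {β : ℝ} (hβ : 1 < β) : aa β 0 * lam β = 1 := by
  have h1 : Real.circleAverage (Rf β) 0 1 = Rf β 0 := by
    apply DiffContOnCl.circleAverage
    simpa using Rf_diffContOnCl hβ
  rw [Real.circleAverage_eq_integral_add Real.pi, Rf_zero] at h1
  have hcm : ∀ θ : ℝ, circleMap 0 1 (θ + Real.pi) = bp θ := by
    intro θ
    rw [circleMap, bp]
    push_cast
    rw [add_mul, Complex.exp_add, Complex.exp_pi_mul_I]
    ring
  simp_rw [hcm] at h1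
  have hcont : Continuous (fun θ => Rf β (bp θ)) := by
    rw [continuous_iff_continuousAt]
    exact fun θ => (Rb_hasDerivAt hβ θ).continuousAt
  have h2 := congrArg Complex.re h1
  rw [Complex.smul_re, one_re] at h2
  have h3 : (∫ θ in (0:ℝ)..(2 * Real.pi), Rf β (bp θ)).re =
      ∫ θ in (0:ℝ)..(2 * Real.pi), aa β θ := by
    have hi : IntervalIntegrable (fun θ => Rf β (bp θ)) volume 0 (2 * Real.pi) :=
      hcont.intervalIntegrable _ _
    have := Complex.reCLM.intervalIntegral_comp_comm hi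
    exact this.symm
  rw [h3] at h2
  have h4 : ∫ θ in (0:ℝ)..(2 * Real.pi), aa β θ =
      ∫ θ in (0:ℝ)..(2 * Real.pi), aa β 0 * cw θ ^ β := by
    apply intervalIntegral.integral_congr
    intro θ hθ
    rw [uIcc_of_le (by positivity)] at hθ
    exact aa_cw hβ hθ.1 hθ.2
  rw [h4, intervalIntegral.integral_const_mul] at h2
  rw [lam, ← h2, smul_eq_mul]
  ring

lemma lam_succ {β : ℝ} (hβ : 1 ≤ β) : (2 * β + 2) * lam (β + 1) = (2 * β + 1) * lam β := by
  have hcont1 := cw_pow_cont (β := β + 1) (by linarith)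
  have hcont0 := cw_pow_cont (β := β) (by linarith)
  have hd : ∀ θ ∈ uIcc (0:ℝ) (2 * Real.pi), HasDerivAt (fun θ => Real.sin θ * cw θ ^ β)
      ((2 * β + 2) * cw θ ^ (β + 1) - (2 * β + 1) * cw θ ^ β) θ := by
    intro θ _
    have hcw : HasDerivAt cw (-Real.sin θ / 2) θ := by
      have := ((Real.hasDerivAt_cos θ).const_add 1).div_const 2
      exact this
    have h1 := (Real.hasDerivAt_sin θ).mul (hcw.rpow_const (p := β) (Or.inr hβ))
    refine h1.congr_deriv ?_
    have hs : Real.sin θ ^ 2 = 4 * cw θ * (1 - cw θ) := by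
      have := Real.sin_sq_add_cos_sq θ
      rw [cw]; nlinarith
    have hc : Real.cos θ = 2 * cw θ - 1 := by rw [cw]; ring
    rcases eq_or_lt_of_le (cw_nonneg θ) with h0 | h0
    · rw [← h0] at hs ⊢
      have hs0 : Real.sin θ = 0 := by
        have : Real.sin θ ^ 2 = 0 := by rw [hs]; ring
        exact pow_eq_zero_iff (two_ne_zero) |>.mp this
      rw [hs0, Real.zero_rpow (by linarith : β ≠ 0), Real.zero_rpow (by linarith : β + 1 ≠ 0)]
      simp
    · have e1 : cw θ ^ (β + 1) = cw θ ^ β * cw θ := by rw [Real.rpow_add h0, Real.rpow_one]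
      have e2 : cw θ ^ β = cw θ ^ (β - 1) * cw θ := by
        rw [← Real.rpow_add_one h0.ne']; congr 1; ring
      rw [hc, e1, e2]
      linear_combination (-(β * cw θ ^ (β - 1)) / 2) * hs
  have h2 := intervalIntegral.integral_eq_sub_of_hasDerivAt hd
    (((continuous_const.mul hcont1).sub (continuous_const.mul hcont0)).intervalIntegrable _ _)
  have hi1 : IntervalIntegrable (fun θ => (2 * β + 2) * cw θ ^ (β + 1)) volume 0 (2 * Real.pi) :=
    (continuous_const.mul hcont1).intervalIntegrable _ _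
  have hi0 : IntervalIntegrable (fun θ => (2 * β + 1) * cw θ ^ β) volume 0 (2 * Real.pi) :=
    (continuous_const.mul hcont0).intervalIntegrable _ _
  rw [intervalIntegral.integral_sub hi1 hi0, intervalIntegral.integral_const_mul,
    intervalIntegral.integral_const_mul, Real.sin_two_pi, Real.sin_zero] at h2
  rw [lam, lam]
  linear_combination (2 * Real.pi)⁻¹ * h2

lemma lam_one : lam 1 = 1 / 2 := by
  have hpi := Real.pi_pos
  have h : ∫ θ in (0:ℝ)..(2 * Real.pi), cw θ ^ (1:ℝ) = Real.pi := by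
    simp_rw [Real.rpow_one]
    have hd : ∀ θ ∈ uIcc (0:ℝ) (2 * Real.pi), HasDerivAt (fun θ => (θ + Real.sin θ) / 2) (cw θ) θ := by
      intro θ _
      exact ((hasDerivAt_id θ).add (Real.hasDerivAt_sin θ)).div_const 2
    have hc : Continuous cw := by unfold cw; fun_prop
    rw [intervalIntegral.integral_eq_sub_of_hasDerivAt hd (hc.intervalIntegrable _ _)]
    rw [Real.sin_two_pi, Real.sin_zero]; ring
  rw [lam, h]
  field_simp

lemma lam_pos {β : ℝ} (hβ : 1 < β) : 0 < lam β := by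
  have h := aa_mul_lam hβ
  have h2 := aa_zero_pos hβ
  by_contra hcon
  push Not at hcon
  have := mul_nonpos_of_nonneg_of_nonpos h2.le hcon
  linarith

lemma lam_le_of {p q r c d : ℝ} (hp : 0 ≤ p) (hq : 0 ≤ q) (hr : 0 ≤ r)
    (h : ∀ x, 0 ≤ x → x ≤ 1 → x ^ p ≤ c * x ^ q + d * x ^ r) : lam p ≤ c * lam q + d * lam r := by
  have hpi := Real.pi_pos
  have h1 : ∫ θ in (0:ℝ)..(2 * Real.pi), cw θ ^ p ≤
      ∫ θ in (0:ℝ)..(2 * Real.pi), (c * cw θ ^ q + d * cw θ ^ r) := by
    apply intervalIntegral.integral_mono_on (by positivity)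
      ((cw_pow_cont hp).intervalIntegrable _ _)
    · exact ((continuous_const.mul (cw_pow_cont hq)).add
        (continuous_const.mul (cw_pow_cont hr))).intervalIntegrable _ _
    · intro θ _
      exact h _ (cw_nonneg θ) (cw_le_one θ)
  have hi1 : IntervalIntegrable (fun θ => c * cw θ ^ q) volume 0 (2 * Real.pi) :=
    (continuous_const.mul (cw_pow_cont hq)).intervalIntegrable _ _
  have hi0 : IntervalIntegrable (fun θ => d * cw θ ^ r) volume 0 (2 * Real.pi) :=
    (continuous_const.mul (cw_pow_cont hr)).intervalIntegrable _ _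
  rw [intervalIntegral.integral_add hi1 hi0,
    intervalIntegral.integral_const_mul, intervalIntegral.integral_const_mul] at h1
  rw [lam, lam, lam]
  have h2 := mul_le_mul_of_nonneg_left h1 (by positivity : 0 ≤ (2 * Real.pi)⁻¹)
  linarith

lemma lam_anti {p q : ℝ} (hp : 0 < p) (hpq : p ≤ q) : lam q ≤ lam p := by
  have h := lam_le_of (p := q) (q := p) (r := p) (c := 1) (d := 0) (by linarith) hp.le hp.le
    (fun x h0 h1 => by
      rw [one_mul, zero_mul, add_zero]
      rcases eq_or_lt_of_le h0 with h2 | h2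
      · rw [← h2, Real.zero_rpow hp.ne', Real.zero_rpow (by linarith)]
      · exact Real.rpow_le_rpow_of_exponent_ge h2 h1 hpq)
  linarith

lemma rpow_bern {x t : ℝ} (h0 : 0 ≤ x) (ht0 : 0 ≤ t) (ht1 : t ≤ 1) : x ^ t ≤ (1 - t) + t * x := by
  have h := _root_.rpow_one_add_le_one_add_mul_self (s := x - 1) (by linarith) ht0 ht1
  have e : 1 + (x - 1) = x := by ring
  rw [e] at h
  linarith

lemma lam_upper {p t : ℝ} (hp : 1 ≤ p) (ht0 : 0 ≤ t) (ht1 : t ≤ 1) :
    lam (p + t) ≤ lam p * (1 - t / (2 * p + 2)) := by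
  have h := lam_le_of (p := p + t) (q := p) (r := p + 1) (c := 1 - t) (d := t) (by linarith)
    (by linarith) (by linarith) (fun x h0 _ => by
      rcases eq_or_lt_of_le h0 with h2 | h2
      · rw [← h2, Real.zero_rpow (by linarith), Real.zero_rpow (by linarith),
          Real.zero_rpow (by linarith)]; simp
      · rw [Real.rpow_add h2, Real.rpow_add h2, Real.rpow_one]
        have := rpow_bern h0 ht0 ht1
        have hx : 0 ≤ x ^ p := Real.rpow_nonneg h0 _
        calc x ^ p * x ^ t ≤ x ^ p * ((1 - t) + t * x) := mul_le_mul_of_nonneg_left this hx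
          _ = _ := by ring)
  have h2 := lam_succ hp
  have h3 : lam (p + 1) = (2 * p + 1) / (2 * p + 2) * lam p := by
    have : 2 * p + 2 ≠ 0 := by linarith
    field_simp
    linarith
  rw [h3] at h
  have e : (1 - t) * lam p + t * ((2 * p + 1) / (2 * p + 2) * lam p) =
      lam p * (1 - t / (2 * p + 2)) := by
    have : 2 * p + 2 ≠ 0 := by linarith
    field_simp
    ring
  rwa [e] at h

lemma lam_lower {p t : ℝ} (hp : 2 ≤ p) (ht0 : 0 ≤ t) (ht1 : t ≤ 1) :
    lam p ≤ lam (p + t) * (1 + t / (2 * p + 2 * t - 1)) := by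
  have h := lam_le_of (p := p) (q := p - 1 + t) (r := p + t) (c := t) (d := 1 - t) (by linarith)
    (by linarith) (by linarith) (fun x h0 _ => by
      rcases eq_or_lt_of_le h0 with h2 | h2
      · rw [← h2, Real.zero_rpow (by linarith), Real.zero_rpow (by linarith),
          Real.zero_rpow (by linarith)]; simp
      · have e1 : x ^ p = x ^ (p - 1 + t) * x ^ (1 - t) := by
          rw [← Real.rpow_add h2]; congr 1; ring
        have e2 : x ^ (p + t) = x ^ (p - 1 + t) * x := by
          rw [← Real.rpow_add_one h2.ne']; congr 1; ring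
        rw [e1, e2]
        have := rpow_bern h0 (by linarith : 0 ≤ 1 - t) (by linarith)
        have hx : 0 ≤ x ^ (p - 1 + t) := Real.rpow_nonneg h0 _
        calc x ^ (p - 1 + t) * x ^ (1 - t) ≤ x ^ (p - 1 + t) * ((1 - (1 - t)) + (1 - t) * x) :=
              mul_le_mul_of_nonneg_left this hx
          _ = _ := by ring)
  have h2 := lam_succ (β := p - 1 + t) (by linarith)
  have e0 : p - 1 + t + 1 = p + t := by ring
  rw [e0] at h2
  have hne : 2 * p + 2 * t - 1 ≠ 0 := by linarith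
  have h3 : lam (p - 1 + t) = (2 * p + 2 * t) / (2 * p + 2 * t - 1) * lam (p + t) := by
    rw [div_mul_eq_mul_div, eq_div_iff hne]
    linarith
  rw [h3] at h
  have e : t * ((2 * p + 2 * t) / (2 * p + 2 * t - 1) * lam (p + t)) + (1 - t) * lam (p + t) =
      lam (p + t) * (1 + t / (2 * p + 2 * t - 1)) := by
    have hD : (2 * p + 2 * t) / (2 * p + 2 * t - 1) = 1 + 1 / (2 * p + 2 * t - 1) := by
      rw [eq_comm, ← sub_eq_zero, div_eq_mul_inv, div_eq_mul_inv]
      have h4 := mul_inv_cancel₀ hne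
      linear_combination (-1 : ℝ) * h4
    rw [hD, div_eq_mul_one_div t]
    ring
  rwa [e] at h

end Pool.Agent.TH242.AC
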