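import Mathlib
import Pool.Agent.TH242.AC.CaseAB2
import Pool.Agent.TH242.AC.Wallis

open Set

namespace Pool.Agent.TH242.AC

lemma quad_nonneg {q0 q1 q2 x d : ℝ} (hx0 : 0 ≤ x) (hxd : x ≤ d) (hd : 0 < d) (h0 : 0 ≤ q0)
    (h1 : 0 ≤ q0 + q1 * d + q2 * d ^ 2) (h : q2 ≤ 0 ∨ (0 ≤ q1 ∧ 0 ≤ q2)) :
    0 ≤ q0 + q1 * x + q2 * x ^ 2 := by
  rcases h with h | ⟨h2, h3⟩
  · have e : d * (q0 + q1 * x + q2 * x ^ 2) =
        (d - x) * q0 + x * (q0 + q1 * d + q2 * d ^ 2) + (-q2) * (d * x * (d - x)) := by ring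
    have h4 : 0 ≤ d * (q0 + q1 * x + q2 * x ^ 2) := by
      rw [e]
      have a1 : 0 ≤ (d - x) * q0 := mul_nonneg (by linarith) h0
      have a2 : 0 ≤ x * (q0 + q1 * d + q2 * d ^ 2) := mul_nonneg hx0 h1
      have a3 : 0 ≤ (-q2) * (d * x * (d - x)) :=
        mul_nonneg (by linarith) (mul_nonneg (mul_nonneg hd.le hx0) (by linarith))
      linarith
    exact nonneg_of_mul_nonneg_right h4 hd
  · positivity

/-- the residual of an affine comparison function -/
noncomputable def QG (t w1 m k w : ℝ) : ℝ := w * (1 - w) * k + (1 / 2 + t * w) * (m + k * (w - w1)) - (1 + t)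

lemma QG_affine {ta tb t w1 m k w : ℝ} (ha : ta ≤ t) (hb : t ≤ tb)
    (h1 : 0 ≤ QG ta w1 m k w) (h2 : 0 ≤ QG tb w1 m k w) : 0 ≤ QG t w1 m k w := by
  have e1 : QG t w1 m k w = QG ta w1 m k w + (t - ta) * (w * (m + k * (w - w1)) - 1) := by
    rw [QG, QG]; ring
  have e2 : QG t w1 m k w = QG tb w1 m k w - (tb - t) * (w * (m + k * (w - w1)) - 1) := by
    rw [QG, QG]; ring
  rcases le_total 0 (w * (m + k * (w - w1)) - 1) with h | h
  · rw [e1]
    have := mul_nonneg (sub_nonneg.mpr ha) h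
    linarith
  · rw [e2]
    have := mul_nonneg (sub_nonneg.mpr hb) (neg_nonneg.mpr h)
    linarith

lemma QG_affine' {ta tb t w1 m k w : ℝ} (ha : ta ≤ t) (hb : t ≤ tb)
    (h1 : QG ta w1 m k w ≤ 0) (h2 : QG tb w1 m k w ≤ 0) : QG t w1 m k w ≤ 0 := by
  have e1 : QG t w1 m k w = QG ta w1 m k w + (t - ta) * (w * (m + k * (w - w1)) - 1) := by
    rw [QG, QG]; ring
  have e2 : QG t w1 m k w = QG tb w1 m k w - (tb - t) * (w * (m + k * (w - w1)) - 1) := by
    rw [QG, QG]; ring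
  rcases le_total 0 (w * (m + k * (w - w1)) - 1) with h | h
  · rw [e2]
    have := mul_nonneg (sub_nonneg.mpr hb) h
    linarith
  · rw [e1]
    have := mul_nonneg (sub_nonneg.mpr ha) (neg_nonneg.mpr h)
    linarith

/-- step check, upper; all quantities are multiplied by `w2 - w1` -/
def StU (t w1 w2 m m' : ℝ) : Prop :=
  0 ≤ w1 * (1 - w1) * (m' - m) + (w2 - w1) * ((1 / 2 + t * w1) * m - (1 + t)) ∧
  0 ≤ w2 * (1 - w2) * (m' - m) + (w2 - w1) * ((1 / 2 + t * w2) * m' - (1 + t)) ∧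
  (1 ≤ t ∨ 0 ≤ (3 / 2 - 2 * w1 + t * w1) * (m' - m) + (w2 - w1) * (t * m))

def StL (t w1 w2 m m' : ℝ) : Prop :=
  w1 * (1 - w1) * (m' - m) + (w2 - w1) * ((1 / 2 + t * w1) * m - (1 + t)) ≤ 0 ∧
  w2 * (1 - w2) * (m' - m) + (w2 - w1) * ((1 / 2 + t * w2) * m' - (1 + t)) ≤ 0 ∧
  (t ≤ 1 ∨ (3 / 2 - 2 * w1 + t * w1) * (m' - m) + (w2 - w1) * (t * m) ≤ 0)

lemma QG_upper {t w1 w2 m m' : ℝ} (h12 : w1 < w2) (hm : m' ≤ m) (h : StU t w1 w2 m m') :
    ∀ w ∈ Icc w1 w2, 0 ≤ QG t w1 m ((m' - m) / (w2 - w1)) w := by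
  intro w hw
  obtain ⟨h0, h1, h2⟩ := h
  have hd : 0 < w2 - w1 := by linarith
  set k := (m' - m) / (w2 - w1) with hk
  have hkm : m' - m = k * (w2 - w1) := by rw [hk]; field_simp
  have hk0 : k ≤ 0 := div_nonpos_of_nonpos_of_nonneg (by linarith) hd.le
  have e : QG t w1 m k w = (w1 * (1 - w1) * k + (1 / 2 + t * w1) * m - (1 + t)) +
      ((3 / 2 - 2 * w1 + t * w1) * k + t * m) * (w - w1) + ((t - 1) * k) * (w - w1) ^ 2 := by
    rw [QG]; ring
  rw [e]
  have hm' : m' = m + k * (w2 - w1) := by linarith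
  rw [hkm] at h0 h1 h2
  apply quad_nonneg (d := w2 - w1) (by linarith [hw.1]) (by linarith [hw.2]) hd
  · have h3 : 0 ≤ (w2 - w1) * (w1 * (1 - w1) * k + (1 / 2 + t * w1) * m - (1 + t)) := by linarith
    exact nonneg_of_mul_nonneg_right h3 hd
  · have h3 : 0 ≤ (w2 - w1) * ((w1 * (1 - w1) * k + (1 / 2 + t * w1) * m - (1 + t)) +
      ((3 / 2 - 2 * w1 + t * w1) * k + t * m) * (w2 - w1) + ((t - 1) * k) * (w2 - w1) ^ 2) := by
      rw [hm'] at h1
      linarith
    exact nonneg_of_mul_nonneg_right h3 hd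
  · rcases le_total 1 t with ht | ht
    · left
      exact mul_nonpos_of_nonneg_of_nonpos (by linarith) hk0
    · rcases h2 with h2 | h2
      · left
        have : t = 1 := le_antisymm ht h2
        rw [this]; simp
      · right
        constructor
        · have h3 : 0 ≤ (w2 - w1) * ((3 / 2 - 2 * w1 + t * w1) * k + t * m) := by linarith
          exact nonneg_of_mul_nonneg_right h3 hd
        · exact mul_nonneg_of_nonpos_of_nonpos (by linarith) hk0

lemma QG_lower {t w1 w2 m m' : ℝ} (h12 : w1 < w2) (hm : m' ≤ m) (h : StL t w1 w2 m m') :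
    ∀ w ∈ Icc w1 w2, QG t w1 m ((m' - m) / (w2 - w1)) w ≤ 0 := by
  intro w hw
  obtain ⟨h0, h1, h2⟩ := h
  have hd : 0 < w2 - w1 := by linarith
  set k := (m' - m) / (w2 - w1) with hk
  have hkm : m' - m = k * (w2 - w1) := by rw [hk]; field_simp
  have hk0 : k ≤ 0 := div_nonpos_of_nonpos_of_nonneg (by linarith) hd.le
  have e : QG t w1 m k w = -((-(w1 * (1 - w1) * k + (1 / 2 + t * w1) * m - (1 + t))) +
      (-((3 / 2 - 2 * w1 + t * w1) * k + t * m)) * (w - w1) + ((1 - t) * k) * (w - w1) ^ 2) := by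
    rw [QG]; ring
  rw [e, neg_nonpos]
  have hm' : m' = m + k * (w2 - w1) := by linarith
  rw [hkm] at h0 h1 h2
  apply quad_nonneg (d := w2 - w1) (by linarith [hw.1]) (by linarith [hw.2]) hd
  · have h3 : 0 ≤ (w2 - w1) * (-(w1 * (1 - w1) * k + (1 / 2 + t * w1) * m - (1 + t))) := by linarith
    exact nonneg_of_mul_nonneg_right h3 hd
  · have h3 : 0 ≤ (w2 - w1) * ((-(w1 * (1 - w1) * k + (1 / 2 + t * w1) * m - (1 + t))) +
      (-((3 / 2 - 2 * w1 + t * w1) * k + t * m)) * (w2 - w1) + ((1 - t) * k) * (w2 - w1) ^ 2) := by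
      rw [hm'] at h1
      linarith
    exact nonneg_of_mul_nonneg_right h3 hd
  · rcases le_total t 1 with ht | ht
    · left
      exact mul_nonpos_of_nonneg_of_nonpos (by linarith) hk0
    · rcases h2 with h2 | h2
      · left
        have : t = 1 := le_antisymm h2 ht
        rw [this]; simp
      · right
        constructor
        · have h3 : 0 ≤ (w2 - w1) * (-((3 / 2 - 2 * w1 + t * w1) * k + t * m)) := by linarith
          exact nonneg_of_mul_nonneg_right h3 hd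
        · exact mul_nonneg_of_nonpos_of_nonpos (by linarith) hk0

/-- affine function between two node values is between them -/
lemma aff_mem {w1 w2 m m' w : ℝ} (h12 : w1 < w2) (hm : m' ≤ m) (hw : w ∈ Icc w1 w2) :
    m' ≤ m + (m' - m) / (w2 - w1) * (w - w1) ∧ m + (m' - m) / (w2 - w1) * (w - w1) ≤ m := by
  have hd : 0 < w2 - w1 := by linarith
  have h1 : 0 ≤ (w - w1) / (w2 - w1) := div_nonneg (by linarith [hw.1]) hd.le
  have h2 : (w - w1) / (w2 - w1) ≤ 1 := by rw [div_le_one hd]; linarith [hw.2]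
  have e : (m' - m) / (w2 - w1) * (w - w1) = (m' - m) * ((w - w1) / (w2 - w1)) := by ring
  rw [e]
  constructor
  · nlinarith
  · nlinarith

lemma aff_end {w1 w2 m m' : ℝ} (h12 : w1 < w2) :
    m + (m' - m) / (w2 - w1) * (w2 - w1) = m' := by
  have : w2 - w1 ≠ 0 := by linarith
  field_simp
  ring

lemma stepG_up {β ta tb w1 w2 m m' : ℝ} (hβ : 1 < β) (ha : 1 + ta ≤ β) (hb : β ≤ 1 + tb)
    (h0 : 0 ≤ w1) (h12 : w1 < w2) (h2 : w2 < 1) (hm : m' ≤ m)
    (hA : StU ta w1 w2 m m') (hB : StU tb w1 w2 m m') (hg : gW β w1 ≤ m) :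
    (∀ w ∈ Icc w1 w2, gW β w ≤ m) ∧ gW β w2 ≤ m' := by
  have h := gW_upper hβ (k := (m' - m) / (w2 - w1)) h0 h2 (fun w hw => by
    have h3 := QG_affine (t := β - 1) (by linarith) (by linarith) (QG_upper h12 hm hA w hw)
      (QG_upper h12 hm hB w hw)
    rw [QG] at h3
    linarith) hg
  constructor
  · intro w hw
    exact (h w hw).trans (aff_mem h12 hm hw).2
  · have := h w2 ⟨h12.le, le_rfl⟩
    rwa [aff_end h12] at this

lemma stepG_lo {β ta tb w1 w2 m m' : ℝ} (hβ : 1 < β) (ha : 1 + ta ≤ β) (hb : β ≤ 1 + tb)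
    (h0 : 0 ≤ w1) (h12 : w1 < w2) (h2 : w2 < 1) (hm : m' ≤ m)
    (hA : StL ta w1 w2 m m') (hB : StL tb w1 w2 m m') (hg : m ≤ gW β w1) :
    (∀ w ∈ Icc w1 w2, m' ≤ gW β w) ∧ m' ≤ gW β w2 := by
  have h := gW_lower hβ (k := (m' - m) / (w2 - w1)) h0 h2 (fun w hw => by
    have h3 := QG_affine' (t := β - 1) (by linarith) (by linarith) (QG_lower h12 hm hA w hw)
      (QG_lower h12 hm hB w hw)
    rw [QG] at h3
    linarith) hg
  constructor
  · intro w hw
    exact (aff_mem h12 hm hw).1.trans (h w hw)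
  · have := h w2 ⟨h12.le, le_rfl⟩
    rwa [aff_end h12] at this

/-- step check for `P` -/
def SpU (t w1 w2 m m' : ℝ) : Prop :=
  0 ≤ (1 - w1) * (m' - m) + (w2 - w1) * (t * m) ∧ 0 ≤ (1 - w2) * (m' - m) + (w2 - w1) * (t * m')

def SpL (t w1 w2 m m' : ℝ) : Prop :=
  (1 - w1) * (m' - m) + (w2 - w1) * (t * m) ≤ 0 ∧ (1 - w2) * (m' - m) + (w2 - w1) * (t * m') ≤ 0

lemma stepP_up {β ta w1 w2 m m' : ℝ} (hβ : 1 < β) (ha : 1 + ta ≤ β)
    (h0 : 0 ≤ w1) (h12 : w1 < w2) (h2 : w2 < 1) (hm : m' ≤ m) (hm0 : 0 ≤ m')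
    (hA : SpU ta w1 w2 m m') (hg : PW β w1 ≤ m) :
    (∀ w ∈ Icc w1 w2, PW β w ≤ m) ∧ PW β w2 ≤ m' := by
  have hd : 0 < w2 - w1 := by linarith
  have h := PW_upper hβ (k := (m' - m) / (w2 - w1)) h0 h2 (fun w hw => by
    have ham := aff_mem h12 hm hw
    set k := (m' - m) / (w2 - w1) with hk
    have hkm : m' - m = k * (w2 - w1) := by rw [hk]; field_simp
    obtain ⟨h3, h4⟩ := hA
    have hm' : m' = m + k * (w2 - w1) := by linarith
    rw [hkm] at h3 h4
    have h5 : 0 ≤ (1 - w1) * k + ta * m := by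
      have : 0 ≤ (w2 - w1) * ((1 - w1) * k + ta * m) := by linarith
      exact nonneg_of_mul_nonneg_right this hd
    have h6 : 0 ≤ (1 - w2) * k + ta * m' := by
      have : 0 ≤ (w2 - w1) * ((1 - w2) * k + ta * m') := by linarith
      exact nonneg_of_mul_nonneg_right this hd
    have h7 : 0 ≤ (1 - w) * k + ta * (m + k * (w - w1)) := by
      have e : (w2 - w1) * ((1 - w) * k + ta * (m + k * (w - w1))) =
        (w2 - w) * ((1 - w1) * k + ta * m) + (w - w1) * ((1 - w2) * k + ta * m') := by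
        rw [hm']; ring
      have : 0 ≤ (w2 - w1) * ((1 - w) * k + ta * (m + k * (w - w1))) := by
        rw [e]
        have a1 := mul_nonneg (sub_nonneg.mpr hw.2) h5
        have a2 := mul_nonneg (sub_nonneg.mpr hw.1) h6
        linarith
      exact nonneg_of_mul_nonneg_right this hd
    have h8 : 0 ≤ m + k * (w - w1) := hm0.trans ham.1
    have h9 : ta * (m + k * (w - w1)) ≤ (β - 1) * (m + k * (w - w1)) :=
      mul_le_mul_of_nonneg_right (by linarith) h8
    linarith) hg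
  constructor
  · intro w hw
    exact (h w hw).trans (aff_mem h12 hm hw).2
  · have := h w2 ⟨h12.le, le_rfl⟩
    rwa [aff_end h12] at this

lemma stepP_lo {β tb w1 w2 m m' : ℝ} (hβ : 1 < β) (hb : β ≤ 1 + tb)
    (h0 : 0 ≤ w1) (h12 : w1 < w2) (h2 : w2 < 1) (hm : m' ≤ m) (hm0 : 0 ≤ m')
    (hA : SpL tb w1 w2 m m') (hg : m ≤ PW β w1) :
    (∀ w ∈ Icc w1 w2, m' ≤ PW β w) ∧ m' ≤ PW β w2 := by
  have hd : 0 < w2 - w1 := by linarith
  have h := PW_lower hβ (k := (m' - m) / (w2 - w1)) h0 h2 (fun w hw => by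
    have ham := aff_mem h12 hm hw
    set k := (m' - m) / (w2 - w1) with hk
    have hkm : m' - m = k * (w2 - w1) := by rw [hk]; field_simp
    obtain ⟨h3, h4⟩ := hA
    have hm' : m' = m + k * (w2 - w1) := by linarith
    rw [hkm] at h3 h4
    have h5 : 0 ≤ -((1 - w1) * k + tb * m) := by
      have : 0 ≤ (w2 - w1) * (-((1 - w1) * k + tb * m)) := by linarith
      exact nonneg_of_mul_nonneg_right this hd
    have h6 : 0 ≤ -((1 - w2) * k + tb * m') := by
      have : 0 ≤ (w2 - w1) * (-((1 - w2) * k + tb * m')) := by linarith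
      exact nonneg_of_mul_nonneg_right this hd
    have h7 : 0 ≤ -((1 - w) * k + tb * (m + k * (w - w1))) := by
      have e : (w2 - w1) * (-((1 - w) * k + tb * (m + k * (w - w1)))) =
        (w2 - w) * (-((1 - w1) * k + tb * m)) + (w - w1) * (-((1 - w2) * k + tb * m')) := by
        rw [hm']; ring
      have : 0 ≤ (w2 - w1) * (-((1 - w) * k + tb * (m + k * (w - w1)))) := by
        rw [e]
        have a1 := mul_nonneg (sub_nonneg.mpr hw.2) h5
        have a2 := mul_nonneg (sub_nonneg.mpr hw.1) h6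
        linarith
      exact nonneg_of_mul_nonneg_right this hd
    have h8 : 0 ≤ m + k * (w - w1) := hm0.trans ham.1
    have h9 : (β - 1) * (m + k * (w - w1)) ≤ tb * (m + k * (w - w1)) :=
      mul_le_mul_of_nonneg_right (by linarith) h8
    linarith) hg
  constructor
  · intro w hw
    exact (aff_mem h12 hm hw).1.trans (h w hw)
  · have := h w2 ⟨h12.le, le_rfl⟩
    rwa [aff_end h12] at this

/-- constant bounds up to the end -/
lemma endG_up {β ta tb w1 m : ℝ} (hβ : 1 < β) (ha : 1 + ta ≤ β) (hb : β ≤ 1 + tb)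
    (h0 : 0 ≤ w1) (hm0 : 0 ≤ m) (hta : 0 ≤ ta)
    (hA : 1 + ta ≤ (1 / 2 + ta * w1) * m) (hB : 1 + tb ≤ (1 / 2 + tb * w1) * m)
    (hg : gW β w1 ≤ m) : ∀ w ∈ Ico w1 1, gW β w ≤ m := by
  intro w hw
  have h := gW_upper hβ (k := 0) (w2 := w) h0 hw.2 (fun v hv => by
    have h3 := QG_affine (t := β - 1) (ta := ta) (tb := tb) (w1 := w1) (m := m) (k := 0) (w := v)
      (by linarith) (by linarith)
      (by
        rw [QG]
        have : ta * w1 * m ≤ ta * v * m :=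
          mul_le_mul_of_nonneg_right (mul_le_mul_of_nonneg_left hv.1 hta) hm0
        linarith)
      (by
        rw [QG]
        have : tb * w1 * m ≤ tb * v * m :=
          mul_le_mul_of_nonneg_right (mul_le_mul_of_nonneg_left hv.1 (by linarith)) hm0
        linarith)
    rw [QG] at h3
    linarith) hg w ⟨hw.1, le_rfl⟩
  linarith

lemma endG_lo {β ta tb w1 m : ℝ} (hβ : 1 < β) (ha : 1 + ta ≤ β) (hb : β ≤ 1 + tb)
    (h0 : 0 ≤ w1) (hm0 : 0 ≤ m) (hta : 0 ≤ ta)
    (hA : (1 / 2 + ta) * m ≤ 1 + ta) (hB : (1 / 2 + tb) * m ≤ 1 + tb)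
    (hg : m ≤ gW β w1) : ∀ w ∈ Ico w1 1, m ≤ gW β w := by
  intro w hw
  have h := gW_lower hβ (k := 0) (w2 := w) h0 hw.2 (fun v hv => by
    have hv1 : v < 1 := hv.2.trans_lt hw.2
    have h3 := QG_affine' (t := β - 1) (ta := ta) (tb := tb) (w1 := w1) (m := m) (k := 0) (w := v)
      (by linarith) (by linarith)
      (by
        rw [QG]
        have : ta * v * m ≤ ta * 1 * m :=
          mul_le_mul_of_nonneg_right (mul_le_mul_of_nonneg_left hv1.le hta) hm0
        linarith)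
      (by
        rw [QG]
        have : tb * v * m ≤ tb * 1 * m :=
          mul_le_mul_of_nonneg_right (mul_le_mul_of_nonneg_left hv1.le (by linarith)) hm0
        linarith)
    rw [QG] at h3
    linarith) hg w ⟨hw.1, le_rfl⟩
  linarith

lemma endP_up {β w1 m : ℝ} (hβ : 1 < β) (h0 : 0 ≤ w1) (hm0 : 0 ≤ m)
    (hg : PW β w1 ≤ m) : ∀ w ∈ Ico w1 1, PW β w ≤ m := by
  intro w hw
  have h := PW_upper hβ (k := 0) (w2 := w) h0 hw.2 (fun v hv => by
    have : 0 ≤ (β - 1) * m := mul_nonneg (by linarith) hm0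
    linarith) hg w ⟨hw.1, le_rfl⟩
  linarith

end Pool.Agent.TH242.AC
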