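import Mathlib

open Complex Metric Set
open scoped Nat

namespace Pool.Agent.TH242.AC

/-- The class of alpha-convex functions: `f` is analytic and univalent in the unit disc,
`f 0 = 0`, `f' 0 = 1`, and
`Re (α (1 + z f'' / f') + (1 - α) z f' / f) > 0`. (At `z = 0` the quantity is `1` by continuity,
the value at `0` is therefore left out.) -/
def IsAlphaConvex (α : ℝ) (f : ℂ → ℂ) : Prop :=
  DifferentiableOn ℂ f (ball 0 1) ∧ InjOn f (ball 0 1) ∧ f 0 = 0 ∧ deriv f 0 = 1 ∧
    ∀ z ∈ ball (0 : ℂ) 1, z ≠ 0 →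
      0 < ((α : ℂ) * (1 + z * deriv (deriv f) z / deriv f z) +
        (1 - (α : ℂ)) * (z * deriv f z / f z)).re

/-- Taylor coefficient at the origin -/
noncomputable def tc (f : ℂ → ℂ) (n : ℕ) : ℂ := (n ! : ℂ)⁻¹ * iteratedDeriv n f 0

end Pool.Agent.TH242.AC
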