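import Mathlib
import Pool.Agent.TH242.AC.Defs

open Complex Metric Set Filter Topology
open scoped Nat

namespace Pool.Agent.TH242.AC

/-- `f` is the sum of the power series with coefficients `c` in the unit disc. -/
def HasPS (f : ℂ → ℂ) (c : ℕ → ℂ) : Prop :=
  ∀ z : ℂ, ‖z‖ < 1 → HasSum (fun n => c n * z ^ n) (f z)

lemma HasPS.summable_norm {f : ℂ → ℂ} {c : ℕ → ℂ} (h : HasPS f c) {z : ℂ} (hz : ‖z‖ < 1) :
    Summable (fun n => ‖c n * z ^ n‖) := (h z hz).summable.norm

lemma hasPS_tc {f : ℂ → ℂ} (hf : DifferentiableOn ℂ f (ball 0 1)) : HasPS f (tc f) := by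
  intro z hz
  have h := hasSum_taylorSeries_on_ball hf (z := z) (by simpa using hz)
  have e : (fun n : ℕ ↦ (n ! : ℂ)⁻¹ • (z - 0) ^ n • iteratedDeriv n f 0) =
      fun n => tc f n * z ^ n := by
    funext n
    rw [tc, smul_eq_mul, smul_eq_mul, sub_zero]
    ring
  rwa [e] at h

lemma HasPS.congr {f g : ℂ → ℂ} {c : ℕ → ℂ} (h : HasPS f c) (hfg : ∀ z, ‖z‖ < 1 → g z = f z) :
    HasPS g c := by
  intro z hz
  rw [hfg z hz]
  exact h z hz

lemma HasPS.unique {f : ℂ → ℂ} {c d : ℕ → ℂ} (hc : HasPS f c) (hd : HasPS f d) : c = d := by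
  have key : ∀ e : ℕ → ℂ, HasPS f e →
      HasFPowerSeriesAt f (FormalMultilinearSeries.ofScalars ℂ e) 0 := by
    intro e he
    refine ⟨((2:NNReal)⁻¹ : NNReal), ?_, ?_, ?_⟩
    · apply FormalMultilinearSeries.le_radius_of_summable_norm
      have h1 : ‖(((2:ℝ)⁻¹ : ℝ) : ℂ)‖ < 1 := by
        rw [Complex.norm_real]; norm_num
      have := he.summable_norm h1
      refine this.congr (fun n => ?_)
      rw [FormalMultilinearSeries.ofScalars_norm, norm_mul, norm_pow, Complex.norm_real]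
      simp
    · simp
    · intro y hy
      rw [zero_add]
      have hy1 : ‖y‖ < 1 := by
        rw [mem_eball, edist_zero_right] at hy
        have h2 : ‖y‖ₑ < ((1:NNReal) : ENNReal) := hy.trans_le (by
          rw [ENNReal.coe_le_coe]
          rw [← NNReal.coe_le_coe]; push_cast; norm_num)
        rw [enorm_eq_nnnorm, ENNReal.coe_lt_coe] at h2
        exact_mod_cast h2
      have := he y hy1
      refine this.congr_fun (fun n => ?_)
      rw [FormalMultilinearSeries.ofScalars_apply_eq, smul_eq_mul]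
  have h1 := (key c hc).eq_formalMultilinearSeries (key d hd)
  exact FormalMultilinearSeries.ofScalars_series_injective ℂ ℂ h1

lemma HasPS.tc_eq {f : ℂ → ℂ} {c : ℕ → ℂ} (hc : HasPS f c)
    (hf : DifferentiableOn ℂ f (ball 0 1)) : tc f = c := (hasPS_tc hf).unique hc

lemma HasPS.mul {f g : ℂ → ℂ} {c d : ℕ → ℂ} (hc : HasPS f c) (hd : HasPS g d) :
    HasPS (fun z => f z * g z) (fun n => ∑ kl ∈ Finset.HasAntidiagonal.antidiagonal n, c kl.1 * d kl.2) := by
  intro z hz
  have h1 := hc.summable_norm hz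
  have h2 := hd.summable_norm hz
  have h3 := tsum_mul_tsum_eq_tsum_sum_antidiagonal_of_summable_norm h1 h2
  have h4 := summable_norm_sum_mul_antidiagonal_of_summable_norm h1 h2
  rw [(hc z hz).tsum_eq, (hd z hz).tsum_eq] at h3
  have h5 := h4.of_norm.hasSum
  rw [← h3] at h5
  refine h5.congr_fun (fun n => ?_)
  rw [Finset.sum_mul]
  refine Finset.sum_congr rfl (fun kl hkl => ?_)
  have : kl.1 + kl.2 = n := Finset.HasAntidiagonal.mem_antidiagonal.mp hkl
  rw [← this, pow_add]
  ring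

lemma HasPS.add {f g : ℂ → ℂ} {c d : ℕ → ℂ} (hc : HasPS f c) (hd : HasPS g d) :
    HasPS (fun z => f z + g z) (fun n => c n + d n) := by
  intro z hz
  have := (hc z hz).add (hd z hz)
  simpa only [add_mul] using this

lemma HasPS.sub {f g : ℂ → ℂ} {c d : ℕ → ℂ} (hc : HasPS f c) (hd : HasPS g d) :
    HasPS (fun z => f z - g z) (fun n => c n - d n) := by
  intro z hz
  have := (hc z hz).sub (hd z hz)
  simpa only [sub_mul] using this

lemma HasPS.const_mul {f : ℂ → ℂ} {c : ℕ → ℂ} (hc : HasPS f c) (a : ℂ) :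
    HasPS (fun z => a * f z) (fun n => a * c n) := by
  intro z hz
  have := (hc z hz).mul_left a
  simpa only [mul_assoc] using this

lemma HasPS.zmul {f : ℂ → ℂ} {c : ℕ → ℂ} (hc : HasPS f c) :
    HasPS (fun z => z * f z) (fun n => if n = 0 then 0 else c (n - 1)) := by
  intro z hz
  rw [← hasSum_nat_add_iff' 1]
  simp only [Finset.range_one, Finset.sum_singleton, if_true, zero_mul, sub_zero,
    Nat.add_eq_zero_iff, one_ne_zero, and_false, if_false, Nat.add_sub_cancel]
  have := (hc z hz).mul_left z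
  refine this.congr_fun (fun n => ?_)
  rw [pow_succ]
  ring

lemma HasPS.zero_val {f : ℂ → ℂ} {c : ℕ → ℂ} (hc : HasPS f c) : f 0 = c 0 := by
  have h := hc 0 (by simp)
  have h2 : HasSum (fun n => c n * (0:ℂ) ^ n) (c 0) := by
    have := hasSum_single (f := fun n => c n * (0:ℂ) ^ n) 0 (by intro n hn; simp [hn])
    simpa using this
  exact h.unique h2

lemma HasPS.diff_aux {f : ℂ → ℂ} {c : ℕ → ℂ} (hc : HasPS f c) {z : ℂ} (hz : ‖z‖ < 1) :
    DifferentiableAt ℂ f z ∧ HasSum (fun n : ℕ => (n : ℂ) * c n * z ^ n) (z * deriv f z) := by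
  obtain ⟨r, hr1, hr2⟩ := exists_between hz
  have hr0 : 0 < r := (norm_nonneg z).trans_lt hr1
  have hrn : ‖(r : ℂ)‖ < 1 := by
    rw [Complex.norm_real, Real.norm_eq_abs, abs_of_pos hr0]; exact hr2
  have hu : Summable (fun n => ‖c n * (r:ℂ) ^ n‖) := hc.summable_norm hrn
  have hle : ∀ (n : ℕ) (w : ℂ), w ∈ ball (0:ℂ) r → ‖c n * w ^ n‖ ≤ ‖c n * (r:ℂ) ^ n‖ := by
    intro n w hw
    rw [norm_mul, norm_mul, norm_pow, norm_pow, Complex.norm_real, Real.norm_eq_abs,
      abs_of_pos hr0]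
    have : ‖w‖ ≤ r := by simpa using (mem_ball_zero_iff.mp hw).le
    gcongr
  have hdf : ∀ n : ℕ, DifferentiableOn ℂ (fun w : ℂ => c n * w ^ n) (ball 0 r) := by
    intro n; fun_prop
  have hzr : z ∈ ball (0:ℂ) r := by simpa using hr1
  have h1 := differentiableOn_tsum_of_summable_norm hu hdf isOpen_ball hle
  have h2 := hasSum_deriv_of_summable_norm hu hdf isOpen_ball hle hzr
  have heq : ∀ w ∈ ball (0:ℂ) r, (∑' n, c n * w ^ n) = f w := by
    intro w hw
    exact (hc w (by have := mem_ball_zero_iff.mp hw; linarith)).tsum_eq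
  have hev : (fun w => ∑' n, c n * w ^ n) =ᶠ[𝓝 z] f := by
    filter_upwards [isOpen_ball.mem_nhds hzr] with w hw
    exact heq w hw
  constructor
  · exact (h1.differentiableAt (isOpen_ball.mem_nhds hzr)).congr_of_eventuallyEq hev.symm
  · rw [hev.deriv_eq] at h2
    have h3 := h2.mul_left z
    have e : (fun n => z * deriv (fun w : ℂ => c n * w ^ n) z) =
        fun n : ℕ => (n : ℂ) * c n * z ^ n := by
      funext n
      have : deriv (fun w : ℂ => c n * w ^ n) z = c n * (n * z ^ (n - 1)) := by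
        rw [deriv_const_mul _ (by fun_prop)]
        simp
      rw [this]
      rcases Nat.eq_zero_or_pos n with rfl | hn
      · simp
      · obtain ⟨m, rfl⟩ : ∃ m, n = m + 1 := ⟨n - 1, by omega⟩
        rw [Nat.add_sub_cancel, pow_succ]
        ring
    rwa [e] at h3

lemma HasPS.diffOn {f : ℂ → ℂ} {c : ℕ → ℂ} (hc : HasPS f c) : DifferentiableOn ℂ f (ball 0 1) :=
  fun _ hz => (hc.diff_aux (by simpa using hz)).1.differentiableWithinAt

lemma HasPS.zderiv {f : ℂ → ℂ} {c : ℕ → ℂ} (hc : HasPS f c) :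
    HasPS (fun z => z * deriv f z) (fun n => (n : ℂ) * c n) :=
  fun _ hz => (hc.diff_aux hz).2

end Pool.Agent.TH242.AC
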