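import Mathlib
import Pool.Agent.TH242.AC.Angle

open Complex Metric Set Filter Topology MeasureTheory

namespace Pool.Agent.TH242.AC

lemma sum_integral_exchange {c : ℕ → ℂ} (hc : Summable (fun n => ‖c n‖)) {e : ℕ → ℝ → ℂ}
    (he : ∀ n, Continuous (e n)) (he1 : ∀ n φ, ‖e n φ‖ ≤ 1) {G : ℝ → ℂ} (hG : Continuous G)
    (a b : ℝ) :
    HasSum (fun n => ∫ φ in a..b, c n * e n φ * G φ) (∫ φ in a..b, (∑' n, c n * e n φ) * G φ) := by
  have hb : ∀ n φ, ‖c n * e n φ‖ ≤ ‖c n‖ := by
    intro n φ
    rw [norm_mul]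
    exact mul_le_of_le_one_right (norm_nonneg _) (he1 n φ)
  apply intervalIntegral.hasSum_integral_of_dominated_convergence (fun n φ => ‖c n‖ * ‖G φ‖)
  · intro n
    exact (((continuous_const.mul (he n)).mul hG)).aestronglyMeasurable
  · intro n
    filter_upwards with φ _
    rw [norm_mul]
    exact mul_le_mul_of_nonneg_right (hb n φ) (norm_nonneg _)
  · filter_upwards with φ _
    exact hc.mul_right _
  · simp_rw [tsum_mul_right]
    exact (continuous_const.mul hG.norm).intervalIntegrable _ _
  · filter_upwards with φ _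
    have : Summable (fun n => c n * e n φ) :=
      Summable.of_norm_bounded hc (fun n => hb n φ)
    exact this.hasSum.mul_right _

lemma integral_exp_int (k : ℤ) : ∫ φ in (-Real.pi)..Real.pi, exp ((k : ℂ) * I * φ) =
    if k = 0 then 2 * (Real.pi : ℂ) else 0 := by
  split_ifs with h
  · subst h
    simp
    ring
  · have hk : (k : ℂ) * I ≠ 0 := mul_ne_zero (by exact_mod_cast h) I_ne_zero
    rw [integral_exp_mul_complex hk]
    have h1 : exp ((k : ℂ) * I * ((Real.pi : ℝ) : ℂ)) = exp ((k : ℂ) * I * ((-Real.pi : ℝ) : ℂ)) := by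
      rw [Complex.exp_eq_exp_iff_exists_int]
      exact ⟨k, by push_cast; ring⟩
    rw [h1, sub_self, zero_div]

lemma bp_pow_mul (n m : ℕ) (φ : ℝ) :
    bp φ ^ n * bp (-φ) ^ m = (-1) ^ (n + m) * exp ((((n : ℤ) - (m : ℤ) : ℤ) : ℂ) * I * φ) := by
  rw [bp, bp, neg_pow, neg_pow (exp _) m, ← Complex.exp_nat_mul, ← Complex.exp_nat_mul, pow_add]
  have : exp ((((n : ℤ) - (m : ℤ) : ℤ) : ℂ) * I * φ) =
      exp (n * (φ * I)) * exp (m * (((-φ : ℝ) : ℂ) * I)) := by
    rw [← Complex.exp_add]
    congr 1
    push_cast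
    ring
  rw [this]
  ring

lemma integral_bp_pow_mul (n m : ℕ) :
    ∫ φ in (-Real.pi)..Real.pi, bp φ ^ n * bp (-φ) ^ m = if n = m then 2 * (Real.pi : ℂ) else 0 := by
  simp_rw [bp_pow_mul]
  rw [intervalIntegral.integral_const_mul, integral_exp_int]
  by_cases h : n = m
  · subst h
    simp [← two_mul]
  · have : ((n : ℤ) - (m : ℤ)) ≠ 0 := by omega
    simp [h, this]

lemma integral_bp_pow (n : ℕ) :
    ∫ φ in (-Real.pi)..Real.pi, bp φ ^ n = if n = 0 then 2 * (Real.pi : ℂ) else 0 := by
  have := integral_bp_pow_mul n 0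
  simpa using this

lemma conj_bp (φ : ℝ) : starRingEnd ℂ (bp (-φ)) = bp φ := by
  rw [← bp_neg, neg_neg]

lemma norm_bp_pow_le (n : ℕ) (φ : ℝ) : ‖bp φ ^ n‖ ≤ 1 := by
  rw [norm_pow, norm_bp, one_pow]

lemma bp_neg_continuous : Continuous (fun φ : ℝ => bp (-φ)) := bp_continuous.comp continuous_neg

lemma summable_bp {b : ℕ → ℂ} (hb : Summable (fun n => ‖b n‖)) (φ : ℝ) :
    Summable (fun n => b n * bp φ ^ n) := by
  refine Summable.of_norm_bounded hb (fun n => ?_)
  rw [norm_mul]
  exact mul_le_of_le_one_right (norm_nonneg _) (norm_bp_pow_le n φ)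

lemma tsum_bp_continuous {b : ℕ → ℂ} (hb : Summable (fun n => ‖b n‖)) :
    Continuous (fun φ : ℝ => ∑' n, b n * bp φ ^ n) := by
  refine continuous_tsum (fun n => ?_) hb (fun n φ => ?_)
  · exact continuous_const.mul (bp_continuous.pow n)
  · rw [norm_mul]
    exact mul_le_of_le_one_right (norm_nonneg _) (norm_bp_pow_le n φ)

/-- Parseval type pairing of a power series with the real part of another -/
theorem pairing {a b : ℕ → ℂ} (ha : Summable (fun n => ‖a n‖)) (hb : Summable (fun n => ‖b n‖)) :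
    HasSum (fun n => (Real.pi : ℂ) * (a n * b n + if n = 0 then a 0 * starRingEnd ℂ (b 0) else 0))
    (∫ φ in (-Real.pi)..Real.pi, (∑' n, a n * bp φ ^ n) *
      (((∑' n, b n * bp (-φ) ^ n).re : ℝ) : ℂ)) := by
  set B : ℝ → ℂ := fun φ => ∑' n, b n * bp (-φ) ^ n with hB
  have hBc : Continuous B := (tsum_bp_continuous hb).comp continuous_neg
  have hGc : Continuous (fun φ : ℝ => (((B φ).re : ℝ) : ℂ)) :=
    continuous_ofReal.comp (continuous_re.comp hBc)
  have h1 := sum_integral_exchange ha (e := fun n φ => bp φ ^ n)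
    (fun n => bp_continuous.pow n) (fun n φ => norm_bp_pow_le n φ) hGc (-Real.pi) Real.pi
  refine h1.congr_fun (fun n => ?_)
  -- the single integral
  have e1 : ∀ φ : ℝ, a n * bp φ ^ n * (((B φ).re : ℝ) : ℂ) =
      a n / 2 * (B φ * bp φ ^ n) + a n / 2 * (starRingEnd ℂ (B φ) * bp φ ^ n) := by
    intro φ
    rw [Complex.re_eq_add_conj]
    ring
  have hi1 : ∫ φ in (-Real.pi)..Real.pi, B φ * bp φ ^ n = 2 * Real.pi * b n := by
    have h2 := sum_integral_exchange hb (e := fun m φ => bp (-φ) ^ m)
      (fun m => bp_neg_continuous.pow m) (fun m φ => norm_bp_pow_le m _)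
      (bp_continuous.pow n) (-Real.pi) Real.pi
    have h3 : HasSum (fun m => ∫ φ in (-Real.pi)..Real.pi, b m * bp (-φ) ^ m * bp φ ^ n)
        (2 * Real.pi * b n) := by
      have h4 : ∀ m, (∫ φ in (-Real.pi)..Real.pi, b m * bp (-φ) ^ m * bp φ ^ n) =
          if m = n then 2 * Real.pi * b n else 0 := by
        intro m
        have : ∀ φ : ℝ, b m * bp (-φ) ^ m * bp φ ^ n = b m * (bp φ ^ n * bp (-φ) ^ m) := by
          intro φ; ring
        simp_rw [this]
        rw [intervalIntegral.integral_const_mul, integral_bp_pow_mul]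
        by_cases h : n = m
        · subst h; simp; ring
        · simp [h, Ne.symm h]
      simp_rw [h4]
      have := hasSum_single (f := fun m => if m = n then 2 * (Real.pi : ℂ) * b n else 0) n
        (by intro m hm; simp [hm])
      simpa using this
    exact h2.unique h3
  have hi2 : ∫ φ in (-Real.pi)..Real.pi, starRingEnd ℂ (B φ) * bp φ ^ n =
      if n = 0 then 2 * Real.pi * starRingEnd ℂ (b 0) else 0 := by
    have hcB : ∀ φ : ℝ, starRingEnd ℂ (B φ) = ∑' m, starRingEnd ℂ (b m) * bp φ ^ m := by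
      intro φ
      rw [hB, Complex.conj_tsum]
      congr 1
      funext m
      rw [map_mul, map_pow, conj_bp]
    simp_rw [hcB]
    have hb' : Summable (fun m => ‖starRingEnd ℂ (b m)‖) := by
      refine hb.congr (fun m => ?_)
      rw [RCLike.norm_conj]
    have h2 := sum_integral_exchange hb' (e := fun m φ => bp φ ^ m)
      (fun m => bp_continuous.pow m) (fun m φ => norm_bp_pow_le m _)
      (bp_continuous.pow n) (-Real.pi) Real.pi
    have h3 : HasSum (fun m => ∫ φ in (-Real.pi)..Real.pi, starRingEnd ℂ (b m) * bp φ ^ m * bp φ ^ n)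
        (if n = 0 then 2 * Real.pi * starRingEnd ℂ (b 0) else 0) := by
      have h4 : ∀ m, (∫ φ in (-Real.pi)..Real.pi, starRingEnd ℂ (b m) * bp φ ^ m * bp φ ^ n) =
          if m = 0 then (if n = 0 then 2 * Real.pi * starRingEnd ℂ (b 0) else 0) else 0 := by
        intro m
        have : ∀ φ : ℝ, starRingEnd ℂ (b m) * bp φ ^ m * bp φ ^ n =
            starRingEnd ℂ (b m) * bp φ ^ (m + n) := by
          intro φ; rw [pow_add]; ring
        simp_rw [this]
        rw [intervalIntegral.integral_const_mul, integral_bp_pow]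
        rcases Nat.eq_zero_or_pos m with rfl | hm
        · rcases Nat.eq_zero_or_pos n with rfl | hn
          · simp; ring
          · simp [hn.ne']
        · simp [hm.ne']
      simp_rw [h4]
      have := hasSum_single (f := fun m => if m = 0 then
        (if n = 0 then 2 * (Real.pi : ℂ) * starRingEnd ℂ (b 0) else 0) else 0) 0
        (by intro m hm; simp [hm])
      simpa using this
    exact h2.unique h3
  simp_rw [e1]
  rw [intervalIntegral.integral_add, intervalIntegral.integral_const_mul,
    intervalIntegral.integral_const_mul, hi1, hi2]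
  · by_cases h : n = 0
    · subst h; simp; ring
    · simp [h]; ring
  · exact (continuous_const.mul (hBc.mul (bp_continuous.pow n))).intervalIntegrable _ _
  · exact (continuous_const.mul ((continuous_conj.comp hBc).mul
      (bp_continuous.pow n))).intervalIntegrable _ _

end Pool.Agent.TH242.AC
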