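import Mathlib
import Pool.Agent.TH242.AC.Fourier
import Pool.Agent.TH242.AC.Coef

open Complex Metric Set Filter Topology MeasureTheory

namespace Pool.Agent.TH242.AC

lemma HasPS.summable_real {f : ℂ → ℂ} {c : ℕ → ℂ} (h : HasPS f c) {w : ℂ} (hw : ‖w‖ < 1) :
    Summable (fun n => ‖c n * w ^ n‖) := h.summable_norm hw

lemma HasPS.eval_bp {f : ℂ → ℂ} {c : ℕ → ℂ} (h : HasPS f c) {w : ℂ} (hw : ‖w‖ < 1) (φ : ℝ) :
    (∑' n, (c n * w ^ n) * bp φ ^ n) = f (w * bp φ) := by
  have h1 : ‖w * bp φ‖ < 1 := by rw [norm_mul, norm_bp, mul_one]; exact hw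
  rw [← (h _ h1).tsum_eq]
  congr 1
  funext n
  rw [mul_pow]; ring

/-- pairing of two analytic functions -/
theorem pairing_fun {f g : ℂ → ℂ} {a b : ℕ → ℂ} (hf : HasPS f a) (hg : HasPS g b) {ζ w : ℂ}
    (hζ : ‖ζ‖ < 1) (hw : ‖w‖ < 1) :
    HasSum (fun n => (Real.pi : ℂ) * ((a n * ζ ^ n) * (b n * w ^ n) +
      if n = 0 then a 0 * starRingEnd ℂ (b 0) else 0))
    (∫ φ in (-Real.pi)..Real.pi, f (ζ * bp φ) * (((g (w * bp (-φ))).re : ℝ) : ℂ)) := by
  have h1 := pairing (hf.summable_norm hζ) (hg.summable_norm hw)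
  have e1 : ∀ φ, (∑' n, (a n * ζ ^ n) * bp φ ^ n) = f (ζ * bp φ) := fun φ => hf.eval_bp hζ φ
  have e2 : ∀ φ, (∑' n, (b n * w ^ n) * bp (-φ) ^ n) = g (w * bp (-φ)) :=
    fun φ => hg.eval_bp hw (-φ)
  simp_rw [e1, e2] at h1
  refine h1.congr_fun (fun n => ?_)
  by_cases h : n = 0
  · subst h; simp
  · simp [h]

lemma hasPS_pow (k : ℕ) : HasPS (fun z => z ^ k) (fun n => if n = k then 1 else 0) := by
  intro z _
  have := hasSum_single (f := fun n => (if n = k then (1:ℂ) else 0) * z ^ n) k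
    (by intro n hn; simp [hn])
  simpa using this

lemma caratheodory_aux {g : ℂ → ℂ} {b : ℕ → ℂ} (hg : HasPS g b) {w : ℂ} (hw : ‖w‖ < 1)
    (hre : ∀ z, ‖z‖ ≤ ‖w‖ → 0 ≤ (g z).re) {n : ℕ} (hn : 1 ≤ n) :
    ‖b n * w ^ n‖ ≤ 2 * (b 0).re := by
  have hpi := Real.pi_pos
  have hgc : Continuous (fun φ : ℝ => (g (w * bp (-φ))).re) := by
    apply continuous_re.comp
    have h1 : ContinuousOn g (ball 0 1) := hg.diffOn.continuousOn
    apply h1.comp_continuous (continuous_const.mul bp_neg_continuous)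
    intro φ
    have : ‖w * bp (-φ)‖ < 1 := by rw [norm_mul, norm_bp, mul_one]; exact hw
    simpa using this
  -- choose a radius for the polynomial side: use ζ = 1/2 and rescale
  have h1 := pairing (a := fun k => if k = n then 1 else 0)
    (b := fun k => b k * w ^ k) ?_ (hg.summable_norm hw)
  · have h2 := pairing (a := fun k => if k = 0 then 1 else 0)
      (b := fun k => b k * w ^ k) ?_ (hg.summable_norm hw)
    · have e0 : ∀ (m : ℕ) (φ : ℝ), (∑' k, (if k = m then (1:ℂ) else 0) * bp φ ^ k) = bp φ ^ m := by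
        intro m φ
        rw [tsum_eq_single m (by intro k hk; simp [hk])]
        simp
      have e2 : ∀ φ, (∑' n, (b n * w ^ n) * bp (-φ) ^ n) = g (w * bp (-φ)) :=
        fun φ => hg.eval_bp hw (-φ)
      simp_rw [e0, e2] at h1 h2
      have h3 : HasSum (fun k => (Real.pi : ℂ) * ((if k = n then (1:ℂ) else 0) * (b k * w ^ k) +
          if k = 0 then (if 0 = n then 1 else 0) * starRingEnd ℂ (b 0 * w ^ 0) else 0))
          ((Real.pi : ℂ) * (b n * w ^ n)) := by
        have := hasSum_single (f := fun k => (Real.pi : ℂ) * ((if k = n then (1:ℂ) else 0) *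
          (b k * w ^ k) + if k = 0 then (if 0 = n then 1 else 0) * starRingEnd ℂ (b 0 * w ^ 0)
            else 0)) n (by
            intro k hk
            have : (0:ℕ) ≠ n := by omega
            simp [hk, this])
        have h0 : (0:ℕ) ≠ n := by omega
        have h0' : n ≠ 0 := by omega
        simpa [h0, h0'] using this
      have h4 : HasSum (fun k => (Real.pi : ℂ) * ((if k = 0 then (1:ℂ) else 0) * (b k * w ^ k) +
          if k = 0 then (if 0 = 0 then 1 else 0) * starRingEnd ℂ (b 0 * w ^ 0) else 0))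
          ((Real.pi : ℂ) * (2 * (((b 0).re : ℝ) : ℂ))) := by
        have := hasSum_single (f := fun k => (Real.pi : ℂ) * ((if k = 0 then (1:ℂ) else 0) *
          (b k * w ^ k) + if k = 0 then (if 0 = 0 then 1 else 0) * starRingEnd ℂ (b 0 * w ^ 0)
            else 0)) 0 (by
            intro k hk
            simp [hk])
        have e : (Real.pi : ℂ) * (2 * (((b 0).re : ℝ) : ℂ)) = (Real.pi : ℂ) * ((if 0 = 0 then (1:ℂ) else 0) *
          (b 0 * w ^ 0) + if 0 = 0 then (if 0 = 0 then 1 else 0) * starRingEnd ℂ (b 0 * w ^ 0)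
            else 0) := by
          rw [Complex.re_eq_add_conj]
          simp
          ring
        rw [e]
        exact this
      have h5 := h1.unique h3
      have h6 := h2.unique h4
      have h7 : ‖(Real.pi : ℂ) * (b n * w ^ n)‖ ≤
          ∫ φ in (-Real.pi)..Real.pi, (g (w * bp (-φ))).re := by
        rw [← h5]
        have hle : (-Real.pi) ≤ Real.pi := by linarith
        refine (intervalIntegral.norm_integral_le_integral_norm hle).trans (le_of_eq ?_)
        apply intervalIntegral.integral_congr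
        intro φ _
        simp only
        rw [norm_mul, norm_pow, norm_bp, one_pow, one_mul, Complex.norm_real, Real.norm_eq_abs,
          abs_of_nonneg]
        apply hre
        rw [norm_mul, norm_bp, mul_one]
      have h8 : ∫ φ in (-Real.pi)..Real.pi, (g (w * bp (-φ))).re = Real.pi * (2 * (b 0).re) := by
        have h9 : ∫ φ in (-Real.pi)..Real.pi, bp φ ^ 0 * (((g (w * bp (-φ))).re : ℝ) : ℂ) =
            ((∫ φ in (-Real.pi)..Real.pi, (g (w * bp (-φ))).re : ℝ) : ℂ) := by
          rw [← intervalIntegral.integral_ofReal]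
          apply intervalIntegral.integral_congr
          intro φ _
          simp
        rw [h9] at h6
        exact_mod_cast h6
      rw [h8, norm_mul, Complex.norm_real, Real.norm_eq_abs, abs_of_pos hpi] at h7
      exact le_of_mul_le_mul_left h7 hpi
    · refine summable_of_ne_finset_zero (s := {0}) (fun k hk => ?_)
      have : k ≠ 0 := by simpa using hk
      simp [this]
  · refine summable_of_ne_finset_zero (s := {n}) (fun k hk => ?_)
    have : k ≠ n := by simpa using hk
    simp [this]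

/-- Caratheodory's coefficient bound -/
theorem caratheodory {g : ℂ → ℂ} {b : ℕ → ℂ} (hg : HasPS g b)
    (hre : ∀ z, ‖z‖ < 1 → 0 ≤ (g z).re) {n : ℕ} (hn : 1 ≤ n) :
    ‖b n‖ ≤ 2 * (b 0).re := by
  have h1 : ∀ r ∈ Ioo (0:ℝ) 1, ‖b n‖ * r ^ n ≤ 2 * (b 0).re := by
    intro r hr
    have hrn : ‖(r : ℂ)‖ = r := by rw [Complex.norm_real, Real.norm_eq_abs, abs_of_pos hr.1]
    have := caratheodory_aux hg (w := (r : ℂ)) (by rw [hrn]; exact hr.2)
      (fun z hz => hre z (by rw [hrn] at hz; linarith [hr.2])) hn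
    rwa [norm_mul, norm_pow, hrn] at this
  have h2 : Tendsto (fun r : ℝ => ‖b n‖ * r ^ n) (𝓝[<] 1) (𝓝 (‖b n‖ * 1 ^ n)) := by
    have : Continuous (fun r : ℝ => ‖b n‖ * r ^ n) := by fun_prop
    exact (this.tendsto 1).mono_left nhdsWithin_le_nhds
  rw [one_pow, mul_one] at h2
  refine le_of_tendsto h2 ?_
  have hev : ∀ᶠ s : ℝ in 𝓝[<] 1, 0 < s := by
    have : ∀ᶠ s : ℝ in 𝓝 1, (0:ℝ) < s := lt_mem_nhds (by norm_num)
    exact this.filter_mono nhdsWithin_le_nhds
  filter_upwards [hev, self_mem_nhdsWithin] with r h0 h3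
  exact h1 r ⟨h0, h3⟩

end Pool.Agent.TH242.AC
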