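import Mathlib
import Pool.Agent.TH242.AC.Box

open Set

namespace Pool.Agent.TH242.AC

/-- one node of a certificate -/
structure Row where
  w : ℤ
  gl : ℤ
  gh : ℤ
  pl : ℤ
  ph : ℤ
  ct : ℤ
  ch : ℤ
  k3 : ℤ

def ckStU (D t w1 w2 m m' : ℤ) : Bool :=
  decide (0 ≤ 2 * D * (w1 * (D - w1) * (m' - m)) +
    (w2 - w1) * ((D * D + 2 * t * w1) * m - 2 * D * D * (D + t))) &&
  decide (0 ≤ 2 * D * (w2 * (D - w2) * (m' - m)) +
    (w2 - w1) * ((D * D + 2 * t * w2) * m' - 2 * D * D * (D + t))) &&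
  (decide (D ≤ t) || decide (0 ≤ (3 * D * D - 4 * D * w1 + 2 * t * w1) * (m' - m) +
    2 * (w2 - w1) * (t * m)))

def ckStL (D t w1 w2 m m' : ℤ) : Bool :=
  decide (2 * D * (w1 * (D - w1) * (m' - m)) +
    (w2 - w1) * ((D * D + 2 * t * w1) * m - 2 * D * D * (D + t)) ≤ 0) &&
  decide (2 * D * (w2 * (D - w2) * (m' - m)) +
    (w2 - w1) * ((D * D + 2 * t * w2) * m' - 2 * D * D * (D + t)) ≤ 0) &&
  (decide (t ≤ D) || decide ((3 * D * D - 4 * D * w1 + 2 * t * w1) * (m' - m) +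
    2 * (w2 - w1) * (t * m) ≤ 0))

def ckSpU (D t w1 w2 m m' : ℤ) : Bool :=
  decide (0 ≤ D * ((D - w1) * (m' - m)) + (w2 - w1) * (t * m)) &&
  decide (0 ≤ D * ((D - w2) * (m' - m)) + (w2 - w1) * (t * m'))

def ckSpL (D t w1 w2 m m' : ℤ) : Bool :=
  decide (D * ((D - w1) * (m' - m)) + (w2 - w1) * (t * m) ≤ 0) &&
  decide (D * ((D - w2) * (m' - m)) + (w2 - w1) * (t * m') ≤ 0)

lemma ckStU_sound {D t w1 w2 m m' : ℤ} (hD : 0 < D) (h : ckStU D t w1 w2 m m' = true) :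
    StU (t / D : ℝ) (w1 / D) (w2 / D) (m / D) (m' / D) := by
  have hD' : (0:ℝ) < D := by exact_mod_cast hD
  simp only [ckStU, Bool.and_eq_true, Bool.or_eq_true, decide_eq_true_eq] at h
  obtain ⟨⟨h1, h2⟩, h3⟩ := h
  refine ⟨?_, ?_, ?_⟩
  · have h1' : (0:ℝ) ≤ 2 * D * (w1 * (D - w1) * (m' - m)) +
      (w2 - w1) * ((D * D + 2 * t * w1) * m - 2 * D * D * (D + t)) := by exact_mod_cast h1
    have e : (w1 / D : ℝ) * (1 - w1 / D) * (m' / D - m / D) +
        (w2 / D - w1 / D) * ((1 / 2 + t / D * (w1 / D)) * (m / D) - (1 + t / D)) =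
        (2 * D * (w1 * (D - w1) * (m' - m)) +
      (w2 - w1) * ((D * D + 2 * t * w1) * m - 2 * D * D * (D + t))) / (2 * D ^ 4) := by
      field_simp
    rw [e]
    positivity
  · have h1' : (0:ℝ) ≤ 2 * D * (w2 * (D - w2) * (m' - m)) +
      (w2 - w1) * ((D * D + 2 * t * w2) * m' - 2 * D * D * (D + t)) := by exact_mod_cast h2
    have e : (w2 / D : ℝ) * (1 - w2 / D) * (m' / D - m / D) +
        (w2 / D - w1 / D) * ((1 / 2 + t / D * (w2 / D)) * (m' / D) - (1 + t / D)) =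
        (2 * D * (w2 * (D - w2) * (m' - m)) +
      (w2 - w1) * ((D * D + 2 * t * w2) * m' - 2 * D * D * (D + t))) / (2 * D ^ 4) := by
      field_simp
    rw [e]
    positivity
  · rcases h3 with h3 | h3
    · left
      rw [le_div_iff₀ hD', one_mul]
      exact_mod_cast h3
    · right
      have h1' : (0:ℝ) ≤ (3 * D * D - 4 * D * w1 + 2 * t * w1) * (m' - m) +
        2 * (w2 - w1) * (t * m) := by exact_mod_cast h3
      have e : (3 / 2 - 2 * (w1 / D) + t / D * (w1 / D) : ℝ) * (m' / D - m / D) +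
          (w2 / D - w1 / D) * (t / D * (m / D)) =
          ((3 * D * D - 4 * D * w1 + 2 * t * w1) * (m' - m) +
        2 * (w2 - w1) * (t * m)) / (2 * D ^ 3) := by
        field_simp
        ring
      rw [e]
      positivity

lemma ckStL_sound {D t w1 w2 m m' : ℤ} (hD : 0 < D) (h : ckStL D t w1 w2 m m' = true) :
    StL (t / D : ℝ) (w1 / D) (w2 / D) (m / D) (m' / D) := by
  have hD' : (0:ℝ) < D := by exact_mod_cast hD
  simp only [ckStL, Bool.and_eq_true, Bool.or_eq_true, decide_eq_true_eq] at h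
  obtain ⟨⟨h1, h2⟩, h3⟩ := h
  refine ⟨?_, ?_, ?_⟩
  · have h1' : 2 * D * (w1 * (D - w1) * (m' - m)) +
      (w2 - w1) * ((D * D + 2 * t * w1) * m - 2 * D * D * (D + t)) ≤ (0:ℝ) := by exact_mod_cast h1
    have e : (w1 / D : ℝ) * (1 - w1 / D) * (m' / D - m / D) +
        (w2 / D - w1 / D) * ((1 / 2 + t / D * (w1 / D)) * (m / D) - (1 + t / D)) =
        (2 * D * (w1 * (D - w1) * (m' - m)) +
      (w2 - w1) * ((D * D + 2 * t * w1) * m - 2 * D * D * (D + t))) / (2 * D ^ 4) := by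
      field_simp
    rw [e]
    exact div_nonpos_of_nonpos_of_nonneg h1' (by positivity)
  · have h1' : 2 * D * (w2 * (D - w2) * (m' - m)) +
      (w2 - w1) * ((D * D + 2 * t * w2) * m' - 2 * D * D * (D + t)) ≤ (0:ℝ) := by
      exact_mod_cast h2
    have e : (w2 / D : ℝ) * (1 - w2 / D) * (m' / D - m / D) +
        (w2 / D - w1 / D) * ((1 / 2 + t / D * (w2 / D)) * (m' / D) - (1 + t / D)) =
        (2 * D * (w2 * (D - w2) * (m' - m)) +
      (w2 - w1) * ((D * D + 2 * t * w2) * m' - 2 * D * D * (D + t))) / (2 * D ^ 4) := by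
      field_simp
    rw [e]
    exact div_nonpos_of_nonpos_of_nonneg h1' (by positivity)
  · rcases h3 with h3 | h3
    · left
      rw [div_le_one hD']
      exact_mod_cast h3
    · right
      have h1' : (3 * D * D - 4 * D * w1 + 2 * t * w1) * (m' - m) +
        2 * (w2 - w1) * (t * m) ≤ (0:ℝ) := by exact_mod_cast h3
      have e : (3 / 2 - 2 * (w1 / D) + t / D * (w1 / D) : ℝ) * (m' / D - m / D) +
          (w2 / D - w1 / D) * (t / D * (m / D)) =
          ((3 * D * D - 4 * D * w1 + 2 * t * w1) * (m' - m) +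
        2 * (w2 - w1) * (t * m)) / (2 * D ^ 3) := by
        field_simp
        ring
      rw [e]
      exact div_nonpos_of_nonpos_of_nonneg h1' (by positivity)

lemma ckSpU_sound {D t w1 w2 m m' : ℤ} (hD : 0 < D) (h : ckSpU D t w1 w2 m m' = true) :
    SpU (t / D : ℝ) (w1 / D) (w2 / D) (m / D) (m' / D) := by
  have hD' : (0:ℝ) < D := by exact_mod_cast hD
  simp only [ckSpU, Bool.and_eq_true, decide_eq_true_eq] at h
  obtain ⟨h1, h2⟩ := h
  refine ⟨?_, ?_⟩
  · have h1' : (0:ℝ) ≤ D * ((D - w1) * (m' - m)) + (w2 - w1) * (t * m) := by exact_mod_cast h1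
    have e : (1 - w1 / D : ℝ) * (m' / D - m / D) + (w2 / D - w1 / D) * (t / D * (m / D)) =
        (D * ((D - w1) * (m' - m)) + (w2 - w1) * (t * m)) / D ^ 3 := by
      field_simp
    rw [e]
    positivity
  · have h1' : (0:ℝ) ≤ D * ((D - w2) * (m' - m)) + (w2 - w1) * (t * m') := by exact_mod_cast h2
    have e : (1 - w2 / D : ℝ) * (m' / D - m / D) + (w2 / D - w1 / D) * (t / D * (m' / D)) =
        (D * ((D - w2) * (m' - m)) + (w2 - w1) * (t * m')) / D ^ 3 := by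
      field_simp
    rw [e]
    positivity

lemma ckSpL_sound {D t w1 w2 m m' : ℤ} (hD : 0 < D) (h : ckSpL D t w1 w2 m m' = true) :
    SpL (t / D : ℝ) (w1 / D) (w2 / D) (m / D) (m' / D) := by
  have hD' : (0:ℝ) < D := by exact_mod_cast hD
  simp only [ckSpL, Bool.and_eq_true, decide_eq_true_eq] at h
  obtain ⟨h1, h2⟩ := h
  refine ⟨?_, ?_⟩
  · have h1' : D * ((D - w1) * (m' - m)) + (w2 - w1) * (t * m) ≤ (0:ℝ) := by exact_mod_cast h1
    have e : (1 - w1 / D : ℝ) * (m' / D - m / D) + (w2 / D - w1 / D) * (t / D * (m / D)) =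
        (D * ((D - w1) * (m' - m)) + (w2 - w1) * (t * m)) / D ^ 3 := by
      field_simp
    rw [e]
    exact div_nonpos_of_nonpos_of_nonneg h1' (by positivity)
  · have h1' : D * ((D - w2) * (m' - m)) + (w2 - w1) * (t * m') ≤ (0:ℝ) := by exact_mod_cast h2
    have e : (1 - w2 / D : ℝ) * (m' / D - m / D) + (w2 / D - w1 / D) * (t / D * (m' / D)) =
        (D * ((D - w2) * (m' - m)) + (w2 - w1) * (t * m')) / D ^ 3 := by
      field_simp
    rw [e]
    exact div_nonpos_of_nonpos_of_nonneg h1' (by positivity)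

def sqlo (a b : ℤ) : ℤ := if 0 ≤ a then a * a else if b ≤ 0 then b * b else 0
def sqhi (a b : ℤ) : ℤ := if a * a ≤ b * b then b * b else a * a

lemma sqlo_le {a b : ℤ} {x : ℝ} (ha : (a:ℝ) ≤ x) (hb : x ≤ b) : ((sqlo a b : ℤ) : ℝ) ≤ x ^ 2 := by
  rw [sqlo]
  split_ifs with h1 h2
  · have h1' : (0:ℝ) ≤ a := by exact_mod_cast h1
    push_cast
    nlinarith
  · have h2' : (b:ℝ) ≤ 0 := by exact_mod_cast h2
    push_cast
    nlinarith
  · push_cast
    positivity

lemma sqlo_nonneg (a b : ℤ) : 0 ≤ sqlo a b := by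
  rw [sqlo]
  split_ifs
  · exact mul_self_nonneg a
  · exact mul_self_nonneg b
  · exact le_refl 0

lemma le_sqhi {a b : ℤ} {x : ℝ} (ha : (a:ℝ) ≤ x) (hb : x ≤ b) : x ^ 2 ≤ ((sqhi a b : ℤ) : ℝ) := by
  have h : x ^ 2 ≤ a * a ∨ x ^ 2 ≤ b * b := by
    rcases le_total 0 x with h0 | h0
    · right; nlinarith
    · left; nlinarith
  rw [sqhi]
  split_ifs with h1
  · have h1' : (a:ℝ) * a ≤ b * b := by exact_mod_cast h1
    push_cast
    rcases h with h | h <;> linarith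
  · have h1' : (b:ℝ) * b ≤ a * a := by
      have := le_of_lt (not_le.mp h1)
      exact_mod_cast this
    push_cast
    rcases h with h | h <;> linarith

def nlo (D w1 w2 gl gh pl : ℤ) : ℤ := sqlo (D * D - w2 * gh) (D * D - w1 * gl) + w1 * (D - w2) * (pl * pl)
def nhi (D w1 w2 gl gh ph : ℤ) : ℤ := sqhi (D * D - w2 * gh) (D * D - w1 * gl) + w2 * (D - w1) * (ph * ph)
def zlo (D w1 w2 gl pl : ℤ) : ℤ := (D - w2) * (pl * pl) + w1 * (gl * gl)
def zhi (D w1 w2 gh ph : ℤ) : ℤ := (D - w1) * (ph * ph) + w2 * (gh * gh)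

/-- the conditions on one box -/
def ckBox (D ta tb k2 k3o w1 w2 gl gh pl ph ct ch k3 : ℤ) : Bool :=
  let N := nlo D w1 w2 gl gh pl
  let M := nhi D w1 w2 gl gh ph
  let Z := zlo D w1 w2 gl pl
  decide (0 ≤ w1) && decide (w1 < w2) && decide (w2 ≤ D) && decide (0 < gl) && decide (0 ≤ pl) &&
  decide (0 < k2) && decide (0 ≤ k3) && decide (k3o ≤ k3) && decide (k3 ≤ k2) && decide (D ≤ ct) &&
  decide ((ct - D) * zhi D w1 w2 gh ph ≤ (2 * (D + ta) - D) * pl * (D * D)) &&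
  decide (ph * ph * D ^ 13 ≤ 4 * (D + ta) ^ 2 * k3 * N ^ 3) &&
  decide ((D + tb) * ph < ct * gl) &&
  decide (ph * (D * D) < Z) &&
  (decide ((D + tb) ^ 2 * k2 * M < ct ^ 2 * D ^ 5) ||
    (decide ((D + tb) ^ 2 * k3 * M < ct ^ 2 * D ^ 5) && decide (0 < k3) &&
      decide ((2 * (D + tb) - D) * ph * (D * D) ≤ (ch - D) * Z) &&
      decide (ph ≤ 2 * ct) &&
      decide (2 * w2 * (ch * gh - (D + ta) * pl) ^ 2 < D * (Z - ph * (D * D)) * (2 * ct - ph)) &&
      decide (2 * w2 * (ct * gl - (D + tb) * ph) ^ 2 < D * (Z - ph * (D * D)) * (2 * ct - ph))))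

end Pool.Agent.TH242.AC
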