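import Mathlib
import Pool.Agent.TH242.AC.Chk

open Set

namespace Pool.Agent.TH242.AC

lemma bx_XG {w1 w2 gl gh X G : ℝ} (X1 : w1 ≤ X) (X2 : X ≤ w2) (G1 : gl ≤ G) (G2 : G ≤ gh)
    (gl0 : 0 < gl) (w10 : 0 ≤ w1) : w1 * gl ≤ X * G ∧ X * G ≤ w2 * gh :=
  ⟨mul_le_mul X1 G1 gl0.le (by linarith), mul_le_mul X2 G2 (by linarith) (by linarith)⟩

lemma bx_wy {D w1 w2 X pl ph Q : ℝ} (X1 : w1 ≤ X) (X2 : X ≤ w2) (w10 : 0 ≤ w1) (w2D : w2 ≤ D)
    (Q1 : pl * pl ≤ Q * Q) (Q2 : Q * Q ≤ ph * ph) :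
    w1 * (D - w2) * (pl * pl) ≤ X * (D - X) * (Q * Q) ∧
    X * (D - X) * (Q * Q) ≤ w2 * (D - w1) * (ph * ph) := by
  have hp : 0 ≤ pl * pl := mul_self_nonneg pl
  have hq : 0 ≤ Q * Q := mul_self_nonneg Q
  constructor
  · apply mul_le_mul _ Q1 hp (mul_nonneg (by linarith) (by linarith))
    exact mul_le_mul X1 (by linarith) (by linarith) (by linarith)
  · apply mul_le_mul _ Q2 hq (mul_nonneg (by linarith) (by linarith))
    exact mul_le_mul X2 (by linarith) (by linarith) (by linarith)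

lemma bx_Z {D w1 w2 X pl ph Q gl gh G : ℝ} (X1 : w1 ≤ X) (X2 : X ≤ w2) (w10 : 0 ≤ w1) (w2D : w2 ≤ D)
    (Q1 : pl * pl ≤ Q * Q) (Q2 : Q * Q ≤ ph * ph) (G1 : gl * gl ≤ G * G) (G2 : G * G ≤ gh * gh) :
    (D - w2) * (pl * pl) + w1 * (gl * gl) ≤ (D - X) * (Q * Q) + X * (G * G) ∧
    (D - X) * (Q * Q) + X * (G * G) ≤ (D - w1) * (ph * ph) + w2 * (gh * gh) := by
  have hp : 0 ≤ pl * pl := mul_self_nonneg pl
  have hq : 0 ≤ Q * Q := mul_self_nonneg Q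
  have hg : 0 ≤ gl * gl := mul_self_nonneg gl
  have hG : 0 ≤ G * G := mul_self_nonneg G
  have a1 : (D - w2) * (pl * pl) ≤ (D - X) * (Q * Q) :=
    mul_le_mul (by linarith) Q1 hp (by linarith)
  have a2 : w1 * (gl * gl) ≤ X * (G * G) := mul_le_mul X1 G1 hg (by linarith)
  have a3 : (D - X) * (Q * Q) ≤ (D - w1) * (ph * ph) :=
    mul_le_mul (by linarith) Q2 hq (by linarith)
  have a4 : X * (G * G) ≤ w2 * (gh * gh) := mul_le_mul X2 G2 hG (by linarith)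
  exact ⟨by linarith, by linarith⟩

lemma bx_ct {D ta b pl Q P c Z zh ct : ℝ} (hD : 0 < D) (hta : 0 ≤ ta) (hb : D + ta ≤ b)
    (hQ : Q = D * P) (Q1 : pl ≤ Q) (hpl : 0 ≤ pl) (hZ : 0 < Z) (hzh : D ^ 3 * Z ≤ zh) (hct : D ≤ ct)
    (hc : D * (c - 1) * Z = (2 * b - D) * P)
    (h1 : (ct - D) * zh ≤ (2 * (D + ta) - D) * pl * (D * D)) : ct ≤ D * c := by
  have h2 : (ct - D) * (D ^ 3 * Z) ≤ (ct - D) * zh :=
    mul_le_mul_of_nonneg_left hzh (by linarith)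
  have h3 : (2 * (D + ta) - D) * pl ≤ (2 * b - D) * Q :=
    mul_le_mul (by linarith) Q1 hpl (by linarith)
  have h4 := mul_le_mul_of_nonneg_right h3 (mul_self_nonneg D)
  have h5 : (2 * b - D) * Q * (D * D) = D * (c - 1) * (D ^ 3 * Z) := by
    rw [hQ]
    linear_combination (-D ^ 3) * hc
  have h6 : 0 < D ^ 3 * Z := by positivity
  have h7 : (ct - D) * (D ^ 3 * Z) ≤ D * (c - 1) * (D ^ 3 * Z) := by linarith
  have := le_of_mul_le_mul_right h7 h6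
  linarith

lemma bx_ch {D tb b ph Q P c Z zl ch : ℝ} (hD : 0 < D) (hb0 : D ≤ b) (hb : b ≤ D + tb)
    (hQ : Q = D * P) (Q0 : 0 < Q) (Q2 : Q ≤ ph) (hZ : 0 < Z) (hzl0 : 0 < zl)
    (hzl : zl ≤ D ^ 3 * Z)
    (hc : D * (c - 1) * Z = (2 * b - D) * P)
    (h1 : (2 * (D + tb) - D) * ph * (D * D) ≤ (ch - D) * zl) : D * c ≤ ch := by
  have a2 : (2 * b - D) * Q ≤ (2 * (D + tb) - D) * ph :=
    mul_le_mul (by linarith) Q2 Q0.le (by linarith)
  have a3 := mul_le_mul_of_nonneg_right a2 (mul_self_nonneg D)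
  have a5 : 0 ≤ (2 * b - D) * Q * (D * D) := by
    have : 0 ≤ 2 * b - D := by linarith
    positivity
  have a4 : 0 ≤ ch - D := by
    by_contra hcon
    push Not at hcon
    have := mul_neg_of_neg_of_pos hcon hzl0
    linarith
  have a6 : (ch - D) * zl ≤ (ch - D) * (D ^ 3 * Z) := mul_le_mul_of_nonneg_left hzl a4
  have a7 : (2 * b - D) * Q * (D * D) = D * (c - 1) * (D ^ 3 * Z) := by
    rw [hQ]
    linear_combination (-D ^ 3) * hc
  have a8 : D * (c - 1) * (D ^ 3 * Z) ≤ (ch - D) * (D ^ 3 * Z) := by linarith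
  have := le_of_mul_le_mul_right a8 (by positivity : 0 < D ^ 3 * Z)
  linarith

lemma bx_M {D tb β k N nh c ct : ℝ} (hD : 0 < D) (hβ : 0 < β) (hb : D * β ≤ D + tb) (hk : 0 ≤ k)
    (hN : 0 < N) (hnh : D ^ 4 * N ≤ nh) (hct0 : 0 < ct) (hct : ct ≤ D * c)
    (h1 : (D + tb) ^ 2 * k * nh < ct ^ 2 * D ^ 5) : β ^ 2 * (k / D) * N < c ^ 2 := by
  have h2 : (D * β) ^ 2 ≤ (D + tb) ^ 2 := pow_le_pow_left₀ (by positivity) hb 2
  have h3 : (D * β) ^ 2 * k * (D ^ 4 * N) ≤ (D + tb) ^ 2 * k * nh :=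
    mul_le_mul (mul_le_mul_of_nonneg_right h2 hk) hnh (by positivity) (by positivity)
  have h4 : ct ^ 2 ≤ (D * c) ^ 2 := pow_le_pow_left₀ hct0.le hct 2
  have h5 : ct ^ 2 * D ^ 5 ≤ (D * c) ^ 2 * D ^ 5 := mul_le_mul_of_nonneg_right h4 (by positivity)
  have h6 : (D * β) ^ 2 * k * (D ^ 4 * N) < (D * c) ^ 2 * D ^ 5 := by linarith
  have e1 : (D * β) ^ 2 * k * (D ^ 4 * N) = D ^ 7 * (β ^ 2 * (k / D) * N) := by
    field_simp
  have e2 : (D * c) ^ 2 * D ^ 5 = D ^ 7 * c ^ 2 := by ring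
  rw [e1, e2] at h6
  exact lt_of_mul_lt_mul_left h6 (by positivity)

lemma bx_A {D ta β k N nl ph Q P : ℝ} (hD : 0 < D) (hta : 0 ≤ ta) (hb : D + ta ≤ D * β) (hk : 0 ≤ k)
    (hnl0 : 0 ≤ nl) (hnl : nl ≤ D ^ 4 * N) (hQ : Q = D * P) (Q2 : Q * Q ≤ ph * ph)
    (h1 : ph * ph * D ^ 13 ≤ 4 * (D + ta) ^ 2 * k * nl ^ 3) :
    P ^ 2 ≤ (2 * β) ^ 2 * (k / D) * N ^ 3 := by
  have h2 : (D + ta) ^ 2 ≤ (D * β) ^ 2 := pow_le_pow_left₀ (by positivity) hb 2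
  have h30 : nl ^ 3 ≤ (D ^ 4 * N) ^ 3 := pow_le_pow_left₀ hnl0 hnl 3
  have h3 : 4 * (D + ta) ^ 2 * k * nl ^ 3 ≤ 4 * (D * β) ^ 2 * k * (D ^ 4 * N) ^ 3 := by
    apply mul_le_mul _ h30 (by positivity) (by positivity)
    apply mul_le_mul_of_nonneg_right _ hk
    linarith
  have h40 := mul_le_mul_of_nonneg_right Q2 (by positivity : (0:ℝ) ≤ D ^ 13)
  have h4 : Q * Q * D ^ 13 ≤ 4 * (D * β) ^ 2 * k * (D ^ 4 * N) ^ 3 := by linarith
  have e1 : Q * Q * D ^ 13 = D ^ 15 * P ^ 2 := by rw [hQ]; ring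
  have e2 : 4 * (D * β) ^ 2 * k * (D ^ 4 * N) ^ 3 =
      D ^ 15 * ((2 * β) ^ 2 * (k / D) * N ^ 3) := by
    field_simp
    ring
  rw [e1, e2] at h4
  exact le_of_mul_le_mul_left h4 (by positivity)

lemma bx_C {D tb b g P c ph ct gl : ℝ} (hD : 0 < D) (hb0 : 0 < b) (hb : D * b ≤ D + tb)
    (hP : 0 < P) (Q2 : D * P ≤ ph) (G1 : gl ≤ D * g) (gl0 : 0 < gl) (hc0 : 0 < c)
    (hct : ct ≤ D * c) (h1 : (D + tb) * ph < ct * gl) : b * P < c * g := by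
  have h2 : (D * b) * (D * P) ≤ (D + tb) * ph := mul_le_mul hb Q2 (by positivity) (by
    have : 0 < D * b := by positivity
    linarith)
  have h3 : ct * gl ≤ (D * c) * (D * g) := mul_le_mul hct G1 gl0.le (by positivity)
  have h4 : D ^ 2 * (b * P) < D ^ 2 * (c * g) := by
    have e1 : (D * b) * (D * P) = D ^ 2 * (b * P) := by ring
    have e2 : (D * c) * (D * g) = D ^ 2 * (c * g) := by ring
    linarith
  exact lt_of_mul_lt_mul_left h4 (by positivity)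

lemma bx_B {D ta tb b x g P c Z w2 gl gh pl ph ct ch zl : ℝ} (hD : 0 < D) (hta : 0 ≤ ta)
    (ha : D + ta ≤ D * b) (hb : D * b ≤ D + tb) (hb0 : 0 < b) (hx : 0 ≤ x)
    (X2 : D * x ≤ w2) (G1 : gl ≤ D * g) (G2 : D * g ≤ gh) (gl0 : 0 < gl)
    (Q1 : pl ≤ D * P) (Q2 : D * P ≤ ph) (pl0 : 0 ≤ pl) (hP : 0 < P)
    (hct : ct ≤ D * c) (hch : D * c ≤ ch) (hc0 : 0 < c)
    (hz : zl ≤ D ^ 3 * Z) (hz2 : ph * (D * D) < zl) (hpc : ph ≤ 2 * ct)
    (v1 : 2 * w2 * (ch * gh - (D + ta) * pl) ^ 2 < D * (zl - ph * (D * D)) * (2 * ct - ph))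
    (v2 : 2 * w2 * (ct * gl - (D + tb) * ph) ^ 2 < D * (zl - ph * (D * D)) * (2 * ct - ph)) :
    2 * x * (c * g - b * P) ^ 2 < (Z - P) * (2 * c - P) := by
  have u1 : (D * c) * (D * g) - (D * b) * (D * P) ≤ ch * gh - (D + ta) * pl := by
    have b1 : (D * c) * (D * g) ≤ ch * gh := mul_le_mul hch G2 (by linarith) (by
      have : 0 < D * c := by positivity
      linarith)
    have b2 : (D + ta) * pl ≤ (D * b) * (D * P) := mul_le_mul ha Q1 pl0 (by positivity)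
    linarith
  have u2 : ct * gl - (D + tb) * ph ≤ (D * c) * (D * g) - (D * b) * (D * P) := by
    have b1 : ct * gl ≤ (D * c) * (D * g) := mul_le_mul hct G1 gl0.le (by positivity)
    have b2 : (D * b) * (D * P) ≤ (D + tb) * ph := mul_le_mul hb Q2 (by positivity) (by
      have : 0 < D * b := by positivity
      linarith)
    linarith
  have w2p : 0 ≤ w2 := le_trans (by positivity) X2
  have hU : 2 * (D * x) * ((D * c) * (D * g) - (D * b) * (D * P)) ^ 2 <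
      D * (zl - ph * (D * D)) * (2 * ct - ph) := by
    have c0 : 2 * (D * x) * ((D * c) * (D * g) - (D * b) * (D * P)) ^ 2 ≤
        2 * w2 * ((D * c) * (D * g) - (D * b) * (D * P)) ^ 2 :=
      mul_le_mul_of_nonneg_right (by linarith) (sq_nonneg _)
    rcases le_total 0 ((D * c) * (D * g) - (D * b) * (D * P)) with hs | hs
    · have c1 : ((D * c) * (D * g) - (D * b) * (D * P)) ^ 2 ≤ (ch * gh - (D + ta) * pl) ^ 2 :=
        pow_le_pow_left₀ hs u1 2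
      have := mul_le_mul_of_nonneg_left c1 (by linarith : (0:ℝ) ≤ 2 * w2)
      linarith
    · have c1 : ((D * c) * (D * g) - (D * b) * (D * P)) ^ 2 ≤ (ct * gl - (D + tb) * ph) ^ 2 := by
        rw [← neg_sq, ← neg_sq (ct * gl - (D + tb) * ph)]
        exact pow_le_pow_left₀ (by linarith) (by linarith) 2
      have := mul_le_mul_of_nonneg_left c1 (by linarith : (0:ℝ) ≤ 2 * w2)
      linarith
  have hR : D * (zl - ph * (D * D)) * (2 * ct - ph) ≤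
      D * (D ^ 3 * Z - (D * P) * (D * D)) * (2 * (D * c) - D * P) := by
    have d1 : zl - ph * (D * D) ≤ D ^ 3 * Z - (D * P) * (D * D) := by
      have := mul_le_mul_of_nonneg_right Q2 (mul_self_nonneg D)
      linarith
    have d2 : 0 ≤ zl - ph * (D * D) := by linarith
    apply mul_le_mul (mul_le_mul_of_nonneg_left d1 hD.le) (by linarith) (by linarith)
    have : 0 ≤ D ^ 3 * Z - (D * P) * (D * D) := by linarith
    positivity
  have hfin := hU.trans_le hR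
  have e1 : 2 * (D * x) * ((D * c) * (D * g) - (D * b) * (D * P)) ^ 2 =
      D ^ 5 * (2 * x * (c * g - b * P) ^ 2) := by ring
  have e2 : D * (D ^ 3 * Z - (D * P) * (D * D)) * (2 * (D * c) - D * P) =
      D ^ 5 * ((Z - P) * (2 * c - P)) := by ring
  rw [e1, e2] at hfin
  exact lt_of_mul_lt_mul_left hfin (by positivity)

/-- real consequence of a box check -/
structure BoxC (β k2 k3 x : ℝ) : Prop where
  hA : PW β x ^ 2 ≤ (2 * β) ^ 2 * k3 * NW β x ^ 3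
  hB : β ^ 2 * k2 * NW β x < cW β x ^ 2 ∨
      (0 < k3 ∧ β ^ 2 * k3 * NW β x < cW β x ^ 2 ∧
        2 * x * (cW β x * gW β x - β * PW β x) ^ 2 <
          (ZW β x - PW β x) * (2 * cW β x - PW β x))
  hC : β * PW β x < cW β x * gW β x
  hE : PW β x < ZW β x

/-- the numerical conditions on one box over the reals -/
structure BoxR (D ta tb k2 k3 w1 w2 gl gh pl ph ct ch nl nh zl zh : ℝ) : Prop where
  fw1 : 0 ≤ w1
  fw2 : w2 ≤ D
  fgl : 0 < gl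
  fpl : 0 ≤ pl
  fk2 : 0 < k2
  fk3 : 0 ≤ k3
  fct : D ≤ ct
  fctz : (ct - D) * zh ≤ (2 * (D + ta) - D) * pl * (D * D)
  fc1 : ph * ph * D ^ 13 ≤ 4 * (D + ta) ^ 2 * k3 * nl ^ 3
  fc3 : (D + tb) * ph < ct * gl
  fc4 : ph * (D * D) < zl
  fnl0 : 0 ≤ nl
  fzhe : zh = (D - w1) * (ph * ph) + w2 * (gh * gh)
  fzle : zl = (D - w2) * (pl * pl) + w1 * (gl * gl)
  fnle : ∀ e : ℝ, D * D - w2 * gh ≤ e → e ≤ D * D - w1 * gl → nl ≤ e ^ 2 + w1 * (D - w2) * (pl * pl)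
  fnhe : ∀ e : ℝ, D * D - w2 * gh ≤ e → e ≤ D * D - w1 * gl → e ^ 2 + w2 * (D - w1) * (ph * ph) ≤ nh
  fc2 : (D + tb) ^ 2 * k2 * nh < ct ^ 2 * D ^ 5 ∨
    ((D + tb) ^ 2 * k3 * nh < ct ^ 2 * D ^ 5 ∧ 0 < k3 ∧
      (2 * (D + tb) - D) * ph * (D * D) ≤ (ch - D) * zl ∧ ph ≤ 2 * ct ∧
      2 * w2 * (ch * gh - (D + ta) * pl) ^ 2 < D * (zl - ph * (D * D)) * (2 * ct - ph) ∧
      2 * w2 * (ct * gl - (D + tb) * ph) ^ 2 < D * (zl - ph * (D * D)) * (2 * ct - ph))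

lemma boxR_sound {D ta tb k2 k3 w1 w2 gl gh pl ph ct ch nl nh zl zh : ℝ}
    (h : BoxR D ta tb k2 k3 w1 w2 gl gh pl ph ct ch nl nh zl zh) (hD : 0 < D) (hta : 0 ≤ ta)
    {β x : ℝ} (hβ : 1 < β) (ha : D + ta ≤ D * β) (hb : D * β ≤ D + tb)
    (X1 : w1 ≤ D * x) (X2 : D * x ≤ w2) (hx : x < 1)
    (G1 : gl ≤ D * gW β x) (G2 : D * gW β x ≤ gh)
    (Q1 : pl ≤ D * PW β x) (Q2 : D * PW β x ≤ ph) :
    BoxC β (k2 / D) (k3 / D) x := by
  have hx0 : 0 ≤ x := by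
    have h1 := h.fw1
    have : 0 ≤ D * x := by linarith
    exact nonneg_of_mul_nonneg_right this hD
  have hPp := PW_pos hβ hx0 hx
  have hZp := ZW_pos hβ hx0 hx
  have hNp := NW_pos hβ hx0 hx
  have hcp := cW_pos hβ hx0 hx
  have hDN : D ^ 4 * NW β x = (D * D - (D * x) * (D * gW β x)) ^ 2 +
      (D * x) * (D - D * x) * ((D * PW β x) * (D * PW β x)) := by rw [NW]; ring
  have hDZ : D ^ 3 * ZW β x = (D - D * x) * ((D * PW β x) * (D * PW β x)) +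
      (D * x) * ((D * gW β x) * (D * gW β x)) := by rw [ZW]; ring
  have hcZ : D * (cW β x - 1) * ZW β x = (2 * (D * β) - D) * PW β x := by
    rw [cW]; field_simp; ring
  generalize hg : gW β x = g at *
  generalize hP : PW β x = P at *
  generalize hN : NW β x = N at *
  generalize hZ : ZW β x = Z at *
  generalize hcc : cW β x = c at *
  obtain ⟨w10, w2D, gl0, pl0, k20, k30, ctD, hctz, hc1, hc3, hc4, nl0, zhe, zle, nle, nhe, hc2⟩ := h
  have Gp : 0 < D * g := by linarith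
  have Qp : 0 < D * P := by positivity
  have hXG := bx_XG X1 X2 G1 G2 gl0 w10
  have hQ1 : pl * pl ≤ (D * P) * (D * P) := mul_le_mul Q1 Q1 pl0 Qp.le
  have hQ2 : (D * P) * (D * P) ≤ ph * ph := mul_le_mul Q2 Q2 Qp.le (by linarith)
  have hG1 : gl * gl ≤ (D * g) * (D * g) := mul_le_mul G1 G1 gl0.le Gp.le
  have hG2 : (D * g) * (D * g) ≤ gh * gh := mul_le_mul G2 G2 Gp.le (by linarith)
  have hwy := bx_wy X1 X2 w10 w2D hQ1 hQ2
  have hZZ := bx_Z X1 X2 w10 w2D hQ1 hQ2 hG1 hG2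
  have hnl := nle (D * D - (D * x) * (D * g)) (by linarith [hXG.2]) (by linarith [hXG.1])
  have hnh := nhe (D * D - (D * x) * (D * g)) (by linarith [hXG.2]) (by linarith [hXG.1])
  have hNlo : nl ≤ D ^ 4 * N := by rw [hDN]; linarith [hwy.1]
  have hNhi : D ^ 4 * N ≤ nh := by rw [hDN]; linarith [hwy.2]
  have hZlo : zl ≤ D ^ 3 * Z := by rw [hDZ, zle]; exact hZZ.1
  have hZhi : D ^ 3 * Z ≤ zh := by rw [hDZ, zhe]; exact hZZ.2
  have hctlo := bx_ct hD hta ha rfl Q1 pl0 hZp hZhi ctD hcZ hctz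
  have ctp : 0 < ct := by linarith
  have hE : P < Z := by
    have h1 : (D * P) * (D * D) ≤ ph * (D * D) := mul_le_mul_of_nonneg_right Q2 (mul_self_nonneg D)
    have h2 : D ^ 3 * P < D ^ 3 * Z := by
      have e : (D * P) * (D * D) = D ^ 3 * P := by ring
      linarith
    exact lt_of_mul_lt_mul_left h2 (by positivity)
  refine ⟨?_, ?_, ?_, ?_⟩
  · rw [hP, hN]
    exact bx_A hD hta ha k30 nl0 hNlo rfl hQ2 hc1
  · rw [hN, hcc, hg, hP, hZ]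
    rcases hc2 with h | ⟨h1, h2, h3, h4, h5, h6⟩
    · left
      exact bx_M hD (by linarith) hb k20.le hNp hNhi ctp hctlo h
    · right
      have zlp : 0 < zl := by
        have : 0 < ph * (D * D) := mul_pos (by linarith) (mul_pos hD hD)
        linarith
      have hch := bx_ch hD (by linarith) hb rfl Qp Q2 hZp zlp hZlo hcZ h3
      exact ⟨div_pos h2 hD, bx_M hD (by linarith) hb k30 hNp hNhi ctp hctlo h1,
        bx_B hD hta ha hb (by linarith) hx0 X2 G1 G2 gl0 Q1 Q2 pl0 hPp hctlo hch hcp hZlo hc4 h4 h5 h6⟩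
  · rw [hP, hcc, hg]
    exact bx_C hD (by linarith) hb hPp Q2 G1 gl0 hcp hctlo hc3
  · rw [hP, hZ]; exact hE

end Pool.Agent.TH242.AC
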