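import Mathlib
import Pool.Agent.TH242.AC.Chk2

open Set

namespace Pool.Agent.TH242.AC

lemma nlo_nonneg {D w1 w2 gl gh pl : ℤ} (hw1 : 0 ≤ w1) (hw2 : w2 ≤ D) (hpl0 : 0 ≤ pl) :
    0 ≤ nlo D w1 w2 gl gh pl := by
  rw [nlo]
  have h2 := sqlo_nonneg (D * D - w2 * gh) (D * D - w1 * gl)
  have h3 : 0 ≤ w1 * (D - w2) * (pl * pl) :=
    mul_nonneg (mul_nonneg hw1 (by linarith)) (mul_nonneg hpl0 hpl0)
  linarith

lemma nlo_le {D w1 w2 gl gh pl : ℤ} {e : ℝ} (h1 : (D:ℝ) * D - w2 * gh ≤ e)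
    (h2 : e ≤ (D:ℝ) * D - w1 * gl) :
    ((nlo D w1 w2 gl gh pl : ℤ) : ℝ) ≤ e ^ 2 + w1 * (D - w2) * (pl * pl) := by
  have h := sqlo_le (a := D * D - w2 * gh) (b := D * D - w1 * gl) (x := e)
    (by push_cast; exact h1) (by push_cast; exact h2)
  rw [nlo]
  push_cast at h ⊢
  linarith

lemma le_nhi {D w1 w2 gl gh ph : ℤ} {e : ℝ} (h1 : (D:ℝ) * D - w2 * gh ≤ e)
    (h2 : e ≤ (D:ℝ) * D - w1 * gl) :
    e ^ 2 + w2 * (D - w1) * (ph * ph) ≤ ((nhi D w1 w2 gl gh ph : ℤ) : ℝ) := by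
  have h := le_sqhi (a := D * D - w2 * gh) (b := D * D - w1 * gl) (x := e)
    (by push_cast; exact h1) (by push_cast; exact h2)
  rw [nhi]
  push_cast at h ⊢
  linarith

lemma ckBox_real {D ta tb k2 k3o w1 w2 gl gh pl ph ct ch k3 : ℤ}
    (h : ckBox D ta tb k2 k3o w1 w2 gl gh pl ph ct ch k3 = true) :
    BoxR (D:ℝ) ta tb k2 k3 w1 w2 gl gh pl ph ct ch ((nlo D w1 w2 gl gh pl : ℤ) : ℝ)
      ((nhi D w1 w2 gl gh ph : ℤ) : ℝ) ((zlo D w1 w2 gl pl : ℤ) : ℝ)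
      ((zhi D w1 w2 gh ph : ℤ) : ℝ) := by
  simp only [ckBox, Bool.and_eq_true, Bool.or_eq_true, decide_eq_true_eq] at h
  obtain ⟨⟨⟨⟨⟨⟨⟨⟨⟨⟨⟨⟨⟨⟨hw1, _⟩, hw2⟩, hgl0⟩, hpl0⟩, hk2⟩, hk3⟩, _⟩, _⟩, hct⟩, hctz⟩, hc1⟩,
    hc3⟩, hc4⟩, hc2⟩ := h
  constructor
  · exact_mod_cast hw1
  · exact_mod_cast hw2
  · exact_mod_cast hgl0
  · exact_mod_cast hpl0
  · exact_mod_cast hk2
  · exact_mod_cast hk3
  · exact_mod_cast hct
  · exact_mod_cast hctz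
  · exact_mod_cast hc1
  · exact_mod_cast hc3
  · exact_mod_cast hc4
  · exact_mod_cast nlo_nonneg hw1 hw2 hpl0
  · rw [zhi]; push_cast; ring
  · rw [zlo]; push_cast; ring
  · intro e h1 h2; exact nlo_le h1 h2
  · intro e h1 h2; exact le_nhi h1 h2
  · rcases hc2 with h | ⟨⟨⟨⟨⟨h1, h2⟩, h3⟩, h4⟩, h5⟩, h6⟩
    · left; exact_mod_cast h
    · right
      refine ⟨?_, ?_, ?_, ?_, ?_, ?_⟩
      · exact_mod_cast h1
      · exact_mod_cast h2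
      · exact_mod_cast h3
      · exact_mod_cast h4
      · exact_mod_cast h5
      · exact_mod_cast h6

lemma ckBox_misc {D ta tb k2 k3o w1 w2 gl gh pl ph ct ch k3 : ℤ}
    (h : ckBox D ta tb k2 k3o w1 w2 gl gh pl ph ct ch k3 = true) :
    0 ≤ w1 ∧ w1 < w2 ∧ w2 ≤ D ∧ 0 < gl ∧ 0 ≤ pl ∧ 0 < k2 ∧ 0 ≤ k3 ∧ k3o ≤ k3 ∧ k3 ≤ k2 := by
  simp only [ckBox, Bool.and_eq_true, Bool.or_eq_true, decide_eq_true_eq] at h
  obtain ⟨⟨⟨⟨⟨⟨⟨⟨⟨⟨⟨⟨⟨⟨hw1, hw12⟩, hw2⟩, hgl0⟩, hpl0⟩, hk2⟩, hk3⟩, hk3o⟩, hk32⟩, _⟩, _⟩, _⟩,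
    _⟩, _⟩, _⟩ := h
  exact ⟨hw1, hw12, hw2, hgl0, hpl0, hk2, hk3, hk3o, hk32⟩

/-- the certificate check; `e` is the lower bound of `g` on the last box -/
def chk (D ta tb k2 e : ℤ) : ℤ → ℤ → ℤ → ℤ → ℤ → ℤ → List Row → Bool
  | w, gl, gh, pl, ph, k3, [] =>
    ckBox D ta tb k2 k3 w D e gh 0 ph D 0 k2 &&
    decide (e ≤ gl) && decide (0 < pl) &&
    decide (2 * D * D * (D + ta) ≤ (D * D + 2 * ta * w) * gh) &&
    decide (2 * D * D * (D + tb) ≤ (D * D + 2 * tb * w) * gh) &&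
    decide ((D + 2 * ta) * e ≤ 2 * D * (D + ta)) &&
    decide ((D + 2 * tb) * e ≤ 2 * D * (D + tb))
  | w, gl, gh, pl, ph, k3, r :: rs =>
    ckBox D ta tb k2 k3 w r.w r.gl gh r.pl ph r.ct r.ch r.k3 &&
    decide (r.w < D) && decide (r.gl ≤ gl) && decide (r.gh ≤ gh) && decide (r.pl ≤ pl) &&
    decide (r.ph ≤ ph) && decide (0 ≤ r.ph) &&
    ckStU D ta w r.w gh r.gh && ckStU D tb w r.w gh r.gh &&
    ckStL D ta w r.w gl r.gl && ckStL D tb w r.w gl r.gl &&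
    ckSpU D ta w r.w ph r.ph && ckSpL D tb w r.w pl r.pl &&
    chk D ta tb k2 e r.w r.gl r.gh r.pl r.ph r.k3 rs

/-- conclusion at one point -/
def Good (β K x : ℝ) : Prop :=
  PW β x ^ 2 ≤ (2 * β) ^ 2 * K * NW β x ^ 3 ∧
  (β ^ 2 * K * NW β x < cW β x ^ 2 ∨
      ((∃ K3 : ℝ, 0 < K3 ∧ β ^ 2 * K3 * NW β x < cW β x ^ 2 ∧
        ∀ u ∈ Icc (0:ℝ) x, PW β u ^ 2 ≤ (2 * β) ^ 2 * K3 * NW β u ^ 3) ∧
        PW β x < ZW β x ∧
        2 * x * (cW β x * gW β x - β * PW β x) ^ 2 <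
          (ZW β x - PW β x) * (2 * cW β x - PW β x))) ∧
  β * PW β x < cW β x * gW β x ∧ PW β x < ZW β x

lemma kmono {β K K' x : ℝ} (hβ : 1 < β) (h0 : 0 ≤ x) (h1 : x < 1) (hK : K ≤ K')
    (h : PW β x ^ 2 ≤ (2 * β) ^ 2 * K * NW β x ^ 3) :
    PW β x ^ 2 ≤ (2 * β) ^ 2 * K' * NW β x ^ 3 := by
  have hN := NW_pos hβ h0 h1
  refine h.trans ?_
  apply mul_le_mul_of_nonneg_right _ (by positivity)
  exact mul_le_mul_of_nonneg_left hK (by positivity)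

lemma good_of_box {β k2 k3 k3o x w1 : ℝ} (hβ : 1 < β) (h0 : 0 ≤ x) (h1 : x < 1)
    (hk23 : k3 ≤ k2) (hko : k3o ≤ k3)
    (hw : ∀ u ∈ Ico (0:ℝ) w1, PW β u ^ 2 ≤ (2 * β) ^ 2 * k3o * NW β u ^ 3)
    (hb : ∀ u, w1 ≤ u → u ≤ x → BoxC β k2 k3 u) (hwx : w1 ≤ x) : Good β k2 x := by
  have h := hb x hwx le_rfl
  refine ⟨kmono hβ h0 h1 hk23 h.hA, ?_, h.hC, h.hE⟩
  rcases h.hB with h2 | ⟨h2, h3, h4⟩
  · left; exact h2
  · right
    refine ⟨⟨k3, h2, h3, ?_⟩, h.hE, h4⟩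
    intro u hu
    rcases lt_or_ge u w1 with h5 | h5
    · exact kmono hβ hu.1 (hu.2.trans_lt h1) hko (hw u ⟨hu.1, h5⟩)
    · exact (hb u h5 hu.2).hA

lemma castD {D a : ℤ} (hD : 0 < D) {x : ℝ} : (a / D : ℝ) ≤ x ↔ (a:ℝ) ≤ D * x := by
  have hD' : (0:ℝ) < D := by exact_mod_cast hD
  rw [div_le_iff₀ hD', mul_comm]

lemma castD' {D a : ℤ} (hD : 0 < D) {x : ℝ} : x ≤ (a / D : ℝ) ↔ (D:ℝ) * x ≤ a := by
  have hD' : (0:ℝ) < D := by exact_mod_cast hD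
  rw [le_div_iff₀ hD', mul_comm]

theorem chk_sound {D ta tb k2 e : ℤ} (hD : 0 < D) (hta : 0 ≤ ta) {β : ℝ} (hβ : 1 < β)
    (ha : 1 + (ta / D : ℝ) ≤ β) (hb : β ≤ 1 + (tb / D : ℝ)) :
    ∀ (rs : List Row) (w gl gh pl ph k3 : ℤ), chk D ta tb k2 e w gl gh pl ph k3 rs = true →
      (gl / D : ℝ) ≤ gW β (w / D) → gW β (w / D) ≤ (gh / D : ℝ) →
      (pl / D : ℝ) ≤ PW β (w / D) → PW β (w / D) ≤ (ph / D : ℝ) →
      (∀ u ∈ Ico (0:ℝ) (w / D), PW β u ^ 2 ≤ (2 * β) ^ 2 * (k3 / D) * NW β u ^ 3) →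
      (∀ u ∈ Ico (0:ℝ) (w / D), Good β (k2 / D) u) →
      ∀ u ∈ Ico (0:ℝ) 1, Good β (k2 / D) u := by
  have hD' : (0:ℝ) < D := by exact_mod_cast hD
  have htar : (0:ℝ) ≤ ta := by exact_mod_cast hta
  have htaD : (0:ℝ) ≤ ta / D := div_nonneg htar hD'.le
  have haD : (D:ℝ) + ta ≤ D * β := by
    have := mul_le_mul_of_nonneg_left ha hD'.le
    have e : (D:ℝ) * (1 + ta / D) = D + ta := by field_simp
    linarith
  have hbD : D * β ≤ (D:ℝ) + tb := by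
    have := mul_le_mul_of_nonneg_left hb hD'.le
    have e : (D:ℝ) * (1 + tb / D) = D + tb := by field_simp
    linarith
  intro rs
  induction rs with
  | nil =>
    intro w gl gh pl ph k3 h hgl hgh hpl hph hk hgood u hu
    simp only [chk, Bool.and_eq_true, decide_eq_true_eq] at h
    obtain ⟨⟨⟨⟨⟨⟨hbox, he⟩, _⟩, hga⟩, hgb⟩, hea⟩, heb⟩ := h
    rcases lt_or_ge u (w / D : ℝ) with h1 | h1
    · exact hgood u ⟨hu.1, h1⟩
    obtain ⟨m1, m2, m3, m4, m5, m6, m7, m8, m9⟩ := ckBox_misc hbox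
    have w0 : (0:ℝ) ≤ w / D := div_nonneg (by exact_mod_cast m1) hD'.le
    have her : (0:ℝ) ≤ e / D := div_nonneg (by exact_mod_cast m4.le) hD'.le
    have ghr : (0:ℝ) ≤ gh / D := by
      have := gW_pos hβ w0 (h1.trans_lt hu.2)
      linarith
    have phr : (0:ℝ) ≤ ph / D := by
      have := PW_pos hβ w0 (h1.trans_lt hu.2)
      linarith
    have hup := endG_up (m := gh / D) hβ ha hb w0 ghr htaD (by
        have : (2:ℝ) * D * D * (D + ta) ≤ (D * D + 2 * ta * w) * gh := by exact_mod_cast hga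
        rw [← sub_nonneg]
        have e1 : (1 / 2 + ta / D * (w / D)) * (gh / D) - (1 + ta / D) =
          ((D * D + 2 * ta * w) * gh - 2 * D * D * (D + ta)) / (2 * D ^ 3 : ℝ) := by
          field_simp
        rw [e1]
        exact div_nonneg (by linarith) (by positivity)) (by
        have : (2:ℝ) * D * D * (D + tb) ≤ (D * D + 2 * tb * w) * gh := by exact_mod_cast hgb
        rw [← sub_nonneg]
        have e1 : (1 / 2 + tb / D * (w / D)) * (gh / D) - (1 + tb / D) =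
          ((D * D + 2 * tb * w) * gh - 2 * D * D * (D + tb)) / (2 * D ^ 3 : ℝ) := by
          field_simp
        rw [e1]
        exact div_nonneg (by linarith) (by positivity)) hgh
    have hlo := endG_lo (m := e / D) hβ ha hb w0 her htaD (by
        have : ((D:ℝ) + 2 * ta) * e ≤ 2 * D * (D + ta) := by exact_mod_cast hea
        rw [← sub_nonneg]
        have e1 : (1 + ta / D) - (1 / 2 + ta / D) * (e / D) =
          (2 * D * (D + ta) - (D + 2 * ta) * e) / (2 * D ^ 2 : ℝ) := by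
          field_simp
        rw [e1]
        exact div_nonneg (by linarith) (by positivity)) (by
        have : ((D:ℝ) + 2 * tb) * e ≤ 2 * D * (D + tb) := by exact_mod_cast heb
        rw [← sub_nonneg]
        have e1 : (1 + tb / D) - (1 / 2 + tb / D) * (e / D) =
          (2 * D * (D + tb) - (D + 2 * tb) * e) / (2 * D ^ 2 : ℝ) := by
          field_simp
        rw [e1]
        exact div_nonneg (by linarith) (by positivity)) (by
        have : (e / D : ℝ) ≤ gl / D := div_le_div_of_nonneg_right (by exact_mod_cast he) hD'.le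
        linarith)
    have hpu := endP_up hβ w0 phr hph
    apply good_of_box hβ hu.1 hu.2 (k3 := (k2 / D : ℝ)) (k3o := (k3 / D : ℝ)) (w1 := (w / D : ℝ))
      le_rfl (div_le_div_of_nonneg_right (by exact_mod_cast m8) hD'.le) hk _ h1
    intro v hv1 hv2
    have hv : v ∈ Ico (w / D : ℝ) 1 := ⟨hv1, hv2.trans_lt hu.2⟩
    have hv0 : 0 ≤ v := w0.trans hv1
    have hD1 : D * v ≤ ((D : ℤ) : ℝ) := by nlinarith [hv.2]
    apply boxR_sound (ckBox_real hbox) hD' htar hβ haD hbD ((castD hD).mp hv1) hD1 hv.2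
      ((castD hD).mp (hlo v hv)) ((castD' hD).mp (hup v hv)) _ ((castD' hD).mp (hpu v hv))
    have := PW_pos hβ hv0 hv.2
    push_cast
    positivity
  | cons r rs ih =>
    intro w gl gh pl ph k3 h hgl hgh hpl hph hk hgood
    simp only [chk, Bool.and_eq_true, decide_eq_true_eq] at h
    obtain ⟨⟨⟨⟨⟨⟨⟨⟨⟨⟨⟨⟨⟨hbox, hrw⟩, hrgl⟩, hrgh⟩, hrpl⟩, hrph⟩, hrph0⟩, hU1⟩, hU2⟩, hL1⟩, hL2⟩, hP1⟩,
      hP2⟩, hrec⟩ := h
    obtain ⟨m1, m2, m3, m4, m5, m6, m7, m8, m9⟩ := ckBox_misc hbox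
    have w0 : (0:ℝ) ≤ w / D := div_nonneg (by exact_mod_cast m1) hD'.le
    have w12 : (w / D : ℝ) < r.w / D := div_lt_div_of_pos_right (by exact_mod_cast m2) hD'
    have w2D : (r.w / D : ℝ) < 1 := by rw [div_lt_one hD']; exact_mod_cast hrw
    have dle : ∀ a b : ℤ, a ≤ b → (a / D : ℝ) ≤ b / D := fun a b hab =>
      div_le_div_of_nonneg_right (by exact_mod_cast hab) hD'.le
    have s1 := stepG_up hβ ha hb w0 w12 w2D (dle _ _ hrgh) (ckStU_sound hD hU1)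
      (ckStU_sound hD hU2) hgh
    have s2 := stepG_lo hβ ha hb w0 w12 w2D (dle _ _ hrgl) (ckStL_sound hD hL1)
      (ckStL_sound hD hL2) hgl
    have s3 := stepP_up hβ ha w0 w12 w2D (dle _ _ hrph)
      (div_nonneg (by exact_mod_cast hrph0) hD'.le) (ckSpU_sound hD hP1) hph
    have s4 := stepP_lo hβ hb w0 w12 w2D (dle _ _ hrpl)
      (div_nonneg (by exact_mod_cast m5) hD'.le) (ckSpL_sound hD hP2) hpl
    have hboxC : ∀ v, (w / D : ℝ) ≤ v → v ≤ (r.w / D : ℝ) → BoxC β (k2 / D) (r.k3 / D) v := by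
      intro v hv1 hv2
      have hv : v ∈ Icc (w / D : ℝ) (r.w / D) := ⟨hv1, hv2⟩
      exact boxR_sound (ckBox_real hbox) hD' htar hβ haD hbD ((castD hD).mp hv1)
        ((castD' hD).mp hv2) (hv2.trans_lt w2D) ((castD hD).mp (s2.1 v hv))
        ((castD' hD).mp (s1.1 v hv)) ((castD hD).mp (s4.1 v hv)) ((castD' hD).mp (s3.1 v hv))
    apply ih r.w r.gl r.gh r.pl r.ph r.k3 hrec s2.2 s1.2 s4.2 s3.2
    · intro u hu
      have hu1 : u < 1 := hu.2.trans w2D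
      rcases lt_or_ge u (w / D : ℝ) with h1 | h1
      · exact kmono hβ hu.1 hu1 (dle _ _ m8) (hk u ⟨hu.1, h1⟩)
      · exact (hboxC u h1 hu.2.le).hA
    · intro u hu
      have hu1 : u < 1 := hu.2.trans w2D
      rcases lt_or_ge u (w / D : ℝ) with h1 | h1
      · exact hgood u ⟨hu.1, h1⟩
      · exact good_of_box hβ hu.1 hu1 (dle _ _ m9) (dle _ _ m8) hk
          (fun v hv1 hv2 => hboxC v hv1 (hv2.trans hu.2.le)) h1

end Pool.Agent.TH242.AC
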