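import Mathlib
import Pool.Agent.TH242.AC.Chk3

open Set

namespace Pool.Agent.TH242.AC

noncomputable def PA (x : ℝ) : ℕ → ℝ
  | 0 => 1
  | (n + 1) => PA x n * (x + 2 * n)

def PAI (D X : ℤ) : ℕ → ℤ
  | 0 => 1
  | (n + 1) => PAI D X n * (X + 2 * n * D)

lemma PA_pos {x : ℝ} (hx : 0 < x) (n : ℕ) : 0 < PA x n := by
  induction n with
  | zero => exact one_pos
  | succ n ih => rw [PA]; positivity

lemma PAI_cast {D X : ℤ} (hD : 0 < D) (n : ℕ) : ((PAI D X n : ℤ) : ℝ) = D ^ n * PA (X / D) n := by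
  have hD' : (D:ℝ) ≠ 0 := by exact_mod_cast hD.ne'
  induction n with
  | zero => simp [PAI, PA]
  | succ n ih =>
    rw [PAI, PA]
    push_cast
    rw [ih]
    field_simp
    ring

lemma lam_chain {β : ℝ} (hβ : 1 ≤ β) (n : ℕ) :
    lam β * PA (2 * β + 1) n = lam (β + n) * PA (2 * β + 2) n := by
  induction n with
  | zero => simp [PA]
  | succ n ih =>
    have h := lam_succ (β := β + n) (by have : (0:ℝ) ≤ n := Nat.cast_nonneg n; linarith)
    rw [PA, PA]
    push_cast
    have e : β + ((n:ℝ) + 1) = β + n + 1 := by ring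
    rw [e]
    linear_combination (2 * β + 1 + 2 * n) * ih + (-PA (2 * β + 2) n) * h

lemma lam_int (m : ℕ) : PA 3 m = 2 * lam (m + 1) * PA 4 m := by
  have h := lam_chain (β := 1) le_rfl m
  rw [lam_one] at h
  norm_num at h
  have e : (1:ℝ) + m = m + 1 := by ring
  rw [e] at h
  linarith

def ckAU (D tb ph : ℤ) (n j : ℕ) : Bool :=
  decide (0 < n) && decide (0 ≤ tb - j * D) && decide (tb - j * D ≤ D) &&
  decide (2 * D * PAI 1 4 (n + j) * ((2 * (n + j + 1) - 1) * D + 3 * (tb - j * D)) *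
      PAI D (3 * D + 2 * tb) n ≤
    ph * PAI 1 3 (n + j) * ((2 * (n + j + 1) - 1) * D + 2 * (tb - j * D)) *
      PAI D (4 * D + 2 * tb) n)

def ckAL (D ta pl : ℤ) (n j : ℕ) : Bool :=
  decide (0 < n) && decide (0 ≤ ta - j * D) && decide (ta - j * D ≤ D) &&
  decide (pl * PAI 1 3 (n + j) * ((2 * (n + j + 1) + 2) * D - (ta - j * D)) *
      PAI D (4 * D + 2 * ta) n ≤
    2 * D * PAI 1 4 (n + j) * ((2 * (n + j + 1) + 2) * D) * PAI D (3 * D + 2 * ta) n)

lemma ckAU_sound {D tb ph : ℤ} {n j : ℕ} (hD : 0 < D) (htb : 0 ≤ tb)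
    (h : ckAU D tb ph n j = true) {β : ℝ} (hβ : 1 < β) (hb : β ≤ 1 + (tb / D : ℝ)) :
    aa β 0 ≤ (ph / D : ℝ) := by
  have hD' : (0:ℝ) < D := by exact_mod_cast hD
  simp only [ckAU, Bool.and_eq_true, decide_eq_true_eq] at h
  obtain ⟨⟨⟨hn, ht0⟩, ht1⟩, hmain⟩ := h
  have htbr : (0:ℝ) ≤ tb := by exact_mod_cast htb
  set b : ℝ := 1 + tb / D with hbdef
  set t : ℝ := tb / D - j with ht
  have t0 : 0 ≤ t := by
    have : (0:ℝ) ≤ tb - j * D := by exact_mod_cast ht0
    rw [ht, sub_nonneg, le_div_iff₀ hD']; linarith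
  have t1 : t ≤ 1 := by
    have : (tb:ℝ) - j * D ≤ D := by exact_mod_cast ht1
    rw [ht, sub_le_iff_le_add, div_le_iff₀ hD']; linarith
  have b1 : 1 < b := by linarith
  have hm := lam_anti (p := β) (q := b) (by linarith) hb
  have hlb := lam_pos b1
  have hlβ := lam_pos hβ
  set m : ℝ := (((n + j : ℕ) : ℝ)) + 1 with hmdef
  have hn1 : (1:ℝ) ≤ n := by exact_mod_cast hn
  have hj0 : (0:ℝ) ≤ j := Nat.cast_nonneg j
  have m2 : 2 ≤ m := by rw [hmdef]; push_cast; linarith
  have hch := lam_chain b1.le n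
  have hbn : b + n = m + t := by rw [hbdef, hmdef, ht]; push_cast; ring
  rw [hbn] at hch
  have hlow := lam_lower (p := m) (t := t) m2 t0 t1
  have hint := lam_int (n + j)
  rw [← hmdef] at hint
  have hA := PA_pos (x := 2 * b + 1) (by linarith) n
  have hB := PA_pos (x := 2 * b + 2) (by linarith) n
  have hC := PA_pos (x := 4) (by norm_num) (n + j)
  have hE := PA_pos (x := 3) (by norm_num) (n + j)
  have hden : 0 < 2 * m + 2 * t - 1 := by linarith
  -- lower bound for lam b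
  have h1 : lam m * (2 * m + 2 * t - 1) ≤ lam (m + t) * (2 * m + 3 * t - 1) := by
    have e : lam (m + t) * (1 + t / (2 * m + 2 * t - 1)) * (2 * m + 2 * t - 1) =
        lam (m + t) * (2 * m + 3 * t - 1) := by
      have e2 : (1 + t / (2 * m + 2 * t - 1)) * (2 * m + 2 * t - 1) = 2 * m + 3 * t - 1 := by
        rw [add_mul, one_mul, div_mul_cancel₀ _ hden.ne']; ring
      rw [mul_assoc, e2]
    rw [← e]
    exact mul_le_mul_of_nonneg_right hlow hden.le
  have hmain' : 2 * (D:ℝ) * PA 4 (n + j) * (2 * m + 3 * t - 1) * PA (2 * b + 1) n ≤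
      ph * PA 3 (n + j) * (2 * m + 2 * t - 1) * PA (2 * b + 2) n := by
    have hc : (2 * D * PAI 1 4 (n + j) * ((2 * (n + j + 1) - 1) * D + 3 * (tb - j * D)) *
      PAI D (3 * D + 2 * tb) n : ℝ) ≤
    ph * PAI 1 3 (n + j) * ((2 * (n + j + 1) - 1) * D + 2 * (tb - j * D)) *
      PAI D (4 * D + 2 * tb) n := by exact_mod_cast hmain
    rw [PAI_cast one_pos, PAI_cast one_pos, PAI_cast hD, PAI_cast hD] at hc
    push_cast at hc
    have e1 : ((3 * (D:ℝ) + 2 * tb) / D) = 2 * b + 1 := by rw [hbdef]; field_simp; ring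
    have e2 : ((4 * (D:ℝ) + 2 * tb) / D) = 2 * b + 2 := by rw [hbdef]; field_simp; ring
    rw [e1, e2] at hc
    have e3 : (2 * ((n:ℝ) + j + 1) - 1) * D + 3 * (tb - j * D) = D * (2 * m + 3 * t - 1) := by
      rw [hmdef, ht]; push_cast; field_simp; ring
    have e4 : (2 * ((n:ℝ) + j + 1) - 1) * D + 2 * (tb - j * D) = D * (2 * m + 2 * t - 1) := by
      rw [hmdef, ht]; push_cast; field_simp; ring
    rw [e3, e4] at hc
    simp only [one_pow, one_mul, div_one] at hc
    have hDn : (0:ℝ) < D * D ^ n := by positivity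
    apply le_of_mul_le_mul_left _ hDn
    linarith
  have h2 : (D:ℝ) ≤ ph * lam b := by
    -- multiply by positive quantities
    have h3 : 2 * PA 4 (n + j) * (lam m * (2 * m + 2 * t - 1)) * PA (2 * b + 2) n ≤
        2 * PA 4 (n + j) * (lam (m + t) * (2 * m + 3 * t - 1)) * PA (2 * b + 2) n := by
      apply mul_le_mul_of_nonneg_right _ hB.le
      exact mul_le_mul_of_nonneg_left h1 (by positivity)
    have h4 : PA 3 (n + j) * (2 * m + 2 * t - 1) * PA (2 * b + 2) n ≤
        2 * PA 4 (n + j) * (2 * m + 3 * t - 1) * (lam b * PA (2 * b + 1) n) := by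
      rw [hint, hch]; linarith
    have ph0 : (0:ℝ) < ph := by
      by_contra hcon
      push Not at hcon
      have a1 : ph * PA 3 (n + j) * (2 * m + 2 * t - 1) * PA (2 * b + 2) n ≤ 0 := by
        have : 0 ≤ PA 3 (n + j) * (2 * m + 2 * t - 1) * PA (2 * b + 2) n := by positivity
        have := mul_nonpos_of_nonpos_of_nonneg hcon this
        linarith
      have a2 : 0 < 2 * (D:ℝ) * PA 4 (n + j) * (2 * m + 3 * t - 1) * PA (2 * b + 1) n := by
        have : 0 < 2 * m + 3 * t - 1 := by linarith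
        positivity
      linarith
    have h5 := mul_le_mul_of_nonneg_left h4 ph0.le
    have hpos : 0 < 2 * PA 4 (n + j) * (2 * m + 3 * t - 1) * PA (2 * b + 1) n := by
      have : 0 < 2 * m + 3 * t - 1 := by linarith
      positivity
    have h6 : (2 * PA 4 (n + j) * (2 * m + 3 * t - 1) * PA (2 * b + 1) n) * D ≤
        (2 * PA 4 (n + j) * (2 * m + 3 * t - 1) * PA (2 * b + 1) n) * (ph * lam b) := by linarith
    exact le_of_mul_le_mul_left h6 hpos
  have hprod := aa_mul_lam hβ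
  rw [le_div_iff₀ hD']
  have haa := aa_zero_pos hβ
  have ph0 : (0:ℝ) < ph := by
    by_contra hcon
    push Not at hcon
    have := mul_nonpos_of_nonpos_of_nonneg hcon hlb.le
    linarith
  calc aa β 0 * D ≤ aa β 0 * (ph * lam b) := mul_le_mul_of_nonneg_left h2 haa.le
    _ ≤ aa β 0 * (ph * lam β) :=
      mul_le_mul_of_nonneg_left (mul_le_mul_of_nonneg_left hm ph0.le) haa.le
    _ = ph * (aa β 0 * lam β) := by ring
    _ = ph := by rw [hprod, mul_one]

lemma ckAL_sound {D ta pl : ℤ} {n j : ℕ} (hD : 0 < D) (hta : 0 ≤ ta)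
    (h : ckAL D ta pl n j = true) {β : ℝ} (hβ : 1 < β) (ha : 1 + (ta / D : ℝ) ≤ β) :
    (pl / D : ℝ) ≤ aa β 0 := by
  have hD' : (0:ℝ) < D := by exact_mod_cast hD
  simp only [ckAL, Bool.and_eq_true, decide_eq_true_eq] at h
  obtain ⟨⟨⟨hn, ht0⟩, ht1⟩, hmain⟩ := h
  have htar : (0:ℝ) ≤ ta := by exact_mod_cast hta
  set b : ℝ := 1 + ta / D with hbdef
  set t : ℝ := ta / D - j with ht
  have t0 : 0 ≤ t := by
    have : (0:ℝ) ≤ ta - j * D := by exact_mod_cast ht0
    rw [ht, sub_nonneg, le_div_iff₀ hD']; linarith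
  have t1 : t ≤ 1 := by
    have : (ta:ℝ) - j * D ≤ D := by exact_mod_cast ht1
    rw [ht, sub_le_iff_le_add, div_le_iff₀ hD']; linarith
  have b1 : 1 ≤ b := by
    have : (0:ℝ) ≤ ta / D := div_nonneg htar hD'.le
    linarith
  have hm := lam_anti (p := b) (q := β) (by linarith) ha
  have hlβ := lam_pos hβ
  set m : ℝ := (((n + j : ℕ) : ℝ)) + 1 with hmdef
  have hn1 : (1:ℝ) ≤ n := by exact_mod_cast hn
  have hj0 : (0:ℝ) ≤ j := Nat.cast_nonneg j
  have m2 : 2 ≤ m := by rw [hmdef]; push_cast; linarith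
  have hch := lam_chain b1 n
  have hbn : b + n = m + t := by rw [hbdef, hmdef, ht]; push_cast; ring
  rw [hbn] at hch
  have hup := lam_upper (p := m) (t := t) (by linarith) t0 t1
  have hint := lam_int (n + j)
  rw [← hmdef] at hint
  have hA := PA_pos (x := 2 * b + 1) (by linarith) n
  have hB := PA_pos (x := 2 * b + 2) (by linarith) n
  have hC := PA_pos (x := 4) (by norm_num) (n + j)
  have hE := PA_pos (x := 3) (by norm_num) (n + j)
  have h1 : lam (m + t) * (2 * m + 2) ≤ lam m * (2 * m + 2 - t) := by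
    have h2m : 0 < 2 * m + 2 := by linarith
    have e : lam m * (1 - t / (2 * m + 2)) * (2 * m + 2) = lam m * (2 * m + 2 - t) := by
      field_simp
    rw [← e]
    exact mul_le_mul_of_nonneg_right hup h2m.le
  have hmain' : (pl:ℝ) * PA 3 (n + j) * (2 * m + 2 - t) * PA (2 * b + 2) n ≤
      2 * D * PA 4 (n + j) * (2 * m + 2) * PA (2 * b + 1) n := by
    have hc : (pl * PAI 1 3 (n + j) * ((2 * (n + j + 1) + 2) * D - (ta - j * D)) *
      PAI D (4 * D + 2 * ta) n : ℝ) ≤
    2 * D * PAI 1 4 (n + j) * ((2 * (n + j + 1) + 2) * D) * PAI D (3 * D + 2 * ta) n := by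
      exact_mod_cast hmain
    rw [PAI_cast one_pos, PAI_cast one_pos, PAI_cast hD, PAI_cast hD] at hc
    push_cast at hc
    have e1 : ((3 * (D:ℝ) + 2 * ta) / D) = 2 * b + 1 := by rw [hbdef]; field_simp; ring
    have e2 : ((4 * (D:ℝ) + 2 * ta) / D) = 2 * b + 2 := by rw [hbdef]; field_simp; ring
    rw [e1, e2] at hc
    have e3 : (2 * ((n:ℝ) + j + 1) + 2) * D - (ta - j * D) = D * (2 * m + 2 - t) := by
      rw [hmdef, ht]; push_cast; field_simp
    have e4 : (2 * ((n:ℝ) + j + 1) + 2) * D = D * (2 * m + 2) := by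
      rw [hmdef]; push_cast; ring
    rw [e3, e4] at hc
    simp only [one_pow, one_mul, div_one] at hc
    have hDn : (0:ℝ) < D * D ^ n := by positivity
    apply le_of_mul_le_mul_left _ hDn
    linarith
  rcases le_or_gt (pl:ℝ) 0 with hpl | hpl
  · have := aa_zero_pos hβ
    have h2 : (pl / D : ℝ) ≤ 0 := div_nonpos_of_nonpos_of_nonneg hpl hD'.le
    linarith
  have h2 : pl * lam b ≤ (D:ℝ) := by
    have h4 : 2 * PA 4 (n + j) * (2 * m + 2) * (lam b * PA (2 * b + 1) n) ≤
        PA 3 (n + j) * (2 * m + 2 - t) * PA (2 * b + 2) n := by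
      rw [hint, hch]
      have h3 : 2 * PA 4 (n + j) * (lam (m + t) * (2 * m + 2)) * PA (2 * b + 2) n ≤
          2 * PA 4 (n + j) * (lam m * (2 * m + 2 - t)) * PA (2 * b + 2) n := by
        apply mul_le_mul_of_nonneg_right _ hB.le
        exact mul_le_mul_of_nonneg_left h1 (by positivity)
      linarith
    have h5 := mul_le_mul_of_nonneg_left h4 hpl.le
    have hpos : 0 < 2 * PA 4 (n + j) * (2 * m + 2) * PA (2 * b + 1) n := by
      have : 0 < 2 * m + 2 := by linarith
      positivity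
    have h6 : (2 * PA 4 (n + j) * (2 * m + 2) * PA (2 * b + 1) n) * (pl * lam b) ≤
        (2 * PA 4 (n + j) * (2 * m + 2) * PA (2 * b + 1) n) * D := by linarith
    exact le_of_mul_le_mul_left h6 hpos
  have hprod := aa_mul_lam hβ
  rw [div_le_iff₀ hD']
  have haa := aa_zero_pos hβ
  calc (pl:ℝ) = pl * (aa β 0 * lam β) := by rw [hprod, mul_one]
    _ = aa β 0 * (pl * lam β) := by ring
    _ ≤ aa β 0 * (pl * lam b) :=
      mul_le_mul_of_nonneg_left (mul_le_mul_of_nonneg_left hm hpl.le) haa.le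
    _ ≤ aa β 0 * D := mul_le_mul_of_nonneg_left h2 haa.le

lemma PW_zero (β : ℝ) : PW β 0 = aa β 0 := by rw [PW, fw_zero]; simp
lemma gW_zero (β : ℝ) : gW β 0 = 2 * β := by rw [gW]; simp

/-- a full certificate for an interval of parameters -/
def cert (D ta tb k2 e pl ph : ℤ) (n ja jb : ℕ) (rs : List Row) : Bool :=
  decide (0 < D) && decide (0 ≤ ta) && decide (0 ≤ tb) && decide (0 < k2) &&
  ckAL D ta pl n ja && ckAU D tb ph n jb &&
  chk D ta tb k2 e 0 (2 * (D + ta)) (2 * (D + tb)) pl ph 0 rs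

def Ok (β : ℝ) : Prop := MR β ∧ ∀ φ ∈ Ico 0 Real.pi, XX β φ < 1

theorem cert_sound {D ta tb k2 e pl ph : ℤ} {n ja jb : ℕ} {rs : List Row}
    (h : cert D ta tb k2 e pl ph n ja jb rs = true) {β : ℝ} (hβ : 1 < β)
    (ha : 1 + (ta / D : ℝ) ≤ β) (hb : β ≤ 1 + (tb / D : ℝ)) : Ok β := by
  simp only [cert, Bool.and_eq_true, decide_eq_true_eq] at h
  obtain ⟨⟨⟨⟨⟨⟨hD, hta⟩, htb⟩, hk2⟩, hAL⟩, hAU⟩, hchk⟩ := h
  have hD' : (0:ℝ) < D := by exact_mod_cast hD
  have hgood := chk_sound hD hta hβ ha hb rs _ _ _ _ _ _ hchk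
    (by
      push_cast
      rw [zero_div, gW_zero]
      have e1 : (2 * ((D:ℝ) + ta)) / D = 2 * (1 + ta / D) := by field_simp
      rw [e1]; linarith)
    (by
      push_cast
      rw [zero_div, gW_zero]
      have e1 : (2 * ((D:ℝ) + tb)) / D = 2 * (1 + tb / D) := by field_simp
      rw [e1]; linarith)
    (by
      push_cast
      rw [zero_div, PW_zero]
      exact ckAL_sound hD hta hAL hβ ha)
    (by
      push_cast
      rw [zero_div, PW_zero]
      exact ckAU_sound hD htb hAU hβ hb)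
    (by
      intro u hu
      exfalso
      have := hu.2
      push_cast at this
      rw [zero_div] at this
      linarith [hu.1])
    (by
      intro u hu
      exfalso
      have := hu.2
      push_cast at this
      rw [zero_div] at this
      linarith [hu.1])
  constructor
  · apply MR_of_AB (K2 := (k2 / D : ℝ)) hβ (div_pos (by exact_mod_cast hk2) hD')
    · intro w hw; exact (hgood w hw).1
    · intro w hw; exact (hgood w hw).2.1
    · intro w hw; exact (hgood w hw).2.2.1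
  · apply XX_lt_of_W
    intro w hw
    have h1 := (hgood w hw).2.2.2
    rw [div_lt_one (ZW_pos hβ hw.1 hw.2)]
    exact h1

end Pool.Agent.TH242.AC
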