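import Mathlib
import Pool.Agent.TH242.AC.Angle

open Complex Metric Set Filter Topology MeasureTheory

namespace Pool.Agent.TH242.AC

/-- weights on the circle vanishing to second order at the point `1` -/
structure Wt (u : ℝ → ℝ) : Prop where
  cont : Continuous u
  nonneg : ∀ φ, 0 ≤ u φ
  bound : ∃ C : ℝ, 0 ≤ C ∧ ∀ φ, u φ ≤ C * ‖1 - bp φ‖ ^ 2
  ne : ∃ φ ∈ Ioo (-Real.pi) Real.pi, 0 < u φ

/-- kernels with at most a double pole at `1` -/
structure Ker (K : ℂ → ℂ) : Prop where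
  cont : ContinuousOn K (closedBall 0 1 \ {1})
  bound : ∃ C : ℝ, 0 ≤ C ∧ ∀ z : ℂ, ‖z‖ ≤ 1 → z ≠ 1 → ‖K z‖ ≤ C / ‖1 - z‖ ^ 2

lemma norm_one_sub_pos {z : ℂ} (hz : z ≠ 1) : 0 < ‖1 - z‖ :=
  norm_pos_iff.mpr (sub_ne_zero.mpr (Ne.symm hz))

lemma Ker.int {K : ℂ → ℂ} {u : ℝ → ℝ} (hK : Ker K) (hu : Wt u) :
    IntervalIntegrable (fun φ => K (bp φ) * ((u φ : ℝ) : ℂ)) volume (-Real.pi) Real.pi := by
  have hpi := Real.pi_pos
  rw [intervalIntegrable_iff_integrableOn_Ioo_of_le (by linarith)]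
  obtain ⟨C, hC0, hC⟩ := hK.bound
  obtain ⟨D, hD0, hD⟩ := hu.bound
  have hcont : ContinuousOn (fun φ => K (bp φ) * ((u φ : ℝ) : ℂ)) (Ioo (-Real.pi) Real.pi) := by
    apply ContinuousOn.mul
    · apply hK.cont.comp bp_continuous.continuousOn
      intro φ hφ
      exact ⟨by simp [norm_bp], by simpa using bp_ne_one hφ⟩
    · exact (continuous_ofReal.comp hu.cont).continuousOn
  refine IntegrableOn.of_bound (C := C * D) (by simp)
    (hcont.aestronglyMeasurable measurableSet_Ioo) ?_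
  filter_upwards [ae_restrict_mem measurableSet_Ioo] with φ hφ
  have h1 := bp_ne_one hφ
  have h2 := norm_one_sub_pos h1
  rw [norm_mul, Complex.norm_real, Real.norm_eq_abs, abs_of_nonneg (hu.nonneg φ)]
  calc ‖K (bp φ)‖ * u φ ≤ (C / ‖1 - bp φ‖ ^ 2) * (D * ‖1 - bp φ‖ ^ 2) := by
        apply mul_le_mul (hC _ (norm_bp φ).le h1) (hD φ) (hu.nonneg φ) (by positivity)
    _ = C * D := by field_simp

lemma scaled_dist {σ : ℝ} (h0 : 0 < σ) (h1 : σ < 1) {x : ℂ} (hx : ‖x‖ = 1) :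
    ‖1 - x‖ ≤ 2 * ‖1 - (σ : ℂ) * x‖ := by
  have e1 : 1 - x = (1 - (σ : ℂ) * x) - ((1 - σ : ℝ) : ℂ) * x := by push_cast; ring
  have h2 : ‖((1 - σ : ℝ) : ℂ) * x‖ = 1 - σ := by
    rw [norm_mul, hx, mul_one, Complex.norm_real, Real.norm_eq_abs, abs_of_pos (by linarith)]
  have h3 : 1 - σ ≤ ‖1 - (σ : ℂ) * x‖ := by
    have := norm_sub_norm_le (1:ℂ) ((σ : ℂ) * x)
    rw [norm_one, norm_mul, hx, mul_one, Complex.norm_real, Real.norm_eq_abs, abs_of_pos h0] at this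
    exact this
  calc ‖1 - x‖ = ‖(1 - (σ : ℂ) * x) - ((1 - σ : ℝ) : ℂ) * x‖ := by rw [← e1]
    _ ≤ ‖1 - (σ : ℂ) * x‖ + ‖((1 - σ : ℝ) : ℂ) * x‖ := norm_sub_le _ _
    _ ≤ 2 * ‖1 - (σ : ℂ) * x‖ := by rw [h2]; linarith

lemma Ker.lim {K : ℂ → ℂ} {u : ℝ → ℝ} (hK : Ker K) (hu : Wt u) :
    Tendsto (fun σ : ℝ => ∫ φ in (-Real.pi)..Real.pi, K ((σ : ℂ) * bp φ) * ((u φ : ℝ) : ℂ))
      (𝓝[<] 1) (𝓝 (∫ φ in (-Real.pi)..Real.pi, K (bp φ) * ((u φ : ℝ) : ℂ))) := by
  have hpi := Real.pi_pos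
  obtain ⟨C, hC0, hC⟩ := hK.bound
  obtain ⟨D, hD0, hD⟩ := hu.bound
  have hev0 : ∀ᶠ σ : ℝ in 𝓝[<] 1, 0 < σ := by
    have : ∀ᶠ s : ℝ in 𝓝 1, (0:ℝ) < s := lt_mem_nhds (by norm_num)
    exact this.filter_mono nhdsWithin_le_nhds
  have hnorm : ∀ σ : ℝ, 0 < σ → σ < 1 → ∀ φ, ‖(σ : ℂ) * bp φ‖ < 1 := by
    intro σ h0 h1 φ
    rw [norm_mul, norm_bp, mul_one, Complex.norm_real, Real.norm_eq_abs, abs_of_pos h0]
    exact h1
  have hu_pi : u Real.pi = 0 := by
    apply le_antisymm _ (hu.nonneg _)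
    have := hD Real.pi
    rw [bp_pi] at this
    simpa using this
  apply intervalIntegral.tendsto_integral_filter_of_dominated_convergence (fun _ => 4 * C * D)
  · filter_upwards [hev0, self_mem_nhdsWithin] with σ h0 h1
    have h1' : σ < 1 := h1
    apply Continuous.aestronglyMeasurable
    apply Continuous.mul _ (continuous_ofReal.comp hu.cont)
    apply hK.cont.comp_continuous (continuous_const.mul bp_continuous)
    intro φ
    have h2 := hnorm σ h0 h1' φ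
    refine ⟨by simpa using h2.le, ?_⟩
    intro h3
    have h4 : (σ : ℂ) * bp φ = 1 := h3
    rw [h4, norm_one] at h2
    exact lt_irrefl _ h2
  · filter_upwards [hev0, self_mem_nhdsWithin] with σ h0 h1
    have h1' : σ < 1 := h1
    filter_upwards with φ _
    have h2 := hnorm σ h0 h1' φ
    have h3 : (σ : ℂ) * bp φ ≠ 1 := by
      intro h4; rw [h4, norm_one] at h2; exact lt_irrefl _ h2
    have h5 := norm_one_sub_pos h3
    have h6 := scaled_dist h0 h1' (norm_bp φ)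
    rw [norm_mul, Complex.norm_real, Real.norm_eq_abs, abs_of_nonneg (hu.nonneg φ)]
    calc ‖K ((σ : ℂ) * bp φ)‖ * u φ
        ≤ (C / ‖1 - (σ : ℂ) * bp φ‖ ^ 2) * (D * ‖1 - bp φ‖ ^ 2) := by
          apply mul_le_mul (hC _ h2.le h3) (hD φ) (hu.nonneg φ) (by positivity)
      _ ≤ (C / ‖1 - (σ : ℂ) * bp φ‖ ^ 2) * (D * (2 * ‖1 - (σ : ℂ) * bp φ‖) ^ 2) := by
          gcongr
      _ = 4 * C * D := by field_simp; ring
  · exact intervalIntegrable_const
  · filter_upwards with φ hφ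
    rw [uIoc_of_le (by linarith)] at hφ
    rcases eq_or_lt_of_le hφ.2 with h | h
    · rw [h, hu_pi]
      simp
    · have hφ' : φ ∈ Ioo (-Real.pi) Real.pi := ⟨hφ.1, h⟩
      apply Tendsto.mul _ tendsto_const_nhds
      have hmem : bp φ ∈ closedBall (0:ℂ) 1 \ {1} :=
        ⟨by simp [norm_bp], by simpa using bp_ne_one hφ'⟩
      have h1 := hK.cont _ hmem
      have h2 : Tendsto (fun σ : ℝ => (σ : ℂ) * bp φ) (𝓝[<] 1)
          (𝓝[closedBall (0:ℂ) 1 \ {1}] (bp φ)) := by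
        apply tendsto_nhdsWithin_iff.mpr
        constructor
        · have h3 : Continuous (fun σ : ℝ => (σ : ℂ) * bp φ) := by fun_prop
          have h4 := h3.tendsto 1
          simp only [ofReal_one, one_mul] at h4
          exact h4.mono_left nhdsWithin_le_nhds
        · filter_upwards [hev0, self_mem_nhdsWithin] with σ h0 h1
          have h1' : σ < 1 := h1
          have h2 := hnorm σ h0 h1' φ
          refine ⟨by simpa using h2.le, ?_⟩
          intro h3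
          have h4 : (σ : ℂ) * bp φ = 1 := h3
          rw [h4, norm_one] at h2
          exact lt_irrefl _ h2
      exact h1.tendsto.comp h2

lemma wpos {q : ℝ → ℂ} {u : ℝ → ℝ} (hu : Wt u)
    (hint : IntervalIntegrable (fun φ => q φ * ((u φ : ℝ) : ℂ)) volume (-Real.pi) Real.pi)
    (ψ : ℝ) (hpos : ∀ φ ∈ Ioo (-Real.pi) Real.pi, φ ≠ ψ → 0 < (q φ).re) :
    0 < (∫ φ in (-Real.pi)..Real.pi, q φ * ((u φ : ℝ) : ℂ)).re := by
  have hpi := Real.pi_pos
  have h1 : (∫ φ in (-Real.pi)..Real.pi, q φ * ((u φ : ℝ) : ℂ)).re =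
      ∫ φ in (-Real.pi)..Real.pi, (q φ).re * u φ := by
    have h2 := Complex.reCLM.intervalIntegral_comp_comm hint
    simp only [Complex.reCLM_apply] at h2
    rw [← h2]
    apply intervalIntegral.integral_congr
    intro φ _
    simp
  have hint' : IntervalIntegrable (fun φ => (q φ).re * u φ) volume (-Real.pi) Real.pi := by
    have h2 : IntervalIntegrable (fun φ => (q φ * ((u φ : ℝ) : ℂ)).re) volume
        (-Real.pi) Real.pi := ⟨hint.1.re, hint.2.re⟩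
    refine h2.congr ?_
    intro φ _
    simp
  rw [h1]
  have hae : ∀ᵐ φ ∂(volume : Measure ℝ), φ ∉ ({ψ, Real.pi} : Set ℝ) := by
    have : (volume : Measure ℝ) ({ψ, Real.pi} : Set ℝ) = 0 :=
      (Set.toFinite _).measure_zero _
    exact measure_eq_zero_iff_ae_notMem.mp this
  rw [intervalIntegral.integral_pos_iff_support_of_nonneg_ae' _ hint']
  · refine ⟨by linarith, ?_⟩
    obtain ⟨φ₁, hφ₁, hu₁⟩ := hu.ne
    have hopen : IsOpen ({φ | 0 < u φ} ∩ Ioo (-Real.pi) Real.pi) :=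
      (isOpen_lt continuous_const hu.cont).inter isOpen_Ioo
    have hmeas : 0 < volume ({φ | 0 < u φ} ∩ Ioo (-Real.pi) Real.pi) :=
      hopen.measure_pos volume ⟨φ₁, hu₁, hφ₁⟩
    have hsub : ({φ | 0 < u φ} ∩ Ioo (-Real.pi) Real.pi) \ {ψ} ⊆
        Function.support (fun φ => (q φ).re * u φ) ∩ Ioc (-Real.pi) Real.pi := by
      rintro φ ⟨⟨h2, h3⟩, h4⟩
      refine ⟨?_, h3.1, h3.2.le⟩
      have h5 : φ ≠ ψ := by simpa using h4
      have h6 := hpos φ h3 h5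
      have h2' : 0 < u φ := h2
      exact (mul_pos h6 h2').ne'
    calc 0 < volume ({φ | 0 < u φ} ∩ Ioo (-Real.pi) Real.pi) := hmeas
      _ = volume (({φ | 0 < u φ} ∩ Ioo (-Real.pi) Real.pi) \ {ψ}) := by
          rw [measure_sdiff_null]
          simp
      _ ≤ _ := measure_mono hsub
  · rw [uIoc_of_le (by linarith)]
    filter_upwards [ae_restrict_mem measurableSet_Ioc, ae_restrict_of_ae hae] with φ h2 h3
    simp only [mem_insert_iff, mem_singleton_iff, not_or] at h3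
    have h4 : φ ∈ Ioo (-Real.pi) Real.pi := ⟨h2.1, lt_of_le_of_ne h2.2 h3.2⟩
    exact mul_nonneg (hpos φ h4 h3.1).le (hu.nonneg φ)

end Pool.Agent.TH242.AC
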