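import Mathlib
import Pool.Agent.TH242.AC.Angle
import Pool.Agent.TH242.AC.Coef

open Complex Metric Set Filter Topology

namespace Pool.Agent.TH242.AC

lemma Rf_re_pos_closed {β : ℝ} (hβ : 1 < β) {z : ℂ} (hz : ‖z‖ ≤ 1) (hz1 : z ≠ 1) :
    0 < (Rf β z).re := by
  rcases lt_or_eq_of_le hz with h | h
  · exact Rf_re_pos hβ z (by simpa using h)
  · obtain ⟨φ, hφ, rfl⟩ := exists_bp h hz1
    exact aa_pos hβ hφ

lemma Rf_ne {β : ℝ} (hβ : 1 < β) {z : ℂ} (hz : ‖z‖ ≤ 1) (hz1 : z ≠ 1) : Rf β z ≠ 0 := by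
  intro h
  have := Rf_re_pos_closed hβ hz hz1
  rw [h] at this
  simp at this

lemma Hf_ne {β : ℝ} (hβ : 1 < β) {z : ℂ} (hz : ‖z‖ ≤ 1) : Hf β z ≠ 0 := by
  rcases eq_or_ne z 1 with rfl | h1
  · rw [Hf_one hβ]
    have : (0:ℝ) < β / (2 * β - 1) := div_pos (by linarith) (by linarith)
    exact_mod_cast this.ne'
  · intro h
    apply Rf_ne hβ hz h1
    rw [Rf, h, mul_zero]

lemma exists_Hf_lower {β : ℝ} (hβ : 1 < β) : ∃ c : ℝ, 0 < c ∧ ∀ z : ℂ, ‖z‖ ≤ 1 → c ≤ ‖Hf β z‖ := by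
  obtain ⟨z, hz, hmin⟩ := (isCompact_closedBall (0:ℂ) 1).exists_isMinOn
    ⟨0, by simp⟩ ((Hf_continuousOn hβ).norm)
  refine ⟨‖Hf β z‖, norm_pos_iff.mpr (Hf_ne hβ (by simpa using hz)), ?_⟩
  intro w hw
  exact hmin (by simpa using hw : w ∈ closedBall (0:ℂ) 1)

lemma exists_Rf_upper {β : ℝ} (hβ : 1 < β) : ∃ C : ℝ, 0 < C ∧ ∀ z : ℂ, ‖z‖ ≤ 1 → ‖Rf β z‖ ≤ C := by
  obtain ⟨z, hz, hmax⟩ := (isCompact_closedBall (0:ℂ) 1).exists_isMaxOn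
    ⟨0, by simp⟩ ((Rf_continuousOn hβ).norm)
  refine ⟨‖Rf β z‖ + 1, by positivity, ?_⟩
  intro w hw
  have h : ‖Rf β w‖ ≤ ‖Rf β z‖ := hmax (by simpa using hw : w ∈ closedBall (0:ℂ) 1)
  linarith

noncomputable def Pf (β : ℝ) (z : ℂ) : ℂ := (Rf β z)⁻¹

noncomputable def kap (β : ℝ) (z : ℂ) : ℂ :=
  (1 - z)⁻¹ * exp (((1 / (2 * β) : ℝ) : ℂ) * Complex.log (Rf β z))

lemma Pf_zero {β : ℝ} : Pf β 0 = 1 := by rw [Pf, Rf_zero, inv_one]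
lemma kap_zero {β : ℝ} : kap β 0 = 1 := by simp [kap, Rf_zero]

lemma Pf_diff {β : ℝ} (hβ : 1 < β) : DifferentiableOn ℂ (Pf β) (ball 0 1) := by
  have h := Rf_differentiableOn hβ
  exact h.inv (fun z hz => Rf_ne hβ (by simpa using (mem_ball_zero_iff.mp hz).le)
    (ne_one_of_norm_lt (by simpa using hz)))

lemma Pf_re_pos {β : ℝ} (hβ : 1 < β) {z : ℂ} (hz : ‖z‖ ≤ 1) (hz1 : z ≠ 1) : 0 < (Pf β z).re := by
  rw [Pf, inv_re]
  exact div_pos (Rf_re_pos_closed hβ hz hz1) (normSq_pos.mpr (Rf_ne hβ hz hz1))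

lemma Rf_slit {β : ℝ} (hβ : 1 < β) {z : ℂ} (hz : ‖z‖ ≤ 1) (hz1 : z ≠ 1) :
    Rf β z ∈ slitPlane := Or.inl (Rf_re_pos_closed hβ hz hz1)

lemma kap_ne {β : ℝ} {z : ℂ} (hz1 : z ≠ 1) : kap β z ≠ 0 :=
  mul_ne_zero (inv_ne_zero (sub_ne_zero.mpr (Ne.symm hz1))) (exp_ne_zero _)

lemma kap_continuousOn {β : ℝ} (hβ : 1 < β) :
    ContinuousOn (kap β) (closedBall 0 1 \ {1}) := by
  intro z hz
  have hz1 : z ≠ 1 := by simpa using hz.2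
  have hzn : ‖z‖ ≤ 1 := by simpa using hz.1
  have h1 : ContinuousWithinAt (Rf β) (closedBall 0 1 \ {1}) z :=
    ((Rf_continuousOn hβ) z hz.1).mono sdiff_subset
  have h2 : ContinuousWithinAt (fun z => Complex.log (Rf β z)) (closedBall 0 1 \ {1}) z :=
    h1.clog (Rf_slit hβ hzn hz1)
  have h3 : ContinuousWithinAt (fun z : ℂ => (1 - z)⁻¹) (closedBall 0 1 \ {1}) z := by
    apply ContinuousWithinAt.inv₀
    · fun_prop
    · exact sub_ne_zero.mpr (Ne.symm hz1)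
  exact h3.mul (continuousWithinAt_const.mul h2).cexp

lemma Pf_continuousOn {β : ℝ} (hβ : 1 < β) :
    ContinuousOn (Pf β) (closedBall 0 1 \ {1}) := by
  intro z hz
  have hz1 : z ≠ 1 := by simpa using hz.2
  have hzn : ‖z‖ ≤ 1 := by simpa using hz.1
  have h1 : ContinuousWithinAt (Rf β) (closedBall 0 1 \ {1}) z :=
    ((Rf_continuousOn hβ) z hz.1).mono sdiff_subset
  exact h1.inv₀ (Rf_ne hβ hzn hz1)

lemma kap_hasDerivAt {β : ℝ} (hβ : 1 < β) {z : ℂ} (hz : ‖z‖ < 1) :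
    HasDerivAt (kap β) (kap β z * ((1 - z)⁻¹ +
      ((1 / (2 * β) : ℝ) : ℂ) * (deriv (Rf β) z / Rf β z))) z := by
  have hz1 := ne_one_of_norm_lt hz
  have h0 : (1:ℂ) - z ≠ 0 := sub_ne_zero.mpr (Ne.symm hz1)
  have h1 : HasDerivAt (fun z : ℂ => (1 - z)⁻¹) (1 / (1 - z) ^ 2) z := by
    have h2 : HasDerivAt (fun z : ℂ => 1 - z) (-1) z := by
      simpa using (hasDerivAt_id z).const_sub (1:ℂ)
    refine (h2.inv h0).congr_deriv ?_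
    ring
  have hR : HasDerivAt (Rf β) (deriv (Rf β) z) z := by
    rw [(Rf_hasDerivAt hβ hz).deriv]; exact Rf_hasDerivAt hβ hz
  have h2 := ((hR.clog (Rf_slit hβ hz.le hz1)).const_mul (((1 / (2 * β) : ℝ) : ℂ))).cexp
  refine (h1.mul h2).congr_deriv ?_
  rw [kap]
  field_simp

lemma kap_diff {β : ℝ} (hβ : 1 < β) : DifferentiableOn ℂ (kap β) (ball 0 1) :=
  fun z hz => (kap_hasDerivAt hβ (by simpa using hz)).differentiableAt.differentiableWithinAt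

lemma kap_ode {β : ℝ} (hβ : 1 < β) {z : ℂ} (hz : ‖z‖ < 1) :
    2 * (z * deriv (kap β) z) = (Pf β z - 1) * kap β z := by
  have hz1 := ne_one_of_norm_lt hz
  have h0 : (1:ℂ) - z ≠ 0 := sub_ne_zero.mpr (Ne.symm hz1)
  have hR := Rf_ne hβ hz.le hz1
  have h2 := mul_deriv_Rf hβ hz
  rw [DR_eq hz1] at h2
  have hβ0 : (β:ℂ) ≠ 0 := by
    have : β ≠ 0 := by linarith
    exact_mod_cast this
  have h3 : 2 * (z * deriv (kap β) z) =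
      kap β z * (2 * z * (1 - z)⁻¹ + (1 / β) * ((z * deriv (Rf β) z) / Rf β z)) := by
    rw [(kap_hasDerivAt hβ hz).deriv]
    push_cast
    field_simp
  rw [h3, h2, Pf, Qf]
  field_simp
  ring

lemma norm_exp_log_le {w : ℂ} (hw : w ≠ 0) {s : ℝ} (hs0 : 0 ≤ s) (hs1 : s ≤ 1) :
    ‖exp ((s : ℂ) * Complex.log w)‖ ≤ 1 + ‖w‖ := by
  rw [Complex.norm_exp, Complex.re_ofReal_mul, Complex.log_re]
  have hpos : 0 < ‖w‖ := norm_pos_iff.mpr hw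
  rcases le_total ‖w‖ 1 with h | h
  · have h1 : Real.log ‖w‖ ≤ 0 := Real.log_nonpos hpos.le h
    have h2 : s * Real.log ‖w‖ ≤ 0 := mul_nonpos_of_nonneg_of_nonpos hs0 h1
    have := Real.exp_le_one_iff.mpr h2
    linarith
  · have h1 : 0 ≤ Real.log ‖w‖ := Real.log_nonneg h
    have h2 : s * Real.log ‖w‖ ≤ Real.log ‖w‖ := mul_le_of_le_one_left h1 hs1
    have h3 := Real.exp_le_exp.mpr h2
    rw [Real.exp_log hpos] at h3
    linarith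

lemma kap_bound {β : ℝ} (hβ : 1 < β) : ∃ C : ℝ, 0 < C ∧ ∀ z : ℂ, ‖z‖ ≤ 1 → z ≠ 1 →
    ‖kap β z‖ ≤ C / ‖1 - z‖ ^ 2 ∧ ‖kap β z * Pf β z‖ ≤ C / ‖1 - z‖ ^ 2 := by
  obtain ⟨c, hc0, hc⟩ := exists_Hf_lower hβ
  obtain ⟨M, hM0, hM⟩ := exists_Rf_upper hβ
  refine ⟨2 * (1 + M) + (1 + M) / c, by positivity, ?_⟩
  intro z hz hz1
  have hd : 0 < ‖1 - z‖ := norm_pos_iff.mpr (sub_ne_zero.mpr (Ne.symm hz1))
  have hd2 : ‖1 - z‖ ≤ 2 := by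
    calc ‖1 - z‖ ≤ ‖(1:ℂ)‖ + ‖z‖ := norm_sub_le _ _
      _ ≤ 2 := by rw [norm_one]; linarith
  have hR := Rf_ne hβ hz hz1
  have hs0 : (0:ℝ) ≤ 1 / (2 * β) := by positivity
  have hs1 : 1 / (2 * β) ≤ 1 := by
    rw [div_le_one (by linarith)]; linarith
  have he : ‖exp (((1 / (2 * β) : ℝ) : ℂ) * Complex.log (Rf β z))‖ ≤ 1 + M :=
    (norm_exp_log_le hR hs0 hs1).trans (by linarith [hM z hz])
  have hRl : c * ‖1 - z‖ ≤ ‖Rf β z‖ := by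
    rw [Rf, norm_mul, mul_comm c]
    exact mul_le_mul_of_nonneg_left (hc z hz) hd.le
  have hk : ‖kap β z‖ ≤ (1 + M) / ‖1 - z‖ := by
    rw [kap, norm_mul, norm_inv, inv_mul_eq_div]
    gcongr
  constructor
  · refine hk.trans ?_
    rw [div_le_div_iff₀ hd (by positivity)]
    have h1 : (1 + M) * ‖1 - z‖ ^ 2 = ((1 + M) * ‖1 - z‖) * ‖1 - z‖ := by ring
    rw [h1]
    apply mul_le_mul_of_nonneg_right _ hd.le
    have h2 : (1 + M) * ‖1 - z‖ ≤ (1 + M) * 2 := mul_le_mul_of_nonneg_left hd2 (by positivity)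
    have h3 : 0 < (1 + M) / c := by positivity
    linarith
  · have h1 : ‖Pf β z‖ ≤ 1 / (c * ‖1 - z‖) := by
      rw [Pf, norm_inv, ← one_div]
      exact one_div_le_one_div_of_le (by positivity) hRl
    rw [norm_mul]
    calc ‖kap β z‖ * ‖Pf β z‖ ≤ ((1 + M) / ‖1 - z‖) * (1 / (c * ‖1 - z‖)) := by gcongr
      _ = ((1 + M) / c) / ‖1 - z‖ ^ 2 := by field_simp
      _ ≤ (2 * (1 + M) + (1 + M) / c) / ‖1 - z‖ ^ 2 := by
          gcongr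
          have : 0 ≤ 2 * (1 + M) := by positivity
          linarith

lemma Rf_bp_arg {β : ℝ} (hβ : 1 < β) {φ : ℝ} (h : φ ∈ Ioo (-Real.pi) Real.pi) :
    arg (Rf β (bp φ)) = Real.arctan (TT β φ) := by
  have ha : 0 < (Rf β (bp φ)).re := aa_pos hβ h
  have h1 : |arg (Rf β (bp φ))| < Real.pi / 2 := abs_arg_lt_pi_div_two_iff.mpr (Or.inl ha)
  rw [abs_lt] at h1
  have h2 := Complex.tan_arg (Rf β (bp φ))
  rw [TT, aa, bb, ← h2, Real.arctan_tan h1.1 h1.2]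

lemma one_sub_bp' (φ : ℝ) : 1 - bp φ =
    ((2 * Real.cos (φ/2) : ℝ) : ℂ) * exp (((φ/2 : ℝ) : ℂ) * I) := by
  rw [one_sub_bp, Complex.exp_mul_I]
  push_cast
  rfl

/-- the arguments of the boundary values -/
lemma kap_bp {β : ℝ} (hβ : 1 < β) {φ : ℝ} (h : φ ∈ Ioo (-Real.pi) Real.pi) :
    ∃ ρ : ℝ, 0 < ρ ∧ kap β (bp φ) =
      ρ * exp (((1 / (2 * β) * Real.arctan (TT β φ) - φ / 2 : ℝ) : ℂ) * I) := by
  have hc := cos_half_pos h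
  refine ⟨(2 * Real.cos (φ/2))⁻¹ * Real.exp (1 / (2 * β) * Real.log ‖Rf β (bp φ)‖),
    by positivity, ?_⟩
  rw [kap, one_sub_bp', mul_inv, ← Complex.exp_neg]
  have h1 : ((1 / (2 * β) : ℝ) : ℂ) * Complex.log (Rf β (bp φ)) =
      ((1 / (2 * β) * Real.log ‖Rf β (bp φ)‖ : ℝ) : ℂ) +
      ((1 / (2 * β) * Real.arctan (TT β φ) : ℝ) : ℂ) * I := by
    rw [Complex.log, Rf_bp_arg hβ h]
    push_cast
    ring
  rw [h1, Complex.exp_add, ← Complex.ofReal_exp]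
  have h2 : exp (((1 / (2 * β) * Real.arctan (TT β φ) - φ / 2 : ℝ) : ℂ) * I) =
      exp (((1 / (2 * β) * Real.arctan (TT β φ) : ℝ) : ℂ) * I) *
      exp (-(((φ/2 : ℝ) : ℂ) * I)) := by
    rw [← Complex.exp_add]
    congr 1
    push_cast
    ring
  rw [h2]
  push_cast
  ring

lemma kapP_bp {β : ℝ} (hβ : 1 < β) {φ : ℝ} (h : φ ∈ Ioo (-Real.pi) Real.pi) :
    ∃ ρ : ℝ, 0 < ρ ∧ kap β (bp φ) * Pf β (bp φ) =
      ρ * exp (((-((1 - 1 / (2 * β)) * Real.arctan (TT β φ)) - φ / 2 : ℝ) : ℂ) * I) := by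
  obtain ⟨ρ, hρ, hk⟩ := kap_bp hβ h
  have hR : Rf β (bp φ) ≠ 0 := Rf_ne hβ (norm_bp φ).le (bp_ne_one h)
  have hn : 0 < ‖Rf β (bp φ)‖ := norm_pos_iff.mpr hR
  refine ⟨ρ * ‖Rf β (bp φ)‖⁻¹, by positivity, ?_⟩
  have h1 : Rf β (bp φ) = (‖Rf β (bp φ)‖ : ℂ) * exp ((Real.arctan (TT β φ) : ℂ) * I) := by
    rw [← Rf_bp_arg hβ h]
    exact (Complex.norm_mul_exp_arg_mul_I _).symm
  have h2 : Pf β (bp φ) = ((‖Rf β (bp φ)‖⁻¹ : ℝ) : ℂ) *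
      exp (-((Real.arctan (TT β φ) : ℂ) * I)) := by
    rw [Pf]
    conv_lhs => rw [h1]
    rw [mul_inv, ← Complex.exp_neg]
    push_cast
    rfl
  have h3 : exp (((-((1 - 1 / (2 * β)) * Real.arctan (TT β φ)) - φ / 2 : ℝ) : ℂ) * I) =
      exp (((1 / (2 * β) * Real.arctan (TT β φ) - φ / 2 : ℝ) : ℂ) * I) *
      exp (-((Real.arctan (TT β φ) : ℂ) * I)) := by
    rw [← Complex.exp_add]
    congr 1
    push_cast
    ring
  rw [hk, h2, h3]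
  push_cast
  ring

end Pool.Agent.TH242.AC
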