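import Mathlib
import Pool.Agent.TH242.AC.KP
import Pool.Agent.TH242.AC.Cara

open Complex Metric Set Filter Topology

namespace Pool.Agent.TH242.AC

/-- coefficients of the extremal `z K' / K` -/
noncomputable def pco (α : ℝ) : ℕ → ℝ
  | 0 => 1
  | (n+1) => (2 + ∑ j : Fin n, pco α (j+1) * (2 - pco α (n - j))) / (α * (n+1) + 1)

/-- coefficients of the solution of `m z f' = (P - 1) f` -/
noncomputable def rco (p : ℕ → ℝ) (m : ℝ) : ℕ → ℝ
  | 0 => 1
  | (n+1) => (∑ j : Fin (n+1), p (j+1) * rco p m (n - j)) / (m * (n+1))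

lemma pco_zero (α : ℝ) : pco α 0 = 1 := by rw [pco]

lemma rco_zero (p : ℕ → ℝ) (m : ℝ) : rco p m 0 = 1 := by rw [rco]

lemma pco_rec {α : ℝ} (hα : 0 < α) (n : ℕ) : (α * (n+1) + 1) * pco α (n+1) =
    2 + ∑ j ∈ Finset.range n, pco α (j+1) * (2 - pco α (n - j)) := by
  have h : α * (n+1) + 1 ≠ 0 := by positivity
  rw [pco, mul_div_cancel₀ _ h, Finset.sum_range]

lemma rco_rec (p : ℕ → ℝ) {m : ℝ} (hm : 0 < m) (n : ℕ) : (m * (n+1)) * rco p m (n+1) =
    ∑ j ∈ Finset.range (n+1), p (j+1) * rco p m (n - j) := by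
  have h : m * (n+1) ≠ 0 := by positivity
  rw [rco, mul_div_cancel₀ _ h, Finset.sum_range]

lemma sum_antidiag_succ (u v : ℕ → ℂ) (n : ℕ) :
    ∑ kl ∈ Finset.HasAntidiagonal.antidiagonal (n+1), u kl.1 * v kl.2 =
    u 0 * v (n+1) + ∑ j ∈ Finset.range (n+1), u (j+1) * v (n - j) := by
  rw [Finset.Nat.sum_antidiagonal_eq_sum_range_succ (fun i j => u i * v j), Finset.sum_range_succ']
  rw [add_comm]
  congr 1
  apply Finset.sum_congr rfl
  intro j _
  congr 2
  omega

lemma coef_of_ode {f P : ℂ → ℂ} {c : ℕ → ℂ} {p : ℕ → ℝ} {m : ℝ} (hm : 0 < m) (hf : HasPS f c)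
    (hP : HasPS P (fun n => (p n : ℂ))) (hc0 : c 0 = 1) (hp0 : p 0 = 1)
    (hode : ∀ z : ℂ, ‖z‖ < 1 → (m : ℂ) * (z * deriv f z) = (P z - 1) * f z) (n : ℕ) :
    c n = (rco p m n : ℂ) := by
  have h1 : HasPS (fun z => P z * f z) (fun n => (m : ℂ) * ((n : ℂ) * c n) + c n) := by
    have := (hf.zderiv.const_mul (m : ℂ)).add hf
    refine this.congr (fun z hz => ?_)
    have := hode z hz
    rw [this]; ring
  have h2 := h1.unique (hP.mul hf)
  have h3 : ∀ n : ℕ, ((m * (n+1) : ℝ) : ℂ) * c (n+1) =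
      ∑ j ∈ Finset.range (n+1), (p (j+1) : ℂ) * c (n - j) := by
    intro n
    have h4 := congrFun h2 (n+1)
    rw [sum_antidiag_succ (fun n => (p n : ℂ)) c n, hp0] at h4
    push_cast at h4 ⊢
    linear_combination h4
  induction n using Nat.strong_induction_on with
  | _ n ih =>
    rcases Nat.eq_zero_or_pos n with rfl | hn
    · rw [hc0, rco_zero, ofReal_one]
    · obtain ⟨k, rfl⟩ : ∃ k, n = k + 1 := ⟨n - 1, by omega⟩
      have h4 := h3 k
      have h5 := rco_rec p hm k
      have h6 : ((m * (k+1) : ℝ) : ℂ) ≠ 0 := by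
        have : m * ((k:ℝ)+1) ≠ 0 := by positivity
        exact_mod_cast this
      have h7 : ∑ j ∈ Finset.range (k+1), (p (j+1) : ℂ) * c (k - j) =
          ((∑ j ∈ Finset.range (k+1), p (j+1) * rco p m (k - j) : ℝ) : ℂ) := by
        push_cast
        apply Finset.sum_congr rfl
        intro j _
        rw [ih (k - j) (by omega)]
      rw [h7, ← h5] at h4
      apply mul_left_cancel₀ h6
      rw [h4]
      push_cast
      ring

lemma Pf_ode {β : ℝ} (hβ : 1 < β) {z : ℂ} (hz : ‖z‖ < 1) :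
    ((1 / β : ℝ) : ℂ) * (z * deriv (Pf β) z) + Pf β z * Pf β z = Qf z * Pf β z := by
  have hz1 := ne_one_of_norm_lt hz
  have hR := Rf_ne hβ hz.le hz1
  have hRd : HasDerivAt (Rf β) (deriv (Rf β) z) z := by
    rw [(Rf_hasDerivAt hβ hz).deriv]; exact Rf_hasDerivAt hβ hz
  have h1 : deriv (Pf β) z = -(deriv (Rf β) z) / Rf β z ^ 2 := (hRd.inv hR).deriv
  have h2 := mul_deriv_Rf hβ hz
  rw [DR_eq hz1] at h2
  have hβ0 : (β:ℂ) ≠ 0 := by
    have : β ≠ 0 := by linarith
    exact_mod_cast this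
  have h3 : z * deriv (Pf β) z = -(z * deriv (Rf β) z) / Rf β z ^ 2 := by
    rw [h1]; ring
  rw [h3, h2, Pf]
  push_cast
  field_simp
  ring

lemma hasPS_Pf {β : ℝ} (hβ : 1 < β) : HasPS (Pf β) (fun n => (pco (1 / β) n : ℂ)) := by
  have hP := hasPS_tc (Pf_diff hβ)
  set c := tc (Pf β) with hc
  have hc0 : c 0 = 1 := by rw [← hP.zero_val, Pf_zero]
  set α : ℝ := 1 / β with hα
  have hα0 : 0 < α := by positivity
  set e : ℕ → ℂ := fun n => (α : ℂ) * ((n : ℂ) * c n) +
    ∑ kl ∈ Finset.HasAntidiagonal.antidiagonal n, c kl.1 * c kl.2 with he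
  have hE : HasPS (fun z => (α : ℂ) * (z * deriv (Pf β) z) + Pf β z * Pf β z) e :=
    (hP.zderiv.const_mul (α : ℂ)).add (hP.mul hP)
  have h1 : HasPS (fun z => Pf β z + z * Pf β z) (fun n => e n - if n = 0 then 0 else e (n-1)) := by
    refine (hE.sub hE.zmul).congr (fun z hz => ?_)
    rw [hα, Pf_ode hβ hz, Qf]
    have : (1:ℂ) - z ≠ 0 := sub_ne_zero.mpr (Ne.symm (ne_one_of_norm_lt hz))
    field_simp
  have h2 := h1.unique (hP.add hP.zmul)
  have hS : ∀ n : ℕ, e n - c n = 2 * ∑ j ∈ Finset.range n, c j := by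
    intro n
    induction n with
    | zero =>
      have := congrFun h2 0
      simp only [if_true] at this
      simp only [Finset.range_zero, Finset.sum_empty, mul_zero]
      linear_combination this
    | succ n ih =>
      have := congrFun h2 (n+1)
      simp only [Nat.add_eq_zero_iff, one_ne_zero, and_false, if_false, Nat.add_sub_cancel] at this
      rw [Finset.sum_range_succ]
      linear_combination this + ih
  have hrec : ∀ n : ℕ, ((α * (n+1) + 1 : ℝ) : ℂ) * c (n+1) =
      2 + ∑ j ∈ Finset.range n, c (j+1) * (2 - c (n - j)) := by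
    intro n
    have h3 := hS (n+1)
    rw [he] at h3
    simp only at h3
    rw [sum_antidiag_succ c c n, hc0, Finset.sum_range_succ (fun j => c (j+1) * c (n-j)) n,
      Nat.sub_self, hc0, Finset.sum_range_succ' c n, hc0] at h3
    have h4 : ∑ j ∈ Finset.range n, c (j+1) * (2 - c (n - j)) =
        2 * ∑ j ∈ Finset.range n, c (j+1) - ∑ j ∈ Finset.range n, c (j+1) * c (n - j) := by
      rw [Finset.mul_sum, ← Finset.sum_sub_distrib]
      apply Finset.sum_congr rfl
      intro j _
      ring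
    rw [h4]
    push_cast at h3 ⊢
    linear_combination h3
  have hfin : c = (fun n => (pco α n : ℂ)) := by
    funext n
    induction n using Nat.strong_induction_on with
    | _ n ih =>
      rcases Nat.eq_zero_or_pos n with rfl | hn
      · rw [hc0, pco_zero, ofReal_one]
      · obtain ⟨k, rfl⟩ : ∃ k, n = k + 1 := ⟨n - 1, by omega⟩
        have h4 := hrec k
        have h5 := pco_rec hα0 k
        have h6 : ((α * (k+1) + 1 : ℝ) : ℂ) ≠ 0 := by
          have : α * ((k:ℝ)+1) + 1 ≠ 0 := by positivity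
          exact_mod_cast this
        have h7 : (2:ℂ) + ∑ j ∈ Finset.range k, c (j+1) * (2 - c (k - j)) =
            ((2 + ∑ j ∈ Finset.range k, pco α (j+1) * (2 - pco α (k - j)) : ℝ) : ℂ) := by
          push_cast
          congr 1
          apply Finset.sum_congr rfl
          intro j hj
          have : j < k := Finset.mem_range.mp hj
          rw [ih (k - j) (by omega), ih (j+1) (by omega)]
        rw [h7, ← h5] at h4
        apply mul_left_cancel₀ h6
        rw [h4]
        push_cast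
        ring
  rw [← hfin]
  exact hP

lemma pco_abs_le {β : ℝ} (hβ : 1 < β) {n : ℕ} (hn : 1 ≤ n) : |pco (1 / β) n| ≤ 2 := by
  have h := caratheodory (hasPS_Pf hβ) (fun z hz => (Pf_re_pos hβ hz.le
    (ne_one_of_norm_lt hz)).le) hn
  simpa [pco_zero] using h

lemma pco_lower {β : ℝ} (hβ : 1 < β) (n : ℕ) :
    0 < pco (1 / β) n ∧ 2 / ((1 / β) * (n + 1) + 1) ≤ pco (1 / β) (n + 1) := by
  have hα0 : 0 < 1 / β := by positivity
  have hpos : ∀ n, 0 < pco (1 / β) n := by
    intro n
    induction n using Nat.strong_induction_on with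
    | _ n ih =>
      rcases Nat.eq_zero_or_pos n with rfl | hn
      · rw [pco_zero]; exact one_pos
      · obtain ⟨k, rfl⟩ : ∃ k, n = k + 1 := ⟨n - 1, by omega⟩
        have h5 := pco_rec hα0 k
        have h6 : 0 < 1 / β * ((k:ℝ)+1) + 1 := by positivity
        have h7 : 0 ≤ ∑ j ∈ Finset.range k, pco (1 / β) (j+1) * (2 - pco (1 / β) (k - j)) := by
          apply Finset.sum_nonneg
          intro j hj
          have hj' : j < k := Finset.mem_range.mp hj
          have := pco_abs_le hβ (n := k - j) (by omega)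
          exact mul_nonneg (ih (j+1) (by omega)).le (by linarith [(abs_le.mp this).2])
        have h8 : 0 < (1 / β * ((k:ℝ)+1) + 1) * pco (1 / β) (k+1) := by
          rw [h5]; linarith
        exact (pos_iff_pos_of_mul_pos h8).mp h6
  refine ⟨hpos n, ?_⟩
  have h5 := pco_rec hα0 n
  have h6 : 0 < 1 / β * ((n:ℝ)+1) + 1 := by positivity
  have h7 : 0 ≤ ∑ j ∈ Finset.range n, pco (1 / β) (j+1) * (2 - pco (1 / β) (n - j)) := by
    apply Finset.sum_nonneg
    intro j hj
    have hj' : j < n := Finset.mem_range.mp hj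
    have := pco_abs_le hβ (n := n - j) (by omega)
    exact mul_nonneg (hpos _).le (by linarith [(abs_le.mp this).2])
  rw [div_le_iff₀ h6, mul_comm, h5]
  linarith

noncomputable def kco (β : ℝ) (n : ℕ) : ℝ := rco (pco (1 / β)) 2 n

lemma hasPS_kap {β : ℝ} (hβ : 1 < β) : HasPS (kap β) (fun n => (kco β n : ℂ)) := by
  have h := hasPS_tc (kap_diff hβ)
  have h2 : tc (kap β) = (fun n => (kco β n : ℂ)) := by
    funext n
    exact coef_of_ode two_pos h (hasPS_Pf hβ) (by rw [← h.zero_val, kap_zero]) (pco_zero _)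
      (fun z hz => by
        have := kap_ode hβ hz
        push_cast
        exact this) n
  rw [← h2]
  exact h

lemma kco_zero (β : ℝ) : kco β 0 = 1 := rco_zero _ _

lemma kco_lower {β : ℝ} (hβ : 1 < β) (n : ℕ) :
    0 < kco β n ∧ 1 / ((n + 1) * ((1 / β) * (n + 1) + 1)) ≤ kco β (n + 1) := by
  have hα0 : 0 < 1 / β := by positivity
  have hpos : ∀ n, 0 < kco β n := by
    intro n
    induction n using Nat.strong_induction_on with
    | _ n ih =>
      rcases Nat.eq_zero_or_pos n with rfl | hn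
      · rw [kco_zero]; exact one_pos
      · obtain ⟨k, rfl⟩ : ∃ k, n = k + 1 := ⟨n - 1, by omega⟩
        have h5 := rco_rec (pco (1 / β)) two_pos k
        have h7 : 0 < ∑ j ∈ Finset.range (k+1), pco (1 / β) (j+1) * rco (pco (1 / β)) 2 (k - j) := by
          apply Finset.sum_pos
          · intro j _
            exact mul_pos (pco_lower hβ _).1 (ih (k - j) (by omega))
          · simp
        rw [← h5] at h7
        have h6 : (0:ℝ) < 2 * ((k:ℝ)+1) := by positivity
        exact (pos_iff_pos_of_mul_pos h7).mp h6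
  refine ⟨hpos n, ?_⟩
  have h5 := rco_rec (pco (1 / β)) two_pos n
  have h6 : 0 < 1 / β * ((n:ℝ)+1) + 1 := by positivity
  have h7 : pco (1 / β) (n+1) ≤ ∑ j ∈ Finset.range (n+1), pco (1 / β) (j+1) *
      rco (pco (1 / β)) 2 (n - j) := by
    rw [Finset.sum_range_succ, Nat.sub_self, rco_zero, mul_one]
    have : 0 ≤ ∑ j ∈ Finset.range n, pco (1 / β) (j+1) * rco (pco (1 / β)) 2 (n - j) :=
      Finset.sum_nonneg (fun j _ => mul_nonneg (pco_lower hβ _).1.le (hpos _).le)
    linarith
  rw [← h5] at h7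
  have h8 := (pco_lower hβ n).2
  have h9 : 2 / ((1 / β) * (n + 1) + 1) ≤ 2 * ((n:ℝ)+1) * kco β (n+1) := h8.trans h7
  rw [div_le_iff₀ h6] at h9
  rw [div_le_iff₀ (by positivity)]
  nlinarith

end Pool.Agent.TH242.AC
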