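import Mathlib
import Pool.Agent.TH242.AC.Angle2
import Pool.Agent.TH242.AC.KP

open Complex Metric Set Filter Topology MeasureTheory

namespace Pool.Agent.TH242.AC

/-- outer normal at the boundary point with parameter `φ` -/
noncomputable def mm (β φ : ℝ) : ℂ := (ee β φ : ℂ) + (ff β φ : ℂ) * I

lemma mm_ne {β : ℝ} (hβ : 1 < β) {φ : ℝ} (h : φ ∈ Ioo (-Real.pi) Real.pi) : mm β φ ≠ 0 := by
  intro h0
  have h1 := nusq_pos hβ h
  have hr := congrArg Complex.re h0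
  have hi := congrArg Complex.im h0
  simp [mm] at hr hi
  rw [hr, hi] at h1
  simp at h1

/-- boundary value of the pairing with the normal -/
lemma mm_bdry (β φ ψ : ℝ) : starRingEnd ℂ (mm β ψ) * (Rf β (bp φ) - Rf β (bp ψ)) =
    ((-(dt β ψ φ) : ℝ) : ℂ) + ((VI β φ ψ : ℝ) : ℂ) * I := by
  rw [Rf_bp, Rf_bp, mm, dt, VI]
  apply Complex.ext
  · simp; ring
  · simp; ring

/-- the image lies in the supporting half plane -/
theorem support {β : ℝ} (hβ : 1 < β) {ψ : ℝ} (h : ψ ∈ Ioo (-Real.pi) Real.pi) {z : ℂ}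
    (hz : ‖z‖ ≤ 1) : (starRingEnd ℂ (mm β ψ) * (Rf β z - Rf β (bp ψ))).re ≤ 0 := by
  have hd : DiffContOnCl ℂ (fun z => starRingEnd ℂ (mm β ψ) * (Rf β z - Rf β (bp ψ)))
      (ball 0 1) := ((Rf_diffContOnCl hβ).sub_const _).const_smul (starRingEnd ℂ (mm β ψ))
  refine re_le_of_circle hd ?_ hz
  intro x hx
  rcases eq_or_ne x 1 with rfl | hx1
  · rw [Rf_one, Rf_bp, mm]
    have := ea_fb β ψ
    have ha := aa_pos hβ h
    simp
    nlinarith
  · obtain ⟨φ, hφ, rfl⟩ := exists_bp hx hx1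
    rw [mm_bdry]
    rcases eq_or_ne φ ψ with rfl | hne
    · simp [dt]
    · have := dt_pos hβ hφ h hne
      simp
      linarith

/-- argument of `κ P` on the circle -/
noncomputable def Th (β φ : ℝ) : ℝ := -((1 - 1 / (2 * β)) * Real.arctan (TT β φ)) - φ / 2

/-- argument of `κ` on the circle -/
noncomputable def Ph (β φ : ℝ) : ℝ := 1 / (2 * β) * Real.arctan (TT β φ) - φ / 2

lemma Th_neg (β φ : ℝ) : Th β (-φ) = - Th β φ := by
  rw [Th, Th, TT_neg, Real.arctan_neg]; ring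

lemma Ph_neg (β φ : ℝ) : Ph β (-φ) = - Ph β φ := by
  rw [Ph, Ph, TT_neg, Real.arctan_neg]; ring

lemma Th_sub (β φ ψ : ℝ) : Th β φ - Th β ψ = - GG β φ ψ := by
  rw [Th, Th, GG]; ring

lemma TT_continuousOn {β : ℝ} (hβ : 1 < β) : ContinuousOn (TT β) (Ioo (-Real.pi) Real.pi) :=
  fun _ h => (TT_hasDerivAt hβ h).continuousAt.continuousWithinAt

lemma Th_continuousOn {β : ℝ} (hβ : 1 < β) : ContinuousOn (Th β) (Ioo (-Real.pi) Real.pi) := by
  have h := TT_continuousOn hβ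
  have h2 : ContinuousOn (fun φ => Real.arctan (TT β φ)) (Ioo (-Real.pi) Real.pi) :=
    Real.continuous_arctan.comp_continuousOn h
  unfold Th
  fun_prop

lemma Th_tendsto {β : ℝ} (hβ : 1 < β) :
    Tendsto (Th β) (𝓝[<] Real.pi) (𝓝 (-((1 - 1 / (4 * β)) * Real.pi))) := by
  have h1 := ((arctan_TT_tendsto hβ).const_mul (1 - 1 / (2 * β))).neg
  have h2 : Tendsto (fun φ : ℝ => φ / 2) (𝓝[<] Real.pi) (𝓝 (Real.pi / 2)) := by
    have : Continuous (fun φ : ℝ => φ / 2) := by fun_prop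
    exact (this.tendsto Real.pi).mono_left nhdsWithin_le_nhds
  have h3 := h1.sub h2
  have e : -((1 - 1 / (4 * β)) * Real.pi) = -((1 - 1 / (2 * β)) * (Real.pi / 2)) - Real.pi / 2 := by
    have : β ≠ 0 := by linarith
    field_simp
    ring
  rw [e]
  exact h3

lemma exists_Th {β : ℝ} (hβ : 1 < β) {θ : ℝ} (h : |θ| < (1 - 1 / (4 * β)) * Real.pi) :
    ∃ φ ∈ Ioo (-Real.pi) Real.pi, Th β φ = θ := by
  have h1 : ∀ᶠ φ in 𝓝[<] Real.pi, Th β φ < -|θ| :=
    (Th_tendsto hβ).eventually (gt_mem_nhds (by linarith))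
  have h2 : ∀ᶠ φ : ℝ in 𝓝[<] Real.pi, 0 < φ :=
    (lt_mem_nhds Real.pi_pos : ∀ᶠ φ : ℝ in 𝓝 Real.pi, 0 < φ).filter_mono nhdsWithin_le_nhds
  obtain ⟨φ, hφ1, hφ0, hφ2⟩ := (h1.and (h2.and self_mem_nhdsWithin)).exists
  have hφ2' : φ < Real.pi := hφ2
  have hsub : Icc (-φ) φ ⊆ Ioo (-Real.pi) Real.pi := fun x hx =>
    ⟨by linarith [hx.1], by linarith [hx.2]⟩
  have hmem : θ ∈ Icc (Th β φ) (Th β (-φ)) := by
    rw [Th_neg]
    constructor
    · linarith [neg_abs_le θ]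
    · linarith [le_abs_self θ]
  obtain ⟨x, hx, hx2⟩ := intermediate_value_Icc' (by linarith : -φ ≤ φ)
    ((Th_continuousOn hβ).mono hsub) hmem
  exact ⟨x, hsub hx, hx2⟩

lemma XX_lt_one_of {β : ℝ} (hX : ∀ φ ∈ Ico 0 Real.pi, XX β φ < 1) :
    ∀ φ ∈ Ioo (-Real.pi) Real.pi, XX β φ < 1 := by
  intro φ hφ
  rcases le_or_gt 0 φ with h | h
  · exact hX φ ⟨h, hφ.2⟩
  · rw [← XX_neg]
    exact hX (-φ) ⟨by linarith, by linarith [hφ.1]⟩

lemma Ph_lower {β : ℝ} (hβ : 1 < β) (hX : ∀ φ ∈ Ico 0 Real.pi, XX β φ < 1) {φ : ℝ}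
    (h : φ ∈ Ioo (-Real.pi) Real.pi) : -((1 - 1 / (2 * β)) * (Real.pi / 2)) < Ph β φ := by
  have hX' := XX_lt_one_of hX
  have hβ0 : 0 < β := by linarith
  have hder : ∀ u ∈ Ioo (-Real.pi) Real.pi, HasDerivAt (Ph β) ((XX β u - 1) / 2) u := by
    intro u hu
    have h1 := (((TT_hasDerivAt hβ hu).arctan).const_mul (1 / (2 * β))).sub
      ((hasDerivAt_id u).div_const 2)
    refine h1.congr_deriv ?_
    have ha := aa_pos hβ hu
    have h3 : 0 < aa β u ^ 2 + bb β u ^ 2 := by positivity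
    rw [XX, FF, TT]
    field_simp
  have hmono : ∀ u v : ℝ, u ∈ Ioo (-Real.pi) Real.pi → v ∈ Ioo (-Real.pi) Real.pi → u < v →
      Ph β v < Ph β u := by
    intro u v hu hv huv
    have hsub : ∀ w ∈ Icc u v, w ∈ Ioo (-Real.pi) Real.pi := fun w hw =>
      ⟨by linarith [hu.1, hw.1], by linarith [hv.2, hw.2]⟩
    have := strictMono_of_deriv (f := fun w => -(Ph β w)) (f' := fun w => -((XX β w - 1) / 2)) huv
      (fun w hw => (hder w (hsub w hw)).neg) (fun w hw => by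
        have := hX' w (hsub w (Ioo_subset_Icc_self hw))
        linarith)
    linarith
  have hlim : Tendsto (Ph β) (𝓝[<] Real.pi) (𝓝 (-((1 - 1 / (2 * β)) * (Real.pi / 2)))) := by
    have h1 := ((arctan_TT_tendsto hβ).const_mul (1 / (2 * β)))
    have h2 : Tendsto (fun φ : ℝ => φ / 2) (𝓝[<] Real.pi) (𝓝 (Real.pi / 2)) := by
      have : Continuous (fun φ : ℝ => φ / 2) := by fun_prop
      exact (this.tendsto Real.pi).mono_left nhdsWithin_le_nhds
    have h3 := h1.sub h2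
    have e : -((1 - 1 / (2 * β)) * (Real.pi / 2)) = (1 / (2 * β)) * (Real.pi / 2) - Real.pi / 2 := by
      ring
    rw [e]
    exact h3
  set m := (φ + Real.pi) / 2 with hm
  have hm1 : φ < m := by rw [hm]; linarith [h.2]
  have hm2 : m < Real.pi := by rw [hm]; linarith [h.2]
  have hmm : m ∈ Ioo (-Real.pi) Real.pi := ⟨by linarith [h.1], hm2⟩
  have h4 : -((1 - 1 / (2 * β)) * (Real.pi / 2)) ≤ Ph β m := by
    refine le_of_tendsto hlim ?_
    have : ∀ᶠ v in 𝓝[<] Real.pi, m < v :=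
      (lt_mem_nhds hm2 : ∀ᶠ v in 𝓝 Real.pi, m < v).filter_mono nhdsWithin_le_nhds
    filter_upwards [this, self_mem_nhdsWithin] with v hv1 hv2
    exact (hmono m v hmm ⟨by linarith [hmm.1], hv2⟩ hv1).le
  have h5 := hmono φ m h hmm hm1
  linarith

lemma Ph_abs {β : ℝ} (hβ : 1 < β) (hX : ∀ φ ∈ Ico 0 Real.pi, XX β φ < 1) {φ : ℝ}
    (h : φ ∈ Ioo (-Real.pi) Real.pi) : |Ph β φ| < (1 - 1 / (2 * β)) * (Real.pi / 2) := by
  rw [abs_lt]
  refine ⟨Ph_lower hβ hX h, ?_⟩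
  have := Ph_lower hβ hX (φ := -φ) ⟨by linarith [h.2], by linarith [h.1]⟩
  rw [Ph_neg] at this
  linarith

end Pool.Agent.TH242.AC
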