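import Mathlib
import Pool.Agent.TH242.AC.Limit
import Pool.Agent.TH242.AC.Supp
import Pool.Agent.TH242.AC.Seq
import Pool.Agent.TH242.AC.Touch

open Complex Metric Set Filter Topology MeasureTheory

namespace Pool.Agent.TH242.AC

lemma ker_kap {β : ℝ} (hβ : 1 < β) : Ker (kap β) := by
  obtain ⟨C, hC0, hC⟩ := kap_bound hβ
  exact ⟨kap_continuousOn hβ, C, hC0.le, fun z hz hz1 => (hC z hz hz1).1⟩

lemma ker_kapP {β : ℝ} (hβ : 1 < β) : Ker (fun z => kap β z * Pf β z) := by
  obtain ⟨C, hC0, hC⟩ := kap_bound hβ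
  exact ⟨(kap_continuousOn hβ).mul (Pf_continuousOn hβ), C, hC0.le,
    fun z hz hz1 => (hC z hz hz1).2⟩

/-- the two boundary integrals cannot be compatible with a value in the image of `R` -/
theorem no_touch {β : ℝ} (hβ : 1 < β) (hM : MR β) (hX : ∀ φ ∈ Ico 0 Real.pi, XX β φ < 1)
    {u : ℝ → ℝ} (hu : Wt u) {w : ℂ} (hw : ‖w‖ < 1)
    (hE : ∫ φ in (-Real.pi)..Real.pi, kap β (bp φ) * ((u φ : ℝ) : ℂ) =
      Rf β w * ∫ φ in (-Real.pi)..Real.pi, (kap β (bp φ) * Pf β (bp φ)) * ((u φ : ℝ) : ℂ)) :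
    False := by
  have hpi := Real.pi_pos
  have hi1 := (ker_kap hβ).int hu
  have hi2 := (ker_kapP hβ).int hu
  set E1 := ∫ φ in (-Real.pi)..Real.pi, kap β (bp φ) * ((u φ : ℝ) : ℂ) with hE1
  set E2 := ∫ φ in (-Real.pi)..Real.pi, (kap β (bp φ) * Pf β (bp φ)) * ((u φ : ℝ) : ℂ) with hE2
  have hs1 : 0 < 1 / (2 * β) := by positivity
  have hs2 : 1 / (2 * β) < 1 := by
    rw [div_lt_one (by linarith)]; linarith
  -- E1 has positive real part after small rotations
  have hrot : ∀ δ : ℝ, |δ| ≤ 1 / (2 * β) * (Real.pi / 2) → 0 < (exp ((δ : ℂ) * I) * E1).re := by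
    intro δ hδ
    have h1 : exp ((δ : ℂ) * I) * E1 = ∫ φ in (-Real.pi)..Real.pi,
        (exp ((δ : ℂ) * I) * kap β (bp φ)) * ((u φ : ℝ) : ℂ) := by
      rw [hE1, ← intervalIntegral.integral_const_mul]
      apply intervalIntegral.integral_congr
      intro φ _
      simp only
      ring
    rw [h1]
    apply wpos hu _ 0
    · intro φ hφ _
      obtain ⟨ρ, hρ, hk⟩ := kap_bp hβ hφ
      have h2 : exp ((δ : ℂ) * I) * kap β (bp φ) = (ρ : ℂ) * exp (((δ + Ph β φ : ℝ) : ℂ) * I) := by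
        rw [hk, ← Ph]
        have : exp (((δ + Ph β φ : ℝ) : ℂ) * I) = exp ((δ : ℂ) * I) * exp (((Ph β φ : ℝ) : ℂ) * I) := by
          rw [← Complex.exp_add]; congr 1; push_cast; ring
        rw [this]; ring
      rw [h2, Complex.re_ofReal_mul, Complex.exp_ofReal_mul_I_re]
      apply mul_pos hρ
      have h3 := Ph_abs hβ hX hφ
      rw [abs_lt] at h3
      rw [abs_le] at hδ
      apply Real.cos_pos_of_mem_Ioo
      constructor
      · nlinarith [h3.1, hδ.1]
      · nlinarith [h3.2, hδ.2]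
    · have := hi1.const_mul (exp ((δ : ℂ) * I))
      refine this.congr ?_
      intro φ _
      simp only
      ring
  have hE1ne : E1 ≠ 0 := by
    intro h
    have := hrot 0 (by simp; positivity)
    rw [h] at this
    simp at this
  have hE2ne : E2 ≠ 0 := by
    intro h
    rw [h, mul_zero] at hE
    exact hE1ne hE
  have hE2eq : E2 = (‖E2‖ : ℂ) * exp ((arg E2 : ℂ) * I) := (Complex.norm_mul_exp_arg_mul_I _).symm
  have hE2n : 0 < ‖E2‖ := norm_pos_iff.mpr hE2ne
  by_cases hcase : |arg E2| < (1 - 1 / (4 * β)) * Real.pi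
  · -- case 1
    obtain ⟨ψ, hψ, hTh⟩ := exists_Th hβ hcase
    have hI : (Rf β w - Rf β (bp ψ)) * E2 = ∫ φ in (-Real.pi)..Real.pi,
        (kap β (bp φ) * Pf β (bp φ) * (Rf β (bp φ) - Rf β (bp ψ))) * ((u φ : ℝ) : ℂ) := by
      rw [sub_mul, ← hE, hE1, hE2, ← intervalIntegral.integral_const_mul,
        ← intervalIntegral.integral_sub hi1 (hi2.const_mul _)]
      apply intervalIntegral.integral_congr_ae
      have hae : ∀ᵐ φ ∂(volume : Measure ℝ), φ ≠ Real.pi := by
        simp [ae_iff]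
      filter_upwards [hae] with φ h1 h2
      rw [uIoc_of_le (by linarith)] at h2
      have h3 : φ ∈ Ioo (-Real.pi) Real.pi := ⟨h2.1, lt_of_le_of_ne h2.2 h1⟩
      have hR : Rf β (bp φ) ≠ 0 := Rf_ne hβ (norm_bp φ).le (bp_ne_one h3)
      rw [Pf]
      field_simp
    have hpos : 0 < ((exp (-((Th β ψ : ℂ) * I)) * starRingEnd ℂ (mm β ψ)) *
        ((Rf β w - Rf β (bp ψ)) * E2)).re := by
      rw [hI, ← intervalIntegral.integral_const_mul]
      have h1 : ∀ φ : ℝ, exp (-((Th β ψ : ℂ) * I)) * starRingEnd ℂ (mm β ψ) *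
          ((kap β (bp φ) * Pf β (bp φ) * (Rf β (bp φ) - Rf β (bp ψ))) * ((u φ : ℝ) : ℂ)) =
          (exp (-((Th β ψ : ℂ) * I)) * starRingEnd ℂ (mm β ψ) *
          (kap β (bp φ) * Pf β (bp φ) * (Rf β (bp φ) - Rf β (bp ψ)))) * ((u φ : ℝ) : ℂ) := by
        intro φ; ring
      simp_rw [h1]
      apply wpos hu _ ψ
      · intro φ hφ hne
        obtain ⟨ρ, hρ, hk⟩ := kapP_bp hβ hφ
        have h2 : exp (-((Th β ψ : ℂ) * I)) * starRingEnd ℂ (mm β ψ) *
          (kap β (bp φ) * Pf β (bp φ) * (Rf β (bp φ) - Rf β (bp ψ))) =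
          (ρ : ℂ) * (exp (((-GG β φ ψ : ℝ) : ℂ) * I) *
            (starRingEnd ℂ (mm β ψ) * (Rf β (bp φ) - Rf β (bp ψ)))) := by
          rw [hk, ← Th]
          have : exp (((-GG β φ ψ : ℝ) : ℂ) * I) =
              exp (-((Th β ψ : ℂ) * I)) * exp (((Th β φ : ℝ) : ℂ) * I) := by
            rw [← Complex.exp_add, ← Th_sub]; congr 1; push_cast; ring
          rw [this]; ring
        rw [h2, Complex.re_ofReal_mul, mm_bdry]
        apply mul_pos hρ
        have h3 := key_pos hβ hM hψ hφ hne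
        rw [mul_re, Complex.exp_ofReal_mul_I_re, Complex.exp_ofReal_mul_I_im, Real.cos_neg,
          Real.sin_neg]
        simp only [add_re, add_im, mul_re, mul_im, ofReal_re, ofReal_im, I_re, I_im]
        linarith
      · have h2 : IntervalIntegrable (fun φ => (Rf β (bp φ) - Rf β (bp ψ)) *
            ((kap β (bp φ) * Pf β (bp φ)) * ((u φ : ℝ) : ℂ))) volume (-Real.pi) Real.pi := by
          apply hi2.continuousOn_mul
          exact ((Rb_continuous hβ).sub continuous_const).continuousOn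
        refine (h2.const_mul (exp (-((Th β ψ : ℂ) * I)) * starRingEnd ℂ (mm β ψ))).congr ?_
        intro φ _
        simp only
        ring
    have h4 : (exp (-((Th β ψ : ℂ) * I)) * starRingEnd ℂ (mm β ψ)) *
        ((Rf β w - Rf β (bp ψ)) * E2) = ((‖E2‖ : ℝ) : ℂ) *
        (starRingEnd ℂ (mm β ψ) * (Rf β w - Rf β (bp ψ))) := by
      have h5 : exp (-((Th β ψ : ℂ) * I)) * exp ((arg E2 : ℂ) * I) = 1 := by
        rw [← Complex.exp_add, hTh]
        rw [neg_add_cancel, Complex.exp_zero]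
      calc (exp (-((Th β ψ : ℂ) * I)) * starRingEnd ℂ (mm β ψ)) *
        ((Rf β w - Rf β (bp ψ)) * E2) = (exp (-((Th β ψ : ℂ) * I)) * starRingEnd ℂ (mm β ψ)) *
        ((Rf β w - Rf β (bp ψ)) * ((‖E2‖ : ℂ) * exp ((arg E2 : ℂ) * I))) := by rw [← hE2eq]
        _ = ((‖E2‖ : ℝ) : ℂ) * (exp (-((Th β ψ : ℂ) * I)) * exp ((arg E2 : ℂ) * I)) *
          (starRingEnd ℂ (mm β ψ) * (Rf β w - Rf β (bp ψ))) := by ring
        _ = _ := by rw [h5, mul_one]
    rw [h4, Complex.re_ofReal_mul] at hpos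
    have h5 := support hβ hψ hw.le
    have h6 := mul_nonpos_of_nonneg_of_nonpos hE2n.le h5
    linarith
  · -- case 2
    push Not at hcase
    have hRw := Rf_re_pos hβ w (by simpa using hw)
    have key : ∃ δ : ℝ, |δ| ≤ 1 / (2 * β) * (Real.pi / 2) ∧
        exp ((arg E2 : ℂ) * I) = - exp (-((δ : ℂ) * I)) := by
      have e1 : (1 - 1 / (4 * β)) * Real.pi = Real.pi - 1 / (2 * β) * (Real.pi / 2) := by
        field_simp
        ring
      rw [e1] at hcase
      rcases le_or_gt 0 (arg E2) with h0 | h0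
      · refine ⟨Real.pi - arg E2, ?_, ?_⟩
        · rw [abs_of_nonneg h0] at hcase
          rw [abs_of_nonneg (by linarith [arg_le_pi E2])]
          linarith
        · have : (arg E2 : ℂ) * I = (Real.pi : ℂ) * I + -(((Real.pi - arg E2 : ℝ) : ℂ) * I) := by
            push_cast; ring
          rw [this, Complex.exp_add, Complex.exp_pi_mul_I]
          ring_nf
      · refine ⟨-Real.pi - arg E2, ?_, ?_⟩
        · rw [abs_of_neg h0] at hcase
          rw [abs_of_nonpos (by linarith [neg_pi_lt_arg E2])]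
          linarith
        · have : (arg E2 : ℂ) * I = -((Real.pi : ℂ) * I) +
              -(((-Real.pi - arg E2 : ℝ) : ℂ) * I) := by
            push_cast; ring
          rw [this, Complex.exp_add, Complex.exp_neg ((Real.pi : ℂ) * I), Complex.exp_pi_mul_I]
          norm_num
    obtain ⟨δ, hδ, hδ2⟩ := key
    have h1 := hrot δ hδ
    have h2 : exp ((δ : ℂ) * I) * E1 = ((-‖E2‖ : ℝ) : ℂ) * Rf β w := by
      rw [hE]
      calc exp ((δ : ℂ) * I) * (Rf β w * E2) = exp ((δ : ℂ) * I) * (Rf β w * ((‖E2‖ : ℂ) *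
          exp ((arg E2 : ℂ) * I))) := by rw [← hE2eq]
        _ = -((‖E2‖ : ℂ) * Rf β w) * (exp ((δ : ℂ) * I) * exp (-((δ : ℂ) * I))) := by
          rw [hδ2]; ring
        _ = ((-‖E2‖ : ℝ) : ℂ) * Rf β w := by
          rw [← Complex.exp_add, add_neg_cancel, Complex.exp_zero]
          push_cast
          ring
    rw [h2, Complex.re_ofReal_mul] at h1
    nlinarith

end Pool.Agent.TH242.AC
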