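import Mathlib
import Pool.Agent.TH242.AC.Dom

open Complex Metric Set Filter Topology MeasureTheory

namespace Pool.Agent.TH242.AC

lemma normSq_one_sub {x : ℂ} (hx : ‖x‖ = 1) : ‖1 - x‖ ^ 2 = 2 * (1 - x.re) := by
  have h : normSq x = 1 := by rw [Complex.normSq_eq_norm_sq, hx]; norm_num
  rw [← Complex.normSq_eq_norm_sq, Complex.normSq_apply]
  rw [Complex.normSq_apply] at h
  simp only [sub_re, sub_im, one_re, one_im]
  linarith

lemma wt_of_touch {g : ℂ → ℂ} {b : ℕ → ℂ} (hg : HasPS g b) (hb0 : b 0 = 1) {z₁ : ℂ}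
    (hz₁ : ‖z₁‖ < 1) (hre0 : (g z₁).re = 0) (hle : ∀ w : ℂ, ‖w‖ ≤ ‖z₁‖ → 0 ≤ (g w).re)
    (him : (z₁ * deriv g z₁).im = 0) : Wt (fun φ => (g (z₁ * bp (-φ))).re) := by
  have hpi := Real.pi_pos
  have hz₁b : z₁ ∈ ball (0:ℂ) 1 := by simpa using hz₁
  have hn : ∀ φ, ‖z₁ * bp (-φ)‖ = ‖z₁‖ := by
    intro φ; rw [norm_mul, norm_bp, mul_one]
  have hgc : Continuous (fun φ : ℝ => (g (z₁ * bp (-φ))).re) := by
    apply continuous_re.comp
    have h1 : ContinuousOn g (ball 0 1) := hg.diffOn.continuousOn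
    apply h1.comp_continuous (continuous_const.mul bp_neg_continuous)
    intro φ
    have : ‖z₁ * bp (-φ)‖ < 1 := by rw [hn]; exact hz₁
    simpa using this
  refine ⟨hgc, fun φ => hle _ (hn φ).le, ?_, ?_⟩
  · -- quadratic bound
    set h := dslope (dslope g z₁) z₁ with hh
    have hd1 : DifferentiableOn ℂ (dslope g z₁) (ball 0 1) :=
      (Complex.differentiableOn_dslope (isOpen_ball.mem_nhds hz₁b)).mpr hg.diffOn
    have hd2 : DifferentiableOn ℂ h (ball 0 1) :=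
      (Complex.differentiableOn_dslope (isOpen_ball.mem_nhds hz₁b)).mpr hd1
    have hsub : closedBall (0:ℂ) ‖z₁‖ ⊆ ball 0 1 := closedBall_subset_ball hz₁
    obtain ⟨y, hy, hmax⟩ := (isCompact_closedBall (0:ℂ) ‖z₁‖).exists_isMaxOn
      ⟨0, by simp⟩ ((hd2.continuousOn.mono hsub).norm)
    set B := ‖h y‖ with hB
    have hBle : ∀ w : ℂ, ‖w‖ ≤ ‖z₁‖ → ‖h w‖ ≤ B := by
      intro w hw
      exact hmax (by simpa using hw : w ∈ closedBall (0:ℂ) ‖z₁‖)
    set m := (z₁ * deriv g z₁).re with hm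
    have hmeq : z₁ * deriv g z₁ = (m : ℂ) := by
      apply Complex.ext
      · simp [hm]
      · rw [him]; simp
    refine ⟨|m| / 2 + B, by positivity, ?_⟩
    intro φ
    set x := bp (-φ) with hx
    have hxn : ‖x‖ = 1 := norm_bp _
    have hw := hn φ
    have e1 : g (z₁ * x) = g z₁ + (x - 1) * (z₁ * deriv g z₁) +
        (z₁ * (x - 1)) ^ 2 * h (z₁ * x) := by
      have e2 := sub_smul_dslope g z₁ (z₁ * x)
      have e3 := sub_smul_dslope (dslope g z₁) z₁ (z₁ * x)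
      rw [dslope_same, smul_eq_mul] at e3
      rw [smul_eq_mul] at e2
      rw [← hh] at e3
      linear_combination (-1 : ℂ) * e2 - (z₁ * x - z₁) * e3
    have e4 : ‖1 - bp φ‖ ^ 2 = 2 * (1 - x.re) := by
      rw [normSq_one_sub (norm_bp φ), hx, bp_neg, conj_re]
    have e5 : ‖x - 1‖ ^ 2 = ‖1 - bp φ‖ ^ 2 := by
      rw [e4, norm_sub_rev, normSq_one_sub hxn]
    have hre1 : x.re ≤ 1 := by
      have := Complex.abs_re_le_norm x
      rw [hxn] at this
      exact (abs_le.mp this).2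
    show (g (z₁ * x)).re ≤ _
    rw [e1, hmeq, add_re, add_re, hre0, zero_add, mul_comm (x - 1) (m : ℂ), Complex.re_ofReal_mul,
      sub_re, one_re]
    have h6 : m * (x.re - 1) ≤ |m| / 2 * ‖1 - bp φ‖ ^ 2 := by
      rw [e4]
      have : -|m| ≤ m := neg_abs_le m
      nlinarith
    have h7 : ((z₁ * (x - 1)) ^ 2 * h (z₁ * x)).re ≤ B * ‖1 - bp φ‖ ^ 2 := by
      refine (Complex.re_le_norm _).trans ?_
      rw [norm_mul, norm_pow, norm_mul, mul_pow, e5]
      have h8 : ‖z₁‖ ^ 2 ≤ 1 := by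
        have := norm_nonneg z₁
        nlinarith
      calc ‖z₁‖ ^ 2 * ‖1 - bp φ‖ ^ 2 * ‖h (z₁ * x)‖ ≤ 1 * ‖1 - bp φ‖ ^ 2 * B := by
            gcongr
            exact hBle _ hw.le
        _ = B * ‖1 - bp φ‖ ^ 2 := by ring
    linarith
  · -- not identically zero
    by_contra hcon
    push Not at hcon
    have h1 := pairing_fun (hasPS_pow 0) hg (ζ := 0) (w := z₁) (by simp) hz₁
    have h2 : HasSum (fun n => (Real.pi : ℂ) * ((if n = 0 then (1:ℂ) else 0) * 0 ^ n * (b n * z₁ ^ n) +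
        if n = 0 then (if (0:ℕ) = 0 then 1 else 0) * starRingEnd ℂ (b 0) else 0))
        (2 * (Real.pi : ℂ)) := by
      have := hasSum_single (f := fun n => (Real.pi : ℂ) * ((if n = 0 then (1:ℂ) else 0) * 0 ^ n *
        (b n * z₁ ^ n) + if n = 0 then (if (0:ℕ) = 0 then 1 else 0) * starRingEnd ℂ (b 0) else 0)) 0
        (by intro n hn; simp [hn])
      have e : 2 * (Real.pi : ℂ) = (Real.pi : ℂ) * ((if 0 = 0 then (1:ℂ) else 0) * 0 ^ 0 *
        (b 0 * z₁ ^ 0) + if (0:ℕ) = 0 then (if (0:ℕ) = 0 then 1 else 0) * starRingEnd ℂ (b 0)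
          else 0) := by
        rw [hb0]; simp; ring
      rw [e]
      exact this
    have h3 := h1.unique h2
    have h4 : ∫ φ in (-Real.pi)..Real.pi, (fun z : ℂ => z ^ 0) (0 * bp φ) *
        (((g (z₁ * bp (-φ))).re : ℝ) : ℂ) = 0 := by
      have hae : ∀ᵐ φ ∂(volume : Measure ℝ), φ ≠ Real.pi := by
        simp [ae_iff]
      have h5 : ∫ φ in (-Real.pi)..Real.pi, (fun z : ℂ => z ^ 0) (0 * bp φ) *
        (((g (z₁ * bp (-φ))).re : ℝ) : ℂ) = ∫ φ in (-Real.pi)..Real.pi, (0:ℂ) := by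
        apply intervalIntegral.integral_congr_ae
        filter_upwards [hae] with φ h6 h7
        rw [uIoc_of_le (by linarith)] at h7
        have h8 := hcon φ ⟨h7.1, lt_of_le_of_ne h7.2 h6⟩
        have h9 := hle _ (hn φ).le
        have h10 : (g (z₁ * bp (-φ))).re = 0 := le_antisymm h8 h9
        rw [h10]; simp
      rw [h5]; simp
    rw [h4] at h3
    have h5 : (2 * (Real.pi : ℂ)) ≠ 0 := by
      have : (2 * Real.pi) ≠ 0 := by positivity
      exact_mod_cast this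
    exact h5 h3.symm

lemma radial_tendsto {F : ℂ → ℂ} (hF : DifferentiableOn ℂ F (ball 0 1)) {z : ℂ} (hz : ‖z‖ < 1) :
    Tendsto (fun σ : ℝ => F ((σ : ℂ) * z)) (𝓝[<] 1) (𝓝 (F z)) := by
  have h1 : ContinuousAt F z :=
    (hF.differentiableAt (isOpen_ball.mem_nhds (by simpa using hz))).continuousAt
  have h2 : Tendsto (fun s : ℝ => (s : ℂ) * z) (𝓝[<] 1) (𝓝 z) := by
    have h2 : Continuous (fun s : ℝ => (s : ℂ) * z) := by fun_prop
    have h3 := h2.tendsto 1
    simp only [ofReal_one, one_mul] at h3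
    exact h3.mono_left nhdsWithin_le_nhds
  exact h1.tendsto.comp h2

/-- boundary representation of `F` with coefficients `k n * (b n) / 2` -/
lemma boundary_rep {K F g : ℂ → ℂ} {k c b : ℕ → ℂ} (hK : HasPS K k) (hF : HasPS F c)
    (hg : HasPS g b) (hb0 : b 0 = 1) (hrel : ∀ n, k n * b n = if n = 0 then c 0 else 2 * c n)
    {z₁ : ℂ} (hz₁ : ‖z₁‖ < 1) (hKer : Ker K) (hu : Wt (fun φ => (g (z₁ * bp (-φ))).re)) :
    ∫ φ in (-Real.pi)..Real.pi, K (bp φ) * (((g (z₁ * bp (-φ))).re : ℝ) : ℂ) =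
      2 * Real.pi * F z₁ := by
  have h1 := hKer.lim hu
  have h2 : Tendsto (fun σ : ℝ => 2 * (Real.pi : ℂ) * F ((σ : ℂ) * z₁)) (𝓝[<] 1)
      (𝓝 (2 * Real.pi * F z₁)) := (radial_tendsto hF.diffOn hz₁).const_mul _
  have hev0 : ∀ᶠ σ : ℝ in 𝓝[<] 1, 0 < σ := by
    have : ∀ᶠ s : ℝ in 𝓝 1, (0:ℝ) < s := lt_mem_nhds (by norm_num)
    exact this.filter_mono nhdsWithin_le_nhds
  refine tendsto_nhds_unique h1 (h2.congr' ?_)
  filter_upwards [hev0, self_mem_nhdsWithin] with σ h0 h1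
  have h1' : σ < 1 := h1
  have hσ : ‖(σ : ℂ)‖ < 1 := by
    rw [Complex.norm_real, Real.norm_eq_abs, abs_of_pos h0]; exact h1'
  have h3 := pairing_fun hK hg hσ hz₁
  have hσz : ‖(σ : ℂ) * z₁‖ < 1 := by
    rw [norm_mul]
    have := norm_nonneg z₁
    nlinarith [norm_nonneg (σ : ℂ)]
  have h4 := (hF _ hσz).mul_left (2 * (Real.pi : ℂ))
  refine h4.unique (h3.congr_fun (fun n => ?_))
  rcases Nat.eq_zero_or_pos n with rfl | hn
  · have h5 := hrel 0
    rw [hb0, mul_one] at h5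
    simp only [if_true] at h5
    simp only [pow_zero, mul_one, if_true, hb0, map_one]
    rw [h5]
    ring
  · have h5 := hrel n
    rw [if_neg hn.ne'] at h5
    simp only [hn.ne', if_false, add_zero]
    rw [mul_pow]
    linear_combination (-(Real.pi : ℂ) * (σ : ℂ) ^ n * z₁ ^ n) * h5

theorem coef_dom {β : ℝ} (hβ : 1 < β) (hM : MR β) (hX : ∀ φ ∈ Ico 0 Real.pi, XX β φ < 1)
    {χ r : ℂ → ℂ} {c : ℕ → ℂ} (hχ : HasPS χ c) (hc0 : c 0 = 1)
    (hrange : ∀ z : ℂ, ‖z‖ < 1 → ∃ w : ℂ, ‖w‖ < 1 ∧ r z = Rf β w)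
    (hode : ∀ z : ℂ, ‖z‖ < 1 → r z * (2 * (z * deriv χ z) + χ z) = χ z) (n : ℕ) :
    ‖c n‖ ≤ kco β n := by
  have hkpos : ∀ n, 0 < kco β n := fun n => (kco_lower hβ n).1
  -- the quotient sequence
  set b : ℕ → ℂ := fun n => if n = 0 then 1 else 2 * (c n / (kco β n : ℂ)) with hb
  have hb0 : b 0 = 1 := by simp [hb]
  have hsum : ∀ z : ℂ, ‖z‖ < 1 → Summable (fun n => b n * z ^ n) := by
    intro z hz
    obtain ⟨ρ, hρ1, hρ2⟩ := exists_between hz
    have hρ0 : 0 < ρ := (norm_nonneg z).trans_lt hρ1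
    have hρn : ‖(ρ : ℂ)‖ < 1 := by
      rw [Complex.norm_real, Real.norm_eq_abs, abs_of_pos hρ0]; exact hρ2
    have hs := hχ.summable_norm hρn
    obtain ⟨B, hB⟩ := hs.tendsto_atTop_zero.bddAbove_range
    have hB' : ∀ n, ‖c n‖ * ρ ^ n ≤ B := by
      intro n
      have := hB ⟨n, rfl⟩
      simp only [norm_mul, norm_pow, Complex.norm_real, Real.norm_eq_abs, abs_of_pos hρ0] at this
      exact this
    have hB0 : 0 ≤ B := le_trans (by positivity) (hB' 0)
    rw [← summable_nat_add_iff 1]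
    set q : ℝ := ‖z‖ / ρ with hq
    have hq0 : 0 ≤ q := by positivity
    have hq1 : q < 1 := by rw [hq, div_lt_one hρ0]; exact hρ1
    have hg2 : Summable (fun n : ℕ => (2 * B * q) * (((n:ℝ) + 1) * ((n:ℝ) + 2) * q ^ n)) := by
      apply Summable.mul_left
      have a2 := summable_pow_mul_geometric_of_norm_lt_one 2
        (r := q) (by rw [Real.norm_eq_abs, abs_of_nonneg hq0]; exact hq1)
      have a1 := summable_pow_mul_geometric_of_norm_lt_one 1
        (r := q) (by rw [Real.norm_eq_abs, abs_of_nonneg hq0]; exact hq1)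
      have a0 := summable_pow_mul_geometric_of_norm_lt_one 0
        (r := q) (by rw [Real.norm_eq_abs, abs_of_nonneg hq0]; exact hq1)
      have := (a2.add (a1.mul_left 3)).add (a0.mul_left 2)
      refine this.congr (fun n => ?_)
      simp only [pow_one, pow_zero]
      ring
    refine Summable.of_norm_bounded hg2 (fun n => ?_)
    have hk := (kco_lower hβ n).2
    have hα1 : 1 / β ≤ 1 := by rw [div_le_one (by linarith)]; exact hβ.le
    have hα0 : 0 < 1 / β := by positivity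
    have hk2 : 1 / (((n:ℝ) + 1) * ((n:ℝ) + 2)) ≤ kco β (n+1) := by
      refine le_trans ?_ hk
      apply one_div_le_one_div_of_le (by positivity)
      have h0 : (0:ℝ) ≤ (n:ℝ) + 1 := by positivity
      have h3 : 1 / β * ((n:ℝ) + 1) ≤ (n:ℝ) + 1 := mul_le_of_le_one_left h0 hα1
      exact mul_le_mul_of_nonneg_left (by linarith) h0
    have hinv : (kco β (n+1))⁻¹ ≤ ((n:ℝ) + 1) * ((n:ℝ) + 2) := by
      rw [inv_le_comm₀ (hkpos _) (by positivity)]
      rwa [one_div] at hk2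
    have hbn : b (n+1) = 2 * (c (n+1) / (kco β (n+1) : ℂ)) := by simp [hb]
    rw [hbn]
    simp only [norm_mul, norm_div, norm_pow, Complex.norm_real, Real.norm_eq_abs,
      abs_of_pos (hkpos (n+1)), Complex.norm_ofNat]
    have hz' : ‖z‖ = q * ρ := by rw [hq]; field_simp
    rw [hz', div_eq_mul_inv]
    calc 2 * (‖c (n+1)‖ * (kco β (n+1))⁻¹) * (q * ρ) ^ (n+1)
        = 2 * (‖c (n+1)‖ * ρ ^ (n+1)) * (kco β (n+1))⁻¹ * q ^ (n+1) := by rw [mul_pow]; ring
      _ ≤ 2 * B * (((n:ℝ) + 1) * ((n:ℝ) + 2)) * q ^ (n+1) := by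
          have h1 := hB' (n+1)
          have h2 : 0 ≤ (kco β (n+1))⁻¹ := (inv_pos.mpr (hkpos _)).le
          gcongr
      _ = 2 * B * q * (((n:ℝ) + 1) * ((n:ℝ) + 2) * q ^ n) := by rw [pow_succ]; ring
  set g : ℂ → ℂ := fun z => ∑' n, b n * z ^ n with hgdef
  have hg : HasPS g b := fun z hz => (hsum z hz).hasSum
  have hg0 : g 0 = 1 := by rw [hg.zero_val, hb0]
  have hk := hasPS_kap hβ
  have hkP : HasPS (fun z => kap β z * Pf β z) (fun n => (2 * (n : ℂ) + 1) * (kco β n : ℂ)) := by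
    have h1 := (hk.zderiv.const_mul 2).add hk
    have h2 : HasPS (fun z => kap β z * Pf β z)
        (fun n => 2 * ((n : ℂ) * (kco β n : ℂ)) + (kco β n : ℂ)) := by
      refine h1.congr (fun z hz => ?_)
      rw [kap_ode hβ hz]; ring
    have e : (fun n : ℕ => 2 * ((n : ℂ) * (kco β n : ℂ)) + (kco β n : ℂ)) =
        (fun n : ℕ => (2 * (n : ℂ) + 1) * (kco β n : ℂ)) := by
      funext n; ring
    rwa [e] at h2
  have hF2 : HasPS (fun z => 2 * (z * deriv χ z) + χ z) (fun n => (2 * (n : ℂ) + 1) * c n) := by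
    have h1 := (hχ.zderiv.const_mul 2).add hχ
    have e : (fun n : ℕ => 2 * ((n : ℂ) * c n) + c n) =
        (fun n : ℕ => (2 * (n : ℂ) + 1) * c n) := by
      funext n; ring
    rwa [e] at h1
  have hkne : ∀ n, (kco β n : ℂ) ≠ 0 := fun n => by exact_mod_cast (hkpos n).ne'
  have hrel1 : ∀ n, (kco β n : ℂ) * b n = if n = 0 then c 0 else 2 * c n := by
    intro n
    rcases Nat.eq_zero_or_pos n with rfl | hn
    · simp [hb, kco_zero, hc0]
    · have := hkne n
      simp only [hb, hn.ne', if_false]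
      field_simp
  have hrel2 : ∀ n : ℕ, ((2 * (n : ℂ) + 1) * (kco β n : ℂ)) * b n =
      if n = 0 then (2 * ((0:ℕ) : ℂ) + 1) * c 0 else 2 * ((2 * (n : ℂ) + 1) * c n) := by
    intro n
    rw [mul_assoc, hrel1]
    rcases Nat.eq_zero_or_pos n with rfl | hn
    · simp
    · simp only [hn.ne', if_false]; ring
  have hpos : ∀ z : ℂ, ‖z‖ < 1 → 0 ≤ (g z).re := by
    by_contra hcon
    push Not at hcon
    obtain ⟨z0, hz0, hz0'⟩ := hcon
    obtain ⟨z₁, hz₁, hz₁0, hre0, hle, _, him, _⟩ := first_touch hg.diffOn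
      (by rw [hg0]; simp) ⟨z0, by simpa using hz0, hz0'.le⟩
    have hz₁n : ‖z₁‖ < 1 := by simpa using hz₁
    have hu := wt_of_touch hg hb0 hz₁n hre0 hle him
    have hE1 := boundary_rep hk hχ hg hb0 hrel1 hz₁n (ker_kap hβ) hu
    have hE2 := boundary_rep hkP hF2 hg hb0 hrel2 hz₁n (ker_kapP hβ) hu
    obtain ⟨w, hw, hrw⟩ := hrange z₁ hz₁n
    refine no_touch hβ hM hX hu hw ?_
    rw [hE1, hE2, ← hrw]
    linear_combination (-2 * (Real.pi : ℂ)) * (hode z₁ hz₁n)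
  rcases Nat.eq_zero_or_pos n with rfl | hn
  · rw [hc0, kco_zero, norm_one]
  · have h1 := caratheodory hg hpos hn
    rw [hb0, one_re, mul_one] at h1
    simp only [hb, hn.ne', if_false] at h1
    rw [norm_mul, norm_div, Complex.norm_real, Real.norm_eq_abs, abs_of_pos (hkpos n),
      Complex.norm_ofNat] at h1
    have h2 : ‖c n‖ / kco β n ≤ 1 := by linarith
    rwa [div_le_one (hkpos n)] at h2

end Pool.Agent.TH242.AC
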