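import Mathlib

open Complex Metric Set Filter Topology

namespace Pool.Agent.TH242.AC

/-- Near a point `z ≠ 0` with `Re (z f'(z)/f(z)) > 0`, the value `(1-ε) f(z)` is attained at a
point of smaller modulus, arbitrarily close to `z`. -/
theorem shrink_preimage {f : ℂ → ℂ} {z : ℂ} (hf : DifferentiableOn ℂ f (ball 0 1))
    (hz : z ∈ ball (0 : ℂ) 1) (hz0 : z ≠ 0) (hfz : f z ≠ 0)
    (hs : 0 < (z * deriv f z / f z).re) :
    ∃ γ : ℝ → ℂ, Tendsto γ (𝓝[>] 0) (𝓝 z) ∧
      (∀ᶠ ε in 𝓝[>] (0 : ℝ), f (γ ε) = (1 - (ε : ℂ)) * f z) ∧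
      (∀ᶠ ε in 𝓝[>] (0 : ℝ), ‖γ ε‖ < ‖z‖) := by
  have hd0 : deriv f z ≠ 0 := by
    intro h
    simp [h] at hs
  have han : AnalyticAt ℂ f z := hf.analyticAt (isOpen_ball.mem_nhds hz)
  have hsd : HasStrictDerivAt f (deriv f z) z := han.hasStrictDerivAt
  set g := hsd.localInverse f (deriv f z) z hd0 with hgdef
  have hg1 : HasStrictDerivAt g (deriv f z)⁻¹ (f z) := hsd.to_localInverse hd0
  have hfg : ∀ᶠ y in 𝓝 (f z), f (g y) = y := (hsd.hasStrictFDerivAt_equiv hd0).eventually_right_inverse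
  have hgz : g (f z) = z := by
    exact (hsd.hasStrictFDerivAt_equiv hd0).localInverse_apply_image
  have hpath : HasDerivAt (fun ε : ℝ => (1 - (ε : ℂ)) * f z) (-(f z)) 0 := by
    have h1 : HasDerivAt (fun ε : ℝ => (ε : ℂ)) 1 0 :=
      Complex.ofRealCLM.hasDerivAt (x := (0:ℝ))
    have h2 := (h1.const_sub (1:ℂ)).mul_const (f z)
    simpa using h2
  have hpc : Tendsto (fun ε : ℝ => (1 - (ε : ℂ)) * f z) (𝓝 0) (𝓝 (f z)) := by
    have := hpath.continuousAt.tendsto
    simpa using this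
  refine ⟨fun ε => g ((1 - (ε : ℂ)) * f z), ?_, ?_, ?_⟩
  · have h1 : Tendsto g (𝓝 (f z)) (𝓝 z) := by
      have := hg1.hasDerivAt.continuousAt.tendsto
      rwa [hgz] at this
    exact (h1.comp hpc).mono_left nhdsWithin_le_nhds
  · exact (hpc.eventually hfg).filter_mono nhdsWithin_le_nhds
  · have hγ : HasDerivAt (fun ε : ℝ => g ((1 - (ε : ℂ)) * f z)) ((deriv f z)⁻¹ * (-(f z))) 0 := by
      have h1 : HasDerivAt g (deriv f z)⁻¹ ((fun ε : ℝ => (1 - (ε : ℂ)) * f z) 0) := by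
        simpa using hg1.hasDerivAt
      exact h1.comp (0:ℝ) hpath
    set D := (deriv f z)⁻¹ * (-(f z)) with hD
    have hns : HasDerivAt (fun ε : ℝ => normSq (g ((1 - (ε : ℂ)) * f z)))
        (2 * (starRingEnd ℂ z * D).re) 0 := by
      have hre : HasDerivAt (fun ε : ℝ => (g ((1 - (ε : ℂ)) * f z)).re) D.re 0 :=
        Complex.reCLM.hasFDerivAt.comp_hasDerivAt (0:ℝ) hγ
      have him : HasDerivAt (fun ε : ℝ => (g ((1 - (ε : ℂ)) * f z)).im) D.im 0 :=
        Complex.imCLM.hasFDerivAt.comp_hasDerivAt (0:ℝ) hγ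
      have h2 := (hre.mul hre).add (him.mul him)
      have h3 : (fun ε : ℝ => normSq (g ((1 - (ε : ℂ)) * f z))) =
          (fun ε : ℝ => (g ((1 - (ε : ℂ)) * f z)).re) * (fun ε : ℝ => (g ((1 - (ε : ℂ)) * f z)).re)
          + (fun ε : ℝ => (g ((1 - (ε : ℂ)) * f z)).im) * (fun ε : ℝ => (g ((1 - (ε : ℂ)) * f z)).im) := by
        funext ε
        simp [normSq_apply]
      rw [h3]
      refine h2.congr_deriv ?_
      have e0 : g ((1 - ((0:ℝ) : ℂ)) * f z) = z := by simp [hgz]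
      simp only [e0, mul_re, conj_re, conj_im]
      ring
    have hneg : 2 * (starRingEnd ℂ z * D).re < 0 := by
      have h1 : starRingEnd ℂ z * D = -(((normSq z : ℝ) : ℂ) * (z * deriv f z / f z)⁻¹) := by
        rw [hD, Complex.normSq_eq_conj_mul_self]
        field_simp
      rw [h1, neg_re, re_ofReal_mul, Complex.inv_re]
      have h2 : 0 < normSq z := normSq_pos.mpr hz0
      have h3 : 0 < normSq (z * deriv f z / f z) := by
        apply normSq_pos.mpr
        intro h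
        rw [h] at hs
        simp at hs
      have : 0 < normSq z * ((z * deriv f z / f z).re / normSq (z * deriv f z / f z)) := by
        positivity
      linarith
    have hslope := (hasDerivAt_iff_tendsto_slope.mp hns).mono_left
      (nhdsWithin_mono (0:ℝ) (fun x (hx : x ∈ Ioi (0:ℝ)) => ne_of_gt hx))
    have hev := hslope.eventually (gt_mem_nhds hneg)
    filter_upwards [hev, self_mem_nhdsWithin] with ε hε hε0
    have hε0' : (0:ℝ) < ε := hε0
    rw [slope_def_field] at hε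
    simp only [ofReal_zero, sub_zero, one_mul, hgz] at hε
    rw [div_lt_iff₀ hε0', zero_mul] at hε
    have h5 : normSq (g ((1 - (ε : ℂ)) * f z)) < normSq z := by linarith
    rw [Complex.normSq_eq_norm_sq, Complex.normSq_eq_norm_sq] at h5
    exact lt_of_pow_lt_pow_left₀ 2 (norm_nonneg _) h5

/-- A function starlike with respect to the origin is injective. -/
theorem injOn_of_starlike {f : ℂ → ℂ} (hf : DifferentiableOn ℂ f (ball 0 1))
    (h0 : f 0 = 0) (hd0 : deriv f 0 ≠ 0)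
    (hne : ∀ z ∈ ball (0 : ℂ) 1, z ≠ 0 → f z ≠ 0)
    (hs : ∀ z ∈ ball (0 : ℂ) 1, z ≠ 0 → 0 < (z * deriv f z / f z).re) :
    InjOn f (ball 0 1) := by
  have hder : ∀ z ∈ ball (0 : ℂ) 1, deriv f z ≠ 0 := by
    intro z hz
    rcases eq_or_ne z 0 with rfl | hz0
    · exact hd0
    · intro h
      have := hs z hz hz0
      simp [h] at this
  have hlocinj : ∀ z ∈ ball (0 : ℂ) 1, ∃ U ∈ 𝓝 z, InjOn f U := by
    intro z hz
    have han : AnalyticAt ℂ f z := hf.analyticAt (isOpen_ball.mem_nhds hz)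
    have h2 := han.hasStrictDerivAt.hasStrictFDerivAt_equiv (hder z hz)
    exact ⟨h2.toOpenPartialHomeomorph.source,
      (h2.toOpenPartialHomeomorph).open_source.mem_nhds h2.mem_toOpenPartialHomeomorph_source,
      h2.toOpenPartialHomeomorph.injOn⟩
  by_contra hninj
  rw [InjOn] at hninj
  push Not at hninj
  obtain ⟨a, ha, b, hb, hab, hne'⟩ := hninj
  set r : ℝ := max ‖a‖ ‖b‖ with hr
  have hr1 : r < 1 := by
    rw [hr]
    exact max_lt (by simpa using ha) (by simpa using hb)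
  have hsub : closedBall (0 : ℂ) r ⊆ ball 0 1 := closedBall_subset_ball hr1
  set A : Set (ℂ × ℂ) := {p | p.1 ∈ closedBall (0 : ℂ) r ∧ p.2 ∈ closedBall (0 : ℂ) r ∧
    f p.1 = f p.2 ∧ p.1 ≠ p.2} with hA
  have hAsub : A ⊆ closedBall (0 : ℂ) r ×ˢ closedBall (0 : ℂ) r := by
    rintro ⟨x, y⟩ ⟨h1, h2, _⟩
    exact ⟨h1, h2⟩
  have hcont : ContinuousOn f (ball 0 1) := hf.continuousOn
  have hAc : IsClosed A := by
    rw [← isSeqClosed_iff_isClosed]
    intro u p hu hup
    have h1 : Tendsto (fun n => (u n).1) atTop (𝓝 p.1) := (continuous_fst.tendsto p).comp hup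
    have h2 : Tendsto (fun n => (u n).2) atTop (𝓝 p.2) := (continuous_snd.tendsto p).comp hup
    have hp1 : p.1 ∈ closedBall (0 : ℂ) r :=
      isClosed_closedBall.mem_of_tendsto h1 (Eventually.of_forall (fun n => (hu n).1))
    have hp2 : p.2 ∈ closedBall (0 : ℂ) r :=
      isClosed_closedBall.mem_of_tendsto h2 (Eventually.of_forall (fun n => (hu n).2.1))
    have hf1 : Tendsto (fun n => f (u n).1) atTop (𝓝 (f p.1)) :=
      (hcont.continuousAt (isOpen_ball.mem_nhds (hsub hp1))).tendsto.comp h1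
    have hf2 : Tendsto (fun n => f (u n).2) atTop (𝓝 (f p.2)) :=
      (hcont.continuousAt (isOpen_ball.mem_nhds (hsub hp2))).tendsto.comp h2
    have hfe : f p.1 = f p.2 := by
      refine tendsto_nhds_unique hf1 ?_
      refine hf2.congr (fun n => ?_)
      exact ((hu n).2.2.1).symm
    refine ⟨hp1, hp2, hfe, ?_⟩
    intro heq
    obtain ⟨U, hU, hUinj⟩ := hlocinj p.1 (hsub hp1)
    have h2' : Tendsto (fun n => (u n).2) atTop (𝓝 p.1) := by rw [heq]; exact h2
    have hev := (h1.eventually hU).and (h2'.eventually hU)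
    obtain ⟨n, hn1, hn2⟩ := hev.exists
    exact (hu n).2.2.2 (hUinj hn1 hn2 (hu n).2.2.1)
  have hAcomp : IsCompact A :=
    ((isCompact_closedBall (0 : ℂ) r).prod (isCompact_closedBall (0 : ℂ) r)).of_isClosed_subset
      hAc hAsub
  have hAne : A.Nonempty := by
    refine ⟨(a, b), ?_, ?_, hab, hne'⟩
    · simp [hr]
    · simp [hr]
  have hmc : Continuous (fun p : ℂ × ℂ => max ‖p.1‖ ‖p.2‖) := by fun_prop
  obtain ⟨⟨z, w⟩, hzwA, hmin⟩ := hAcomp.exists_isMinOn hAne hmc.continuousOn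
  obtain ⟨hzr, hwr, hfeq, hzw⟩ := hzwA
  simp only at hzr hwr hfeq hzw
  have hzb := hsub hzr
  have hwb := hsub hwr
  have hz0 : z ≠ 0 := by
    rintro rfl
    have : f w = 0 := by rw [← hfeq, h0]
    exact (hne w hwb (Ne.symm hzw)) this
  have hw0 : w ≠ 0 := by
    rintro rfl
    have : f z = 0 := by rw [hfeq, h0]
    exact (hne z hzb hzw) this
  have hfz := hne z hzb hz0
  have hfw := hne w hwb hw0
  obtain ⟨γ, hγ1, hγ2, hγ3⟩ := shrink_preimage hf hzb hz0 hfz (hs z hzb hz0)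
  obtain ⟨δ, hδ1, hδ2, hδ3⟩ := shrink_preimage hf hwb hw0 hfw (hs w hwb hw0)
  have hsep : ∀ᶠ ε in 𝓝[>] (0 : ℝ), γ ε ≠ δ ε := by
    have h1 : Tendsto (fun ε => (γ ε, δ ε)) (𝓝[>] 0) (𝓝 (z, w)) := hγ1.prodMk_nhds hδ1
    have h2 : ∀ᶠ p : ℂ × ℂ in 𝓝 (z, w), p.1 ≠ p.2 := by
      have : IsOpen {p : ℂ × ℂ | p.1 ≠ p.2} := isOpen_ne_fun continuous_fst continuous_snd
      exact this.mem_nhds hzw
    exact h1.eventually h2
  obtain ⟨ε, h1, h2, h3, h4, h5⟩ := (hγ2.and (hδ2.and (hγ3.and (hδ3.and hsep)))).exists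
  have hlt : max ‖γ ε‖ ‖δ ε‖ < max ‖z‖ ‖w‖ :=
    max_lt_max h3 h4
  have hmem : (γ ε, δ ε) ∈ A := by
    have hz' : ‖z‖ ≤ r := by simpa using hzr
    have hw' : ‖w‖ ≤ r := by simpa using hwr
    refine ⟨?_, ?_, ?_, h5⟩
    · simp only [mem_closedBall, dist_zero_right]; linarith
    · simp only [mem_closedBall, dist_zero_right]; linarith
    · simp only
      rw [h1, h2, hfeq]
  have := hmin hmem
  simp only [mem_setOf_eq] at this
  exact absurd this (not_le.mpr hlt)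

end Pool.Agent.TH242.AC
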