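import Mathlib
import Pool.Agent.TH242.AC.ExtR2
import Pool.Agent.TH242.AC.Starlike

open Complex Metric Set Filter Topology

namespace Pool.Agent.TH242.AC

/-- difference quotient of `R` at the centre -/
noncomputable def dR (β : ℝ) (z : ℂ) : ℂ := dslope (Rf β) 0 z

noncomputable def Yf (β : ℝ) (z : ℂ) : ℂ := -(1 - z) * dR β z / 2

lemma z_mul_dR (β : ℝ) (z : ℂ) : z * dR β z = Rf β z - 1 := by
  rcases eq_or_ne z 0 with rfl | hz
  · simp [Rf_zero]
  · rw [dR, dslope_of_ne _ hz, slope_def_field, Rf_zero, sub_zero]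
    field_simp

lemma dR_diff {β : ℝ} (hβ : 1 < β) : DifferentiableOn ℂ (dR β) (ball 0 1) := by
  have := (Complex.differentiableOn_dslope (isOpen_ball.mem_nhds (mem_ball_self one_pos)
    : ball (0:ℂ) 1 ∈ 𝓝 0)).mpr (Rf_differentiableOn hβ)
  exact this

lemma hc_one {β : ℝ} : hc β 1 = (1 - β) / (1 + β) := by
  have := hc_succ β 0
  simp only [zero_add, hc_zero, Nat.cast_zero, one_mul] at this
  rw [this]

lemma Hf1_zero {β : ℝ} : Hf1 β 0 = ((1 - β) / (1 + β) : ℝ) := by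
  rw [Hf1, tsum_eq_single 1]
  · simp [hc_one]
  · intro n hn
    rcases Nat.lt_or_ge n 1 with h | h
    · interval_cases n; simp
    · have : n - 1 ≠ 0 := by omega
      simp [this]

lemma dR_zero {β : ℝ} (hβ : 1 < β) : dR β 0 = ((-(2 * β / (1 + β)) : ℝ) : ℂ) := by
  rw [dR, dslope_same, (Rf_hasDerivAt hβ (z := 0) (by simp)).deriv, R1, Hf_zero, Hf1_zero]
  have : (1 + β) ≠ 0 := by linarith
  have h2 : ((1:ℂ) + β) ≠ 0 := by exact_mod_cast this
  push_cast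
  field_simp
  ring

lemma Yf_diff {β : ℝ} (hβ : 1 < β) : DifferentiableOn ℂ (Yf β) (ball 0 1) := by
  have h := dR_diff hβ
  unfold Yf
  fun_prop

lemma Yf_zero {β : ℝ} (hβ : 1 < β) : Yf β 0 = ((β / (1 + β) : ℝ) : ℂ) := by
  rw [Yf, dR_zero hβ]
  push_cast
  ring

lemma Yf_eq {β : ℝ} {z : ℂ} (hz : z ≠ 0) : Yf β z = (Rf β z - 1) * (z - 1) / (2 * z) := by
  rw [← z_mul_dR, Yf]
  field_simp
  ring

lemma Yf_hasDerivAt {β : ℝ} (hβ : 1 < β) {z : ℂ} (hz : ‖z‖ < 1) (hz0 : z ≠ 0) :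
    HasDerivAt (Yf β) ((deriv (Rf β) z * (z - 1) / (2 * z)) + (Rf β z - 1) / (2 * z ^ 2)) z := by
  have h1 : HasDerivAt (fun z => (Rf β z - 1) * (z - 1) / (2 * z))
      ((((deriv (Rf β) z) * (z - 1) + (Rf β z - 1) * 1) * (2 * z)
        - (Rf β z - 1) * (z - 1) * 2) / (2 * z) ^ 2) z := by
    have hR : HasDerivAt (fun z => Rf β z - 1) (deriv (Rf β) z) z := by
      rw [(Rf_hasDerivAt hβ hz).deriv]
      exact (Rf_hasDerivAt hβ hz).sub_const 1
    have h2 : HasDerivAt (fun z : ℂ => z - 1) 1 z := (hasDerivAt_id z).sub_const 1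
    have h3 : HasDerivAt (fun z : ℂ => 2 * z) 2 z := by
      simpa using (hasDerivAt_id z).const_mul (2:ℂ)
    exact (hR.mul h2).div h3 (by simpa using hz0)
  have h4 : Yf β =ᶠ[𝓝 z] (fun z => (Rf β z - 1) * (z - 1) / (2 * z)) := by
    filter_upwards [isOpen_ne.mem_nhds hz0] with w hw
    exact Yf_eq hw
  refine (h1.congr_of_eventuallyEq h4).congr_deriv ?_
  field_simp
  ring

/-- the differential equation for `Y` -/
lemma Yf_ode {β : ℝ} (hβ : 1 < β) {z : ℂ} (hz : ‖z‖ < 1) (hz0 : z ≠ 0) :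
    z * deriv (Yf β) z = β - Yf β z * ((β + 1/2) * Qf z + 1 / 2) := by
  have h1 : (1 : ℂ) - z ≠ 0 := sub_ne_zero.mpr (Ne.symm (ne_one_of_norm_lt hz))
  have h2 := mul_deriv_Rf hβ hz
  rw [DR_eq (ne_one_of_norm_lt hz)] at h2
  have h3 : z * deriv (Yf β) z = (z * deriv (Rf β) z) * (z - 1) / (2 * z)
      + (Rf β z - 1) / (2 * z) := by
    rw [(Yf_hasDerivAt hβ hz hz0).deriv]
    field_simp
  rw [h3, h2, Yf_eq hz0, Qf]
  field_simp
  ring

lemma Yf_re_pos {β : ℝ} (hβ : 1 < β) : ∀ z ∈ ball (0 : ℂ) 1, 0 < (Yf β z).re := by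
  refine re_pos_of_touch (Yf_diff hβ) ?_ ?_
  · rw [Yf_zero hβ, ofReal_re]
    positivity
  intro z hz hz0 hre him hle
  have hz1 : ‖z‖ < 1 := by simpa using hz
  rw [Yf_ode hβ hz1 hz0] at him hle
  have hQ := Qf_re_pos hz1
  have hβ0 : (0:ℝ) < β := by linarith
  have e1 : (β : ℂ) - Yf β z * ((β + 1/2) * Qf z + 1 / 2)
    = (β : ℂ) - Yf β z * (((β + 1/2 : ℝ) : ℂ) * Qf z + ((1 / 2 : ℝ) : ℂ)) := by push_cast; ring
  rw [e1] at him hle
  simp only [mul_im, mul_re, ofReal_re, ofReal_im, sub_re, sub_im, add_re, add_im, hre,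
    zero_mul, mul_zero, sub_zero, add_zero, zero_add, zero_sub, neg_eq_zero] at him hle
  have h2 : (Yf β z).im = 0 := by
    rcases mul_eq_zero.mp him with h | h
    · exact h
    · exfalso
      have : 0 < (β + 1/2) * (Qf z).re := by positivity
      linarith
  rw [h2] at hle
  simp at hle
  linarith

lemma Yf_ne {β : ℝ} (hβ : 1 < β) {z : ℂ} (hz : ‖z‖ < 1) : Yf β z ≠ 0 := by
  intro h
  have := Yf_re_pos hβ z (by simpa using hz)
  rw [h] at this
  simp at this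

lemma dR_ne {β : ℝ} (hβ : 1 < β) {z : ℂ} (hz : ‖z‖ < 1) : dR β z ≠ 0 := by
  intro h
  apply Yf_ne hβ hz
  rw [Yf, h]
  simp

/-- the starlikeness function -/
noncomputable def hf (β : ℝ) (z : ℂ) : ℂ := deriv (Rf β) z / dR β z

lemma hf_diff {β : ℝ} (hβ : 1 < β) : DifferentiableOn ℂ (hf β) (ball 0 1) := by
  have h1 := (Rf_differentiableOn hβ).deriv isOpen_ball
  exact h1.div (dR_diff hβ) (fun z hz => dR_ne hβ (by simpa using hz))

lemma hf_zero {β : ℝ} (hβ : 1 < β) : hf β 0 = 1 := by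
  rw [hf]
  have h : deriv (Rf β) 0 = dR β 0 := by rw [dR, dslope_same]
  rw [h, div_self (dR_ne hβ (by simp))]

lemma hf_eq {β : ℝ} (hβ : 1 < β) {z : ℂ} (hz : ‖z‖ < 1) (hz0 : z ≠ 0) :
    hf β z = β * (1 / Yf β z - Qf z) := by
  have h1 : (1 : ℂ) - z ≠ 0 := sub_ne_zero.mpr (Ne.symm (ne_one_of_norm_lt hz))
  have h2 := mul_deriv_Rf hβ hz
  rw [DR_eq (ne_one_of_norm_lt hz)] at h2
  have h3 := dR_ne hβ hz
  have h4 : hf β z = (z * deriv (Rf β) z) / (z * dR β z) := by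
    rw [hf, mul_div_mul_left _ _ hz0]
  have h5 : Rf β z = 1 + z * dR β z := by rw [z_mul_dR]; ring
  rw [h4, h2, Yf, h5, Qf]
  field_simp
  ring

lemma Qf_hasDerivAt {z : ℂ} (hz : ‖z‖ < 1) : HasDerivAt Qf (2 / (1 - z) ^ 2) z := by
  have h1 : (1 : ℂ) - z ≠ 0 := sub_ne_zero.mpr (Ne.symm (ne_one_of_norm_lt hz))
  have h2 : HasDerivAt (fun z : ℂ => 1 + z) 1 z := by
    simpa using (hasDerivAt_id z).const_add (1:ℂ)
  have h3 : HasDerivAt (fun z : ℂ => 1 - z) (-1) z := by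
    simpa using (hasDerivAt_id z).const_sub (1:ℂ)
  have h4 := h2.div h3 h1
  refine h4.congr_deriv ?_
  ring

lemma hf_ode {β : ℝ} (hβ : 1 < β) {z : ℂ} (hz : ‖z‖ < 1) (hz0 : z ≠ 0) :
    z * deriv (hf β) z = - hf β z ^ 2 + hf β z * (1 / 2 - (β - 1 / 2) * Qf z)
      + β / 2 * (1 + Qf z) := by
  have h1 : (1 : ℂ) - z ≠ 0 := sub_ne_zero.mpr (Ne.symm (ne_one_of_norm_lt hz))
  have hY := Yf_ne hβ hz
  have hYd : HasDerivAt (Yf β) (deriv (Yf β) z) z :=
    ((Yf_diff hβ).differentiableAt (isOpen_ball.mem_nhds (by simpa using hz))).hasDerivAt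
  have h2 : HasDerivAt (fun z => (β : ℂ) * (1 / Yf β z - Qf z))
      ((β : ℂ) * ((0 * Yf β z - 1 * deriv (Yf β) z) / Yf β z ^ 2 - 2 / (1 - z) ^ 2)) z :=
    ((((hasDerivAt_const z (1:ℂ)).div hYd hY).sub (Qf_hasDerivAt hz)).const_mul _)
  have h3 : hf β =ᶠ[𝓝 z] (fun z => (β : ℂ) * (1 / Yf β z - Qf z)) := by
    filter_upwards [isOpen_ne.mem_nhds hz0, isOpen_ball.mem_nhds
      (show z ∈ ball (0:ℂ) 1 by simpa using hz)] with w hw hw1
    exact hf_eq hβ (by simpa using hw1) hw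
  have h4 := (h2.congr_of_eventuallyEq h3).deriv
  have h5 := Yf_ode hβ hz hz0
  have h6 : z * deriv (hf β) z =
      (β : ℂ) * (-(z * deriv (Yf β) z) / Yf β z ^ 2 - 2 * z / (1 - z) ^ 2) := by
    rw [h4]
    field_simp
    ring
  rw [h6, h5, hf_eq hβ hz hz0, Qf]
  field_simp
  ring

lemma hf_re_pos {β : ℝ} (hβ : 1 < β) : ∀ z ∈ ball (0 : ℂ) 1, 0 < (hf β z).re := by
  refine re_pos_of_touch (hf_diff hβ) (by rw [hf_zero hβ]; simp) ?_
  intro z hz hz0 hre him hle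
  have hz1 : ‖z‖ < 1 := by simpa using hz
  rw [hf_ode hβ hz1 hz0] at him hle
  have hQ := Qf_re_pos hz1
  have hβ0 : (0:ℝ) < β := by linarith
  have e1 : - hf β z ^ 2 + hf β z * (1 / 2 - (β - 1 / 2) * Qf z) + β / 2 * (1 + Qf z)
    = - (hf β z * hf β z) + hf β z * (((1 / 2 : ℝ) : ℂ) - ((β - 1 / 2 : ℝ) : ℂ) * Qf z)
      + ((β / 2 : ℝ) : ℂ) * (1 + Qf z) := by push_cast; ring
  rw [e1] at him hle
  simp only [mul_im, mul_re, ofReal_re, ofReal_im, sub_re, sub_im, add_re, add_im, hre, neg_re,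
    neg_im, one_re, one_im, zero_mul, mul_zero, sub_zero, add_zero, zero_add, zero_sub] at him hle
  set η := (hf β z).im
  set x := (Qf z).re
  set y := (Qf z).im
  have h1 : β / 2 * y = - (η * (1 / 2 - (β - 1 / 2) * x)) := by linarith
  have h2 : 0 < β / 2 * (η * η + η * ((β - 1 / 2) * y) + β / 2 * (1 + x)) := by
    have e2 : β / 2 * (η * η + η * ((β - 1 / 2) * y) + β / 2 * (1 + x))
      = η * η * (1 / 4 + (β - 1/2) ^ 2 * x) + β / 2 * (β / 2 * (1 + x))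
        + η * (β - 1/2) * (β / 2 * y + η * (1 / 2 - (β - 1 / 2) * x)) := by ring
    rw [e2, h1]
    have e3 : η * η * (1 / 4 + (β - 1 / 2) ^ 2 * x) + β / 2 * (β / 2 * (1 + x)) +
      η * (β - 1 / 2) * (-(η * (1 / 2 - (β - 1 / 2) * x)) + η * (1 / 2 - (β - 1 / 2) * x))
      = η * η * (1 / 4 + (β - 1 / 2) ^ 2 * x) + β / 2 * (β / 2 * (1 + x)) := by ring
    rw [e3]
    have : 0 ≤ η * η * (1 / 4 + (β - 1/2) ^ 2 * x) := by
      apply mul_nonneg (mul_self_nonneg η)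
      positivity
    have : 0 < β / 2 * (β / 2 * (1 + x)) := by positivity
    linarith
  have h3 : 0 < β / 2 := by positivity
  have h4 := (pos_iff_pos_of_mul_pos h2).mp h3
  linarith

theorem Rf_injOn {β : ℝ} (hβ : 1 < β) : InjOn (Rf β) (ball 0 1) := by
  have hd : DifferentiableOn ℂ (fun z => Rf β z - 1) (ball 0 1) := by
    have := Rf_differentiableOn hβ
    fun_prop
  have hder : ∀ z, deriv (fun z => Rf β z - 1) z = deriv (Rf β) z := by
    intro z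
    rw [deriv_sub_const]
  have h := injOn_of_starlike hd (by simp [Rf_zero]) (by
      rw [hder]
      have h : deriv (Rf β) 0 = dR β 0 := by rw [dR, dslope_same]
      rw [h]
      exact dR_ne hβ (by simp)) (by
      intro z hz hz0
      rw [← z_mul_dR]
      exact mul_ne_zero hz0 (dR_ne hβ (by simpa using hz))) (by
      intro z hz hz0
      rw [hder, ← z_mul_dR, mul_div_mul_left _ _ hz0]
      exact hf_re_pos hβ z hz)
  intro z hz w hw hzw
  exact h hz hw (by simp only [hzw])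

lemma deriv_Rf_ne {β : ℝ} (hβ : 1 < β) {z : ℂ} (hz : ‖z‖ < 1) : deriv (Rf β) z ≠ 0 := by
  intro h
  have := hf_re_pos hβ z (by simpa using hz)
  rw [hf, h] at this
  simp at this

end Pool.Agent.TH242.AC
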