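import Mathlib
import Pool.Agent.TH242.AC.InvFun
import Pool.Agent.TH242.AC.Inj
import Pool.Agent.TH242.AC.Supp

open Complex Metric Set Filter Topology

namespace Pool.Agent.TH242.AC

lemma min_point {g : ℂ → ℂ} (hg : DifferentiableOn ℂ g (ball 0 1)) {z₁ : ℂ} (hz₁ : ‖z₁‖ < 1)
    (hre0 : (g z₁).re = 0) (hle : ∀ w : ℂ, ‖w‖ ≤ ‖z₁‖ → 0 ≤ (g w).re) :
    (z₁ * deriv g z₁).im = 0 ∧ (z₁ * deriv g z₁).re ≤ 0 := by
  have hda : HasDerivAt g (deriv g z₁) z₁ :=
    (hg.differentiableAt (isOpen_ball.mem_nhds (by simpa using hz₁))).hasDerivAt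
  constructor
  · have h1 : HasDerivAt (fun θ : ℝ => z₁ * exp (θ * I)) (z₁ * I) 0 := by
      have h2 : HasDerivAt (fun θ : ℝ => ((θ : ℂ) * I)) I 0 := by
        have := (Complex.ofRealCLM.hasDerivAt (x := (0:ℝ))).mul_const I
        simpa using this
      have h3 := h2.cexp
      have h4 := h3.const_mul z₁
      simpa using h4
    have h2 : HasDerivAt (fun θ : ℝ => g (z₁ * exp (θ * I))) (deriv g z₁ * (z₁ * I)) 0 := by
      have hda' : HasDerivAt g (deriv g z₁) ((fun θ : ℝ => z₁ * exp (θ * I)) 0) := by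
        simpa using hda
      exact hda'.comp (0:ℝ) h1
    have h3 : HasDerivAt (fun θ : ℝ => (g (z₁ * exp (θ * I))).re)
        (deriv g z₁ * (z₁ * I)).re 0 := by
      exact (Complex.reCLM.hasFDerivAt.comp_hasDerivAt (0:ℝ) h2)
    have hmin' : IsLocalMin (fun θ : ℝ => (g (z₁ * exp (θ * I))).re) 0 := by
      refine Filter.Eventually.of_forall (fun θ => ?_)
      have : ‖z₁ * exp (θ * I)‖ ≤ ‖z₁‖ := by
        rw [norm_mul, Complex.norm_exp_ofReal_mul_I, mul_one]
      simpa [hre0] using hle _ this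
    have h4 := hmin'.hasDerivAt_eq_zero h3
    have h5 : (deriv g z₁ * (z₁ * I)).re = -(z₁ * deriv g z₁).im := by
      simp [mul_re, mul_im]; ring
    linarith
  · have h1 : HasDerivAt (fun s : ℝ => (s : ℂ) * z₁) z₁ 1 := by
      have := (Complex.ofRealCLM.hasDerivAt (x := (1:ℝ))).mul_const z₁
      simpa using this
    have h2 : HasDerivAt (fun s : ℝ => g ((s : ℂ) * z₁)) (deriv g z₁ * z₁) 1 := by
      have hda' : HasDerivAt g (deriv g z₁) ((fun s : ℝ => (s : ℂ) * z₁) 1) := by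
        simpa using hda
      exact hda'.comp (1:ℝ) h1
    have h3 : HasDerivAt (fun s : ℝ => (g ((s : ℂ) * z₁)).re) (deriv g z₁ * z₁).re 1 :=
      (Complex.reCLM.hasFDerivAt.comp_hasDerivAt (1:ℝ) h2)
    have h4 : Tendsto (slope (fun s : ℝ => (g ((s : ℂ) * z₁)).re) 1) (𝓝[<] 1)
        (𝓝 (deriv g z₁ * z₁).re) :=
      (hasDerivAt_iff_tendsto_slope.mp h3).mono_left
        (nhdsWithin_mono _ (fun x hx => ne_of_lt hx))
    have h5 : (deriv g z₁ * z₁).re ≤ 0 := by
      refine le_of_tendsto h4 ?_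
      have hev : ∀ᶠ s : ℝ in 𝓝[<] 1, 0 < s := by
        have : ∀ᶠ s : ℝ in 𝓝 1, (0:ℝ) < s := lt_mem_nhds (by norm_num)
        exact this.filter_mono nhdsWithin_le_nhds
      filter_upwards [hev, self_mem_nhdsWithin] with s hs0 hs1
      have hs1' : s < 1 := hs1
      rw [slope_def_field]
      have hn : ‖(s : ℂ) * z₁‖ ≤ ‖z₁‖ := by
        rw [norm_mul, Complex.norm_real, Real.norm_eq_abs, abs_of_pos hs0]
        nlinarith [norm_nonneg z₁]
      have := hle _ hn
      simp only [ofReal_one, one_mul, hre0, sub_zero]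
      apply div_nonpos_of_nonneg_of_nonpos this
      linarith
    rwa [mul_comm] at h5

lemma mm_eq {β φ : ℝ} (h : φ ∈ Ioo (-Real.pi) Real.pi) :
    mm β φ = 1 - Qf (bp φ) * Rf β (bp φ) := by
  rw [Qf_bp h, Rf_bp, mm, ee, ff, tt]
  push_cast
  linear_combination (-(Complex.tan ((φ:ℂ) / 2)) * (bb β φ : ℂ)) * Complex.I_sq

lemma DR_bp {β φ : ℝ} (h : φ ∈ Ioo (-Real.pi) Real.pi) : DR β (bp φ) = β * mm β φ := by
  rw [DR_eq (bp_ne_one h), mm_eq h]

theorem subordination {β : ℝ} (hβ : 1 < β) {r : ℂ → ℂ} (hr : DifferentiableOn ℂ r (ball 0 1))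
    (hr0 : r 0 = 1) (hrne : ∀ z : ℂ, ‖z‖ < 1 → r z ≠ 0)
    (hq : ∀ z : ℂ, ‖z‖ < 1 → z ≠ 0 → 0 < ((1 - ((1 / β : ℝ) : ℂ) * (z * deriv r z)) / r z).re) :
    ∀ z : ℂ, ‖z‖ < 1 → ∃ w : ℂ, ‖w‖ < 1 ∧ r z = Rf β w := by
  by_contra hcon
  push Not at hcon
  obtain ⟨z0, hz0, hz0'⟩ := hcon
  have hRd := Rf_differentiableOn hβ
  have hRinj := Rf_injOn hβ
  set Om : Set ℂ := Rf β '' ball 0 1 with hOm
  have hOpen : IsOpen Om := image_isOpen hRd hRinj
  have hsub : closedBall (0 : ℂ) ‖z0‖ ⊆ ball 0 1 := closedBall_subset_ball hz0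
  have hcont : ContinuousOn r (ball 0 1) := hr.continuousOn
  set S : Set ℂ := {z | z ∈ closedBall (0 : ℂ) ‖z0‖ ∧ r z ∈ Omᶜ} with hS
  have hSc : IsCompact S := by
    have h1 : IsClosed S :=
      (hcont.mono hsub).preimage_isClosed_of_isClosed isClosed_closedBall hOpen.isClosed_compl
    exact (isCompact_closedBall (0 : ℂ) ‖z0‖).of_isClosed_subset h1 (fun z hz => hz.1)
  have hSne : S.Nonempty := by
    refine ⟨z0, by simp, ?_⟩
    rintro ⟨w, hw, hw2⟩
    exact hz0' w (by simpa using hw) hw2.symm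
  obtain ⟨z₁, hz₁S, hmin⟩ := hSc.exists_isMinOn hSne continuous_norm.continuousOn
  have hz₁ : z₁ ∈ ball (0 : ℂ) 1 := hsub hz₁S.1
  have hz₁n : ‖z₁‖ < 1 := by simpa using hz₁
  have hz₁z0 : ‖z₁‖ ≤ ‖z0‖ := by simpa using hz₁S.1
  have hin : ∀ w : ℂ, ‖w‖ < ‖z₁‖ → r w ∈ Om := by
    intro w hw
    by_contra hcon
    have hwS : w ∈ S := ⟨by simpa using (hw.le.trans hz₁z0), hcon⟩
    have := hmin hwS
    simp only [mem_ofPred_eq] at this
    linarith
  have hz₁0 : z₁ ≠ 0 := by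
    rintro rfl
    apply hz₁S.2
    rw [hr0]
    exact ⟨0, by simp, Rf_zero⟩
  have hρ : 0 < ‖z₁‖ := norm_pos_iff.mpr hz₁0
  -- the inverse branch
  set om : ℂ → ℂ := fun z => Function.invFunOn (Rf β) (ball 0 1) (r z) with hom
  have hom1 : ∀ z : ℂ, ‖z‖ < ‖z₁‖ → om z ∈ ball (0:ℂ) 1 ∧ Rf β (om z) = r z := by
    intro z hz
    have h := hin z hz
    exact ⟨Function.invFunOn_mem h, Function.invFunOn_eq h⟩
  have hom0 : om 0 = 0 := by
    have h := hom1 0 (by simpa using hρ)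
    apply hRinj h.1 (by simp)
    rw [h.2, hr0, Rf_zero]
  have homd : DifferentiableOn ℂ om (ball 0 ‖z₁‖) := by
    intro z hz
    have hz' : ‖z‖ < ‖z₁‖ := by simpa using hz
    have h1 := inv_hasDerivAt hRd hRinj (hin z hz')
    have h2 : DifferentiableAt ℂ r z :=
      hr.differentiableAt (isOpen_ball.mem_nhds (by simpa using hz'.trans hz₁n))
    exact (h1.differentiableAt.comp z h2).differentiableWithinAt
  have hschwarz : ∀ z : ℂ, ‖z‖ < ‖z₁‖ → ‖om z‖ ≤ ‖z‖ / ‖z₁‖ := by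
    intro z hz
    have := Complex.dist_le_div_mul_dist_of_mapsTo_ball (f := om) (c := 0) (R₁ := ‖z₁‖) (R₂ := 1)
      homd (by
        intro w hw
        rw [hom0]
        exact ball_subset_closedBall (hom1 w (by simpa using hw)).1) (z := z) (by simpa using hz)
    rw [hom0, dist_zero_right, dist_zero_right] at this
    rwa [one_div, inv_mul_eq_div] at this
  -- the sequence
  set s : ℕ → ℝ := fun k => 1 - 1 / ((k : ℝ) + 1 + 1) with hs
  have hs0 : ∀ k, 0 < s k := by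
    intro k
    have : 1 / ((k : ℝ) + 1 + 1) < 1 := by
      rw [div_lt_one (by positivity)]
      have : (0:ℝ) ≤ k := Nat.cast_nonneg k
      linarith
    simp only [hs]; linarith
  have hs1 : ∀ k, s k < 1 := by
    intro k
    have : 0 < 1 / ((k : ℝ) + 1 + 1) := by positivity
    simp only [hs]; linarith
  have hslim : Tendsto s atTop (𝓝 1) := by
    have h1 : Tendsto (fun k : ℕ => 1 / ((k : ℝ) + 1 + 1)) atTop (𝓝 0) := by
      have := (tendsto_one_div_add_atTop_nhds_zero_nat (𝕜 := ℝ)).comp (tendsto_add_atTop_nat 1)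
      refine this.congr (fun k => ?_)
      simp
    have := h1.const_sub 1
    rwa [sub_zero] at this
  have hszn : ∀ k, ‖(s k : ℂ) * z₁‖ = s k * ‖z₁‖ := by
    intro k
    rw [norm_mul, Complex.norm_real, Real.norm_eq_abs, abs_of_pos (hs0 k)]
  have hszlt : ∀ k, ‖(s k : ℂ) * z₁‖ < ‖z₁‖ := by
    intro k
    rw [hszn]
    have := hs1 k
    nlinarith
  set w : ℕ → ℂ := fun k => om ((s k : ℂ) * z₁) with hw
  have hwle : ∀ k, ‖w k‖ ≤ s k := by
    intro k
    have := hschwarz _ (hszlt k)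
    rw [hszn, mul_div_assoc, div_self hρ.ne', mul_one] at this
    exact this
  have hwR : ∀ k, Rf β (w k) = r ((s k : ℂ) * z₁) := fun k => (hom1 _ (hszlt k)).2
  obtain ⟨x₁, hx₁, θ, hθ, hlim⟩ := (isCompact_closedBall (0:ℂ) 1).tendsto_subseq
    (x := w) (fun k => by simpa using (hwle k).trans (hs1 k).le)
  have hx₁n : ‖x₁‖ ≤ 1 := by simpa using hx₁
  have hslimθ : Tendsto (fun k => s (θ k)) atTop (𝓝 1) := hslim.comp hθ.tendsto_atTop
  have hzlim : Tendsto (fun k => ((s (θ k) : ℝ) : ℂ) * z₁) atTop (𝓝 z₁) := by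
    have h1 := (continuous_ofReal.tendsto 1).comp hslimθ
    have h2 := h1.mul_const z₁
    simpa using h2
  have hrlim : Tendsto (fun k => r (((s (θ k) : ℝ) : ℂ) * z₁)) atTop (𝓝 (r z₁)) :=
    (hcont.continuousAt (isOpen_ball.mem_nhds hz₁)).tendsto.comp hzlim
  have hlimW : Tendsto (w ∘ θ) atTop (𝓝[closedBall (0:ℂ) 1] x₁) := by
    apply tendsto_nhdsWithin_iff.mpr
    exact ⟨hlim, Eventually.of_forall (fun k => by
      simpa using (hwle (θ k)).trans (hs1 (θ k)).le)⟩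
  have hRlim : Tendsto (fun k => Rf β (w (θ k))) atTop (𝓝 (Rf β x₁)) :=
    ((Rf_continuousOn hβ) x₁ hx₁).tendsto.comp hlimW
  have hrx : r z₁ = Rf β x₁ := by
    refine tendsto_nhds_unique hrlim (hRlim.congr (fun k => hwR (θ k)))
  have hx₁1 : ‖x₁‖ = 1 := by
    apply le_antisymm hx₁n
    by_contra hlt
    push Not at hlt
    exact hz₁S.2 ⟨x₁, by simpa using hlt, hrx.symm⟩
  have hx₁ne : x₁ ≠ 1 := by
    intro h
    rw [h, Rf_one] at hrx
    exact hrne z₁ hz₁n hrx
  obtain ⟨φ, hφ, hφe⟩ := exists_bp hx₁1 hx₁ne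
  -- support property
  set n := mm β φ with hn
  have hnne : n ≠ 0 := mm_ne hβ hφ
  have hsup : ∀ z : ℂ, ‖z‖ ≤ ‖z₁‖ → (starRingEnd ℂ n * (r z - r z₁)).re ≤ 0 := by
    have hlt : ∀ z : ℂ, ‖z‖ < ‖z₁‖ → (starRingEnd ℂ n * (r z - r z₁)).re ≤ 0 := by
      intro z hz
      obtain ⟨h1, h2⟩ := hom1 z hz
      rw [← h2, hrx, hφe]
      exact support hβ hφ (by simpa using (mem_ball_zero_iff.mp h1).le)
    intro z hz
    have hzb : z ∈ ball (0 : ℂ) 1 := by simpa using hz.trans_lt hz₁n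
    have hca : ContinuousAt r z := hcont.continuousAt (isOpen_ball.mem_nhds hzb)
    have hpath : Tendsto (fun t : ℝ => (starRingEnd ℂ n * (r ((t : ℂ) * z) - r z₁)).re) (𝓝[<] 1)
        (𝓝 (starRingEnd ℂ n * (r z - r z₁)).re) := by
      have h1 : Tendsto (fun t : ℝ => (t : ℂ) * z) (𝓝[<] 1) (𝓝 z) := by
        have h2 : Continuous (fun t : ℝ => (t : ℂ) * z) := by fun_prop
        have h3 := h2.tendsto 1
        simp only [ofReal_one, one_mul] at h3
        exact h3.mono_left nhdsWithin_le_nhds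
      exact (continuous_re.tendsto _).comp (((hca.tendsto.comp h1).sub_const _).const_mul _)
    refine le_of_tendsto hpath ?_
    have hev : ∀ᶠ t : ℝ in 𝓝[<] 1, 0 < t := by
      have : ∀ᶠ t : ℝ in 𝓝 1, (0:ℝ) < t := lt_mem_nhds (by norm_num)
      exact this.filter_mono nhdsWithin_le_nhds
    filter_upwards [hev, self_mem_nhdsWithin] with t ht0 ht1
    have ht1' : t < 1 := ht1
    apply hlt
    rw [norm_mul, Complex.norm_real, Real.norm_eq_abs, abs_of_pos ht0]
    rcases eq_or_ne z 0 with rfl | hz0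
    · simpa using hρ
    · have : 0 < ‖z‖ := norm_pos_iff.mpr hz0
      nlinarith
  set g : ℂ → ℂ := fun z => -(starRingEnd ℂ n * (r z - r z₁)) with hg
  have hgd : DifferentiableOn ℂ g (ball 0 1) := by
    rw [hg]; fun_prop
  have hgder : deriv g z₁ = -(starRingEnd ℂ n * deriv r z₁) := by
    have h1 : HasDerivAt r (deriv r z₁) z₁ :=
      (hr.differentiableAt (isOpen_ball.mem_nhds hz₁)).hasDerivAt
    exact ((h1.sub_const (r z₁)).const_mul (starRingEnd ℂ n)).neg.deriv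
  obtain ⟨him, _⟩ := min_point hgd hz₁n (by simp [hg]) (by
    intro z hz
    have := hsup z hz
    rw [hg]
    simp only [neg_re]
    linarith)
  rw [hgder] at him
  set D := z₁ * deriv r z₁ with hD
  -- D = m * β * n
  have him' : (starRingEnd ℂ n * D).im = 0 := by
    have e : z₁ * -(starRingEnd ℂ n * deriv r z₁) = -(starRingEnd ℂ n * D) := by rw [hD]; ring
    rw [e, neg_im, neg_eq_zero] at him
    exact him
  have hβ0 : (β : ℂ) ≠ 0 := by
    have : β ≠ 0 := by linarith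
    exact_mod_cast this
  have hnn : 0 < normSq n := normSq_pos.mpr hnne
  set m : ℝ := (starRingEnd ℂ n * D).re / (β * normSq n) with hm
  have hDm : D = (m : ℂ) * (β * n) := by
    have h1 : starRingEnd ℂ n * D = (((starRingEnd ℂ n * D).re : ℝ) : ℂ) := by
      apply Complex.ext
      · simp
      · rw [him']; simp
    have h2 : starRingEnd ℂ n ≠ 0 := by simpa using hnne
    apply mul_left_cancel₀ h2
    have h3 : (normSq n : ℂ) = starRingEnd ℂ n * n := Complex.normSq_eq_conj_mul_self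
    have h4 : (normSq n : ℂ) ≠ 0 := by exact_mod_cast hnn.ne'
    have h5 : starRingEnd ℂ n * ((m : ℂ) * (β * n)) = (m : ℂ) * (β * normSq n) := by
      rw [h3]; ring
    rw [h5, h1, hm]
    push_cast
    field_simp
  have hx₁0 : x₁ ≠ 0 := by
    intro h; rw [h] at hx₁1; simp at hx₁1
  have hR1 : x₁ * R1 β x₁ = β * n := by
    rw [mul_R1 hβ hx₁n, hφe, DR_bp hφ]
  have hR1ne : R1 β x₁ ≠ 0 := by
    intro h
    rw [h, mul_zero] at hR1
    exact (mul_ne_zero hβ0 hnne) hR1.symm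
  have hm1 : 1 ≤ m := by
    -- slopes
    have hwne : ∀ k, w k ≠ x₁ := by
      intro k h
      have h1 := (hwle k).trans_lt (hs1 k)
      rw [h, hx₁1] at h1
      exact lt_irrefl _ h1
    have hslope : Tendsto (fun k => (Rf β (w (θ k)) - Rf β x₁) / (w (θ k) - x₁)) atTop
        (𝓝 (R1 β x₁)) := by
      have h1 := hasDerivWithinAt_iff_tendsto_slope.mp (Rf_hasDerivWithinAt hβ hx₁n)
      have h2 : Tendsto (w ∘ θ) atTop (𝓝[closedBall (0:ℂ) 1 \ {x₁}] x₁) := by
        apply tendsto_nhdsWithin_iff.mpr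
        refine ⟨hlim, Eventually.of_forall (fun k => ⟨?_, ?_⟩)⟩
        · simpa using (hwle (θ k)).trans (hs1 (θ k)).le
        · simpa using hwne (θ k)
      refine (h1.comp h2).congr (fun k => ?_)
      simp only [Function.comp, slope_def_field]
    have hda : HasDerivAt (fun t : ℝ => r ((t : ℂ) * z₁)) (deriv r z₁ * z₁) 1 := by
      have h1 : HasDerivAt (fun s : ℝ => (s : ℂ) * z₁) z₁ 1 := by
        have := (Complex.ofRealCLM.hasDerivAt (x := (1:ℝ))).mul_const z₁
        simpa using this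
      have h2 : HasDerivAt r (deriv r z₁) ((fun t : ℝ => (t : ℂ) * z₁) 1) := by
        simpa using (hr.differentiableAt (isOpen_ball.mem_nhds hz₁)).hasDerivAt
      exact h2.comp (1:ℝ) h1
    have hslope2 : Tendsto (fun k => (r (((s (θ k) : ℝ) : ℂ) * z₁) - r z₁) /
        (((s (θ k) : ℝ) : ℂ) - 1)) atTop (𝓝 D) := by
      have h1 := hasDerivAt_iff_tendsto_slope.mp hda
      have h2 : Tendsto (fun k => s (θ k)) atTop (𝓝[≠] 1) := by
        apply tendsto_nhdsWithin_iff.mpr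
        exact ⟨hslimθ, Eventually.of_forall (fun k => (hs1 (θ k)).ne)⟩
      have h3 := h1.comp h2
      rw [hD, mul_comm]
      refine h3.congr (fun k => ?_)
      simp only [Function.comp, slope, vsub_eq_sub, ofReal_one, one_mul]
      rw [Complex.real_smul]
      push_cast
      rw [inv_mul_eq_div]
    have hq2 : Tendsto (fun k => (w (θ k) - x₁) / (((s (θ k) : ℝ) : ℂ) - 1)) atTop
        (𝓝 (D / R1 β x₁)) := by
      refine (hslope2.div hslope hR1ne).congr (fun k => ?_)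
      have h1 : w (θ k) - x₁ ≠ 0 := sub_ne_zero.mpr (hwne _)
      have h2 : (((s (θ k) : ℝ) : ℂ) - 1) ≠ 0 := by
        have : s (θ k) - 1 ≠ 0 := by have := hs1 (θ k); intro h; linarith
        exact_mod_cast this
      have h3 : r (((s (θ k) : ℝ) : ℂ) * z₁) - r z₁ = Rf β (w (θ k)) - Rf β x₁ := by
        rw [hwR, hrx]
      have h4 : Rf β (w (θ k)) - Rf β x₁ ≠ 0 ∨ Rf β (w (θ k)) - Rf β x₁ = 0 := ne_or_eq _ _
      simp only [Pi.div_apply]
      rw [h3]
      rcases h4 with h4 | h4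
      · field_simp
      · -- impossible as the image point is interior
        exfalso
        have h5 : Rf β (w (θ k)) = r z₁ := by rw [hrx]; exact sub_eq_zero.mp h4
        exact hz₁S.2 ⟨w (θ k), by simpa using (hwle _).trans_lt (hs1 _), h5⟩
    have hq3 : Tendsto (fun k => (starRingEnd ℂ x₁ * ((w (θ k) - x₁) /
        (((s (θ k) : ℝ) : ℂ) - 1))).re) atTop (𝓝 (starRingEnd ℂ x₁ * (D / R1 β x₁)).re) :=
      (continuous_re.tendsto _).comp (hq2.const_mul _)
    have hval : starRingEnd ℂ x₁ * (D / R1 β x₁) = (m : ℂ) := by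
      have h1 : starRingEnd ℂ x₁ * x₁ = 1 := by
        rw [← Complex.normSq_eq_conj_mul_self, Complex.normSq_eq_norm_sq, hx₁1]; norm_num
      have h2 : D = (m : ℂ) * (x₁ * R1 β x₁) := by rw [hR1, hDm]
      rw [h2]
      have h3 : (m : ℂ) * (x₁ * R1 β x₁) / R1 β x₁ = (m : ℂ) * x₁ := by field_simp
      rw [h3]
      linear_combination (m : ℂ) * h1
    rw [hval, ofReal_re] at hq3
    refine ge_of_tendsto hq3 (Eventually.of_forall (fun k => ?_))
    have h1 : starRingEnd ℂ x₁ * x₁ = 1 := by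
      rw [← Complex.normSq_eq_conj_mul_self, Complex.normSq_eq_norm_sq, hx₁1]; norm_num
    have h2 : starRingEnd ℂ x₁ * ((w (θ k) - x₁) / (((s (θ k) : ℝ) : ℂ) - 1)) =
        (((1 - s (θ k))⁻¹ : ℝ) : ℂ) * (1 - starRingEnd ℂ x₁ * w (θ k)) := by
      have h3 : (((s (θ k) : ℝ) : ℂ) - 1) ≠ 0 := by
        have : s (θ k) - 1 ≠ 0 := by have := hs1 (θ k); intro h; linarith
        exact_mod_cast this
      have h4 : (1 - ((s (θ k) : ℝ) : ℂ)) ≠ 0 := by
        have : 1 - s (θ k) ≠ 0 := by have := hs1 (θ k); intro h; linarith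
        exact_mod_cast this
      push_cast
      rw [mul_div_assoc', div_eq_iff h3, mul_sub, h1]
      field_simp
      ring
    rw [h2, Complex.re_ofReal_mul, sub_re, one_re]
    have h5 : (starRingEnd ℂ x₁ * w (θ k)).re ≤ s (θ k) := by
      refine (Complex.re_le_norm _).trans ?_
      rw [norm_mul, RCLike.norm_conj, hx₁1, one_mul]
      exact hwle _
    have h6 : 0 < 1 - s (θ k) := by have := hs1 (θ k); linarith
    rw [inv_mul_eq_div, le_div_iff₀ h6]
    linarith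
  -- final contradiction
  have hfin := hq z₁ hz₁n hz₁0
  have hRne : Rf β x₁ ≠ 0 := Rf_ne hβ hx₁n hx₁ne
  have e1 : (1 - ((1 / β : ℝ) : ℂ) * (z₁ * deriv r z₁)) / r z₁ =
      ((1 - m : ℝ) : ℂ) * Pf β x₁ + (m : ℂ) * Qf x₁ := by
    rw [← hD, hDm, hrx, Pf, hn, mm_eq hφ, ← hφe]
    push_cast
    field_simp
    ring
  rw [e1, add_re, Complex.re_ofReal_mul, Complex.re_ofReal_mul] at hfin
  have hQ : (Qf x₁).re = 0 := by
    rw [hφe, Qf_bp hφ, neg_mul, neg_re, mul_comm, re_ofReal_mul, I_re, mul_zero, neg_zero]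
  have hP := Pf_re_pos hβ hx₁n hx₁ne
  rw [hQ, mul_zero, add_zero] at hfin
  nlinarith

end Pool.Agent.TH242.AC
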