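import Mathlib
import Pool.Agent.TH242.AC.Sub
import Pool.Agent.TH242.AC.Dom2

open Complex Metric Set Filter Topology

namespace Pool.Agent.TH242.AC

lemma coef_unique {f₁ f₂ P : ℂ → ℂ} {c d p : ℕ → ℂ} (h1 : HasPS f₁ c)
    (h2 : HasPS f₂ d) (hP : HasPS P p) (hc0 : c 0 = 1) (hd0 : d 0 = 1) (hp0 : p 0 = 1)
    (ho1 : ∀ z : ℂ, ‖z‖ < 1 → z * deriv f₁ z = (P z - 1) * f₁ z)
    (ho2 : ∀ z : ℂ, ‖z‖ < 1 → z * deriv f₂ z = (P z - 1) * f₂ z) (n : ℕ) : c n = d n := by
  have key : ∀ {f : ℂ → ℂ} {e : ℕ → ℂ}, HasPS f e → e 0 = 1 →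
      (∀ z : ℂ, ‖z‖ < 1 → z * deriv f z = (P z - 1) * f z) → ∀ n : ℕ, ((n : ℂ) + 1) * e (n+1) =
      ∑ j ∈ Finset.range (n+1), p (j+1) * e (n - j) := by
    intro f e hf he0 hode n
    have h3 : HasPS (fun z => P z * f z) (fun n => ((n : ℂ) * e n) + e n) := by
      refine (hf.zderiv.add hf).congr (fun z hz => ?_)
      rw [hode z hz]; ring
    have h4 := congrFun (h3.unique (hP.mul hf)) (n+1)
    rw [sum_antidiag_succ p e n, hp0] at h4
    push_cast at h4 ⊢
    linear_combination h4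
  have k1 := key h1 hc0 ho1
  have k2 := key h2 hd0 ho2
  induction n using Nat.strong_induction_on with
  | _ n ih =>
    rcases Nat.eq_zero_or_pos n with rfl | hn
    · rw [hc0, hd0]
    · obtain ⟨k, rfl⟩ : ∃ k, n = k + 1 := ⟨n - 1, by omega⟩
      have h6 : ((k:ℂ) + 1) ≠ 0 := by exact_mod_cast Nat.succ_ne_zero k
      apply mul_left_cancel₀ h6
      rw [k1 k, k2 k]
      apply Finset.sum_congr rfl
      intro j _
      rw [ih (k - j) (by omega)]

/-- logarithmic primitive -/
lemma exists_root {p : ℂ → ℂ} (hp : DifferentiableOn ℂ p (ball 0 1)) (hp0 : p 0 = 1) :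
    ∃ χ : ℂ → ℂ, DifferentiableOn ℂ χ (ball 0 1) ∧ χ 0 = 1 ∧
      ∀ z : ℂ, ‖z‖ < 1 → 2 * (z * deriv χ z) = (p z - 1) * χ z := by
  have hps := hasPS_tc hp
  set l : ℕ → ℂ := fun n => tc p n / n with hl
  have hsum : ∀ z : ℂ, ‖z‖ < 1 → Summable (fun n => l n * z ^ n) := by
    intro z hz
    refine Summable.of_norm_bounded (hps.summable_norm hz) (fun n => ?_)
    rw [norm_mul, norm_mul]
    apply mul_le_mul_of_nonneg_right _ (norm_nonneg _)
    rw [hl]
    simp only [norm_div]
    rcases Nat.eq_zero_or_pos n with rfl | hn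
    · simp
    · apply div_le_self (norm_nonneg _)
      rw [Complex.norm_natCast]
      exact_mod_cast hn
  set L : ℂ → ℂ := fun z => ∑' n, l n * z ^ n with hL
  have hLps : HasPS L l := fun z hz => (hsum z hz).hasSum
  have hL0 : L 0 = 0 := by rw [hLps.zero_val, hl]; simp
  have hLd : ∀ z : ℂ, ‖z‖ < 1 → z * deriv L z = p z - 1 := by
    intro z hz
    have h1 := hLps.zderiv z hz
    have h2 := (hps z hz).sub ((hasPS_pow 0) z hz)
    have h3 : (fun n : ℕ => (n : ℂ) * l n * z ^ n) =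
        (fun n => tc p n * z ^ n - (if n = 0 then 1 else 0) * z ^ n) := by
      funext n
      rcases Nat.eq_zero_or_pos n with rfl | hn
      · have : tc p 0 = 1 := by rw [← hps.zero_val, hp0]
        simp [this]
      · have : (n : ℂ) ≠ 0 := by exact_mod_cast hn.ne'
        rw [hl]
        simp only [hn.ne', if_false]
        field_simp
        ring
    rw [h3] at h1
    have := h1.unique h2
    simpa using this
  refine ⟨fun z => exp (L z / 2), ?_, by simp [hL0], ?_⟩
  · have := hLps.diffOn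
    fun_prop
  · intro z hz
    have h1 : HasDerivAt L (deriv L z) z :=
      (hLps.diffOn.differentiableAt (isOpen_ball.mem_nhds (by simpa using hz))).hasDerivAt
    have h2 := ((h1.div_const 2).cexp).deriv
    rw [h2]
    linear_combination (exp (L z / 2)) * hLd z hz

lemma kap_sq_coef {β : ℝ} (hβ : 1 < β) (n : ℕ) :
    ∑ kl ∈ Finset.HasAntidiagonal.antidiagonal n, kco β kl.1 * kco β kl.2 =
      rco (pco (1 / β)) 1 n := by
  have hk := hasPS_kap hβ
  have h1 := hk.mul hk
  have hode : ∀ z : ℂ, ‖z‖ < 1 → ((1:ℝ) : ℂ) * (z * deriv (fun z => kap β z * kap β z) z) =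
      (Pf β z - 1) * (kap β z * kap β z) := by
    intro z hz
    have h2 : HasDerivAt (kap β) (deriv (kap β) z) z :=
      ((kap_diff hβ).differentiableAt (isOpen_ball.mem_nhds (by simpa using hz))).hasDerivAt
    have h3 := (h2.mul h2).deriv
    have h4 := kap_ode hβ hz
    have h5 : deriv (fun z => kap β z * kap β z) z = deriv (kap β) z * kap β z +
        kap β z * deriv (kap β) z := h3
    rw [h5]
    push_cast
    linear_combination (kap β z) * h4
  have h2 := coef_of_ode one_pos h1 (hasPS_Pf hβ) (by simp [kco_zero]) (pco_zero _) hode n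
  have h3 : ((∑ kl ∈ Finset.HasAntidiagonal.antidiagonal n, kco β kl.1 * kco β kl.2 : ℝ) : ℂ) =
      ((rco (pco (1 / β)) 1 n : ℝ) : ℂ) := by
    rw [← h2]
    push_cast
    rfl
  exact_mod_cast h3

theorem upper {β : ℝ} (hβ : 1 < β) (hM : MR β) (hX : ∀ φ ∈ Ico 0 Real.pi, XX β φ < 1)
    {f : ℂ → ℂ} (hf : IsAlphaConvex (1 / β) f) (n : ℕ) :
    ‖tc f (n+1)‖ ≤ rco (pco (1 / β)) 1 n := by
  obtain ⟨hd, hinj, hf0, hf1, hre⟩ := hf
  have hb0 : (0:ℂ) ∈ ball (0:ℂ) 1 := by simp
  have hf'ne : ∀ z : ℂ, ‖z‖ < 1 → deriv f z ≠ 0 := fun z hz =>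
    deriv_ne_zero_of_injOn isOpen_ball hd hinj (by simpa using hz)
  set F := dslope f 0 with hF
  have hFd : DifferentiableOn ℂ F (ball 0 1) :=
    (Complex.differentiableOn_dslope (isOpen_ball.mem_nhds hb0)).mpr hd
  have hfF : ∀ z : ℂ, f z = z * F z := by
    intro z
    have := sub_smul_dslope f 0 z
    rw [sub_zero, hf0, sub_zero, smul_eq_mul] at this
    exact this.symm
  have hF0 : F 0 = 1 := by rw [hF, dslope_same, hf1]
  have hFne : ∀ z : ℂ, ‖z‖ < 1 → F z ≠ 0 := by
    intro z hz h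
    rcases eq_or_ne z 0 with rfl | hz0
    · rw [hF0] at h; exact one_ne_zero h
    · have h1 : f z = f 0 := by rw [hfF z, h, mul_zero, hf0]
      exact hz0 (hinj (by simpa using hz) hb0 h1)
  have hf'd : DifferentiableOn ℂ (deriv f) (ball 0 1) := hd.deriv isOpen_ball
  have hnhds : ∀ z : ℂ, ‖z‖ < 1 → ball (0:ℂ) 1 ∈ 𝓝 z := fun z hz =>
    isOpen_ball.mem_nhds (by simpa using hz)
  have hFder : ∀ z : ℂ, ‖z‖ < 1 → z * deriv F z = deriv f z - F z := by
    intro z hz
    have h1 : HasDerivAt F (deriv F z) z := (hFd.differentiableAt (hnhds z hz)).hasDerivAt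
    have h2 := ((hasDerivAt_id z).mul h1).deriv
    have h3 : deriv f z = deriv (id * F) z := by
      congr 1
      funext w
      rw [hfF w]; rfl
    rw [h3, h2]
    simp
  set r : ℂ → ℂ := fun z => F z / deriv f z with hr
  have hrd : DifferentiableOn ℂ r (ball 0 1) :=
    hFd.div hf'd (fun z hz => hf'ne z (by simpa using hz))
  set p : ℂ → ℂ := fun z => deriv f z / F z with hp
  have hpd : DifferentiableOn ℂ p (ball 0 1) :=
    hf'd.div hFd (fun z hz => hFne z (by simpa using hz))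
  have hp0 : p 0 = 1 := by simp [hp, hF0, hf1]
  have hsub := subordination hβ hrd (by simp [hr, hF0, hf1])
    (fun z hz => div_ne_zero (hFne z hz) (hf'ne z hz)) (by
      intro z hz hz0
      have h1 := hre z (by simpa using hz) hz0
      have hFn := hFne z hz
      have hfn := hf'ne z hz
      have h2 : HasDerivAt F (deriv F z) z := (hFd.differentiableAt (hnhds z hz)).hasDerivAt
      have h3 : HasDerivAt (deriv f) (deriv (deriv f) z) z :=
        (hf'd.differentiableAt (hnhds z hz)).hasDerivAt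
      have h4 : deriv r z = (deriv F z * deriv f z - F z * deriv (deriv f) z) / deriv f z ^ 2 :=
        (h2.div h3 hfn).deriv
      have h5 : (1 - ((1 / β : ℝ) : ℂ) * (z * deriv r z)) / r z =
          ((1 / β : ℝ) : ℂ) * (1 + z * deriv (deriv f) z / deriv f z) +
        (1 - ((1 / β : ℝ) : ℂ)) * (z * deriv f z / f z) := by
        have h6 : z * deriv r z = ((z * deriv F z) * deriv f z - F z * (z * deriv (deriv f) z)) /
            deriv f z ^ 2 := by rw [h4]; ring
        rw [h6, hFder z hz, hr, hfF z]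
        field_simp
        ring
      rw [h5]
      exact h1)
  obtain ⟨χ, hχd, hχ0, hχode⟩ := exists_root hpd hp0
  have hχps := hasPS_tc hχd
  have hχc0 : tc χ 0 = 1 := by rw [← hχps.zero_val, hχ0]
  have hdom := coef_dom hβ hM hX hχps hχc0 hsub (by
    intro z hz
    rw [hχode z hz, hr, hp]
    have hFn := hFne z hz
    have hfn := hf'ne z hz
    field_simp
    ring)
  have hFps := hasPS_tc hFd
  have hfps := hasPS_tc hd
  have e1 : tc f (n+1) = tc F n := by
    have h1 : HasPS f (fun n => if n = 0 then 0 else tc F (n - 1)) :=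
      hFps.zmul.congr (fun z _ => hfF z)
    have h2 := congrFun (hfps.unique h1) (n+1)
    simpa using h2
  have e2 : tc F n = ∑ kl ∈ Finset.HasAntidiagonal.antidiagonal n, tc χ kl.1 * tc χ kl.2 := by
    refine coef_unique (P := p) hFps (hχps.mul hχps) (hasPS_tc hpd) (by rw [← hFps.zero_val, hF0])
      (by simp [hχc0]) (by rw [← (hasPS_tc hpd).zero_val, hp0]) ?_ ?_ n
    · intro z hz
      rw [hFder z hz, hp]
      have hFn := hFne z hz
      field_simp
    · intro z hz
      have h2 : HasDerivAt χ (deriv χ z) z := (hχd.differentiableAt (hnhds z hz)).hasDerivAt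
      have h5 : deriv (fun z => χ z * χ z) z = deriv χ z * χ z + χ z * deriv χ z :=
        (h2.mul h2).deriv
      rw [h5]
      linear_combination (χ z) * hχode z hz
  rw [e1, e2, ← kap_sq_coef hβ]
  refine (norm_sum_le _ _).trans (Finset.sum_le_sum (fun kl _ => ?_))
  rw [norm_mul]
  exact mul_le_mul (hdom _) (hdom _) (norm_nonneg _) ((norm_nonneg _).trans (hdom _))

/-- the extremal function -/
noncomputable def Kf (β : ℝ) (z : ℂ) : ℂ := z * (kap β z * kap β z)

lemma Kf_deriv {β : ℝ} (hβ : 1 < β) {z : ℂ} (hz : ‖z‖ < 1) :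
    deriv (Kf β) z = Pf β z * (kap β z * kap β z) := by
  have h2 : HasDerivAt (kap β) (deriv (kap β) z) z :=
    ((kap_diff hβ).differentiableAt (isOpen_ball.mem_nhds (by simpa using hz))).hasDerivAt
  have h3 := ((hasDerivAt_id z).mul (h2.mul h2)).deriv
  have h4 := kap_ode hβ hz
  have h5 : deriv (Kf β) z = 1 * (kap β z * kap β z) + z * (deriv (kap β) z * kap β z +
        kap β z * deriv (kap β) z) := h3
  rw [h5]
  linear_combination (kap β z) * h4

lemma Kf_isAlphaConvex {β : ℝ} (hβ : 1 < β) : IsAlphaConvex (1 / β) (Kf β) := by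
  have hkd := kap_diff hβ
  have hKd : DifferentiableOn ℂ (Kf β) (ball 0 1) := by
    unfold Kf; fun_prop
  have hPd := Pf_diff hβ
  have hK0 : Kf β 0 = 0 := by simp [Kf]
  have hK1 : deriv (Kf β) 0 = 1 := by
    rw [Kf_deriv hβ (by simp), Pf_zero, kap_zero]; ring
  have hkne : ∀ z : ℂ, ‖z‖ < 1 → kap β z ≠ 0 := fun z hz => kap_ne (ne_one_of_norm_lt hz)
  have hratio : ∀ z : ℂ, ‖z‖ < 1 → z ≠ 0 → z * deriv (Kf β) z / Kf β z = Pf β z := by
    intro z hz hz0
    rw [Kf_deriv hβ hz, Kf]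
    have := hkne z hz
    field_simp
  refine ⟨hKd, ?_, hK0, hK1, ?_⟩
  · apply injOn_of_starlike hKd hK0 (by rw [hK1]; exact one_ne_zero)
    · intro z hz hz0
      have := hkne z (by simpa using hz)
      exact mul_ne_zero hz0 (mul_ne_zero this this)
    · intro z hz hz0
      have hz' : ‖z‖ < 1 := by simpa using hz
      rw [hratio z hz' hz0]
      exact Pf_re_pos hβ hz'.le (ne_one_of_norm_lt hz')
  · intro z hz hz0
    have hz' : ‖z‖ < 1 := by simpa using hz
    have hPne : Pf β z ≠ 0 := inv_ne_zero (Rf_ne hβ hz'.le (ne_one_of_norm_lt hz'))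
    have hkn := hkne z hz'
    have hder2 : deriv (deriv (Kf β)) z = deriv (fun z => Pf β z * (kap β z * kap β z)) z := by
      apply Filter.EventuallyEq.deriv_eq
      filter_upwards [isOpen_ball.mem_nhds hz] with w hw
      exact Kf_deriv hβ (by simpa using hw)
    have h2 : HasDerivAt (kap β) (deriv (kap β) z) z :=
      (hkd.differentiableAt (isOpen_ball.mem_nhds hz)).hasDerivAt
    have h3 : HasDerivAt (Pf β) (deriv (Pf β) z) z :=
      (hPd.differentiableAt (isOpen_ball.mem_nhds hz)).hasDerivAt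
    have h4 : deriv (fun z => Pf β z * (kap β z * kap β z)) z = deriv (Pf β) z *
        (kap β z * kap β z) + Pf β z * (deriv (kap β) z * kap β z + kap β z * deriv (kap β) z) :=
      (h3.mul (h2.mul h2)).deriv
    have h5 := kap_ode hβ hz'
    have h6 := Pf_ode hβ hz'
    have h7 : z * deriv (deriv (Kf β)) z / deriv (Kf β) z =
        (z * deriv (Pf β) z) / Pf β z + (Pf β z - 1) := by
      rw [hder2, h4, Kf_deriv hβ hz']
      have e : z * (deriv (Pf β) z * (kap β z * kap β z) + Pf β z * (deriv (kap β) z * kap β z +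
          kap β z * deriv (kap β) z)) = (z * deriv (Pf β) z) * (kap β z * kap β z) +
          Pf β z * kap β z * (2 * (z * deriv (kap β) z)) := by ring
      rw [e, h5]
      field_simp
    have h8 : ((1 / β : ℝ) : ℂ) * (1 + z * deriv (deriv (Kf β)) z / deriv (Kf β) z) +
        (1 - ((1 / β : ℝ) : ℂ)) * (z * deriv (Kf β) z / Kf β z) = Qf z := by
      rw [h7, hratio z hz' hz0]
      have e : ((1 / β : ℝ) : ℂ) * (z * deriv (Pf β) z) = (Qf z - Pf β z) * Pf β z := by
        linear_combination h6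
      have e2 : ((1 / β : ℝ) : ℂ) * (1 + ((z * deriv (Pf β) z) / Pf β z + (Pf β z - 1))) +
        (1 - ((1 / β : ℝ) : ℂ)) * Pf β z =
        (((1 / β : ℝ) : ℂ) * (z * deriv (Pf β) z)) / Pf β z + Pf β z := by ring
      rw [e2, e]
      field_simp
      ring
    rw [h8]
    exact Qf_re_pos hz'

lemma rco_nonneg {β : ℝ} (hβ : 1 < β) (n : ℕ) : 0 ≤ rco (pco (1 / β)) 1 n := by
  rw [← kap_sq_coef hβ]
  exact Finset.sum_nonneg (fun kl _ => mul_nonneg (kco_lower hβ _).1.le (kco_lower hβ _).1.le)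

lemma Kf_coef {β : ℝ} (hβ : 1 < β) (n : ℕ) : tc (Kf β) (n+1) = (rco (pco (1 / β)) 1 n : ℂ) := by
  have hk := hasPS_kap hβ
  have h1 := (hk.mul hk).zmul
  have hKd : DifferentiableOn ℂ (Kf β) (ball 0 1) := by
    have := kap_diff hβ
    unfold Kf; fun_prop
  have h2 : HasPS (Kf β) _ := h1
  have h3 := congrFun (h2.tc_eq hKd) (n+1)
  rw [h3]
  simp only [Nat.add_eq_zero_iff, one_ne_zero, and_false, if_false, Nat.add_sub_cancel]
  rw [← kap_sq_coef hβ]
  push_cast
  rfl

theorem isGreatest {β : ℝ} (hβ : 1 < β) (hM : MR β) (hX : ∀ φ ∈ Ico 0 Real.pi, XX β φ < 1)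
    (n : ℕ) : IsGreatest {x : ℝ | ∃ f, IsAlphaConvex (1 / β) f ∧ x = ‖tc f (n+1)‖}
      (rco (pco (1 / β)) 1 n) := by
  constructor
  · refine ⟨Kf β, Kf_isAlphaConvex hβ, ?_⟩
    rw [Kf_coef hβ, Complex.norm_real, Real.norm_eq_abs, abs_of_nonneg (rco_nonneg hβ n)]
  · rintro x ⟨f, hf, rfl⟩
    exact upper hβ hM hX hf n

end Pool.Agent.TH242.AC
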