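import Mathlib
import Pool.Agent.TH242.AC.Chk4

open Set

namespace Pool.Agent.TH242.AC

/-- normalised quantities near parameter one -/
noncomputable def gam (β w : ℝ) : ℝ := (gW β w - 2) / (β - 1)
noncomputable def pip (β w : ℝ) : ℝ := (PW β w / 2 - 1) / (β - 1)

lemma gW_gam {β : ℝ} (hβ : 1 < β) (w : ℝ) : gW β w = 2 + (β - 1) * gam β w := by
  have : β - 1 ≠ 0 := by linarith
  rw [gam]; field_simp; ring

lemma PW_pip {β : ℝ} (hβ : 1 < β) (w : ℝ) : PW β w = 2 * (1 + (β - 1) * pip β w) := by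
  have : β - 1 ≠ 0 := by linarith
  rw [pip]; field_simp; ring

noncomputable def QN (t w1 m k w : ℝ) : ℝ :=
  w * (1 - w) * k + (1 / 2 + t * w) * (m + k * (w - w1)) - (1 - 2 * w)

lemma QN_affine {ta tb t w1 m k w : ℝ} (ha : ta ≤ t) (hb : t ≤ tb)
    (h1 : 0 ≤ QN ta w1 m k w) (h2 : 0 ≤ QN tb w1 m k w) : 0 ≤ QN t w1 m k w := by
  have e1 : QN t w1 m k w = QN ta w1 m k w + (t - ta) * (w * (m + k * (w - w1))) := by
    rw [QN, QN]; ring
  have e2 : QN t w1 m k w = QN tb w1 m k w - (tb - t) * (w * (m + k * (w - w1))) := by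
    rw [QN, QN]; ring
  rcases le_total 0 (w * (m + k * (w - w1))) with h | h
  · rw [e1]
    have := mul_nonneg (sub_nonneg.mpr ha) h
    linarith
  · rw [e2]
    have := mul_nonneg (sub_nonneg.mpr hb) (neg_nonneg.mpr h)
    linarith

lemma QN_affine' {ta tb t w1 m k w : ℝ} (ha : ta ≤ t) (hb : t ≤ tb)
    (h1 : QN ta w1 m k w ≤ 0) (h2 : QN tb w1 m k w ≤ 0) : QN t w1 m k w ≤ 0 := by
  have e1 : QN t w1 m k w = QN ta w1 m k w + (t - ta) * (w * (m + k * (w - w1))) := by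
    rw [QN, QN]; ring
  have e2 : QN t w1 m k w = QN tb w1 m k w - (tb - t) * (w * (m + k * (w - w1))) := by
    rw [QN, QN]; ring
  rcases le_total 0 (w * (m + k * (w - w1))) with h | h
  · rw [e2]
    have := mul_nonneg (sub_nonneg.mpr hb) h
    linarith
  · rw [e1]
    have := mul_nonneg (sub_nonneg.mpr ha) (neg_nonneg.mpr h)
    linarith

def NStU (t w1 w2 m m' : ℝ) : Prop :=
  0 ≤ w1 * (1 - w1) * (m' - m) + (w2 - w1) * ((1 / 2 + t * w1) * m - (1 - 2 * w1)) ∧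
  0 ≤ (3 / 2 - 2 * w1 + t * w1) * (m' - m) + (w2 - w1) * (t * m + 2)

def NStL (t w1 w2 m m' : ℝ) : Prop :=
  w1 * (1 - w1) * (m' - m) + (w2 - w1) * ((1 / 2 + t * w1) * m - (1 - 2 * w1)) ≤ 0 ∧
  w2 * (1 - w2) * (m' - m) + (w2 - w1) * ((1 / 2 + t * w2) * m' - (1 - 2 * w2)) ≤ 0

lemma QN_upper {t w1 w2 m m' : ℝ} (ht : t ≤ 1) (h12 : w1 < w2) (hm : m' ≤ m)
    (h : NStU t w1 w2 m m') :
    ∀ w ∈ Icc w1 w2, 0 ≤ QN t w1 m ((m' - m) / (w2 - w1)) w := by
  intro w hw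
  obtain ⟨h0, h2⟩ := h
  have hd : 0 < w2 - w1 := by linarith
  set k := (m' - m) / (w2 - w1) with hk
  have hkm : m' - m = k * (w2 - w1) := by rw [hk]; field_simp
  have hk0 : k ≤ 0 := div_nonpos_of_nonpos_of_nonneg (by linarith) hd.le
  have e : QN t w1 m k w = (w1 * (1 - w1) * k + (1 / 2 + t * w1) * m - (1 - 2 * w1)) +
      ((3 / 2 - 2 * w1 + t * w1) * k + (t * m + 2)) * (w - w1) + ((t - 1) * k) * (w - w1) ^ 2 := by
    rw [QN]; ring
  rw [e]
  rw [hkm] at h0 h2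
  have a0 : 0 ≤ w1 * (1 - w1) * k + (1 / 2 + t * w1) * m - (1 - 2 * w1) := by
    have h3 : 0 ≤ (w2 - w1) * (w1 * (1 - w1) * k + (1 / 2 + t * w1) * m - (1 - 2 * w1)) := by
      linarith
    exact nonneg_of_mul_nonneg_right h3 hd
  have a1 : 0 ≤ (3 / 2 - 2 * w1 + t * w1) * k + (t * m + 2) := by
    have h3 : 0 ≤ (w2 - w1) * ((3 / 2 - 2 * w1 + t * w1) * k + (t * m + 2)) := by linarith
    exact nonneg_of_mul_nonneg_right h3 hd
  have a2 : 0 ≤ (t - 1) * k := mul_nonneg_of_nonpos_of_nonpos (by linarith) hk0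
  have hx : 0 ≤ w - w1 := by linarith [hw.1]
  positivity

lemma QN_lower {t w1 w2 m m' : ℝ} (ht : t ≤ 1) (h12 : w1 < w2) (hm : m' ≤ m)
    (h : NStL t w1 w2 m m') :
    ∀ w ∈ Icc w1 w2, QN t w1 m ((m' - m) / (w2 - w1)) w ≤ 0 := by
  intro w hw
  obtain ⟨h0, h1⟩ := h
  have hd : 0 < w2 - w1 := by linarith
  set k := (m' - m) / (w2 - w1) with hk
  have hkm : m' - m = k * (w2 - w1) := by rw [hk]; field_simp
  have hk0 : k ≤ 0 := div_nonpos_of_nonpos_of_nonneg (by linarith) hd.le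
  have e : QN t w1 m k w = -((-(w1 * (1 - w1) * k + (1 / 2 + t * w1) * m - (1 - 2 * w1))) +
      (-((3 / 2 - 2 * w1 + t * w1) * k + (t * m + 2))) * (w - w1) +
      ((1 - t) * k) * (w - w1) ^ 2) := by
    rw [QN]; ring
  rw [e, neg_nonpos]
  have hm' : m' = m + k * (w2 - w1) := by linarith
  rw [hkm] at h0 h1
  apply quad_nonneg (d := w2 - w1) (by linarith [hw.1]) (by linarith [hw.2]) hd
  · have h3 : 0 ≤ (w2 - w1) * (-(w1 * (1 - w1) * k + (1 / 2 + t * w1) * m - (1 - 2 * w1))) := by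
      linarith
    exact nonneg_of_mul_nonneg_right h3 hd
  · have h3 : 0 ≤ (w2 - w1) * ((-(w1 * (1 - w1) * k + (1 / 2 + t * w1) * m - (1 - 2 * w1))) +
      (-((3 / 2 - 2 * w1 + t * w1) * k + (t * m + 2))) * (w2 - w1) +
      ((1 - t) * k) * (w2 - w1) ^ 2) := by
      rw [hm'] at h1
      linarith
    exact nonneg_of_mul_nonneg_right h3 hd
  · left
    exact mul_nonpos_of_nonneg_of_nonpos (by linarith) hk0

lemma nstepG_up {β ta tb w1 w2 m m' : ℝ} (hβ : 1 < β) (ha : 1 + ta ≤ β) (hb : β ≤ 1 + tb)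
    (htb : tb ≤ 1)
    (h0 : 0 ≤ w1) (h12 : w1 < w2) (h2 : w2 < 1) (hm : m' ≤ m)
    (hA : NStU ta w1 w2 m m') (hB : NStU tb w1 w2 m m') (hg : gam β w1 ≤ m) :
    (∀ w ∈ Icc w1 w2, gam β w ≤ m) ∧ gam β w2 ≤ m' := by
  have hθ : 0 < β - 1 := by linarith
  have h := gW_upper hβ (m := 2 + (β - 1) * m) (k := (β - 1) * ((m' - m) / (w2 - w1))) h0 h2
    (fun w hw => by
      have h3 := QN_affine (t := β - 1) (by linarith) (by linarith)
        (QN_upper (by linarith) h12 hm hA w hw) (QN_upper htb h12 hm hB w hw)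
      have e : w * (1 - w) * ((β - 1) * ((m' - m) / (w2 - w1))) + (1 / 2 + (β - 1) * w) *
          (2 + (β - 1) * m + (β - 1) * ((m' - m) / (w2 - w1)) * (w - w1)) - β =
          (β - 1) * QN (β - 1) w1 m ((m' - m) / (w2 - w1)) w := by
        rw [QN]; ring
      rw [e]
      exact mul_nonneg hθ.le h3) (by
      rw [gW_gam hβ]
      have := mul_le_mul_of_nonneg_left hg hθ.le
      linarith)
  have h' : ∀ w ∈ Icc w1 w2, gam β w ≤ m + (m' - m) / (w2 - w1) * (w - w1) := by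
    intro w hw
    have h3 := h w hw
    rw [gW_gam hβ] at h3
    have h4 : (β - 1) * gam β w ≤ (β - 1) * (m + (m' - m) / (w2 - w1) * (w - w1)) := by linarith
    exact le_of_mul_le_mul_left h4 hθ
  constructor
  · intro w hw
    exact (h' w hw).trans (aff_mem h12 hm hw).2
  · have := h' w2 ⟨h12.le, le_rfl⟩
    rwa [aff_end h12] at this

lemma nstepG_lo {β ta tb w1 w2 m m' : ℝ} (hβ : 1 < β) (ha : 1 + ta ≤ β) (hb : β ≤ 1 + tb)
    (htb : tb ≤ 1)
    (h0 : 0 ≤ w1) (h12 : w1 < w2) (h2 : w2 < 1) (hm : m' ≤ m)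
    (hA : NStL ta w1 w2 m m') (hB : NStL tb w1 w2 m m') (hg : m ≤ gam β w1) :
    (∀ w ∈ Icc w1 w2, m' ≤ gam β w) ∧ m' ≤ gam β w2 := by
  have hθ : 0 < β - 1 := by linarith
  have h := gW_lower hβ (m := 2 + (β - 1) * m) (k := (β - 1) * ((m' - m) / (w2 - w1))) h0 h2
    (fun w hw => by
      have h3 := QN_affine' (t := β - 1) (by linarith) (by linarith)
        (QN_lower (by linarith) h12 hm hA w hw) (QN_lower htb h12 hm hB w hw)
      have e : w * (1 - w) * ((β - 1) * ((m' - m) / (w2 - w1))) + (1 / 2 + (β - 1) * w) *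
          (2 + (β - 1) * m + (β - 1) * ((m' - m) / (w2 - w1)) * (w - w1)) - β =
          (β - 1) * QN (β - 1) w1 m ((m' - m) / (w2 - w1)) w := by
        rw [QN]; ring
      rw [e]
      exact mul_nonpos_of_nonneg_of_nonpos hθ.le h3) (by
      rw [gW_gam hβ]
      have := mul_le_mul_of_nonneg_left hg hθ.le
      linarith)
  have h' : ∀ w ∈ Icc w1 w2, m + (m' - m) / (w2 - w1) * (w - w1) ≤ gam β w := by
    intro w hw
    have h3 := h w hw
    rw [gW_gam hβ] at h3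
    have h4 : (β - 1) * (m + (m' - m) / (w2 - w1) * (w - w1)) ≤ (β - 1) * gam β w := by linarith
    exact le_of_mul_le_mul_left h4 hθ
  constructor
  · intro w hw
    exact (aff_mem h12 hm hw).1.trans (h' w hw)
  · have := h' w2 ⟨h12.le, le_rfl⟩
    rwa [aff_end h12] at this

def NSpU (t w1 w2 m m' : ℝ) : Prop :=
  0 ≤ (1 - w1) * (m' - m) + (w2 - w1) * (1 + t * m) ∧
  0 ≤ (1 - w2) * (m' - m) + (w2 - w1) * (1 + t * m')

def NSpL (t w1 w2 m m' : ℝ) : Prop :=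
  (1 - w1) * (m' - m) + (w2 - w1) * (1 + t * m) ≤ 0 ∧
  (1 - w2) * (m' - m) + (w2 - w1) * (1 + t * m') ≤ 0

noncomputable def QP (t w1 m k w : ℝ) : ℝ := (1 - w) * k + (1 + t * (m + k * (w - w1)))

lemma QP_upper {t w1 w2 m m' : ℝ} (h12 : w1 < w2) (h : NSpU t w1 w2 m m') :
    ∀ w ∈ Icc w1 w2, 0 ≤ QP t w1 m ((m' - m) / (w2 - w1)) w := by
  intro w hw
  obtain ⟨h3, h4⟩ := h
  have hd : 0 < w2 - w1 := by linarith
  set k := (m' - m) / (w2 - w1) with hk
  have hkm : m' - m = k * (w2 - w1) := by rw [hk]; field_simp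
  have hm' : m' = m + k * (w2 - w1) := by linarith
  rw [hkm] at h3 h4
  have h5 : 0 ≤ (1 - w1) * k + (1 + t * m) := by
    have : 0 ≤ (w2 - w1) * ((1 - w1) * k + (1 + t * m)) := by linarith
    exact nonneg_of_mul_nonneg_right this hd
  have h6 : 0 ≤ (1 - w2) * k + (1 + t * m') := by
    have : 0 ≤ (w2 - w1) * ((1 - w2) * k + (1 + t * m')) := by linarith
    exact nonneg_of_mul_nonneg_right this hd
  have e : (w2 - w1) * QP t w1 m k w =
        (w2 - w) * ((1 - w1) * k + (1 + t * m)) + (w - w1) * ((1 - w2) * k + (1 + t * m')) := by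
    rw [hm', QP]; ring
  have : 0 ≤ (w2 - w1) * QP t w1 m k w := by
    rw [e]
    have a1 := mul_nonneg (sub_nonneg.mpr hw.2) h5
    have a2 := mul_nonneg (sub_nonneg.mpr hw.1) h6
    linarith
  exact nonneg_of_mul_nonneg_right this hd

lemma QP_lower {t w1 w2 m m' : ℝ} (h12 : w1 < w2) (h : NSpL t w1 w2 m m') :
    ∀ w ∈ Icc w1 w2, QP t w1 m ((m' - m) / (w2 - w1)) w ≤ 0 := by
  intro w hw
  obtain ⟨h3, h4⟩ := h
  have hd : 0 < w2 - w1 := by linarith
  set k := (m' - m) / (w2 - w1) with hk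
  have hkm : m' - m = k * (w2 - w1) := by rw [hk]; field_simp
  have hm' : m' = m + k * (w2 - w1) := by linarith
  rw [hkm] at h3 h4
  have h5 : 0 ≤ -((1 - w1) * k + (1 + t * m)) := by
    have : 0 ≤ (w2 - w1) * (-((1 - w1) * k + (1 + t * m))) := by linarith
    exact nonneg_of_mul_nonneg_right this hd
  have h6 : 0 ≤ -((1 - w2) * k + (1 + t * m')) := by
    have : 0 ≤ (w2 - w1) * (-((1 - w2) * k + (1 + t * m'))) := by linarith
    exact nonneg_of_mul_nonneg_right this hd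
  have e : (w2 - w1) * (-QP t w1 m k w) =
        (w2 - w) * (-((1 - w1) * k + (1 + t * m))) + (w - w1) * (-((1 - w2) * k + (1 + t * m'))) := by
    rw [hm', QP]; ring
  have : 0 ≤ (w2 - w1) * (-QP t w1 m k w) := by
    rw [e]
    have a1 := mul_nonneg (sub_nonneg.mpr hw.2) h5
    have a2 := mul_nonneg (sub_nonneg.mpr hw.1) h6
    linarith
  have := nonneg_of_mul_nonneg_right this hd
  linarith

lemma QP_affine {ta tb t w1 m k w : ℝ} (ha : ta ≤ t) (hb : t ≤ tb)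
    (h1 : 0 ≤ QP ta w1 m k w) (h2 : 0 ≤ QP tb w1 m k w) : 0 ≤ QP t w1 m k w := by
  have e1 : QP t w1 m k w = QP ta w1 m k w + (t - ta) * (m + k * (w - w1)) := by
    rw [QP, QP]; ring
  have e2 : QP t w1 m k w = QP tb w1 m k w - (tb - t) * (m + k * (w - w1)) := by
    rw [QP, QP]; ring
  rcases le_total 0 (m + k * (w - w1)) with h | h
  · rw [e1]
    have := mul_nonneg (sub_nonneg.mpr ha) h
    linarith
  · rw [e2]
    have := mul_nonneg (sub_nonneg.mpr hb) (neg_nonneg.mpr h)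
    linarith

lemma QP_affine' {ta tb t w1 m k w : ℝ} (ha : ta ≤ t) (hb : t ≤ tb)
    (h1 : QP ta w1 m k w ≤ 0) (h2 : QP tb w1 m k w ≤ 0) : QP t w1 m k w ≤ 0 := by
  have e1 : QP t w1 m k w = QP ta w1 m k w + (t - ta) * (m + k * (w - w1)) := by
    rw [QP, QP]; ring
  have e2 : QP t w1 m k w = QP tb w1 m k w - (tb - t) * (m + k * (w - w1)) := by
    rw [QP, QP]; ring
  rcases le_total 0 (m + k * (w - w1)) with h | h
  · rw [e2]
    have := mul_nonneg (sub_nonneg.mpr hb) h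
    linarith
  · rw [e1]
    have := mul_nonneg (sub_nonneg.mpr ha) (neg_nonneg.mpr h)
    linarith

lemma nstepP_up {β ta tb w1 w2 m m' : ℝ} (hβ : 1 < β) (ha : 1 + ta ≤ β) (hb : β ≤ 1 + tb)
    (h0 : 0 ≤ w1) (h12 : w1 < w2) (h2 : w2 < 1) (hm : m' ≤ m)
    (hA : NSpU ta w1 w2 m m') (hB : NSpU tb w1 w2 m m') (hg : pip β w1 ≤ m) :
    (∀ w ∈ Icc w1 w2, pip β w ≤ m) ∧ pip β w2 ≤ m' := by
  have hθ : 0 < β - 1 := by linarith
  have h := PW_upper hβ (m := 2 * (1 + (β - 1) * m))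
    (k := 2 * ((β - 1) * ((m' - m) / (w2 - w1)))) h0 h2
    (fun w hw => by
      have h3 := QP_affine (t := β - 1) (by linarith) (by linarith)
        (QP_upper h12 hA w hw) (QP_upper h12 hB w hw)
      have e : (1 - w) * (2 * ((β - 1) * ((m' - m) / (w2 - w1)))) +
          (β - 1) * (2 * (1 + (β - 1) * m) + 2 * ((β - 1) * ((m' - m) / (w2 - w1))) * (w - w1)) =
          2 * (β - 1) * QP (β - 1) w1 m ((m' - m) / (w2 - w1)) w := by
        rw [QP]; ring
      rw [e]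
      exact mul_nonneg (by linarith) h3) (by
      rw [PW_pip hβ]
      have := mul_le_mul_of_nonneg_left hg hθ.le
      linarith)
  have h' : ∀ w ∈ Icc w1 w2, pip β w ≤ m + (m' - m) / (w2 - w1) * (w - w1) := by
    intro w hw
    have h3 := h w hw
    rw [PW_pip hβ] at h3
    have h4 : (β - 1) * pip β w ≤ (β - 1) * (m + (m' - m) / (w2 - w1) * (w - w1)) := by linarith
    exact le_of_mul_le_mul_left h4 hθ
  constructor
  · intro w hw
    exact (h' w hw).trans (aff_mem h12 hm hw).2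
  · have := h' w2 ⟨h12.le, le_rfl⟩
    rwa [aff_end h12] at this

lemma nstepP_lo {β ta tb w1 w2 m m' : ℝ} (hβ : 1 < β) (ha : 1 + ta ≤ β) (hb : β ≤ 1 + tb)
    (h0 : 0 ≤ w1) (h12 : w1 < w2) (h2 : w2 < 1) (hm : m' ≤ m)
    (hA : NSpL ta w1 w2 m m') (hB : NSpL tb w1 w2 m m') (hg : m ≤ pip β w1) :
    (∀ w ∈ Icc w1 w2, m' ≤ pip β w) ∧ m' ≤ pip β w2 := by
  have hθ : 0 < β - 1 := by linarith
  have h := PW_lower hβ (m := 2 * (1 + (β - 1) * m))
    (k := 2 * ((β - 1) * ((m' - m) / (w2 - w1)))) h0 h2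
    (fun w hw => by
      have h3 := QP_affine' (t := β - 1) (by linarith) (by linarith)
        (QP_lower h12 hA w hw) (QP_lower h12 hB w hw)
      have e : (1 - w) * (2 * ((β - 1) * ((m' - m) / (w2 - w1)))) +
          (β - 1) * (2 * (1 + (β - 1) * m) + 2 * ((β - 1) * ((m' - m) / (w2 - w1))) * (w - w1)) =
          2 * (β - 1) * QP (β - 1) w1 m ((m' - m) / (w2 - w1)) w := by
        rw [QP]; ring
      rw [e]
      exact mul_nonpos_of_nonneg_of_nonpos (by linarith) h3) (by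
      rw [PW_pip hβ]
      have := mul_le_mul_of_nonneg_left hg hθ.le
      linarith)
  have h' : ∀ w ∈ Icc w1 w2, m + (m' - m) / (w2 - w1) * (w - w1) ≤ pip β w := by
    intro w hw
    have h3 := h w hw
    rw [PW_pip hβ] at h3
    have h4 : (β - 1) * (m + (m' - m) / (w2 - w1) * (w - w1)) ≤ (β - 1) * pip β w := by linarith
    exact le_of_mul_le_mul_left h4 hθ
  constructor
  · intro w hw
    exact (aff_mem h12 hm hw).1.trans (h' w hw)
  · have := h' w2 ⟨h12.le, le_rfl⟩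
    rwa [aff_end h12] at this

/-- bounds up to the end -/
lemma nendG_lo {β : ℝ} (hβ : 1 < β) {w1 : ℝ} (h0 : 0 ≤ w1) (h1 : w1 < 1)
    (hg : -(2 / (1 + 2 * (β - 1))) ≤ gam β w1) :
    ∀ w ∈ Ico w1 1, -(2 / (1 + 2 * (β - 1))) ≤ gam β w := by
  intro w hw
  have hθ : 0 < β - 1 := by linarith
  have hd : 0 < 1 + 2 * (β - 1) := by linarith
  have h := gW_lower hβ (m := 2 + (β - 1) * (-(2 / (1 + 2 * (β - 1))))) (k := 0) (w2 := w) h0 hw.2
    (fun v hv => by
      have hv1 : v < 1 := hv.2.trans_lt hw.2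
      have e : v * (1 - v) * 0 + (1 / 2 + (β - 1) * v) *
          (2 + (β - 1) * (-(2 / (1 + 2 * (β - 1)))) + 0 * (v - w1)) - β =
          (β - 1) * (2 * (v - 1) * (β / (1 + 2 * (β - 1)))) := by
        field_simp
        ring
      rw [e]
      have : 0 < β / (1 + 2 * (β - 1)) := div_pos (by linarith) hd
      apply mul_nonpos_of_nonneg_of_nonpos hθ.le
      exact mul_nonpos_of_nonpos_of_nonneg (by linarith) this.le) (by
      rw [gW_gam hβ]
      have := mul_le_mul_of_nonneg_left hg hθ.le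
      linarith) w ⟨hw.1, le_rfl⟩
  rw [gW_gam hβ] at h
  have h4 : (β - 1) * (-(2 / (1 + 2 * (β - 1)))) ≤ (β - 1) * gam β w := by linarith
  exact le_of_mul_le_mul_left h4 hθ

lemma nendG_up {β ta tb m : ℝ} (hβ : 1 < β) (ha : 1 + ta ≤ β) (hb : β ≤ 1 + tb) (hta : 0 ≤ ta)
    {w1 : ℝ} (h0 : 0 ≤ w1) (hm : 0 ≤ tb * m + 2) (hm1 : 0 ≤ ta * m + 2)
    (hA : 0 ≤ (1 / 2 + ta * w1) * m - (1 - 2 * w1)) (hB : 0 ≤ (1 / 2 + tb * w1) * m - (1 - 2 * w1))
    (hg : gam β w1 ≤ m) : ∀ w ∈ Ico w1 1, gam β w ≤ m := by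
  intro w hw
  have hθ : 0 < β - 1 := by linarith
  have h := gW_upper hβ (m := 2 + (β - 1) * m) (k := 0) (w2 := w) h0 hw.2
    (fun v hv => by
      have key : ∀ t, 0 ≤ t * m + 2 → 0 ≤ (1 / 2 + t * w1) * m - (1 - 2 * w1) →
          0 ≤ QN t w1 m 0 v := by
        intro t ht1 ht2
        have e : QN t w1 m 0 v = ((1 / 2 + t * w1) * m - (1 - 2 * w1)) +
          (v - w1) * (t * m + 2) := by rw [QN]; ring
        rw [e]
        have := mul_nonneg (sub_nonneg.mpr hv.1) ht1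
        linarith
      have h3 := QN_affine (t := β - 1) (by linarith) (by linarith) (key ta hm1 hA) (key tb hm hB)
      have e : v * (1 - v) * 0 + (1 / 2 + (β - 1) * v) * (2 + (β - 1) * m + 0 * (v - w1)) - β =
          (β - 1) * QN (β - 1) w1 m 0 v := by
        rw [QN]; ring
      rw [e]
      exact mul_nonneg hθ.le h3) (by
      rw [gW_gam hβ]
      have := mul_le_mul_of_nonneg_left hg hθ.le
      linarith) w ⟨hw.1, le_rfl⟩
  rw [gW_gam hβ] at h
  have h4 : (β - 1) * gam β w ≤ (β - 1) * m := by linarith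
  exact le_of_mul_le_mul_left h4 hθ

lemma nendP_up {β m : ℝ} (hβ : 1 < β) {w1 : ℝ} (h0 : 0 ≤ w1)
    (hg : pip β w1 ≤ m) (hm : 0 < 1 + (β - 1) * m) : ∀ w ∈ Ico w1 1, pip β w ≤ m := by
  intro w hw
  have hθ : 0 < β - 1 := by linarith
  have h := endP_up (m := 2 * (1 + (β - 1) * m)) hβ h0 (by linarith) (by
      rw [PW_pip hβ]
      have := mul_le_mul_of_nonneg_left hg hθ.le
      linarith) w hw
  rw [PW_pip hβ] at h
  have h4 : (β - 1) * pip β w ≤ (β - 1) * m := by linarith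
  exact le_of_mul_le_mul_left h4 hθ

/-- lower bound of `y * pip` on the last piece -/
lemma nendP_lo {β m : ℝ} (hβ : 1 < β) (hβ2 : β ≤ 2) {w1 : ℝ} (h0 : 0 ≤ w1) (hm : m ≤ -1)
    (hg : m ≤ pip β w1) : ∀ w ∈ Ico w1 1, (1 - w1) * m ≤ (1 - w) * pip β w := by
  intro w hw
  have hθ : 0 < β - 1 := by linarith
  have hw1 : w1 < 1 := hw.1.trans_lt hw.2
  have hy1 : 0 < 1 - w1 := by linarith
  have hy : 0 < 1 - w := by linarith [hw.2]
  have hw0 : 0 ≤ w := h0.trans hw.1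
  have hP1 := PW_formula hβ h0 hw1
  have hP := PW_formula hβ hw0 hw.2
  have hPp := PW_pos hβ hw0 hw.2
  have hbern := rpow_bern (x := (1 - w1) / (1 - w)) (t := β - 1) (by positivity) hθ.le (by linarith)
  rw [Real.div_rpow hy1.le hy.le] at hbern
  have hr : 0 < (1 - w) ^ (β - 1) := Real.rpow_pos_of_pos hy _
  set s := (1 - w1) / (1 - w) with hs
  have hs1 : 1 ≤ s := by rw [hs, le_div_iff₀ hy]; linarith [hw.1]
  have hsy : (1 - w) * s = 1 - w1 := by rw [hs]; field_simp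
  have h1 : PW β w1 ≤ PW β w * (1 + (β - 1) * (s - 1)) := by
    rw [hP1, hP, mul_assoc]
    apply mul_le_mul_of_nonneg_left _ (aa_zero_pos hβ).le
    rw [div_le_iff₀ hr] at hbern
    linarith
  rw [PW_pip hβ, PW_pip hβ] at h1
  have h2 := mul_le_mul_of_nonneg_left hg hθ.le
  set θ := β - 1
  set p := pip β w
  -- 1 + θ m ≤ (1 + θ p) (1 + θ (s-1))
  have h3 : 1 + θ * m ≤ (1 + θ * p) * (1 + θ * (s - 1)) := by linarith
  have h4 : m ≤ p * (1 + θ * (s - 1)) + (s - 1) := by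
    have : θ * m ≤ θ * (p * (1 + θ * (s - 1)) + (s - 1)) := by linarith
    exact le_of_mul_le_mul_left this hθ
  have hden : 1 ≤ 1 + θ * (s - 1) := by
    have := mul_nonneg hθ.le (sub_nonneg.mpr hs1)
    linarith
  have h5 : m - (s - 1) ≤ p := by
    rcases le_or_gt 0 p with hp | hp
    · linarith
    · have : p * (1 + θ * (s - 1)) ≤ p := by nlinarith
      linarith
  have h6 : (1 - w) * (m - (s - 1)) ≤ (1 - w) * p := mul_le_mul_of_nonneg_left h5 hy.le
  have h7 : (1 - w) * (m - (s - 1)) = (1 - w) * (m + 1) - (1 - w1) := by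
    rw [mul_sub, mul_sub, hsy]; ring
  have h8 : (1 - w1) * (m + 1) ≤ (1 - w) * (m + 1) :=
    mul_le_mul_of_nonpos_right (by linarith [hw.1]) (by linarith)
  linarith

end Pool.Agent.TH242.AC
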