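import Mathlib
import Pool.Agent.TH242.AC.NBox

open Set

namespace Pool.Agent.TH242.AC

/-- the scaled first order deficit -/
noncomputable def dl (D T X G Q : ℝ) : ℝ :=
  2 * (G * (D - 2 * X)) * D ^ 2 + 8 * ((D - X) * (-Q)) * D ^ 2 -
    T * (4 * (D - X) * Q ^ 2 + X * G ^ 2)

lemma NW_dl {β D x : ℝ} (hβ : 1 < β) :
    D ^ 6 * NW β x = D ^ 6 - (D * (β - 1)) * ((D * x) *
      dl D (D * (β - 1)) (D * x) (D * gam β x) (D * pip β x)) := by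
  rw [NW, gW_gam hβ, PW_pip hβ, dl]; ring

lemma nH1 {θ ta tb la d p π N : ℝ} (hta : 0 ≤ ta) (ha : ta ≤ θ) (hb : θ ≤ tb) (hθ : 0 < θ)
    (hla : 0 ≤ la) (hd : 0 ≤ d) (hu : 0 ≤ 1 - tb * d) (hN : 1 - θ * d ≤ N) (hπ : π ≤ p)
    (h1π : 0 < 1 + θ * π)
    (main : d * (3 - 3 * ta * d + ta ^ 2 * d ^ 2) + p * (2 + tb * p) ≤
      la * (2 + la * ta) * (1 - tb * d) ^ 3) :
    (1 + θ * π) ^ 2 ≤ (1 + la * θ) ^ 2 * N ^ 3 := by
  have hθd : θ * d ≤ tb * d := mul_le_mul_of_nonneg_right hb hd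
  have htd : ta * d ≤ θ * d := mul_le_mul_of_nonneg_right ha hd
  have htd0 : 0 ≤ ta * d := mul_nonneg hta hd
  have hu' : 0 ≤ 1 - θ * d := by linarith
  have e1 : (1 + la * θ) ^ 2 * (1 - θ * d) ^ 3 - (1 + θ * π) ^ 2 =
      θ * (la * (2 + la * θ) * (1 - θ * d) ^ 3 - d * (3 - 3 * (θ * d) + (θ * d) ^ 2) -
        π * (2 + θ * π)) := by ring
  have h1 : la * (2 + la * ta) * (1 - tb * d) ^ 3 ≤ la * (2 + la * θ) * (1 - θ * d) ^ 3 := by
    have a1 : la * (2 + la * ta) ≤ la * (2 + la * θ) :=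
      mul_le_mul_of_nonneg_left (by have := mul_le_mul_of_nonneg_left ha hla; linarith) hla
    have a2 : (1 - tb * d) ^ 3 ≤ (1 - θ * d) ^ 3 := pow_le_pow_left₀ hu (by linarith) 3
    exact mul_le_mul a1 a2 (by positivity) (by positivity)
  have h2 : d * (3 - 3 * (θ * d) + (θ * d) ^ 2) ≤ d * (3 - 3 * ta * d + ta ^ 2 * d ^ 2) := by
    apply mul_le_mul_of_nonneg_left _ hd
    have : 0 ≤ (θ * d - ta * d) * (3 - (θ * d + ta * d)) :=
      mul_nonneg (by linarith) (by linarith)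
    nlinarith
  have h3 : π * (2 + θ * π) ≤ p * (2 + tb * p) := by
    have hp : 0 < 1 + θ * p := by
      have := mul_le_mul_of_nonneg_left hπ hθ.le
      linarith
    have b1 : 0 ≤ (p - π) * (2 + θ * p + θ * π) := mul_nonneg (by linarith) (by linarith)
    have b2 : θ * p ^ 2 ≤ tb * p ^ 2 := mul_le_mul_of_nonneg_right hb (sq_nonneg p)
    nlinarith
  have h4 : 0 ≤ (1 + la * θ) ^ 2 * (1 - θ * d) ^ 3 - (1 + θ * π) ^ 2 := by
    rw [e1]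
    exact mul_nonneg hθ.le (by linarith)
  have h5 : (1 - θ * d) ^ 3 ≤ N ^ 3 := pow_le_pow_left₀ hu' hN 3
  have h6 := mul_le_mul_of_nonneg_left h5 (sq_nonneg (1 + la * θ))
  linarith

lemma nH2 {θ ta tb κ q N Y c : ℝ} (hta : 0 ≤ ta) (ha : ta ≤ θ) (hb : θ ≤ tb) (hθ : 0 < θ)
    (hκ : 0 ≤ κ) (hq : 0 ≤ q) (hN : N ≤ 1 - θ * q) (hY : 0 ≤ Y) (hc : 1 + Y ≤ c)
    (main : 2 * (1 + κ + κ * tb) + tb * (1 + κ + κ * tb) ^ 2 -
        q * (1 + (1 + κ + κ * ta) * ta) ^ 2 < 0 ∨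
      tb * (2 * (1 + κ + κ * tb) + tb * (1 + κ + κ * tb) ^ 2 -
        q * (1 + (1 + κ + κ * ta) * ta) ^ 2) < Y * (2 + Y)) :
    (1 + θ) ^ 2 * (1 + κ * θ) ^ 2 * N < c ^ 2 := by
  set μ := 1 + κ + κ * θ with hμ
  set μa := 1 + κ + κ * ta with hμa
  set μb := 1 + κ + κ * tb with hμb
  have m1 : μa ≤ μ := by have := mul_le_mul_of_nonneg_left ha hκ; linarith
  have m2 : μ ≤ μb := by have := mul_le_mul_of_nonneg_left hb hκ; linarith
  have m0 : 0 ≤ μa := by have := mul_nonneg hκ hta; linarith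
  have mμ : 0 ≤ μ := by linarith
  set br := 2 * μb + tb * μb ^ 2 - q * (1 + μa * ta) ^ 2 with hbr
  have e0 : (1 + θ) ^ 2 * (1 + κ * θ) ^ 2 = (1 + μ * θ) ^ 2 := by rw [hμ]; ring
  have h1 : (1 + μ * θ) ^ 2 * N ≤ 1 + θ * br := by
    have a1 : (1 + μ * θ) ^ 2 * N ≤ (1 + μ * θ) ^ 2 * (1 - θ * q) :=
      mul_le_mul_of_nonneg_left hN (sq_nonneg _)
    have a2 : (1 + μ * θ) ^ 2 * (1 - θ * q) =
        1 + θ * (2 * μ + θ * μ ^ 2 - q * (1 + μ * θ) ^ 2) := by ring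
    have a3 : 2 * μ + θ * μ ^ 2 - q * (1 + μ * θ) ^ 2 ≤ br := by
      have b1 : θ * μ ^ 2 ≤ tb * μb ^ 2 :=
        mul_le_mul hb (pow_le_pow_left₀ mμ m2 2) (sq_nonneg _) (by linarith)
      have b2 : (1 + μa * ta) ^ 2 ≤ (1 + μ * θ) ^ 2 := by
        apply pow_le_pow_left₀
        · positivity
        · have := mul_le_mul m1 ha hta mμ
          linarith
      have b3 := mul_le_mul_of_nonneg_left b2 hq
      rw [hbr]; linarith
    have a4 := mul_le_mul_of_nonneg_left a3 hθ.le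
    linarith
  have h2 : (1 + Y) ^ 2 ≤ c ^ 2 := pow_le_pow_left₀ (by linarith) hc 2
  rw [e0]
  rcases lt_or_ge br 0 with hb0 | hb0
  · have h3 := mul_neg_of_pos_of_neg hθ hb0
    have h4 : (1:ℝ) ≤ (1 + Y) ^ 2 := by nlinarith
    linarith
  · rcases main with h | h
    · linarith
    · have h3 := mul_le_mul_of_nonneg_right hb hb0
      have h4 : (1 + Y) ^ 2 = 1 + Y * (2 + Y) := by ring
      linarith

structure NRow where
  w : ℤ
  gl : ℤ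
  gh : ℤ
  pl : ℤ
  ph : ℤ
  dd : ℤ
  q : ℤ
  y : ℤ

def mx4 (a b c d : ℤ) : ℤ := max (max (a * c) (a * d)) (max (b * c) (b * d))
def mn4 (a b c d : ℤ) : ℤ := min (min (a * c) (a * d)) (min (b * c) (b * d))

lemma mul_corner {a b c d x y : ℝ} (h1 : a ≤ x) (h2 : x ≤ b) (h3 : c ≤ y) (h4 : y ≤ d) :
    x * y ≤ a * c ∨ x * y ≤ a * d ∨ x * y ≤ b * c ∨ x * y ≤ b * d := by
  rcases le_total 0 y with hy | hy
  · have h5 : x * y ≤ b * y := mul_le_mul_of_nonneg_right h2 hy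
    rcases le_total 0 b with hb | hb
    · right; right; right
      exact h5.trans (mul_le_mul_of_nonneg_left h4 hb)
    · right; right; left
      exact h5.trans (mul_le_mul_of_nonpos_left h3 hb)
  · have h5 : x * y ≤ a * y := mul_le_mul_of_nonpos_right h1 hy
    rcases le_total 0 a with hb | hb
    · right; left
      exact h5.trans (mul_le_mul_of_nonneg_left h4 hb)
    · left
      exact h5.trans (mul_le_mul_of_nonpos_left h3 hb)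

lemma le_mx4 {a b c d : ℤ} {x y : ℝ} (h1 : (a:ℝ) ≤ x) (h2 : x ≤ b) (h3 : (c:ℝ) ≤ y) (h4 : y ≤ d) :
    x * y ≤ ((mx4 a b c d : ℤ) : ℝ) := by
  have k1 : a * c ≤ mx4 a b c d := le_max_of_le_left (le_max_left _ _)
  have k2 : a * d ≤ mx4 a b c d := le_max_of_le_left (le_max_right _ _)
  have k3 : b * c ≤ mx4 a b c d := le_max_of_le_right (le_max_left _ _)
  have k4 : b * d ≤ mx4 a b c d := le_max_of_le_right (le_max_right _ _)
  have k1' : (a:ℝ) * c ≤ ((mx4 a b c d : ℤ) : ℝ) := by exact_mod_cast k1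
  have k2' : (a:ℝ) * d ≤ ((mx4 a b c d : ℤ) : ℝ) := by exact_mod_cast k2
  have k3' : (b:ℝ) * c ≤ ((mx4 a b c d : ℤ) : ℝ) := by exact_mod_cast k3
  have k4' : (b:ℝ) * d ≤ ((mx4 a b c d : ℤ) : ℝ) := by exact_mod_cast k4
  rcases mul_corner h1 h2 h3 h4 with h | h | h | h <;> linarith

lemma mn4_le {a b c d : ℤ} {x y : ℝ} (h1 : (a:ℝ) ≤ x) (h2 : x ≤ b) (h3 : (c:ℝ) ≤ y) (h4 : y ≤ d) :
    ((mn4 a b c d : ℤ) : ℝ) ≤ x * y := by
  have k1 : mn4 a b c d ≤ a * c := min_le_of_left_le (min_le_left _ _)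
  have k2 : mn4 a b c d ≤ a * d := min_le_of_left_le (min_le_right _ _)
  have k3 : mn4 a b c d ≤ b * c := min_le_of_right_le (min_le_left _ _)
  have k4 : mn4 a b c d ≤ b * d := min_le_of_right_le (min_le_right _ _)
  have k1' : ((mn4 a b c d : ℤ) : ℝ) ≤ (a:ℝ) * c := by exact_mod_cast k1
  have k2' : ((mn4 a b c d : ℤ) : ℝ) ≤ (a:ℝ) * d := by exact_mod_cast k2
  have k3' : ((mn4 a b c d : ℤ) : ℝ) ≤ (b:ℝ) * c := by exact_mod_cast k3
  have k4' : ((mn4 a b c d : ℤ) : ℝ) ≤ (b:ℝ) * d := by exact_mod_cast k4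
  have hm := mul_corner (a := -(b:ℝ)) (b := -(a:ℝ)) (x := -x) (by linarith) (by linarith) h3 h4
  rcases hm with h | h | h | h <;> linarith

def dH (D ta w1 w2 gl gh pl ph : ℤ) : ℤ :=
  2 * mx4 gl gh (D - 2 * w2) (D - 2 * w1) * D ^ 2 + 8 * mx4 (D - w2) (D - w1) (-ph) (-pl) * D ^ 2 -
    ta * (4 * (D - w2) * sqlo pl ph + w1 * sqlo gl gh)

def dL (D tb w1 w2 gl gh pl ph : ℤ) : ℤ :=
  2 * mn4 gl gh (D - 2 * w2) (D - 2 * w1) * D ^ 2 + 8 * mn4 (D - w2) (D - w1) (-ph) (-pl) * D ^ 2 -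
    tb * (4 * (D - w1) * sqhi pl ph + w2 * sqhi gl gh)

lemma dl_bounds {D ta tb w1 w2 gl gh pl ph : ℤ} {T X G Q : ℝ} (hta : 0 ≤ ta)
    (ha : (ta:ℝ) ≤ T) (hb : T ≤ tb) (w10 : 0 ≤ w1) (w2D : w2 ≤ D)
    (X1 : (w1:ℝ) ≤ X) (X2 : X ≤ w2) (G1 : (gl:ℝ) ≤ G) (G2 : G ≤ gh) (Q1 : (pl:ℝ) ≤ Q)
    (Q2 : Q ≤ ph) :
    ((dL D tb w1 w2 gl gh pl ph : ℤ) : ℝ) ≤ dl D T X G Q ∧
      dl D T X G Q ≤ ((dH D ta w1 w2 gl gh pl ph : ℤ) : ℝ) := by
  have hta' : (0:ℝ) ≤ ta := by exact_mod_cast hta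
  have w10' : (0:ℝ) ≤ w1 := by exact_mod_cast w10
  have w2D' : (w2:ℝ) ≤ D := by exact_mod_cast w2D
  have a1 := le_mx4 (a := gl) (b := gh) (c := D - 2 * w2) (d := D - 2 * w1) (x := G)
    (y := D - 2 * X) G1 G2 (by push_cast; linarith) (by push_cast; linarith)
  have a2 := mn4_le (a := gl) (b := gh) (c := D - 2 * w2) (d := D - 2 * w1) (x := G)
    (y := D - 2 * X) G1 G2 (by push_cast; linarith) (by push_cast; linarith)
  have b1 := le_mx4 (a := D - w2) (b := D - w1) (c := -ph) (d := -pl) (x := D - X)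
    (y := -Q) (by push_cast; linarith) (by push_cast; linarith) (by push_cast; linarith)
    (by push_cast; linarith)
  have b2 := mn4_le (a := D - w2) (b := D - w1) (c := -ph) (d := -pl) (x := D - X)
    (y := -Q) (by push_cast; linarith) (by push_cast; linarith) (by push_cast; linarith)
    (by push_cast; linarith)
  have s1 := sqlo_le Q1 Q2
  have s2 := le_sqhi Q1 Q2
  have s3 := sqlo_le G1 G2
  have s4 := le_sqhi G1 G2
  have n1 : (0:ℝ) ≤ ((sqlo pl ph : ℤ) : ℝ) := by exact_mod_cast sqlo_nonneg pl ph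
  have n2 : (0:ℝ) ≤ ((sqlo gl gh : ℤ) : ℝ) := by exact_mod_cast sqlo_nonneg gl gh
  have hDD : (0:ℝ) ≤ (D:ℝ) ^ 2 := sq_nonneg _
  have c1 := mul_le_mul_of_nonneg_right a1 hDD
  have c2 := mul_le_mul_of_nonneg_right a2 hDD
  have c3 := mul_le_mul_of_nonneg_right b1 hDD
  have c4 := mul_le_mul_of_nonneg_right b2 hDD
  have yX : (D:ℝ) - w2 ≤ D - X := by linarith
  have y0 : (0:ℝ) ≤ D - w2 := by linarith
  have t1 : (ta:ℝ) * (4 * (D - w2) * (sqlo pl ph : ℤ) + w1 * (sqlo gl gh : ℤ)) ≤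
      T * (4 * (D - X) * Q ^ 2 + X * G ^ 2) := by
    have d1 : (D - w2 : ℝ) * (sqlo pl ph : ℤ) ≤ (D - X) * Q ^ 2 :=
      mul_le_mul yX s1 n1 (by linarith)
    have d2 : (w1 : ℝ) * (sqlo gl gh : ℤ) ≤ X * G ^ 2 := mul_le_mul X1 s3 n2 (by linarith)
    have d3 : (0:ℝ) ≤ (D - w2 : ℝ) * (sqlo pl ph : ℤ) := mul_nonneg y0 n1
    have d4 : (0:ℝ) ≤ (w1 : ℝ) * (sqlo gl gh : ℤ) := mul_nonneg w10' n2
    exact mul_le_mul ha (by linarith) (by linarith) (by linarith)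
  have t2 : T * (4 * (D - X) * Q ^ 2 + X * G ^ 2) ≤
      (tb:ℝ) * (4 * (D - w1) * (sqhi pl ph : ℤ) + w2 * (sqhi gl gh : ℤ)) := by
    have d1 : (D - X) * Q ^ 2 ≤ (D - w1 : ℝ) * (sqhi pl ph : ℤ) :=
      mul_le_mul (by linarith) s2 (sq_nonneg _) (by linarith)
    have d2 : X * G ^ 2 ≤ (w2 : ℝ) * (sqhi gl gh : ℤ) :=
      mul_le_mul X2 s4 (sq_nonneg _) (by linarith)
    have d3 : 0 ≤ (D - X) * Q ^ 2 := mul_nonneg (by linarith) (sq_nonneg _)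
    have d4 : 0 ≤ X * G ^ 2 := mul_nonneg (by linarith) (sq_nonneg _)
    exact mul_le_mul hb (by linarith) (by linarith) (by linarith)
  constructor
  · rw [dL, dl]
    push_cast
    linarith
  · rw [dH, dl]
    push_cast
    linarith

/-- first inequality, integer form -/
def ckH1 (D ta tb la dd ph : ℤ) : Bool :=
  decide (0 ≤ dd) && decide (tb * dd ≤ D ^ 2) &&
  decide (D ^ 4 * (dd * (3 * D ^ 4 - 3 * ta * dd * D ^ 2 + ta ^ 2 * dd ^ 2)) +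
    D ^ 6 * (ph * (2 * D ^ 2 + tb * ph)) ≤ la * (2 * D ^ 2 + la * ta) * (D ^ 2 - tb * dd) ^ 3)

def brI (D ta tb kp q : ℤ) : ℤ :=
  2 * (D ^ 2 + kp * D + kp * tb) * D ^ 5 + tb * (D ^ 2 + kp * D + kp * tb) ^ 2 * D ^ 2 -
    q * (D ^ 3 + (D ^ 2 + kp * D + kp * ta) * ta) ^ 2

def ckH2 (D ta tb kp q y : ℤ) : Bool :=
  decide (brI D ta tb kp q < 0) || decide (tb * brI D ta tb kp q < y * (2 * D + y) * D ^ 6)

lemma ckH1_sound {D ta tb la dd ph : ℤ} (hD : 0 < D) (hta : 0 ≤ ta) (hla : 0 ≤ la)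
    (h : ckH1 D ta tb la dd ph = true) {θ π N : ℝ} (hθ : 0 < θ)
    (ha : (ta / D : ℝ) ≤ θ) (hb : θ ≤ (tb / D : ℝ)) (hN : 1 - θ * (dd / D) ≤ N)
    (hπ : π ≤ (ph / D : ℝ)) (h1π : 0 < 1 + θ * π) :
    (1 + θ * π) ^ 2 ≤ (1 + (la / D : ℝ) * θ) ^ 2 * N ^ 3 := by
  have hD' : (0:ℝ) < D := by exact_mod_cast hD
  simp only [ckH1, Bool.and_eq_true, decide_eq_true_eq] at h
  obtain ⟨⟨h1, h2⟩, h3⟩ := h
  have h1' : (0:ℝ) ≤ dd := by exact_mod_cast h1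
  have h2' : (tb:ℝ) * dd ≤ D ^ 2 := by exact_mod_cast h2
  have h3' : (D:ℝ) ^ 4 * (dd * (3 * D ^ 4 - 3 * ta * dd * D ^ 2 + ta ^ 2 * dd ^ 2)) +
    D ^ 6 * (ph * (2 * D ^ 2 + tb * ph)) ≤
      la * (2 * D ^ 2 + la * ta) * (D ^ 2 - tb * dd) ^ 3 := by exact_mod_cast h3
  apply nH1 (ta := (ta / D : ℝ)) (tb := (tb / D : ℝ)) (d := (dd / D : ℝ)) (p := (ph / D : ℝ))
    (div_nonneg (by exact_mod_cast hta) hD'.le) ha hb hθ
    (div_nonneg (by exact_mod_cast hla) hD'.le) (div_nonneg h1' hD'.le) _ hN hπ h1π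
  · rw [← sub_nonneg]
    have e : (la / D : ℝ) * (2 + la / D * (ta / D)) * (1 - tb / D * (dd / D)) ^ 3 -
        (dd / D * (3 - 3 * (ta / D) * (dd / D) + (ta / D) ^ 2 * (dd / D) ^ 2) +
          ph / D * (2 + tb / D * (ph / D))) =
        (la * (2 * D ^ 2 + la * ta) * (D ^ 2 - tb * dd) ^ 3 -
        (D ^ 4 * (dd * (3 * D ^ 4 - 3 * ta * dd * D ^ 2 + ta ^ 2 * dd ^ 2)) +
    D ^ 6 * (ph * (2 * D ^ 2 + tb * ph)))) / D ^ 9 := by
      field_simp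
    rw [e]
    exact div_nonneg (by linarith) (by positivity)
  · have e : 1 - (tb / D : ℝ) * (dd / D) = (D ^ 2 - tb * dd) / D ^ 2 := by field_simp
    rw [e]
    exact div_nonneg (by linarith) (by positivity)

lemma ckH2_sound {D ta tb kp q y : ℤ} (hD : 0 < D) (hta : 0 ≤ ta) (hkp : 0 ≤ kp) (hq : 0 ≤ q)
    (hy : 0 ≤ y) (h : ckH2 D ta tb kp q y = true) {θ N c : ℝ} (hθ : 0 < θ)
    (ha : (ta / D : ℝ) ≤ θ) (hb : θ ≤ (tb / D : ℝ)) (hN : N ≤ 1 - θ * (q / D))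
    (hc : 1 + (y / D : ℝ) ≤ c) :
    (1 + θ) ^ 2 * (1 + (kp / D : ℝ) * θ) ^ 2 * N < c ^ 2 := by
  have hD' : (0:ℝ) < D := by exact_mod_cast hD
  simp only [ckH2, Bool.or_eq_true, decide_eq_true_eq] at h
  have e : 2 * (1 + (kp / D : ℝ) + kp / D * (tb / D)) + tb / D * (1 + kp / D + kp / D * (tb / D)) ^ 2 -
        q / D * (1 + (1 + kp / D + kp / D * (ta / D)) * (ta / D)) ^ 2 =
      ((brI D ta tb kp q : ℤ) : ℝ) / D ^ 7 := by
    rw [brI]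
    push_cast
    field_simp
  apply nH2 (ta := (ta / D : ℝ)) (tb := (tb / D : ℝ)) (q := (q / D : ℝ)) (Y := (y / D : ℝ))
    (div_nonneg (by exact_mod_cast hta) hD'.le) ha hb hθ
    (div_nonneg (by exact_mod_cast hkp) hD'.le) (div_nonneg (by exact_mod_cast hq) hD'.le) hN
    (div_nonneg (by exact_mod_cast hy) hD'.le) hc
  rw [e]
  rcases h with h | h
  · left
    have h' : ((brI D ta tb kp q : ℤ) : ℝ) < 0 := by exact_mod_cast h
    exact div_neg_of_neg_of_pos h' (by positivity)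
  · right
    have h' : (tb:ℝ) * ((brI D ta tb kp q : ℤ) : ℝ) < y * (2 * D + y) * D ^ 6 := by exact_mod_cast h
    rw [← sub_pos]
    have e2 : (y / D : ℝ) * (2 + y / D) - tb / D * (((brI D ta tb kp q : ℤ) : ℝ) / D ^ 7) =
        (y * (2 * D + y) * D ^ 6 - tb * ((brI D ta tb kp q : ℤ) : ℝ)) / D ^ 8 := by
      field_simp
    rw [e2]
    exact div_pos (by linarith) (by positivity)

end Pool.Agent.TH242.AC
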