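import Mathlib
import Pool.Agent.TH242.AC.NChk

open Set

namespace Pool.Agent.TH242.AC

structure NGood (β κ x : ℝ) : Prop where
  hA : PW β x ^ 2 ≤ (2 * β) ^ 2 * (1 + κ * (β - 1)) ^ 2 * NW β x ^ 3
  hB : β ^ 2 * (1 + κ * (β - 1)) ^ 2 * NW β x < cW β x ^ 2
  hC : β * PW β x < cW β x * gW β x
  hE : PW β x < ZW β x

lemma min_le_mul' {a b c : ℤ} {t x : ℝ} (h0 : 0 ≤ t) (h1 : (a:ℝ) ≤ t) (h2 : t ≤ b)
    (h3 : (c:ℝ) ≤ x) : ((min (a * c) (b * c) : ℤ) : ℝ) ≤ t * x := by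
  have k1 : min (a * c) (b * c) ≤ a * c := min_le_left _ _
  have k2 : min (a * c) (b * c) ≤ b * c := min_le_right _ _
  have k1' : ((min (a * c) (b * c) : ℤ) : ℝ) ≤ (a:ℝ) * c := by exact_mod_cast k1
  have k2' : ((min (a * c) (b * c) : ℤ) : ℝ) ≤ (b:ℝ) * c := by exact_mod_cast k2
  have h4 : t * c ≤ t * x := mul_le_mul_of_nonneg_left h3 h0
  rcases le_total 0 (c:ℝ) with hc | hc
  · have := mul_le_mul_of_nonneg_right h1 hc
    linarith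
  · have := mul_le_mul_of_nonpos_right h2 hc
    linarith

lemma mul_le_max' {a b c : ℤ} {t x : ℝ} (h0 : 0 ≤ t) (h1 : (a:ℝ) ≤ t) (h2 : t ≤ b)
    (h3 : x ≤ (c:ℝ)) : t * x ≤ ((max (a * c) (b * c) : ℤ) : ℝ) := by
  have k1 : a * c ≤ max (a * c) (b * c) := le_max_left _ _
  have k2 : b * c ≤ max (a * c) (b * c) := le_max_right _ _
  have k1' : (a:ℝ) * c ≤ ((max (a * c) (b * c) : ℤ) : ℝ) := by exact_mod_cast k1
  have k2' : (b:ℝ) * c ≤ ((max (a * c) (b * c) : ℤ) : ℝ) := by exact_mod_cast k2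
  have h4 : t * x ≤ t * c := mul_le_mul_of_nonneg_left h3 h0
  rcases le_total 0 (c:ℝ) with hc | hc
  · have := mul_le_mul_of_nonneg_right h2 hc
    linarith
  · have := mul_le_mul_of_nonpos_right h1 hc
    linarith

def PLi (D ta tb pl : ℤ) : ℤ := 2 * (D ^ 2 + min (ta * pl) (tb * pl))
def PHi (D ta tb ph : ℤ) : ℤ := 2 * (D ^ 2 + max (ta * ph) (tb * ph))
def GLi (D ta tb gl : ℤ) : ℤ := 2 * D ^ 2 + min (ta * gl) (tb * gl)
def GHi (D ta tb gh : ℤ) : ℤ := 2 * D ^ 2 + max (ta * gh) (tb * gh)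

def ckNB (D ta tb kp w1 w2 gl gh pl ph dd q y : ℤ) : Bool :=
  let Px := PLi D ta tb pl
  let Py := PHi D ta tb ph
  let Gx := GLi D ta tb gl
  decide (0 ≤ w1) && decide (w1 < w2) && decide (w2 ≤ D) && decide (0 ≤ Px) && decide (0 < Gx) &&
  decide (0 ≤ q) && decide (0 ≤ y) &&
  decide (w2 * dH D ta w1 w2 gl gh pl ph ≤ dd * D ^ 4) &&
  decide (0 ≤ dL D tb w1 w2 gl gh pl ph) &&
  decide (q * D ^ 4 ≤ w1 * dL D tb w1 w2 gl gh pl ph) &&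
  ckH1 D ta tb (D + kp) dd ph && ckH2 D ta tb kp q y &&
  decide (y * ((D - w1) * Py ^ 2 + w2 * GHi D ta tb gh ^ 2) ≤ (D + 2 * ta) * Px * D ^ 3) &&
  decide ((D + tb) * Py < (D + y) * Gx) &&
  decide (Py * D ^ 3 < (D - w2) * Px ^ 2 + w1 * Gx ^ 2)

lemma ckNB_misc {D ta tb kp w1 w2 gl gh pl ph dd q y : ℤ}
    (h : ckNB D ta tb kp w1 w2 gl gh pl ph dd q y = true) : 0 ≤ w1 ∧ w1 < w2 ∧ w2 ≤ D := by
  simp only [ckNB, Bool.and_eq_true, decide_eq_true_eq] at h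
  obtain ⟨⟨⟨⟨⟨⟨⟨⟨⟨⟨⟨⟨⟨⟨h1, h2⟩, h3⟩, _⟩, _⟩, _⟩, _⟩, _⟩, _⟩, _⟩, _⟩, _⟩, _⟩, _⟩, _⟩ := h
  exact ⟨h1, h2, h3⟩

/-- from the first inequality to the form needed -/
lemma hA_of {β κ la x : ℝ} (hβ : 1 < β) (hκ : 0 ≤ κ) (hla : la = 1 + κ) (h0 : 0 ≤ x) (h1 : x < 1)
    (h : (1 + (β - 1) * pip β x) ^ 2 ≤ (1 + la * (β - 1)) ^ 2 * NW β x ^ 3) :
    PW β x ^ 2 ≤ (2 * β) ^ 2 * (1 + κ * (β - 1)) ^ 2 * NW β x ^ 3 := by
  have hN := NW_pos hβ h0 h1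
  have hθ : 0 < β - 1 := by linarith
  have e : PW β x ^ 2 = 4 * (1 + (β - 1) * pip β x) ^ 2 := by rw [PW_pip hβ]; ring
  have h2 : (1 + la * (β - 1)) ^ 2 ≤ (β * (1 + κ * (β - 1))) ^ 2 := by
    apply pow_le_pow_left₀
    · rw [hla]; positivity
    · rw [hla]
      have : 0 ≤ κ * (β - 1) ^ 2 := by positivity
      nlinarith
  have h3 := mul_le_mul_of_nonneg_right h2 (by positivity : 0 ≤ NW β x ^ 3)
  rw [e]
  calc 4 * (1 + (β - 1) * pip β x) ^ 2 ≤ 4 * ((β * (1 + κ * (β - 1))) ^ 2 * NW β x ^ 3) := by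
        linarith
    _ = _ := by ring

lemma ckNB_sound {D ta tb kp w1 w2 gl gh pl ph dd q y : ℤ} (hD : 0 < D) (hta : 0 ≤ ta)
    (hkp : 0 ≤ kp) (h : ckNB D ta tb kp w1 w2 gl gh pl ph dd q y = true)
    {β x : ℝ} (hβ : 1 < β) (ha : 1 + (ta / D : ℝ) ≤ β) (hb : β ≤ 1 + (tb / D : ℝ))
    (X1 : (w1 / D : ℝ) ≤ x) (X2 : x ≤ (w2 / D : ℝ)) (hx : x < 1)
    (G1 : (gl / D : ℝ) ≤ gam β x) (G2 : gam β x ≤ (gh / D : ℝ))
    (Q1 : (pl / D : ℝ) ≤ pip β x) (Q2 : pip β x ≤ (ph / D : ℝ)) :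
    NGood β (kp / D) x := by
  have hD' : (0:ℝ) < D := by exact_mod_cast hD
  simp only [ckNB, Bool.and_eq_true, decide_eq_true_eq] at h
  obtain ⟨⟨⟨⟨⟨⟨⟨⟨⟨⟨⟨⟨⟨⟨f1, f2⟩, f3⟩, f4⟩, f5⟩, f6⟩, f7⟩, f8⟩, f9⟩, f10⟩, f11⟩, f12⟩, f13⟩,
    f14⟩, f15⟩ := h
  have hta' : (0:ℝ) ≤ ta := by exact_mod_cast hta
  have w10 : (0:ℝ) ≤ w1 := by exact_mod_cast f1
  have w2D : (w2:ℝ) ≤ D := by exact_mod_cast f3
  have hx0 : 0 ≤ x := le_trans (div_nonneg w10 hD'.le) X1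
  have hθ : 0 < β - 1 := by linarith
  have hPp := PW_pos hβ hx0 hx
  have hZp := ZW_pos hβ hx0 hx
  have hcp := cW_pos hβ hx0 hx
  have hgp := gW_pos hβ hx0 hx
  -- scaled variables
  set T : ℝ := D * (β - 1) with hT
  set X : ℝ := D * x with hX
  set G : ℝ := D * gam β x with hG
  set Q : ℝ := D * pip β x with hQ
  have T1 : (ta:ℝ) ≤ T := by
    have : (ta / D : ℝ) ≤ β - 1 := by linarith
    rw [div_le_iff₀ hD'] at this; rw [hT]; linarith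
  have T2 : T ≤ tb := by
    have : β - 1 ≤ (tb / D : ℝ) := by linarith
    rw [le_div_iff₀ hD'] at this; rw [hT]; linarith
  have T0 : 0 < T := by rw [hT]; positivity
  have X1' : (w1:ℝ) ≤ X := by rw [div_le_iff₀ hD'] at X1; rw [hX]; linarith
  have X2' : X ≤ w2 := by rw [le_div_iff₀ hD'] at X2; rw [hX]; linarith
  have G1' : (gl:ℝ) ≤ G := by rw [div_le_iff₀ hD'] at G1; rw [hG]; linarith
  have G2' : G ≤ gh := by rw [le_div_iff₀ hD'] at G2; rw [hG]; linarith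
  have Q1' : (pl:ℝ) ≤ Q := by rw [div_le_iff₀ hD'] at Q1; rw [hQ]; linarith
  have Q2' : Q ≤ ph := by rw [le_div_iff₀ hD'] at Q2; rw [hQ]; linarith
  have hNd := NW_dl (D := (D:ℝ)) (x := x) hβ
  rw [← hT, ← hX, ← hG, ← hQ] at hNd
  obtain ⟨d1, d2⟩ := dl_bounds hta T1 T2 f1 f3 X1' X2' G1' G2' Q1' Q2'
  have f9' : (0:ℝ) ≤ ((dL D tb w1 w2 gl gh pl ph : ℤ) : ℝ) := by exact_mod_cast f9
  have f8' : (w2:ℝ) * ((dH D ta w1 w2 gl gh pl ph : ℤ) : ℝ) ≤ dd * D ^ 4 := by exact_mod_cast f8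
  have f10' : (q:ℝ) * D ^ 4 ≤ w1 * ((dL D tb w1 w2 gl gh pl ph : ℤ) : ℝ) := by exact_mod_cast f10
  have hX0 : 0 ≤ X := by linarith
  have Xd1 : X * dl D T X G Q ≤ dd * D ^ 4 := by
    have : X * dl D T X G Q ≤ w2 * ((dH D ta w1 w2 gl gh pl ph : ℤ) : ℝ) :=
      mul_le_mul X2' d2 (by linarith) (by linarith)
    linarith
  have Xd2 : (q:ℝ) * D ^ 4 ≤ X * dl D T X G Q := by
    have : w1 * ((dL D tb w1 w2 gl gh pl ph : ℤ) : ℝ) ≤ X * dl D T X G Q :=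
      mul_le_mul X1' d1 f9' hX0
    linarith
  have hD5 : (0:ℝ) < D ^ 5 := by positivity
  have N1 : 1 - (β - 1) * (dd / D) ≤ NW β x := by
    have h1 := mul_le_mul_of_nonneg_left Xd1 T0.le
    have h2 : D ^ 6 * (1 - (β - 1) * (dd / D)) ≤ D ^ 6 * NW β x := by
      have e : (D:ℝ) ^ 6 * (1 - (β - 1) * (dd / D)) = D ^ 6 - T * (dd * D ^ 4) := by
        rw [hT]; field_simp
      rw [e]; linarith
    exact le_of_mul_le_mul_left h2 (by positivity)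
  have N2 : NW β x ≤ 1 - (β - 1) * (q / D) := by
    have h1 := mul_le_mul_of_nonneg_left Xd2 T0.le
    have h2 : D ^ 6 * NW β x ≤ D ^ 6 * (1 - (β - 1) * (q / D)) := by
      have e : (D:ℝ) ^ 6 * (1 - (β - 1) * (q / D)) = D ^ 6 - T * (q * D ^ 4) := by
        rw [hT]; field_simp
      rw [e]; linarith
    exact le_of_mul_le_mul_left h2 (by positivity)
  -- raw bounds
  have eP : (D:ℝ) ^ 2 * PW β x = 2 * (D ^ 2 + T * Q) := by rw [PW_pip hβ, hT, hQ]; ring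
  have eg : (D:ℝ) ^ 2 * gW β x = 2 * D ^ 2 + T * G := by rw [gW_gam hβ, hT, hG]; ring
  have P1 : ((PLi D ta tb pl : ℤ) : ℝ) ≤ D ^ 2 * PW β x := by
    rw [eP, PLi]
    have := min_le_mul' T0.le T1 T2 Q1'
    push_cast at this ⊢
    linarith
  have P2 : (D:ℝ) ^ 2 * PW β x ≤ ((PHi D ta tb ph : ℤ) : ℝ) := by
    rw [eP, PHi]
    have := mul_le_max' T0.le T1 T2 Q2'
    push_cast at this ⊢
    linarith
  have g1 : ((GLi D ta tb gl : ℤ) : ℝ) ≤ D ^ 2 * gW β x := by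
    rw [eg, GLi]
    have := min_le_mul' T0.le T1 T2 G1'
    push_cast at this ⊢
    linarith
  have g2 : (D:ℝ) ^ 2 * gW β x ≤ ((GHi D ta tb gh : ℤ) : ℝ) := by
    rw [eg, GHi]
    have := mul_le_max' T0.le T1 T2 G2'
    push_cast at this ⊢
    linarith
  have f4' : (0:ℝ) ≤ ((PLi D ta tb pl : ℤ) : ℝ) := by exact_mod_cast f4
  have f5' : (0:ℝ) < ((GLi D ta tb gl : ℤ) : ℝ) := by exact_mod_cast f5
  have f7' : (0:ℝ) ≤ y := by exact_mod_cast f7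
  have f13' : (y:ℝ) * ((D - w1) * ((PHi D ta tb ph : ℤ) : ℝ) ^ 2 +
      w2 * ((GHi D ta tb gh : ℤ) : ℝ) ^ 2) ≤
      (D + 2 * ta) * ((PLi D ta tb pl : ℤ) : ℝ) * D ^ 3 := by exact_mod_cast f13
  have f14' : ((D:ℝ) + tb) * ((PHi D ta tb ph : ℤ) : ℝ) < (D + y) * ((GLi D ta tb gl : ℤ) : ℝ) := by
    exact_mod_cast f14
  have f15' : ((PHi D ta tb ph : ℤ) : ℝ) * D ^ 3 < (D - w2) * ((PLi D ta tb pl : ℤ) : ℝ) ^ 2 +
      w1 * ((GLi D ta tb gl : ℤ) : ℝ) ^ 2 := by exact_mod_cast f15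
  generalize ((PLi D ta tb pl : ℤ) : ℝ) = Px at *
  generalize ((PHi D ta tb ph : ℤ) : ℝ) = Py at *
  generalize ((GLi D ta tb gl : ℤ) : ℝ) = Gx at *
  generalize ((GHi D ta tb gh : ℤ) : ℝ) = Gy at *
  have hP0 : 0 < D ^ 2 * PW β x := by positivity
  have hg0 : 0 < D ^ 2 * gW β x := by positivity
  have sq1 : Px ^ 2 ≤ (D ^ 2 * PW β x) ^ 2 := pow_le_pow_left₀ f4' P1 2
  have sq2 : (D ^ 2 * PW β x) ^ 2 ≤ Py ^ 2 := pow_le_pow_left₀ hP0.le P2 2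
  have sq3 : Gx ^ 2 ≤ (D ^ 2 * gW β x) ^ 2 := pow_le_pow_left₀ f5'.le g1 2
  have sq4 : (D ^ 2 * gW β x) ^ 2 ≤ Gy ^ 2 := pow_le_pow_left₀ hg0.le g2 2
  have eZ : (D:ℝ) ^ 5 * ZW β x = (D - X) * (D ^ 2 * PW β x) ^ 2 + X * (D ^ 2 * gW β x) ^ 2 := by
    rw [ZW, hX]; ring
  have hXD : X ≤ D := by linarith
  have Z1 : (D - w2) * Px ^ 2 + w1 * Gx ^ 2 ≤ D ^ 5 * ZW β x := by
    rw [eZ]
    have a1 : (D - w2 : ℝ) * Px ^ 2 ≤ (D - X) * (D ^ 2 * PW β x) ^ 2 :=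
      mul_le_mul (by linarith) sq1 (sq_nonneg _) (by linarith)
    have a2 : (w1 : ℝ) * Gx ^ 2 ≤ X * (D ^ 2 * gW β x) ^ 2 :=
      mul_le_mul X1' sq3 (sq_nonneg _) hX0
    linarith
  have Z2 : D ^ 5 * ZW β x ≤ (D - w1) * Py ^ 2 + w2 * Gy ^ 2 := by
    rw [eZ]
    have a1 : (D - X) * (D ^ 2 * PW β x) ^ 2 ≤ (D - w1 : ℝ) * Py ^ 2 :=
      mul_le_mul (by linarith) sq2 (sq_nonneg _) (by linarith)
    have a2 : X * (D ^ 2 * gW β x) ^ 2 ≤ (w2 : ℝ) * Gy ^ 2 :=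
      mul_le_mul X2' sq4 (sq_nonneg _) (by linarith)
    linarith
  -- lower bound for c
  have hcZ : (cW β x - 1) * ZW β x = (2 * β - 1) * PW β x := by
    rw [cW]; field_simp; ring
  have hc : 1 + (y / D : ℝ) ≤ cW β x := by
    have b1 : (y:ℝ) * (D ^ 5 * ZW β x) ≤ (D + 2 * ta) * Px * D ^ 3 := by
      have := mul_le_mul_of_nonneg_left Z2 f7'
      linarith
    have b2 : (D + 2 * ta : ℝ) * Px ≤ (D + 2 * T) * (D ^ 2 * PW β x) :=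
      mul_le_mul (by linarith) P1 f4' (by linarith)
    have b3 := mul_le_mul_of_nonneg_right b2 (by positivity : (0:ℝ) ≤ (D:ℝ) ^ 3)
    have b4 : (D + 2 * T) * (D ^ 2 * PW β x) * D ^ 3 = (D ^ 6 * (cW β x - 1)) * ZW β x := by
      rw [hT]
      linear_combination (-(D:ℝ) ^ 6) * hcZ
    have b5 : ((y:ℝ) * D ^ 5) * ZW β x ≤ (D ^ 6 * (cW β x - 1)) * ZW β x := by linarith
    have b6 := le_of_mul_le_mul_right b5 hZp
    have b7 : (D:ℝ) ^ 6 * (1 + y / D) ≤ D ^ 6 * cW β x := by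
      have e : (D:ℝ) ^ 6 * (1 + y / D) = D ^ 6 + y * D ^ 5 := by field_simp
      rw [e]; linarith
    exact le_of_mul_le_mul_left b7 (by positivity)
  have hDp : 0 < 1 + (β - 1) * pip β x := by
    have := hPp
    rw [PW_pip hβ] at this
    linarith
  refine ⟨?_, ?_, ?_, ?_⟩
  · apply hA_of hβ (div_nonneg (by exact_mod_cast hkp) hD'.le)
      (la := (((D + kp : ℤ) : ℝ) / D)) (by push_cast; field_simp) hx0 hx
    exact ckH1_sound hD hta (by linarith) f11 hθ (by linarith) (by linarith) N1 Q2 hDp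
  · have := ckH2_sound hD hta hkp f6 f7 f12 hθ (by linarith) (by linarith) N2 hc
    have e : 1 + (β - 1) = β := by ring
    rwa [e] at this
  · have c1 : (D + T) * (D ^ 2 * PW β x) ≤ (D + tb) * Py :=
      mul_le_mul (by linarith) P2 hP0.le (by linarith)
    have c2 : (D + y) * Gx ≤ (D * cW β x) * (D ^ 2 * gW β x) := by
      apply mul_le_mul _ g1 f5'.le (by positivity)
      have e : (D:ℝ) * (1 + y / D) = D + y := by field_simp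
      have := mul_le_mul_of_nonneg_left hc hD'.le
      linarith
    have c3 : D ^ 3 * (β * PW β x) < D ^ 3 * (cW β x * gW β x) := by
      have e1 : (D + T) * (D ^ 2 * PW β x) = D ^ 3 * (β * PW β x) := by rw [hT]; ring
      have e2 : (D * cW β x) * (D ^ 2 * gW β x) = D ^ 3 * (cW β x * gW β x) := by ring
      linarith
    exact lt_of_mul_lt_mul_left c3 (by positivity)
  · have c1 : D ^ 5 * PW β x ≤ Py * D ^ 3 := by
      have := mul_le_mul_of_nonneg_right P2 (by positivity : (0:ℝ) ≤ (D:ℝ) ^ 3)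
      linarith
    have c3 : D ^ 5 * PW β x < D ^ 5 * ZW β x := by linarith
    exact lt_of_mul_lt_mul_left c3 (by positivity)

end Pool.Agent.TH242.AC
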