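import Mathlib
import Pool.Agent.TH242.AC.NChk2

open Set

namespace Pool.Agent.TH242.AC

/-- partial products of the Wallis ratio, normalised -/
noncomputable def xN (θ : ℝ) : ℕ → ℝ
  | 0 => 0
  | (k + 1) => xN θ k + 2 / ((3 + 2 * k) * (4 + 2 * k + 2 * θ)) * (1 + θ * xN θ k)

lemma xN_nonneg {θ : ℝ} (hθ : 0 ≤ θ) (n : ℕ) : 0 ≤ xN θ n := by
  induction n with
  | zero => simp [xN]
  | succ n ih => rw [xN]; positivity

lemma PA_ratio {θ : ℝ} (hθ : 0 ≤ θ) (n : ℕ) :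
    PA (3 + 2 * θ) n * PA 4 n = (1 + θ * xN θ n) * (PA (4 + 2 * θ) n * PA 3 n) := by
  induction n with
  | zero => simp [PA, xN]
  | succ n ih =>
    rw [PA, PA, PA, PA, xN]
    have hn : (0:ℝ) ≤ n := Nat.cast_nonneg n
    have h1 : (0:ℝ) < 3 + 2 * n := by linarith
    have h2 : (0:ℝ) < 4 + 2 * n + 2 * θ := by linarith
    have e : 1 + θ * (xN θ n + 2 / ((3 + 2 * n) * (4 + 2 * n + 2 * θ)) * (1 + θ * xN θ n)) =
        (1 + θ * xN θ n) * (1 + θ * (2 / ((3 + 2 * n) * (4 + 2 * n + 2 * θ)))) := by ring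
    have e2 : (1 + θ * (2 / ((3 + 2 * (n:ℝ)) * (4 + 2 * n + 2 * θ)))) *
        ((4 + 2 * θ + 2 * n) * (3 + 2 * n)) = (3 + 2 * θ + 2 * n) * (4 + 2 * n) := by
      field_simp
      ring
    rw [e]
    calc PA (3 + 2 * θ) n * (3 + 2 * θ + 2 * n) * (PA 4 n * (4 + 2 * n)) =
          (PA (3 + 2 * θ) n * PA 4 n) * ((3 + 2 * θ + 2 * n) * (4 + 2 * n)) := by ring
      _ = ((1 + θ * xN θ n) * (PA (4 + 2 * θ) n * PA 3 n)) *
          ((1 + θ * (2 / ((3 + 2 * (n:ℝ)) * (4 + 2 * n + 2 * θ)))) *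
        ((4 + 2 * θ + 2 * n) * (3 + 2 * n))) := by rw [ih, e2]
      _ = _ := by ring

lemma aa_xN {β : ℝ} (hβ : 1 < β) (n : ℕ) :
    aa β 0 * lam (β + n) = (1 + (β - 1) * xN (β - 1) n) * (2 * lam (n + 1)) := by
  have hθ : 0 ≤ β - 1 := by linarith
  have h1 := aa_mul_lam hβ
  have h2 := lam_chain hβ.le n
  have h3 := lam_int n
  have h4 := PA_ratio hθ n
  have e1 : 3 + 2 * (β - 1) = 2 * β + 1 := by ring
  have e2 : 4 + 2 * (β - 1) = 2 * β + 2 := by ring
  rw [e1, e2] at h4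
  have hA := PA_pos (x := 2 * β + 2) (by linarith) n
  have hB := PA_pos (x := 4) (by norm_num) n
  have hpos : 0 < PA (2 * β + 2) n * PA 4 n := mul_pos hA hB
  apply mul_right_cancel₀ hpos.ne'
  calc aa β 0 * lam (β + n) * (PA (2 * β + 2) n * PA 4 n) =
        aa β 0 * (lam (β + n) * PA (2 * β + 2) n) * PA 4 n := by ring
    _ = (aa β 0 * lam β) * (PA (2 * β + 1) n * PA 4 n) := by rw [← h2]; ring
    _ = (1 + (β - 1) * xN (β - 1) n) * (PA (2 * β + 2) n * PA 3 n) := by rw [h1, h4, one_mul]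
    _ = _ := by rw [h3]; ring

lemma pip_zero_le {β ta : ℝ} (hβ : 1 < β) (hβ2 : β ≤ 2) (hta : 0 ≤ ta) (ha : 1 + ta ≤ β) {n : ℕ}
    (hn : 1 ≤ n) {x : ℝ} (hx : xN (β - 1) n ≤ x) :
    pip β 0 ≤ x + (1 + (β - 1) * x) / (2 * n + 1 + 2 * ta) := by
  have hθ : 0 < β - 1 := by linarith
  have hn1 : (1:ℝ) ≤ n := by exact_mod_cast hn
  have h1 := aa_xN hβ n
  have e : β + n = (n + 1) + (β - 1) := by ring
  rw [e] at h1
  have h2 := lam_lower (p := (n:ℝ) + 1) (t := β - 1) (by linarith) hθ.le (by linarith)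
  have hl := lam_pos (β := (n:ℝ) + 1 + (β - 1)) (by linarith)
  have x0 := xN_nonneg hθ.le n
  have h3 : aa β 0 * lam ((n:ℝ) + 1 + (β - 1)) ≤
      (2 * (1 + (β - 1) * xN (β - 1) n) * (1 + (β - 1) / (2 * ((n:ℝ) + 1) + 2 * (β - 1) - 1))) *
        lam ((n:ℝ) + 1 + (β - 1)) := by
    rw [h1]
    have := mul_le_mul_of_nonneg_left h2
      (by positivity : 0 ≤ 2 * (1 + (β - 1) * xN (β - 1) n))
    linarith
  have h4 := le_of_mul_le_mul_right h3 hl
  have hd : (0:ℝ) < 2 * n + 1 + 2 * ta := by linarith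
  have h5 : (β - 1) / (2 * ((n:ℝ) + 1) + 2 * (β - 1) - 1) ≤ (β - 1) / (2 * n + 1 + 2 * ta) :=
    div_le_div_of_nonneg_left hθ.le hd (by linarith)
  have hx0 : 0 ≤ x := x0.trans hx
  have h6 : aa β 0 ≤ 2 * (1 + (β - 1) * x) * (1 + (β - 1) / (2 * n + 1 + 2 * ta)) := by
    refine h4.trans ?_
    apply mul_le_mul _ _ _ (by positivity)
    · have := mul_le_mul_of_nonneg_left hx hθ.le
      linarith
    · linarith
    · have : 0 ≤ (β - 1) / (2 * ((n:ℝ) + 1) + 2 * (β - 1) - 1) :=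
        div_nonneg hθ.le (by linarith)
      linarith
  rw [pip, PW_zero, div_le_iff₀ hθ]
  have e7 : (x + (1 + (β - 1) * x) / (2 * n + 1 + 2 * ta)) * (β - 1) + 1 =
      (1 + (β - 1) * x) * (1 + (β - 1) / (2 * n + 1 + 2 * ta)) := by
    field_simp
    ring
  linarith

lemma le_pip_zero {β : ℝ} (hβ : 1 < β) (hβ2 : β ≤ 2) {n : ℕ}
    {x : ℝ} (hx0 : 0 ≤ x) (hx : x ≤ xN (β - 1) n) :
    x + (1 + (β - 1) * x) / (2 * n + 4) ≤ pip β 0 := by
  have hθ : 0 < β - 1 := by linarith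
  have hn1 : (0:ℝ) ≤ n := Nat.cast_nonneg n
  have h1 := aa_xN hβ n
  have e : β + n = (n + 1) + (β - 1) := by ring
  rw [e] at h1
  have h2 := lam_upper (p := (n:ℝ) + 1) (t := β - 1) (by linarith) hθ.le (by linarith)
  have hl := lam_pos (β := (n:ℝ) + 1 + (β - 1)) (by linarith)
  have hlp : 0 < lam ((n:ℝ) + 1) := by
    have h7 : 0 < 1 - (β - 1) / (2 * ((n:ℝ) + 1) + 2) := by
      rw [sub_pos, div_lt_one (by linarith)]; linarith
    by_contra hcon
    push Not at hcon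
    have := mul_nonpos_of_nonpos_of_nonneg hcon h7.le
    linarith
  have haa := aa_zero_pos hβ
  set u := (β - 1) / (2 * ((n:ℝ) + 1) + 2) with hu
  have hu0 : 0 ≤ u := div_nonneg hθ.le (by linarith)
  have h3 : (2 * (1 + (β - 1) * xN (β - 1) n)) * lam ((n:ℝ) + 1) ≤
      (aa β 0 * (1 - u)) * lam ((n:ℝ) + 1) := by
    have := mul_le_mul_of_nonneg_left h2 haa.le
    linarith
  have h4 := le_of_mul_le_mul_right h3 hlp
  have h5 : 2 * (1 + (β - 1) * xN (β - 1) n) * (1 + u) ≤ aa β 0 := by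
    have a1 := mul_le_mul_of_nonneg_right h4 (by linarith : 0 ≤ 1 + u)
    have a2 : 0 ≤ aa β 0 * u ^ 2 := by positivity
    nlinarith
  have h6 : 2 * (1 + (β - 1) * x) * (1 + u) ≤ aa β 0 := by
    refine le_trans ?_ h5
    apply mul_le_mul_of_nonneg_right _ (by linarith)
    have := mul_le_mul_of_nonneg_left hx hθ.le
    linarith
  rw [pip, PW_zero, le_div_iff₀ hθ]
  have e7 : (x + (1 + (β - 1) * x) / (2 * n + 4)) * (β - 1) + 1 =
      (1 + (β - 1) * x) * (1 + u) := by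
    have hd : (2 * (n:ℝ) + 4) ≠ 0 := by linarith
    have e8 : 2 * ((n:ℝ) + 1) + 2 = 2 * n + 4 := by ring
    rw [hu, e8]
    field_simp
    ring
  linarith

def ckXU (D ta tb S ph : ℤ) : ℤ → ℤ → List ℤ → Bool
  | k, x, [] => decide (1 ≤ k) && decide (x * D * ((2 * k + 1) * D + 2 * ta) + D * (D * S + tb * x) ≤
      ph * S * ((2 * k + 1) * D + 2 * ta))
  | k, x, z :: zs => decide (x * ((3 + 2 * k) * ((4 + 2 * k) * D + 2 * ta)) + 2 * (D * S + tb * x) ≤
      z * ((3 + 2 * k) * ((4 + 2 * k) * D + 2 * ta))) && ckXU D ta tb S ph (k + 1) z zs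

def ckXL (D ta tb S pl : ℤ) : ℤ → ℤ → List ℤ → Bool
  | k, x, [] => decide (pl * S * (2 * k + 4) ≤ x * D * (2 * k + 4) + (D * S + ta * x))
  | k, x, z :: zs => decide (z * ((3 + 2 * k) * ((4 + 2 * k) * D + 2 * tb)) ≤
      x * ((3 + 2 * k) * ((4 + 2 * k) * D + 2 * tb)) + 2 * (D * S + ta * x)) && decide (0 ≤ z) &&
      ckXL D ta tb S pl (k + 1) z zs

lemma ckXU_sound {D ta tb S ph : ℤ} (hD : 0 < D) (hta : 0 ≤ ta) (hS : 0 < S) {β : ℝ} (hβ : 1 < β)
    (hβ2 : β ≤ 2) (ha : 1 + (ta / D : ℝ) ≤ β) (hb : β ≤ 1 + (tb / D : ℝ)) :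
    ∀ (zs : List ℤ) (k : ℕ) (x : ℤ), xN (β - 1) k ≤ (x / S : ℝ) →
      ckXU D ta tb S ph k x zs = true → pip β 0 ≤ (ph / D : ℝ) := by
  have hD' : (0:ℝ) < D := by exact_mod_cast hD
  have hS' : (0:ℝ) < S := by exact_mod_cast hS
  have hta' : (0:ℝ) ≤ ta := by exact_mod_cast hta
  have hθ : 0 < β - 1 := by linarith
  intro zs
  induction zs with
  | nil =>
    intro k x hx h
    simp only [ckXU, Bool.and_eq_true, decide_eq_true_eq] at h
    obtain ⟨h0, h⟩ := h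
    have hk : 1 ≤ k := by exact_mod_cast h0
    have h' : (x:ℝ) * D * ((2 * k + 1) * D + 2 * ta) + D * (D * S + tb * x) ≤
      ph * S * ((2 * k + 1) * D + 2 * ta) := by exact_mod_cast h
    have x0 : (0:ℝ) ≤ x / S := (xN_nonneg hθ.le k).trans hx
    have h1 := pip_zero_le hβ hβ2 (div_nonneg hta' hD'.le) ha hk hx
    refine h1.trans ?_
    have hk0 : (0:ℝ) ≤ k := Nat.cast_nonneg k
    have hden : (0:ℝ) < 2 * k + 1 + 2 * (ta / D) := by positivity
    have h2 : (x / S : ℝ) + (1 + (β - 1) * (x / S)) / (2 * k + 1 + 2 * (ta / D)) ≤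
        (x / S : ℝ) + (1 + (tb / D) * (x / S)) / (2 * k + 1 + 2 * (ta / D)) := by
      have h3 : (β - 1) * (x / S : ℝ) ≤ (tb / D) * (x / S) :=
        mul_le_mul_of_nonneg_right (by linarith) x0
      have := div_le_div_of_nonneg_right
        (by linarith : 1 + (β - 1) * (x / S : ℝ) ≤ 1 + (tb / D) * (x / S)) hden.le
      linarith
    refine h2.trans ?_
    rw [← sub_nonneg]
    have hden2 : (0:ℝ) < (2 * k + 1) * D + 2 * ta := by positivity
    have e : (ph / D : ℝ) - ((x / S : ℝ) + (1 + (tb / D) * (x / S)) / (2 * k + 1 + 2 * (ta / D))) =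
        (ph * S * ((2 * k + 1) * D + 2 * ta) - (x * D * ((2 * k + 1) * D + 2 * ta) +
          D * (D * S + tb * x))) / (S * D * ((2 * k + 1) * D + 2 * ta)) := by
      have e1 : (2 * k + 1 + 2 * (ta / D) : ℝ) = ((2 * k + 1) * D + 2 * ta) / D := by
        field_simp
      rw [e1]
      field_simp
    rw [e]
    exact div_nonneg (by linarith) (by positivity)
  | cons z zs ih =>
    intro k x hx h
    simp only [ckXU, Bool.and_eq_true, decide_eq_true_eq] at h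
    obtain ⟨h0, h⟩ := h
    apply ih (k + 1) z _ (by exact_mod_cast h)
    have h' : (x:ℝ) * ((3 + 2 * k) * ((4 + 2 * k) * D + 2 * ta)) + 2 * (D * S + tb * x) ≤
      z * ((3 + 2 * k) * ((4 + 2 * k) * D + 2 * ta)) := by exact_mod_cast h0
    have hk0 : (0:ℝ) ≤ k := Nat.cast_nonneg k
    have x0 : (0:ℝ) ≤ x / S := (xN_nonneg hθ.le k).trans hx
    rw [xN]
    have hden : (0:ℝ) < (3 + 2 * k) * (4 + 2 * k + 2 * (ta / D)) := by positivity
    have a1 : 2 / ((3 + 2 * (k:ℝ)) * (4 + 2 * k + 2 * (β - 1))) ≤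
        2 / ((3 + 2 * (k:ℝ)) * (4 + 2 * k + 2 * (ta / D))) := by
      apply div_le_div_of_nonneg_left (by norm_num) hden
      apply mul_le_mul_of_nonneg_left _ (by positivity)
      linarith
    have a2 : 1 + (β - 1) * xN (β - 1) k ≤ 1 + (tb / D : ℝ) * (x / S) := by
      have b1 : (β - 1) * xN (β - 1) k ≤ (β - 1) * (x / S) := mul_le_mul_of_nonneg_left hx hθ.le
      have b2 : (β - 1) * (x / S : ℝ) ≤ (tb / D) * (x / S) :=
        mul_le_mul_of_nonneg_right (by linarith) x0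
      linarith
    have a3 : 2 / ((3 + 2 * (k:ℝ)) * (4 + 2 * k + 2 * (β - 1))) * (1 + (β - 1) * xN (β - 1) k) ≤
        2 / ((3 + 2 * (k:ℝ)) * (4 + 2 * k + 2 * (ta / D))) * (1 + (tb / D : ℝ) * (x / S)) := by
      apply mul_le_mul a1 a2
      · have := mul_nonneg hθ.le (xN_nonneg hθ.le k)
        linarith
      · positivity
    have a4 : (x / S : ℝ) + 2 / ((3 + 2 * (k:ℝ)) * (4 + 2 * k + 2 * (ta / D))) *
        (1 + (tb / D : ℝ) * (x / S)) ≤ (z / S : ℝ) := by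
      rw [← sub_nonneg]
      have hden2 : (0:ℝ) < (4 + 2 * k) * D + 2 * ta := by positivity
      have e : (z / S : ℝ) - ((x / S : ℝ) + 2 / ((3 + 2 * (k:ℝ)) * (4 + 2 * k + 2 * (ta / D))) *
        (1 + (tb / D : ℝ) * (x / S))) =
          (z * ((3 + 2 * k) * ((4 + 2 * k) * D + 2 * ta)) -
            (x * ((3 + 2 * k) * ((4 + 2 * k) * D + 2 * ta)) + 2 * (D * S + tb * x))) /
            (S * ((3 + 2 * k) * ((4 + 2 * k) * D + 2 * ta))) := by
        have e1 : (4 + 2 * k + 2 * (ta / D) : ℝ) = ((4 + 2 * k) * D + 2 * ta) / D := by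
          field_simp
        rw [e1]
        field_simp
      rw [e]
      exact div_nonneg (by linarith) (by positivity)
    linarith

lemma ckXL_sound {D ta tb S pl : ℤ} (hD : 0 < D) (hta : 0 ≤ ta) (hS : 0 < S) {β : ℝ} (hβ : 1 < β)
    (hβ2 : β ≤ 2) (ha : 1 + (ta / D : ℝ) ≤ β) (hb : β ≤ 1 + (tb / D : ℝ)) :
    ∀ (zs : List ℤ) (k : ℕ) (x : ℤ), 0 ≤ x → (x / S : ℝ) ≤ xN (β - 1) k →
      ckXL D ta tb S pl k x zs = true → (pl / D : ℝ) ≤ pip β 0 := by
  have hD' : (0:ℝ) < D := by exact_mod_cast hD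
  have hS' : (0:ℝ) < S := by exact_mod_cast hS
  have hta' : (0:ℝ) ≤ ta := by exact_mod_cast hta
  have hθ : 0 < β - 1 := by linarith
  have htb' : (0:ℝ) ≤ tb := by
    have : (0:ℝ) < tb / D := by linarith
    by_contra hcon
    push Not at hcon
    have := div_nonpos_of_nonpos_of_nonneg hcon.le hD'.le
    linarith
  intro zs
  induction zs with
  | nil =>
    intro k x hx0 hx h
    simp only [ckXL, decide_eq_true_eq] at h
    have h' : (pl:ℝ) * S * (2 * k + 4) ≤ x * D * (2 * k + 4) + (D * S + ta * x) := by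
      exact_mod_cast h
    have x0 : (0:ℝ) ≤ x / S := div_nonneg (by exact_mod_cast hx0) hS'.le
    have h1 := le_pip_zero hβ hβ2 x0 hx
    refine le_trans ?_ h1
    have hk0 : (0:ℝ) ≤ k := Nat.cast_nonneg k
    have hden : (0:ℝ) < 2 * k + 4 := by positivity
    have h2 : (x / S : ℝ) + (1 + (ta / D) * (x / S)) / (2 * k + 4) ≤
        (x / S : ℝ) + (1 + (β - 1) * (x / S)) / (2 * k + 4) := by
      have h3 : (ta / D : ℝ) * (x / S : ℝ) ≤ (β - 1) * (x / S) :=
        mul_le_mul_of_nonneg_right (by linarith) x0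
      have := div_le_div_of_nonneg_right
        (by linarith : 1 + (ta / D : ℝ) * (x / S : ℝ) ≤ 1 + (β - 1) * (x / S)) hden.le
      linarith
    refine le_trans ?_ h2
    rw [← sub_nonneg]
    have e : (x / S : ℝ) + (1 + (ta / D) * (x / S)) / (2 * k + 4) - (pl / D : ℝ) =
        (x * D * (2 * k + 4) + (D * S + ta * x) - pl * S * (2 * k + 4)) /
          (S * D * (2 * k + 4)) := by
      field_simp
    rw [e]
    exact div_nonneg (by linarith) (by positivity)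
  | cons z zs ih =>
    intro k x hx0 hx h
    simp only [ckXL, Bool.and_eq_true, decide_eq_true_eq] at h
    obtain ⟨⟨h0, hz0⟩, h⟩ := h
    apply ih (k + 1) z hz0 _ (by exact_mod_cast h)
    have h' : (z:ℝ) * ((3 + 2 * k) * ((4 + 2 * k) * D + 2 * tb)) ≤
      x * ((3 + 2 * k) * ((4 + 2 * k) * D + 2 * tb)) + 2 * (D * S + ta * x) := by
      exact_mod_cast h0
    have hk0 : (0:ℝ) ≤ k := Nat.cast_nonneg k
    have x0 : (0:ℝ) ≤ x / S := div_nonneg (by exact_mod_cast hx0) hS'.le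
    rw [xN]
    have hden : (0:ℝ) < (3 + 2 * k) * (4 + 2 * k + 2 * (β - 1)) := by positivity
    have a1 : 2 / ((3 + 2 * (k:ℝ)) * (4 + 2 * k + 2 * (tb / D))) ≤
        2 / ((3 + 2 * (k:ℝ)) * (4 + 2 * k + 2 * (β - 1))) := by
      apply div_le_div_of_nonneg_left (by norm_num) hden
      apply mul_le_mul_of_nonneg_left _ (by positivity)
      linarith
    have a2 : 1 + (ta / D : ℝ) * (x / S) ≤ 1 + (β - 1) * xN (β - 1) k := by
      have b1 : (β - 1) * (x / S) ≤ (β - 1) * xN (β - 1) k := mul_le_mul_of_nonneg_left hx hθ.le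
      have b2 : (ta / D : ℝ) * (x / S : ℝ) ≤ (β - 1) * (x / S) :=
        mul_le_mul_of_nonneg_right (by linarith) x0
      linarith
    have a3 : 2 / ((3 + 2 * (k:ℝ)) * (4 + 2 * k + 2 * (tb / D))) * (1 + (ta / D : ℝ) * (x / S)) ≤
        2 / ((3 + 2 * (k:ℝ)) * (4 + 2 * k + 2 * (β - 1))) * (1 + (β - 1) * xN (β - 1) k) := by
      apply mul_le_mul a1 a2
      · positivity
      · positivity
    have a4 : (z / S : ℝ) ≤ (x / S : ℝ) + 2 / ((3 + 2 * (k:ℝ)) * (4 + 2 * k + 2 * (tb / D))) *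
        (1 + (ta / D : ℝ) * (x / S)) := by
      rw [← sub_nonneg]
      have hden2 : (0:ℝ) < (4 + 2 * k) * D + 2 * tb := by positivity
      have e : (x / S : ℝ) + 2 / ((3 + 2 * (k:ℝ)) * (4 + 2 * k + 2 * (tb / D))) *
        (1 + (ta / D : ℝ) * (x / S)) - (z / S : ℝ) =
          ((x * ((3 + 2 * k) * ((4 + 2 * k) * D + 2 * tb)) + 2 * (D * S + ta * x)) -
            z * ((3 + 2 * k) * ((4 + 2 * k) * D + 2 * tb))) /
            (S * ((3 + 2 * k) * ((4 + 2 * k) * D + 2 * tb))) := by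
        have e1 : (4 + 2 * k + 2 * (tb / D) : ℝ) = ((4 + 2 * k) * D + 2 * tb) / D := by
          field_simp
        rw [e1]
        field_simp
      rw [e]
      exact div_nonneg (by linarith) (by positivity)
    linarith

end Pool.Agent.TH242.AC
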