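import Mathlib
import Pool.Agent.TH242.AC.NChk3

open Set

namespace Pool.Agent.TH242.AC

def ckNU (D t w1 w2 m m' : ℤ) : Bool :=
  decide (0 ≤ 2 * D * (w1 * (D - w1) * (m' - m)) +
    (w2 - w1) * ((D * D + 2 * t * w1) * m - 2 * D * D * (D - 2 * w1))) &&
  decide (0 ≤ (3 * D * D - 4 * D * w1 + 2 * t * w1) * (m' - m) +
    2 * (w2 - w1) * (t * m + 2 * D * D))

def ckNL (D t w1 w2 m m' : ℤ) : Bool :=
  decide (2 * D * (w1 * (D - w1) * (m' - m)) +
    (w2 - w1) * ((D * D + 2 * t * w1) * m - 2 * D * D * (D - 2 * w1)) ≤ 0) &&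
  decide (2 * D * (w2 * (D - w2) * (m' - m)) +
    (w2 - w1) * ((D * D + 2 * t * w2) * m' - 2 * D * D * (D - 2 * w2)) ≤ 0)

def ckNpU (D t w1 w2 m m' : ℤ) : Bool :=
  decide (0 ≤ D * ((D - w1) * (m' - m)) + (w2 - w1) * (D * D + t * m)) &&
  decide (0 ≤ D * ((D - w2) * (m' - m)) + (w2 - w1) * (D * D + t * m'))

def ckNpL (D t w1 w2 m m' : ℤ) : Bool :=
  decide (D * ((D - w1) * (m' - m)) + (w2 - w1) * (D * D + t * m) ≤ 0) &&
  decide (D * ((D - w2) * (m' - m)) + (w2 - w1) * (D * D + t * m') ≤ 0)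

lemma ckNU_sound {D t w1 w2 m m' : ℤ} (hD : 0 < D) (h : ckNU D t w1 w2 m m' = true) :
    NStU (t / D : ℝ) (w1 / D) (w2 / D) (m / D) (m' / D) := by
  have hD' : (0:ℝ) < D := by exact_mod_cast hD
  simp only [ckNU, Bool.and_eq_true, decide_eq_true_eq] at h
  obtain ⟨h1, h2⟩ := h
  have h1' : (0:ℝ) ≤ 2 * D * (w1 * (D - w1) * (m' - m)) +
    (w2 - w1) * ((D * D + 2 * t * w1) * m - 2 * D * D * (D - 2 * w1)) := by exact_mod_cast h1
  have h2' : (0:ℝ) ≤ (3 * D * D - 4 * D * w1 + 2 * t * w1) * (m' - m) +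
    2 * (w2 - w1) * (t * m + 2 * D * D) := by exact_mod_cast h2
  constructor
  · have e : (w1 / D : ℝ) * (1 - w1 / D) * (m' / D - m / D) +
        (w2 / D - w1 / D) * ((1 / 2 + t / D * (w1 / D)) * (m / D) - (1 - 2 * (w1 / D))) =
        (2 * D * (w1 * (D - w1) * (m' - m)) +
    (w2 - w1) * ((D * D + 2 * t * w1) * m - 2 * D * D * (D - 2 * w1))) / (2 * D ^ 4) := by
      field_simp
    rw [e]
    positivity
  · have e : (3 / 2 - 2 * (w1 / D) + t / D * (w1 / D) : ℝ) * (m' / D - m / D) +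
          (w2 / D - w1 / D) * (t / D * (m / D) + 2) =
          ((3 * D * D - 4 * D * w1 + 2 * t * w1) * (m' - m) +
    2 * (w2 - w1) * (t * m + 2 * D * D)) / (2 * D ^ 3) := by
      field_simp
      ring
    rw [e]
    positivity

lemma ckNL_sound {D t w1 w2 m m' : ℤ} (hD : 0 < D) (h : ckNL D t w1 w2 m m' = true) :
    NStL (t / D : ℝ) (w1 / D) (w2 / D) (m / D) (m' / D) := by
  have hD' : (0:ℝ) < D := by exact_mod_cast hD
  simp only [ckNL, Bool.and_eq_true, decide_eq_true_eq] at h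
  obtain ⟨h1, h2⟩ := h
  have h1' : 2 * (D:ℝ) * (w1 * (D - w1) * (m' - m)) +
    (w2 - w1) * ((D * D + 2 * t * w1) * m - 2 * D * D * (D - 2 * w1)) ≤ 0 := by exact_mod_cast h1
  have h2' : 2 * (D:ℝ) * (w2 * (D - w2) * (m' - m)) +
    (w2 - w1) * ((D * D + 2 * t * w2) * m' - 2 * D * D * (D - 2 * w2)) ≤ 0 := by exact_mod_cast h2
  constructor
  · have e : (w1 / D : ℝ) * (1 - w1 / D) * (m' / D - m / D) +
        (w2 / D - w1 / D) * ((1 / 2 + t / D * (w1 / D)) * (m / D) - (1 - 2 * (w1 / D))) =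
        (2 * D * (w1 * (D - w1) * (m' - m)) +
    (w2 - w1) * ((D * D + 2 * t * w1) * m - 2 * D * D * (D - 2 * w1))) / (2 * D ^ 4) := by
      field_simp
    rw [e]
    exact div_nonpos_of_nonpos_of_nonneg h1' (by positivity)
  · have e : (w2 / D : ℝ) * (1 - w2 / D) * (m' / D - m / D) +
        (w2 / D - w1 / D) * ((1 / 2 + t / D * (w2 / D)) * (m' / D) - (1 - 2 * (w2 / D))) =
        (2 * D * (w2 * (D - w2) * (m' - m)) +
    (w2 - w1) * ((D * D + 2 * t * w2) * m' - 2 * D * D * (D - 2 * w2))) / (2 * D ^ 4) := by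
      field_simp
    rw [e]
    exact div_nonpos_of_nonpos_of_nonneg h2' (by positivity)

lemma ckNpU_sound {D t w1 w2 m m' : ℤ} (hD : 0 < D) (h : ckNpU D t w1 w2 m m' = true) :
    NSpU (t / D : ℝ) (w1 / D) (w2 / D) (m / D) (m' / D) := by
  have hD' : (0:ℝ) < D := by exact_mod_cast hD
  simp only [ckNpU, Bool.and_eq_true, decide_eq_true_eq] at h
  obtain ⟨h1, h2⟩ := h
  have h1' : (0:ℝ) ≤ D * ((D - w1) * (m' - m)) + (w2 - w1) * (D * D + t * m) := by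
    exact_mod_cast h1
  have h2' : (0:ℝ) ≤ D * ((D - w2) * (m' - m)) + (w2 - w1) * (D * D + t * m') := by
    exact_mod_cast h2
  constructor
  · have e : (1 - w1 / D : ℝ) * (m' / D - m / D) + (w2 / D - w1 / D) * (1 + t / D * (m / D)) =
        (D * ((D - w1) * (m' - m)) + (w2 - w1) * (D * D + t * m)) / D ^ 3 := by
      field_simp
    rw [e]
    positivity
  · have e : (1 - w2 / D : ℝ) * (m' / D - m / D) + (w2 / D - w1 / D) * (1 + t / D * (m' / D)) =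
        (D * ((D - w2) * (m' - m)) + (w2 - w1) * (D * D + t * m')) / D ^ 3 := by
      field_simp
    rw [e]
    positivity

lemma ckNpL_sound {D t w1 w2 m m' : ℤ} (hD : 0 < D) (h : ckNpL D t w1 w2 m m' = true) :
    NSpL (t / D : ℝ) (w1 / D) (w2 / D) (m / D) (m' / D) := by
  have hD' : (0:ℝ) < D := by exact_mod_cast hD
  simp only [ckNpL, Bool.and_eq_true, decide_eq_true_eq] at h
  obtain ⟨h1, h2⟩ := h
  have h1' : (D:ℝ) * ((D - w1) * (m' - m)) + (w2 - w1) * (D * D + t * m) ≤ 0 := by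
    exact_mod_cast h1
  have h2' : (D:ℝ) * ((D - w2) * (m' - m)) + (w2 - w1) * (D * D + t * m') ≤ 0 := by
    exact_mod_cast h2
  constructor
  · have e : (1 - w1 / D : ℝ) * (m' / D - m / D) + (w2 / D - w1 / D) * (1 + t / D * (m / D)) =
        (D * ((D - w1) * (m' - m)) + (w2 - w1) * (D * D + t * m)) / D ^ 3 := by
      field_simp
    rw [e]
    exact div_nonpos_of_nonpos_of_nonneg h1' (by positivity)
  · have e : (1 - w2 / D : ℝ) * (m' / D - m / D) + (w2 / D - w1 / D) * (1 + t / D * (m' / D)) =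
        (D * ((D - w2) * (m' - m)) + (w2 - w1) * (D * D + t * m')) / D ^ 3 := by
      field_simp
    rw [e]
    exact div_nonpos_of_nonpos_of_nonneg h2' (by positivity)

lemma nendG_lo2 {β ta m : ℝ} (hβ : 1 < β) (ha : 1 + ta ≤ β)
    {w1 : ℝ} (h0 : 0 ≤ w1) (hm : m ≤ 0) (h1 : (1 + 2 * ta) * m ≤ -2) (h2 : -2 ≤ (β - 1) * m)
    (hg : m ≤ gam β w1) : ∀ w ∈ Ico w1 1, m ≤ gam β w := by
  intro w hw
  have hθ : 0 < β - 1 := by linarith
  have h := gW_lower hβ (m := 2 + (β - 1) * m) (k := 0) (w2 := w) h0 hw.2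
    (fun v hv => by
      have hv1 : v < 1 := hv.2.trans_lt hw.2
      have e : v * (1 - v) * 0 + (1 / 2 + (β - 1) * v) *
          (2 + (β - 1) * m + 0 * (v - w1)) - β =
          (β - 1) * (((1 / 2 + (β - 1)) * m + 1) - (1 - v) * ((β - 1) * m + 2)) := by
        ring
      rw [e]
      apply mul_nonpos_of_nonneg_of_nonpos hθ.le
      have a1 : 0 ≤ (1 - v) * ((β - 1) * m + 2) := mul_nonneg (by linarith) (by linarith)
      have a2 : (β - 1) * m ≤ ta * m := mul_le_mul_of_nonpos_right (by linarith) hm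
      linarith) (by
      rw [gW_gam hβ]
      have := mul_le_mul_of_nonneg_left hg hθ.le
      linarith) w ⟨hw.1, le_rfl⟩
  rw [gW_gam hβ] at h
  have h4 : (β - 1) * m ≤ (β - 1) * gam β w := by linarith
  exact le_of_mul_le_mul_left h4 hθ

lemma dl_end {D ta tb e dd w gh pl T X G Q : ℝ} (hD' : 0 < D) (hta' : 0 ≤ ta) (f1' : 0 ≤ w)
    (f3' : D ≤ 2 * w) (f7' : gh ≤ 0) (f11' : pl ≤ -D) (e0 : e ≤ 0)
    (f13' : -2 * e * D ^ 3 + 8 * (D - w) * (-pl) * D ^ 2 - ta * w * gh ^ 2 ≤ dd * D ^ 3)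
    (T0 : 0 < T) (T1 : ta ≤ T) (T2 : T ≤ tb) (X1' : w ≤ X) (X2' : X ≤ D) (G1' : e ≤ G)
    (G2' : G ≤ gh) (Q0 : Q ≤ 0) (YQ : (D - X) * (-Q) ≤ (D - w) * (-pl)) (TQ : T * (-Q) ≤ D ^ 2) :
    dl D T X G Q ≤ dd * D ^ 3 ∧
    2 * (-gh) * (2 * w - D) * D ^ 2 - 4 * D ^ 2 * ((D - w) * (-pl)) -
      tb * D * e ^ 2 ≤ dl D T X G Q := by
  have G0 : G ≤ 0 := by linarith
  have YQ0 : 0 ≤ (D - X) * (-Q) := mul_nonneg (by linarith) (by linarith)
  have hD2 : (0:ℝ) ≤ (D:ℝ) ^ 2 := by positivity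
  have u1 : G * (D - 2 * X) ≤ (-e) * D := by
    have e1 : G * (D - 2 * X) = (-G) * (2 * X - D) := by ring
    rw [e1]
    exact mul_le_mul (by linarith) (by linarith) (by linarith) (by linarith)
  have u2 : (-gh : ℝ) * (2 * w - D) ≤ G * (D - 2 * X) := by
    have e1 : G * (D - 2 * X) = (-G) * (2 * X - D) := by ring
    rw [e1]
    exact mul_le_mul (by linarith) (by linarith) (by linarith) (by linarith)
  have u3 : (ta:ℝ) * w * gh ^ 2 ≤ T * (4 * (D - X) * Q ^ 2 + X * G ^ 2) := by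
    have s1 : (gh:ℝ) ^ 2 ≤ G ^ 2 := by
      rw [← neg_sq, ← neg_sq G]
      exact pow_le_pow_left₀ (by linarith) (by linarith) 2
    have s2 : (w:ℝ) * gh ^ 2 ≤ X * G ^ 2 := mul_le_mul X1' s1 (sq_nonneg _) (by linarith)
    have s3 : 0 ≤ 4 * (D - X) * Q ^ 2 := mul_nonneg (by linarith) (sq_nonneg _)
    have s4 : 0 ≤ (w:ℝ) * gh ^ 2 := mul_nonneg f1' (sq_nonneg _)
    have := mul_le_mul T1 (by linarith : (w:ℝ) * gh ^ 2 ≤ 4 * (D - X) * Q ^ 2 + X * G ^ 2) s4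
      T0.le
    linarith
  have u4 : T * (4 * (D - X) * Q ^ 2 + X * G ^ 2) ≤ 4 * D ^ 2 * ((D - w) * (-pl)) +
      tb * D * e ^ 2 := by
    have s1 : G ^ 2 ≤ (e:ℝ) ^ 2 := by
      rw [← neg_sq, ← neg_sq (e:ℝ)]
      exact pow_le_pow_left₀ (by linarith) (by linarith) 2
    have s2 : X * G ^ 2 ≤ (D:ℝ) * e ^ 2 := mul_le_mul X2' s1 (sq_nonneg _) hD'.le
    have s3 : T * (X * G ^ 2) ≤ tb * ((D:ℝ) * e ^ 2) :=
      mul_le_mul T2 s2 (mul_nonneg (by linarith) (sq_nonneg _)) (by linarith)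
    have s4 : (T * (-Q)) * ((D - X) * (-Q)) ≤ D ^ 2 * ((D - w) * (-pl)) :=
      mul_le_mul TQ YQ YQ0 hD2
    have e1 : T * (4 * (D - X) * Q ^ 2 + X * G ^ 2) =
        4 * ((T * (-Q)) * ((D - X) * (-Q))) + T * (X * G ^ 2) := by ring
    rw [e1]
    linarith
  have m1 := mul_le_mul_of_nonneg_right u1 hD2
  have m2 := mul_le_mul_of_nonneg_right u2 hD2
  have m3 := mul_le_mul_of_nonneg_right YQ hD2
  have m4 := mul_nonneg YQ0 hD2
  constructor
  · rw [dl]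
    linarith
  · rw [dl]
    linarith

/-- the last piece -/
def ckEnd (D ta tb kp e dd q w gl gh pl ph : ℤ) : Bool :=
  decide (0 ≤ w) && decide (w < D) && decide (D ≤ 2 * w) && decide (e ≤ gl) &&
  decide ((D + 2 * ta) * e ≤ -2 * D ^ 2) && decide (-2 * D ^ 2 ≤ tb * e) && decide (gh ≤ 0) &&
  decide (0 ≤ tb * gh + 2 * D ^ 2) &&
  decide (0 ≤ (D * D + 2 * ta * w) * gh - 2 * D * D * (D - 2 * w)) &&
  decide (0 ≤ (D * D + 2 * tb * w) * gh - 2 * D * D * (D - 2 * w)) &&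
  decide (pl ≤ -D) && decide (ph ≤ 0) &&
  decide (-2 * e * D ^ 3 + 8 * (D - w) * (-pl) * D ^ 2 - ta * w * gh ^ 2 ≤ dd * D ^ 3) &&
  decide (0 ≤ 2 * (-gh) * (2 * w - D) * D ^ 2 - 4 * D ^ 2 * ((D - w) * (-pl)) - tb * D * e ^ 2) &&
  decide (0 ≤ q) &&
  decide (q * D ^ 4 ≤
    w * (2 * (-gh) * (2 * w - D) * D ^ 2 - 4 * D ^ 2 * ((D - w) * (-pl)) - tb * D * e ^ 2)) &&
  ckH1 D ta tb (D + kp) dd ph && ckH2 D ta tb kp q 0 &&
  decide (2 * D ^ 2 + 2 * (D + ta) * ph < e * D) && decide (0 < 2 * D ^ 2 + tb * e) &&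
  decide (2 * D ^ 5 < w * (2 * D ^ 2 + tb * e) ^ 2)

lemma ckEnd_sound {D ta tb kp e dd q w gl gh pl ph : ℤ} (hD : 0 < D) (hta : 0 ≤ ta)
    (hkp : 0 ≤ kp) (h : ckEnd D ta tb kp e dd q w gl gh pl ph = true)
    {β : ℝ} (hβ : 1 < β) (hβ2 : β ≤ 2) (ha : 1 + (ta / D : ℝ) ≤ β) (hb : β ≤ 1 + (tb / D : ℝ))
    (G1 : (gl / D : ℝ) ≤ gam β (w / D)) (G2 : gam β (w / D) ≤ (gh / D : ℝ))
    (Q1 : (pl / D : ℝ) ≤ pip β (w / D)) (Q2 : pip β (w / D) ≤ (ph / D : ℝ)) :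
    ∀ x ∈ Ico (w / D : ℝ) 1, NGood β (kp / D) x := by
  intro x hx
  have hD' : (0:ℝ) < D := by exact_mod_cast hD
  simp only [ckEnd, Bool.and_eq_true, decide_eq_true_eq] at h
  obtain ⟨⟨⟨⟨⟨⟨⟨⟨⟨⟨⟨⟨⟨⟨⟨⟨⟨⟨⟨⟨f1, f2⟩, f3⟩, f4⟩, f5⟩, f6⟩, f7⟩, f8⟩, f9⟩, f10⟩, f11⟩, f12⟩, f13⟩,
    f14⟩, f15⟩, f16⟩, f17⟩, f18⟩, f19⟩, f20⟩, f21⟩ := h
  have hta' : (0:ℝ) ≤ ta := by exact_mod_cast hta
  have f1' : (0:ℝ) ≤ w := by exact_mod_cast f1
  have f2' : (w:ℝ) < D := by exact_mod_cast f2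
  have f3' : (D:ℝ) ≤ 2 * w := by exact_mod_cast f3
  have f4' : (e:ℝ) ≤ gl := by exact_mod_cast f4
  have f5' : ((D:ℝ) + 2 * ta) * e ≤ -2 * D ^ 2 := by exact_mod_cast f5
  have f6' : -2 * (D:ℝ) ^ 2 ≤ tb * e := by exact_mod_cast f6
  have f7' : (gh:ℝ) ≤ 0 := by exact_mod_cast f7
  have f8' : (0:ℝ) ≤ tb * gh + 2 * D ^ 2 := by exact_mod_cast f8
  have f9' : (0:ℝ) ≤ (D * D + 2 * ta * w) * gh - 2 * D * D * (D - 2 * w) := by exact_mod_cast f9
  have f10' : (0:ℝ) ≤ (D * D + 2 * tb * w) * gh - 2 * D * D * (D - 2 * w) := by exact_mod_cast f10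
  have f11' : (pl:ℝ) ≤ -D := by exact_mod_cast f11
  have f12' : (ph:ℝ) ≤ 0 := by exact_mod_cast f12
  have f13' : -2 * (e:ℝ) * D ^ 3 + 8 * (D - w) * (-pl) * D ^ 2 - ta * w * gh ^ 2 ≤ dd * D ^ 3 := by
    exact_mod_cast f13
  have f14' : (0:ℝ) ≤ 2 * (-gh) * (2 * w - D) * D ^ 2 - 4 * D ^ 2 * ((D - w) * (-pl)) -
      tb * D * e ^ 2 := by exact_mod_cast f14
  have f16' : (q:ℝ) * D ^ 4 ≤
    w * (2 * (-gh) * (2 * w - D) * D ^ 2 - 4 * D ^ 2 * ((D - w) * (-pl)) - tb * D * e ^ 2) := by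
    exact_mod_cast f16
  have f19' : 2 * (D:ℝ) ^ 2 + 2 * (D + ta) * ph < e * D := by exact_mod_cast f19
  have f20' : (0:ℝ) < 2 * D ^ 2 + tb * e := by exact_mod_cast f20
  have f21' : 2 * (D:ℝ) ^ 5 < w * (2 * D ^ 2 + tb * e) ^ 2 := by exact_mod_cast f21
  have hw0 : (0:ℝ) ≤ w / D := div_nonneg f1' hD'.le
  have hw1 : (w / D : ℝ) < 1 := by rw [div_lt_one hD']; exact f2'
  have hx0 : 0 ≤ x := hw0.trans hx.1
  have hθ : 0 < β - 1 := by linarith
  have htaθ : (ta / D : ℝ) ≤ β - 1 := by linarith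
  have hθtb : β - 1 ≤ (tb / D : ℝ) := by linarith
  have e0 : (e:ℝ) ≤ 0 := by
    by_contra hcon
    push Not at hcon
    have h1 : 0 < ((D:ℝ) + 2 * ta) * e := mul_pos (by linarith) hcon
    have h2 : 0 < (D:ℝ) ^ 2 := by positivity
    linarith
  have eD0 : (e / D : ℝ) ≤ 0 := div_nonpos_of_nonpos_of_nonneg e0 hD'.le
  have hte : -2 ≤ (tb / D : ℝ) * (e / D) := by
    rw [← sub_nonneg]
    have e1 : (tb / D : ℝ) * (e / D) - (-2) = (tb * e - (-2 * D ^ 2)) / D ^ 2 := by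
      field_simp
    rw [e1]; exact div_nonneg (by linarith) (by positivity)
  have hγ1 : (e / D : ℝ) ≤ gam β x := by
    apply nendG_lo2 (ta := (ta / D : ℝ)) hβ ha hw0 eD0 _ _ _ x hx
    · rw [← sub_nonneg]
      have e1 : -2 - (1 + 2 * (ta / D : ℝ)) * (e / D) =
          (-2 * D ^ 2 - (D + 2 * ta) * e) / D ^ 2 := by
        field_simp
      rw [e1]; exact div_nonneg (by linarith) (by positivity)
    · have := mul_le_mul_of_nonpos_right hθtb eD0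
      linarith
    · refine le_trans ?_ G1
      exact div_le_div_of_nonneg_right f4' hD'.le
  have htg : 0 ≤ (tb / D : ℝ) * (gh / D) + 2 := by
    have e1 : (tb / D : ℝ) * (gh / D) + 2 = (tb * gh + 2 * D ^ 2) / D ^ 2 := by field_simp
    rw [e1]; exact div_nonneg (by linarith) (by positivity)
  have ghD0 : (gh / D : ℝ) ≤ 0 := div_nonpos_of_nonpos_of_nonneg f7' hD'.le
  have hγ2 : gam β x ≤ (gh / D : ℝ) := by
    apply nendG_up hβ ha hb (div_nonneg hta' hD'.le) hw0 htg _ _ _ G2 x hx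
    · have : (tb / D : ℝ) * (gh / D) ≤ (ta / D) * (gh / D) :=
        mul_le_mul_of_nonpos_right (by linarith) ghD0
      linarith
    · have e1 : (1 / 2 + (ta / D : ℝ) * (w / D)) * (gh / D) - (1 - 2 * (w / D)) =
        ((D * D + 2 * ta * w) * gh - 2 * D * D * (D - 2 * w)) / (2 * D ^ 3) := by
        field_simp
      rw [e1]; exact div_nonneg (by linarith) (by positivity)
    · have e1 : (1 / 2 + (tb / D : ℝ) * (w / D)) * (gh / D) - (1 - 2 * (w / D)) =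
        ((D * D + 2 * tb * w) * gh - 2 * D * D * (D - 2 * w)) / (2 * D ^ 3) := by
        field_simp
      rw [e1]; exact div_nonneg (by linarith) (by positivity)
  have hPw := PW_pos hβ hw0 hw1
  rw [PW_pip hβ] at hPw
  have hπ2 : pip β x ≤ (ph / D : ℝ) := by
    apply nendP_up hβ hw0 Q2 _ x hx
    have := mul_le_mul_of_nonneg_left Q2 hθ.le
    linarith
  have hπ1 := nendP_lo (m := (pl / D : ℝ)) hβ hβ2 hw0 (by
    rw [div_le_iff₀ hD']; linarith) Q1 x hx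
  have hPp := PW_pos hβ hx0 hx.2
  have hZp := ZW_pos hβ hx0 hx.2
  have hcp := cW_pos hβ hx0 hx.2
  have hgp := gW_pos hβ hx0 hx.2
  have hDp : 0 < 1 + (β - 1) * pip β x := by
    have := hPp
    rw [PW_pip hβ] at this
    linarith
  have phD0 : (ph / D : ℝ) ≤ 0 := div_nonpos_of_nonpos_of_nonneg f12' hD'.le
  have hπ0 : pip β x ≤ 0 := hπ2.trans phD0
  -- scaled variables
  set T : ℝ := D * (β - 1) with hT
  set X : ℝ := D * x with hX
  set G : ℝ := D * gam β x with hG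
  set Q : ℝ := D * pip β x with hQ
  have T1 : (ta:ℝ) ≤ T := by
    rw [div_le_iff₀ hD'] at htaθ; rw [hT]; linarith
  have T2 : T ≤ tb := by
    rw [le_div_iff₀ hD'] at hθtb; rw [hT]; linarith
  have T0 : 0 < T := by rw [hT]; positivity
  have X1' : (w:ℝ) ≤ X := by
    have := hx.1
    rw [div_le_iff₀ hD'] at this; rw [hX]; linarith
  have X2' : X ≤ D := by rw [hX]; nlinarith [hx.2]
  have G1' : (e:ℝ) ≤ G := by rw [div_le_iff₀ hD'] at hγ1; rw [hG]; linarith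
  have G2' : G ≤ gh := by rw [le_div_iff₀ hD'] at hγ2; rw [hG]; linarith
  have Q2' : Q ≤ ph := by rw [le_div_iff₀ hD'] at hπ2; rw [hQ]; linarith
  have Q0 : Q ≤ 0 := by linarith
  have G0 : G ≤ 0 := by linarith
  have YQ : (D - X) * (-Q) ≤ (D - w) * (-pl) := by
    have e1 : (D - X) * (-Q) = -(D ^ 2 * ((1 - x) * pip β x)) := by rw [hX, hQ]; ring
    have e2 : ((D:ℝ) - w) * (-pl) = -(D ^ 2 * ((1 - w / D) * (pl / D))) := by field_simp
    rw [e1, e2]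
    have := mul_le_mul_of_nonneg_left hπ1 (by positivity : (0:ℝ) ≤ (D:ℝ) ^ 2)
    linarith
  have TQ : T * (-Q) ≤ D ^ 2 := by
    have e1 : T * (-Q) = -(D ^ 2 * ((β - 1) * pip β x)) := by rw [hT, hQ]; ring
    rw [e1]
    have := mul_pos (by positivity : (0:ℝ) < (D:ℝ) ^ 2) hDp
    linarith
  have hNd := NW_dl (D := (D:ℝ)) (x := x) hβ
  rw [← hT, ← hX, ← hG, ← hQ] at hNd
  have hD2 : (0:ℝ) ≤ (D:ℝ) ^ 2 := by positivity
  obtain ⟨dlu, dll⟩ := dl_end hD' hta' f1' f3' f7' f11' e0 f13' T0 T1 T2 X1' X2' G1' G2' Q0 YQ TQ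
  have dd0 : (0:ℝ) ≤ dd := by
    have : 0 ≤ dl D T X G Q := by linarith
    have h1 : 0 ≤ (dd:ℝ) * D ^ 3 := by linarith
    exact nonneg_of_mul_nonneg_left h1 (by positivity)
  have Xd1 : X * dl D T X G Q ≤ dd * D ^ 4 := by
    have : X * dl D T X G Q ≤ D * (dd * D ^ 3) :=
      mul_le_mul X2' dlu (by linarith) hD'.le
    linarith
  have Xd2 : (q:ℝ) * D ^ 4 ≤ X * dl D T X G Q := by
    have := mul_le_mul X1' dll f14' (by linarith : 0 ≤ X)
    linarith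
  have N1 : 1 - (β - 1) * (dd / D) ≤ NW β x := by
    have h1 := mul_le_mul_of_nonneg_left Xd1 T0.le
    have h2 : D ^ 6 * (1 - (β - 1) * (dd / D)) ≤ D ^ 6 * NW β x := by
      have e : (D:ℝ) ^ 6 * (1 - (β - 1) * (dd / D)) = D ^ 6 - T * (dd * D ^ 4) := by
        rw [hT]; field_simp
      rw [e]; linarith
    exact le_of_mul_le_mul_left h2 (by positivity)
  have N2 : NW β x ≤ 1 - (β - 1) * (q / D) := by
    have h1 := mul_le_mul_of_nonneg_left Xd2 T0.le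
    have h2 : D ^ 6 * NW β x ≤ D ^ 6 * (1 - (β - 1) * (q / D)) := by
      have e : (D:ℝ) ^ 6 * (1 - (β - 1) * (q / D)) = D ^ 6 - T * (q * D ^ 4) := by
        rw [hT]; field_simp
      rw [e]; linarith
    exact le_of_mul_le_mul_left h2 (by positivity)
  have hc1 : 1 ≤ cW β x := by
    have hcZ : (cW β x - 1) * ZW β x = (2 * β - 1) * PW β x := by
      rw [cW]; field_simp; ring
    have : 0 ≤ (cW β x - 1) * ZW β x := by
      rw [hcZ]; exact mul_nonneg (by linarith) hPp.le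
    have := nonneg_of_mul_nonneg_left this hZp
    linarith
  refine ⟨?_, ?_, ?_, ?_⟩
  · apply hA_of hβ (div_nonneg (by exact_mod_cast hkp) hD'.le)
      (la := (((D + kp : ℤ) : ℝ) / D)) (by push_cast; field_simp) hx0 hx.2
    exact ckH1_sound hD hta (by linarith) f17 hθ htaθ hθtb N1 hπ2 hDp
  · have := ckH2_sound hD hta hkp f15 (le_refl 0) f18 hθ htaθ hθtb N2
      (c := cW β x) (by push_cast; rw [zero_div]; linarith)
    have e : 1 + (β - 1) = β := by ring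
    rwa [e] at this
  · have c1 : β * PW β x < gW β x := by
      rw [PW_pip hβ, gW_gam hβ]
      have c2 : β * pip β x ≤ (1 + ta / D) * (ph / D) := by
        have k1 : β * pip β x ≤ β * (ph / D : ℝ) := mul_le_mul_of_nonneg_left hπ2 (by linarith)
        have k2 : β * (ph / D : ℝ) ≤ (1 + ta / D) * (ph / D) :=
          mul_le_mul_of_nonpos_right ha phD0
        linarith
      have c3 : 2 * (1 + (1 + ta / D) * (ph / D : ℝ)) < e / D := by
        rw [← sub_pos]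
        have e1 : (e / D : ℝ) - 2 * (1 + (1 + ta / D) * (ph / D)) =
            (e * D - (2 * D ^ 2 + 2 * (D + ta) * ph)) / D ^ 2 := by
          field_simp
        rw [e1]; exact div_pos (by linarith) (by positivity)
      have c4 : 2 * (1 + β * pip β x) < gam β x := by linarith
      have c5 := mul_lt_mul_of_pos_left c4 hθ
      have e2 : β * (2 * (1 + (β - 1) * pip β x)) =
          2 + (β - 1) * (2 * (1 + β * pip β x)) := by ring
      rw [e2]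
      linarith
    have c6 : gW β x ≤ cW β x * gW β x := by
      have := mul_le_mul_of_nonneg_right hc1 hgp.le
      linarith
    linarith
  · have c1 : PW β x ≤ 2 := by
      rw [PW_pip hβ]
      have := mul_nonpos_of_nonneg_of_nonpos hθ.le hπ0
      linarith
    have eg : (D:ℝ) ^ 2 * gW β x = 2 * D ^ 2 + T * G := by rw [gW_gam hβ, hT, hG]; ring
    have g1 : 2 * (D:ℝ) ^ 2 + tb * e ≤ D ^ 2 * gW β x := by
      rw [eg]
      have k1 : T * (e:ℝ) ≤ T * G := mul_le_mul_of_nonneg_left G1' T0.le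
      have k2 : (tb:ℝ) * e ≤ T * e := mul_le_mul_of_nonpos_right T2 e0
      linarith
    have g2 : (2 * (D:ℝ) ^ 2 + tb * e) ^ 2 ≤ (D ^ 2 * gW β x) ^ 2 :=
      pow_le_pow_left₀ f20'.le g1 2
    have z1 : (w:ℝ) * (2 * (D:ℝ) ^ 2 + tb * e) ^ 2 ≤ X * (D ^ 2 * gW β x) ^ 2 :=
      mul_le_mul X1' g2 (sq_nonneg _) (by linarith)
    have z2 : X * (D ^ 2 * gW β x) ^ 2 ≤ D ^ 5 * ZW β x := by
      have e1 : D ^ 5 * ZW β x = D ^ 5 * ((1 - x) * PW β x ^ 2) + X * (D ^ 2 * gW β x) ^ 2 := by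
        rw [ZW, hX]; ring
      have : 0 ≤ (1 - x) * PW β x ^ 2 := mul_nonneg (by linarith [hx.2]) (sq_nonneg _)
      have := mul_nonneg (by positivity : (0:ℝ) ≤ (D:ℝ) ^ 5) this
      linarith
    have z3 : (D:ℝ) ^ 5 * 2 < D ^ 5 * ZW β x := by linarith
    have z4 := lt_of_mul_lt_mul_left z3 (by positivity)
    linarith

end Pool.Agent.TH242.AC
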