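import Mathlib
import Pool.Agent.TH242.AC.NChk4

open Set

namespace Pool.Agent.TH242.AC

/-- the certificate check -/
def nchk (D ta tb kp e dd q : ℤ) : ℤ → ℤ → ℤ → ℤ → ℤ → List NRow → Bool
  | w, gl, gh, pl, ph, [] => ckEnd D ta tb kp e dd q w gl gh pl ph
  | w, gl, gh, pl, ph, r :: rs =>
    ckNB D ta tb kp w r.w r.gl gh r.pl ph r.dd r.q r.y &&
    decide (r.w < D) && decide (r.gl ≤ gl) && decide (r.gh ≤ gh) && decide (r.pl ≤ pl) &&
    decide (r.ph ≤ ph) &&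
    ckNU D ta w r.w gh r.gh && ckNU D tb w r.w gh r.gh &&
    ckNL D ta w r.w gl r.gl && ckNL D tb w r.w gl r.gl &&
    ckNpU D ta w r.w ph r.ph && ckNpU D tb w r.w ph r.ph &&
    ckNpL D ta w r.w pl r.pl && ckNpL D tb w r.w pl r.pl &&
    nchk D ta tb kp e dd q r.w r.gl r.gh r.pl r.ph rs

theorem nchk_sound {D ta tb kp e dd q : ℤ} (hD : 0 < D) (hta : 0 ≤ ta) (htb : tb ≤ D)
    (hkp : 0 ≤ kp) {β : ℝ} (hβ : 1 < β) (hβ2 : β ≤ 2)
    (ha : 1 + (ta / D : ℝ) ≤ β) (hb : β ≤ 1 + (tb / D : ℝ)) :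
    ∀ (rs : List NRow) (w gl gh pl ph : ℤ), nchk D ta tb kp e dd q w gl gh pl ph rs = true →
      (gl / D : ℝ) ≤ gam β (w / D) → gam β (w / D) ≤ (gh / D : ℝ) →
      (pl / D : ℝ) ≤ pip β (w / D) → pip β (w / D) ≤ (ph / D : ℝ) →
      ∀ u ∈ Ico (w / D : ℝ) 1, NGood β (kp / D) u := by
  have hD' : (0:ℝ) < D := by exact_mod_cast hD
  have htb1 : (tb / D : ℝ) ≤ 1 := by
    rw [div_le_one hD']; exact_mod_cast htb
  intro rs
  induction rs with
  | nil =>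
    intro w gl gh pl ph h hgl hgh hpl hph
    exact ckEnd_sound hD hta hkp h hβ hβ2 ha hb hgl hgh hpl hph
  | cons r rs ih =>
    intro w gl gh pl ph h hgl hgh hpl hph u hu
    simp only [nchk, Bool.and_eq_true, decide_eq_true_eq] at h
    obtain ⟨⟨⟨⟨⟨⟨⟨⟨⟨⟨⟨⟨⟨⟨hbox, hrw⟩, hrgl⟩, hrgh⟩, hrpl⟩, hrph⟩, hU1⟩, hU2⟩, hL1⟩, hL2⟩, hP1⟩,
      hP2⟩, hP3⟩, hP4⟩, hrec⟩ := h
    obtain ⟨m1, m2, m3⟩ := ckNB_misc hbox
    have w0 : (0:ℝ) ≤ w / D := div_nonneg (by exact_mod_cast m1) hD'.le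
    have w12 : (w / D : ℝ) < r.w / D := div_lt_div_of_pos_right (by exact_mod_cast m2) hD'
    have w2D : (r.w / D : ℝ) < 1 := by rw [div_lt_one hD']; exact_mod_cast hrw
    have dle : ∀ a b : ℤ, a ≤ b → (a / D : ℝ) ≤ b / D := fun a b hab =>
      div_le_div_of_nonneg_right (by exact_mod_cast hab) hD'.le
    have s1 := nstepG_up hβ ha hb htb1 w0 w12 w2D (dle _ _ hrgh) (ckNU_sound hD hU1)
      (ckNU_sound hD hU2) hgh
    have s2 := nstepG_lo hβ ha hb htb1 w0 w12 w2D (dle _ _ hrgl) (ckNL_sound hD hL1)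
      (ckNL_sound hD hL2) hgl
    have s3 := nstepP_up hβ ha hb w0 w12 w2D (dle _ _ hrph) (ckNpU_sound hD hP1)
      (ckNpU_sound hD hP2) hph
    have s4 := nstepP_lo hβ ha hb w0 w12 w2D (dle _ _ hrpl) (ckNpL_sound hD hP3)
      (ckNpL_sound hD hP4) hpl
    rcases lt_or_ge u (r.w / D : ℝ) with h1 | h1
    · have hv : u ∈ Icc (w / D : ℝ) (r.w / D) := ⟨hu.1, h1.le⟩
      exact ckNB_sound hD hta hkp hbox hβ ha hb hu.1 h1.le hu.2 (s2.1 u hv) (s1.1 u hv)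
        (s4.1 u hv) (s3.1 u hv)
    · exact ih r.w r.gl r.gh r.pl r.ph hrec s2.2 s1.2 s4.2 s3.2 u ⟨h1, hu.2⟩

lemma gam_zero {β : ℝ} (hβ : 1 < β) : gam β 0 = 2 := by
  have : β - 1 ≠ 0 := by linarith
  rw [gam, gW_zero]; field_simp

/-- a full certificate for an interval of parameters near one -/
def ncert (D ta tb kp e dd q pl ph S : ℤ) (zu zl : List ℤ) (rs : List NRow) : Bool :=
  decide (0 < D) && decide (0 ≤ ta) && decide (tb ≤ D) && decide (0 ≤ kp) && decide (0 < S) &&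
  ckXU D ta tb S ph 0 0 zu && ckXL D ta tb S pl 0 0 zl &&
  nchk D ta tb kp e dd q 0 (2 * D) (2 * D) pl ph rs

theorem ncert_sound {D ta tb kp e dd q pl ph S : ℤ} {zu zl : List ℤ} {rs : List NRow}
    (h : ncert D ta tb kp e dd q pl ph S zu zl rs = true) {β : ℝ} (hβ : 1 < β)
    (ha : 1 + (ta / D : ℝ) ≤ β) (hb : β ≤ 1 + (tb / D : ℝ)) : Ok β := by
  simp only [ncert, Bool.and_eq_true, decide_eq_true_eq] at h
  obtain ⟨⟨⟨⟨⟨⟨⟨hD, hta⟩, htb⟩, hkp⟩, hS⟩, hXU⟩, hXL⟩, hchk⟩ := h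
  have hD' : (0:ℝ) < D := by exact_mod_cast hD
  have hβ2 : β ≤ 2 := by
    have : (tb / D : ℝ) ≤ 1 := by rw [div_le_one hD']; exact_mod_cast htb
    linarith
  have hgood := nchk_sound hD hta htb hkp hβ hβ2 ha hb rs _ _ _ _ _ hchk
    (by
      push_cast
      rw [zero_div, gam_zero hβ]
      have e1 : (2 * (D:ℝ)) / D = 2 := by field_simp
      rw [e1])
    (by
      push_cast
      rw [zero_div, gam_zero hβ]
      have e1 : (2 * (D:ℝ)) / D = 2 := by field_simp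
      rw [e1])
    (by
      push_cast
      rw [zero_div]
      exact ckXL_sound hD hta hS hβ hβ2 ha hb zl 0 0 le_rfl (by simp [xN]) (by exact_mod_cast hXL))
    (by
      push_cast
      rw [zero_div]
      exact ckXU_sound hD hta hS hβ hβ2 ha hb zu 0 0 (by simp [xN]) (by exact_mod_cast hXU))
  have hK : (0:ℝ) < (1 + (kp / D : ℝ) * (β - 1)) ^ 2 := by
    have : (0:ℝ) ≤ kp / D := div_nonneg (by exact_mod_cast hkp) hD'.le
    have h2 : 0 < β - 1 := by linarith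
    positivity
  have hg : ∀ w ∈ Ico (0:ℝ) 1, NGood β (kp / D) w := by
    intro w hw
    apply hgood w
    push_cast
    rw [zero_div]
    exact hw
  constructor
  · apply MR_of_AB (K2 := (1 + (kp / D : ℝ) * (β - 1)) ^ 2) hβ hK
    · intro w hw; exact (hg w hw).hA
    · intro w hw; left; exact (hg w hw).hB
    · intro w hw; exact (hg w hw).hC
  · apply XX_lt_of_W
    intro w hw
    have h1 := (hg w hw).hE
    rw [div_lt_one (ZW_pos hβ hw.1 hw.2)]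
    exact h1

end Pool.Agent.TH242.AC
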