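import Mathlib
import Pool.Agent.TH242.AC.Final
import Pool.Agent.TH242.AC.Data.D00
import Pool.Agent.TH242.AC.Data.D01
import Pool.Agent.TH242.AC.Data.D02
import Pool.Agent.TH242.AC.Data.D03
import Pool.Agent.TH242.AC.Data.D04
import Pool.Agent.TH242.AC.Data.D05
import Pool.Agent.TH242.AC.Data.D06
import Pool.Agent.TH242.AC.Data.D07
import Pool.Agent.TH242.AC.Data.D08
import Pool.Agent.TH242.AC.Data.D09
import Pool.Agent.TH242.AC.Data.D10
import Pool.Agent.TH242.AC.Data.D11
import Pool.Agent.TH242.AC.Data.D12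
import Pool.Agent.TH242.AC.Data.D13
import Pool.Agent.TH242.AC.Data.D14
import Pool.Agent.TH242.AC.Data.D15
import Pool.Agent.TH242.AC.Data.D16

namespace Pool.Agent.TH242.AC

/-- the geometric inequalities hold for all parameters in the range -/
theorem ok_range {β : ℝ} (hβ : 1 < β) (ha : (200000 + 1000000 : ℝ) / 1000000 ≤ β)
    (hb : β ≤ (4000000 + 1000000 : ℝ) / 1000000) : Ok β := by
  rcases le_total β ((430000 + 1000000 : ℝ) / 1000000) with h0 | h0
  · exact Data.D00.ok hβ ha h0
  rcases le_total β ((710000 + 1000000 : ℝ) / 1000000) with h1 | h1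
  · exact Data.D01.ok hβ h0 h1
  rcases le_total β ((960000 + 1000000 : ℝ) / 1000000) with h2 | h2
  · exact Data.D02.ok hβ h1 h2
  rcases le_total β ((1000000 + 1000000 : ℝ) / 1000000) with h3 | h3
  · exact Data.D03.ok hβ h2 h3
  rcases le_total β ((1360000 + 1000000 : ℝ) / 1000000) with h4 | h4
  · exact Data.D04.ok hβ h3 h4
  rcases le_total β ((1710000 + 1000000 : ℝ) / 1000000) with h5 | h5
  · exact Data.D05.ok hβ h4 h5
  rcases le_total β ((2000000 + 1000000 : ℝ) / 1000000) with h6 | h6
  · exact Data.D06.ok hβ h5 h6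
  rcases le_total β ((2300000 + 1000000 : ℝ) / 1000000) with h7 | h7
  · exact Data.D07.ok hβ h6 h7
  rcases le_total β ((2550000 + 1000000 : ℝ) / 1000000) with h8 | h8
  · exact Data.D08.ok hβ h7 h8
  rcases le_total β ((2820000 + 1000000 : ℝ) / 1000000) with h9 | h9
  · exact Data.D09.ok hβ h8 h9
  rcases le_total β ((3000000 + 1000000 : ℝ) / 1000000) with h10 | h10
  · exact Data.D10.ok hβ h9 h10
  rcases le_total β ((3240000 + 1000000 : ℝ) / 1000000) with h11 | h11
  · exact Data.D11.ok hβ h10 h11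
  rcases le_total β ((3420000 + 1000000 : ℝ) / 1000000) with h12 | h12
  · exact Data.D12.ok hβ h11 h12
  rcases le_total β ((3600000 + 1000000 : ℝ) / 1000000) with h13 | h13
  · exact Data.D13.ok hβ h12 h13
  rcases le_total β ((3780000 + 1000000 : ℝ) / 1000000) with h14 | h14
  · exact Data.D14.ok hβ h13 h14
  rcases le_total β ((3960000 + 1000000 : ℝ) / 1000000) with h15 | h15
  · exact Data.D15.ok hβ h14 h15
  exact Data.D16.ok hβ h15 hb

end Pool.Agent.TH242.AC
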