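import Mathlib
import Pool.Agent.TH242.AC.Range
import Pool.Agent.TH242.AC.Data.E00
import Pool.Agent.TH242.AC.Data.E01

namespace Pool.Agent.TH242.AC

/-- the geometric inequalities hold for all parameters in the extended range -/
theorem ok_range2 {β : ℝ} (hβ : 1 < β) (hb : β ≤ 5) : Ok β := by
  rcases le_total β ((100000 + 1000000 : ℝ) / 1000000) with h0 | h0
  · exact Data.E00.ok hβ h0
  rcases le_total β ((200000 + 1000000 : ℝ) / 1000000) with h1 | h1
  · exact Data.E01.ok hβ h0 h1
  exact ok_range hβ h1 (by linarith)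

end Pool.Agent.TH242.AC
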