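import Mathlib
import Pool.Agent.TH242.AC.Range2

open Set Pool.Agent.TH242.AC

/-- Sharp coefficient bounds, with equality attained, for all alpha-convex classes with
`1/5 ≤ α < 1` and all coefficients. -/
theorem Pool.Agent.Results.MP_1f2de8_an.SharpCoeffs.result (α : ℝ) (h1 : 1 / 5 ≤ α) (h2 : α < 1)
    (n : ℕ) :
    IsGreatest {x : ℝ | ∃ f : ℂ → ℂ, IsAlphaConvex α f ∧ x = ‖tc f (n + 1)‖}
      (rco (pco α) 1 n) := by
  have hα : 0 < α := by linarith
  have hβ : 1 < 1 / α := by rw [lt_div_iff₀ hα]; linarith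
  have hb : 1 / α ≤ 5 := by
    rw [div_le_iff₀ hα]; linarith
  have h := ok_range2 hβ hb
  have h3 := isGreatest hβ h.1 h.2 n
  rw [one_div_one_div] at h3
  exact h3
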